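import Mathlib

open MeasureTheory Set Filter Complex
open scoped Real Topology

namespace Pool.Agent.Lib.MP_1ce311_an

/-- integrability of `t^(a-1) exp(-x t)` -/
lemma intble_rpow_exp {a x : ℝ} (ha : 0 < a) (hx : 0 < x) :
    IntegrableOn (fun t : ℝ => t ^ (a - 1) * Real.exp (-(x * t))) (Ioi 0) := by
  have := Real.GammaIntegral_convergent ha
  have h2 := (integrableOn_Ioi_comp_mul_left_iff
    (fun t : ℝ => Real.exp (-t) * t ^ (a - 1)) 0 hx).2 (by simpa using this)
  have h3 : IntegrableOn (fun t : ℝ => (x ^ (a-1))⁻¹ * (Real.exp (-(x * t)) * (x * t) ^ (a - 1)))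
      (Ioi 0) := h2.const_mul _
  refine h3.congr_fun ?_ measurableSet_Ioi
  intro t ht
  have ht' : (0:ℝ) < t := ht
  simp only
  rw [Real.mul_rpow hx.le ht'.le]
  have : x ^ (a-1) ≠ 0 := (Real.rpow_pos_of_pos hx _).ne'
  field_simp

/-- complex Laplace transform of powers. -/
lemma laplace_rpow {a : ℝ} (ha : 0 < a) {z : ℂ} (hz : 0 < z.re) :
    ∫ t : ℝ in Ioi 0, (t ^ (a - 1) : ℝ) * cexp (-(z * t)) = Real.Gamma a * z ^ (-a : ℂ) := by
  -- identity theorem
  let L : ℂ → ℂ := fun z => ∫ t : ℝ in Ioi 0, (t ^ (a - 1) : ℝ) * cexp (-(z * t))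
  let R : ℂ → ℂ := fun z => Real.Gamma a * z ^ (-a : ℂ)
  let U : Set ℂ := {z : ℂ | 0 < z.re}
  have hU : IsOpen U := isOpen_lt continuous_const continuous_re
  have hUc : IsPreconnected U := (convex_halfSpace_re_gt 0).isPreconnected
  have hLd : DifferentiableOn ℂ L U := by
    intro z₀ hz₀
    have hz₀' : 0 < z₀.re := hz₀
    have hder := hasDerivAt_integral_of_dominated_loc_of_deriv_le
      (μ := volume.restrict (Ioi (0:ℝ)))
      (F := fun (z : ℂ) (t : ℝ) => ((t ^ (a - 1) : ℝ) : ℂ) * cexp (-(z * t)))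
      (F' := fun (z : ℂ) (t : ℝ) => ((t ^ (a - 1) : ℝ) : ℂ) * (cexp (-(z * t)) * (-t)))
      (x₀ := z₀) (s := Metric.ball z₀ (z₀.re / 2))
      (bound := fun t => t ^ ((a + 1) - 1) * Real.exp (-(z₀.re / 2 * t)))
      (Metric.ball_mem_nhds _ (by positivity)) ?_ ?_ ?_ ?_ ?_ ?_
    · exact hder.2.differentiableAt.differentiableWithinAt
    · refine Eventually.of_forall fun z => ?_
      refine AEStronglyMeasurable.mul ?_ ?_
      · refine (Measurable.complex_ofReal ?_).aestronglyMeasurable
        exact Measurable.pow_const measurable_id _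
      · exact (by fun_prop : Continuous fun t : ℝ => cexp (-(z * t))).aestronglyMeasurable
    · have h := intble_rpow_exp ha hz₀'
      refine Integrable.mono' h ?_ ?_
      · refine AEStronglyMeasurable.mul ?_ ?_
        · refine (Measurable.complex_ofReal ?_).aestronglyMeasurable
          exact Measurable.pow_const measurable_id _
        · exact (by fun_prop : Continuous fun t : ℝ => cexp (-(z₀ * t))).aestronglyMeasurable
      · refine (ae_restrict_iff' measurableSet_Ioi).2 (Eventually.of_forall fun t ht => ?_)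
        have ht' : (0:ℝ) < t := ht
        rw [norm_mul, norm_real, Complex.norm_exp, Real.norm_of_nonneg (by positivity)]
        apply le_of_eq
        congr 2
        simp
    · refine AEStronglyMeasurable.mul ?_ ?_
      · refine (Measurable.complex_ofReal ?_).aestronglyMeasurable
        exact Measurable.pow_const measurable_id _
      · exact (by fun_prop : Continuous fun t : ℝ =>
          cexp (-(z₀ * t)) * (-(t:ℂ))).aestronglyMeasurable
    · refine (ae_restrict_iff' measurableSet_Ioi).2 (Eventually.of_forall fun t ht z hz => ?_)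
      have ht' : (0:ℝ) < t := ht
      have hzre : z₀.re / 2 ≤ z.re := by
        have h1 : |(z - z₀).re| ≤ ‖z - z₀‖ := abs_re_le_norm _
        have h2 : ‖z - z₀‖ < z₀.re / 2 := by simpa [dist_eq_norm] using hz
        have h3 := (abs_le.1 h1).1
        rw [sub_re] at h3
        linarith
      rw [norm_mul, norm_mul, norm_real, Complex.norm_exp, norm_neg, norm_real,
        Real.norm_of_nonneg (by positivity), Real.norm_of_nonneg ht'.le]
      have h4 : (-(z * (t:ℂ))).re = -(z.re * t) := by simp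
      rw [h4, show (a + 1) - 1 = (a - 1) + 1 by ring, Real.rpow_add ht', Real.rpow_one]
      have h5 : Real.exp (-(z.re * t)) ≤ Real.exp (-(z₀.re / 2 * t)) := by
        apply Real.exp_le_exp.2
        nlinarith
      calc t ^ (a-1) * (Real.exp (-(z.re * t)) * t)
          = t ^ (a-1) * t * Real.exp (-(z.re * t)) := by ring
        _ ≤ t ^ (a-1) * t * Real.exp (-(z₀.re / 2 * t)) := by gcongr
    · exact intble_rpow_exp (by linarith) (by positivity)
    · refine Eventually.of_forall fun t z _ => ?_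
      have h1 : HasDerivAt (fun z : ℂ => -(z * (t:ℂ))) (-(t:ℂ)) z := by
        have h0 := ((hasDerivAt_id z).mul_const (t:ℂ)).neg
        rw [one_mul] at h0
        exact h0
      exact (h1.cexp).const_mul _
  have hRd : DifferentiableOn ℂ R U := by
    intro z₀ hz₀
    have hz₀' : 0 < z₀.re := hz₀
    have h1 : DifferentiableAt ℂ (fun z : ℂ => z ^ (-a : ℂ)) z₀ :=
      (differentiableAt_id).cpow_const (Or.inl hz₀')
    exact (h1.const_mul _).differentiableWithinAt
  have hreal : ∀ x : ℝ, 0 < x → L x = R x := by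
    intro x hx
    have h := Complex.integral_cpow_mul_exp_neg_mul_Ioi (a := (a:ℂ)) (by simpa using ha) hx
    show (∫ t : ℝ in Ioi 0, ((t ^ (a - 1) : ℝ) : ℂ) * cexp (-((x:ℂ) * t))) = _
    have h2 : ∫ t : ℝ in Ioi 0, ((t ^ (a - 1) : ℝ) : ℂ) * cexp (-((x:ℂ) * t)) =
        ∫ t : ℝ in Ioi 0, (t:ℂ) ^ ((a:ℂ) - 1) * cexp (-((x:ℂ) * t)) := by
      refine setIntegral_congr_fun measurableSet_Ioi fun t ht => ?_
      have ht' : (0:ℝ) < t := ht
      rw [Complex.ofReal_cpow ht'.le, ofReal_sub, ofReal_one]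
    rw [h2, h, Complex.Gamma_ofReal, mul_comm]
    congr 1
    rw [one_div, ← ofReal_inv, ← ofReal_cpow (inv_pos.2 hx).le, Real.inv_rpow hx.le,
      ← Real.rpow_neg hx.le, ofReal_cpow hx.le, ofReal_neg]
  have hLa : AnalyticOnNhd ℂ L U := hLd.analyticOnNhd hU
  have hRa : AnalyticOnNhd ℂ R U := hRd.analyticOnNhd hU
  have h1U : (1:ℂ) ∈ U := by simp [U]
  have hfreq : ∃ᶠ w in 𝓝[≠] (1:ℂ), L w = R w := by
    have hseq : Tendsto (fun n : ℕ => (((1 + 1 / ((n:ℝ) + 1) : ℝ)) : ℂ)) atTop (𝓝[≠] (1:ℂ)) := by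
      rw [tendsto_nhdsWithin_iff]
      constructor
      · have h := tendsto_one_div_add_atTop_nhds_zero_nat (𝕜 := ℝ)
        have h2 : Tendsto (fun n : ℕ => (1 + 1 / ((n:ℝ) + 1) : ℝ)) atTop (𝓝 (1 + 0)) :=
          tendsto_const_nhds.add h
        have h3 := (continuous_ofReal.tendsto (1 + 0 : ℝ)).comp h2
        simpa [Function.comp_def] using h3
      · refine Eventually.of_forall fun n => ?_
        rw [mem_compl_iff, mem_singleton_iff]
        intro h
        have h2 : (1 + 1 / ((n:ℝ) + 1) : ℝ) = 1 := by exact_mod_cast h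
        have h3 : (0:ℝ) < 1 / ((n:ℝ) + 1) := by positivity
        linarith
    refine hseq.frequently (Frequently.of_forall fun n => ?_)
    exact hreal _ (by positivity)
  exact hLa.eqOn_of_preconnected_of_frequently_eq hRa hUc h1U hfreq hz

end Pool.Agent.Lib.MP_1ce311_an
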