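import Mathlib
import Pool.Agent.Lib.MP_1ce311_an.Laplace

open MeasureTheory Set Filter Complex
open scoped Real Topology

namespace Pool.Agent.Lib.MP_1ce311_an

/-- truncated power `y_+^(a-1)` -/
noncomputable def P (a y : ℝ) : ℝ := (max y 0) ^ (a - 1)

/-- second difference of the truncated power, normalised by `Γ(a)` -/
noncomputable def Th (a y : ℝ) : ℝ := (P a (y + 1) - 2 * P a y + P a (y - 1)) / Real.Gamma a

lemma P_of_nonpos {a y : ℝ} (ha : 1 < a) (hy : y ≤ 0) : P a y = 0 := by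
  rw [P, max_eq_right hy, Real.zero_rpow (by linarith)]

lemma P_of_pos {a y : ℝ} (hy : 0 ≤ y) : P a y = y ^ (a - 1) := by
  rw [P, max_eq_left hy]

lemma P_nonneg (a y : ℝ) : 0 ≤ P a y := Real.rpow_nonneg (le_max_right _ _) _

lemma continuous_P {a : ℝ} (ha : 1 < a) : Continuous (P a) := by
  unfold P
  exact (continuous_id.max continuous_const).rpow_const fun y => Or.inr (by linarith)

lemma continuous_Th {a : ℝ} (ha : 1 < a) : Continuous (Th a) := by
  have h := continuous_P ha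
  unfold Th
  fun_prop

lemma Th_of_le {a y : ℝ} (ha : 1 < a) (hy : y ≤ -1) : Th a y = 0 := by
  rw [Th, P_of_nonpos ha (by linarith), P_of_nonpos ha (by linarith),
    P_of_nonpos ha (by linarith)]
  simp

/-- mean value bound for the second difference -/
lemma second_diff {a y : ℝ} (ha : 1 < a) (ha2 : a ≤ 2) (hy : 1 < y) :
    |(y + 1) ^ (a - 1) - 2 * y ^ (a - 1) + (y - 1) ^ (a - 1)| ≤ 2 * (y - 1) ^ (a - 3) := by
  -- first derivative
  have hd : ∀ x : ℝ, 0 < x → HasDerivAt (fun x : ℝ => x ^ (a - 1)) ((a - 1) * x ^ (a - 2)) x := by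
    intro x hx
    have := Real.hasDerivAt_rpow_const (x := x) (p := a - 1) (Or.inl hx.ne')
    rwa [show a - 1 - 1 = a - 2 by ring] at this
  have hd2 : ∀ x : ℝ, 0 < x →
      HasDerivAt (fun x : ℝ => (a - 1) * x ^ (a - 2)) ((a - 1) * ((a - 2) * x ^ (a - 3))) x := by
    intro x hx
    have := (Real.hasDerivAt_rpow_const (x := x) (p := a - 2) (Or.inl hx.ne')).const_mul (a - 1)
    rwa [show a - 2 - 1 = a - 3 by ring] at this
  obtain ⟨c₁, hc₁, h₁⟩ := exists_hasDerivAt_eq_slope (fun x : ℝ => x ^ (a - 1))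
    (fun x => (a - 1) * x ^ (a - 2)) (show y < y + 1 by linarith)
    (fun x hx => (hd x (by linarith [hx.1])).continuousAt.continuousWithinAt)
    (fun x hx => hd x (by linarith [hx.1]))
  obtain ⟨c₂, hc₂, h₂⟩ := exists_hasDerivAt_eq_slope (fun x : ℝ => x ^ (a - 1))
    (fun x => (a - 1) * x ^ (a - 2)) (show y - 1 < y by linarith)
    (fun x hx => by
      rcases eq_or_lt_of_le hx.1 with h | h
      · exact (hd x (by linarith)).continuousAt.continuousWithinAt
      · exact (hd x (by linarith)).continuousAt.continuousWithinAt)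
    (fun x hx => hd x (by linarith [hx.1]))
  have hc : c₂ < c₁ := by linarith [hc₁.1, hc₂.2]
  obtain ⟨c₃, hc₃, h₃⟩ := exists_hasDerivAt_eq_slope (fun x : ℝ => (a - 1) * x ^ (a - 2))
    (fun x => (a - 1) * ((a - 2) * x ^ (a - 3))) hc
    (fun x hx => (hd2 x (by linarith [hx.1, hc₂.1])).continuousAt.continuousWithinAt)
    (fun x hx => hd2 x (by linarith [hx.1, hc₂.1]))
  have e₁ : (y + 1) ^ (a - 1) - y ^ (a - 1) = (a - 1) * c₁ ^ (a - 2) := by
    rw [h₁]; ring
  have e₂ : y ^ (a - 1) - (y - 1) ^ (a - 1) = (a - 1) * c₂ ^ (a - 2) := by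
    rw [h₂]; ring
  have e₃ : (a - 1) * c₁ ^ (a - 2) - (a - 1) * c₂ ^ (a - 2) =
      ((a - 1) * ((a - 2) * c₃ ^ (a - 3))) * (c₁ - c₂) := by
    rw [h₃]
    field_simp [sub_ne_zero.2 hc.ne']
  have e : (y + 1) ^ (a - 1) - 2 * y ^ (a - 1) + (y - 1) ^ (a - 1) =
      ((a - 1) * ((a - 2) * c₃ ^ (a - 3))) * (c₁ - c₂) := by
    rw [← e₃, ← e₁, ← e₂]; ring
  rw [e, abs_mul, abs_mul, abs_mul]
  have hc₃' : y - 1 < c₃ := by linarith [hc₃.1, hc₂.1]
  have hc₃0 : 0 < c₃ := by linarith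
  have b1 : |a - 1| ≤ 1 := by rw [abs_le]; constructor <;> linarith
  have b2 : |a - 2| ≤ 1 := by rw [abs_le]; constructor <;> linarith
  have b3 : |c₃ ^ (a - 3)| ≤ (y - 1) ^ (a - 3) := by
    rw [abs_of_pos (Real.rpow_pos_of_pos hc₃0 _)]
    exact Real.rpow_le_rpow_of_nonpos (by linarith) hc₃'.le (by linarith)
  have b4 : |c₁ - c₂| ≤ 2 := by
    rw [abs_le]; constructor <;> linarith [hc₁.2, hc₂.1]
  have hpos : 0 ≤ (y - 1) ^ (a - 3) := (Real.rpow_pos_of_pos (by linarith) _).le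
  calc |a - 1| * (|a - 2| * |c₃ ^ (a - 3)|) * |c₁ - c₂|
      ≤ 1 * (1 * (y - 1) ^ (a - 3)) * 2 := by gcongr
    _ = 2 * (y - 1) ^ (a - 3) := by ring

/-- decay of `Th`. -/
lemma Th_bound {a : ℝ} (ha : 1 < a) (ha2 : a ≤ 2) :
    ∃ C : ℝ, 0 < C ∧ ∀ y, |Th a y| ≤ C * (1 + |y|) ^ (a - 3) := by
  -- compactness on [-1, 2] and explicit bound for y > 2
  have hG : 0 < Real.Gamma a := Real.Gamma_pos_of_pos (by linarith)
  obtain ⟨M, hM⟩ := (isCompact_Icc (a := (-1:ℝ)) (b := 2)).exists_bound_of_continuousOn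
    (continuous_Th ha).continuousOn
  refine ⟨max M 0 * 3 ^ (3 - a) + 2 * 3 ^ (3 - a) / Real.Gamma a, by positivity, fun y => ?_⟩
  rcases le_or_gt y (-1) with h | h
  · rw [Th_of_le ha h, abs_zero]
    positivity
  rcases le_or_gt y 2 with h2 | h2
  · have h3 := hM y ⟨h.le, h2⟩
    rw [Real.norm_eq_abs] at h3
    have h4 : (1 + |y|) ≤ 3 := by
      have : |y| ≤ 2 := abs_le.2 ⟨by linarith, h2⟩
      linarith
    have h5 : (3:ℝ) ^ (a - 3) ≤ (1 + |y|) ^ (a - 3) :=
      Real.rpow_le_rpow_of_nonpos (by positivity) h4 (by linarith)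
    have h6 : (3:ℝ) ^ (3 - a) * 3 ^ (a - 3) = 1 := by
      rw [← Real.rpow_add (by norm_num)]; simp
    have h7 : 0 < (3:ℝ) ^ (3 - a) := by positivity
    calc |Th a y| ≤ max M 0 := h3.trans (le_max_left _ _)
      _ = max M 0 * (3 ^ (3 - a) * 3 ^ (a - 3)) := by rw [h6, mul_one]
      _ = max M 0 * 3 ^ (3 - a) * 3 ^ (a - 3) := by ring
      _ ≤ max M 0 * 3 ^ (3 - a) * (1 + |y|) ^ (a - 3) := by gcongr
      _ ≤ (max M 0 * 3 ^ (3 - a) + 2 * 3 ^ (3 - a) / Real.Gamma a) * (1 + |y|) ^ (a - 3) := by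
        gcongr
        have : 0 ≤ 2 * 3 ^ (3 - a) / Real.Gamma a := by positivity
        linarith
  · have h3 := second_diff ha ha2 (show 1 < y by linarith)
    rw [Th, P_of_pos (by linarith), P_of_pos (by linarith), P_of_pos (by linarith), abs_div,
      abs_of_pos hG]
    rw [abs_of_pos (show 0 < y by linarith)]
    have h4 : (y - 1) ^ (a - 3) ≤ 3 ^ (3 - a) * (1 + y) ^ (a - 3) := by
      have h5 : (1 + y) / 3 ≤ y - 1 := by linarith
      have h6 : (y - 1) ^ (a - 3) ≤ ((1 + y) / 3) ^ (a - 3) :=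
        Real.rpow_le_rpow_of_nonpos (by linarith) h5 (by linarith)
      refine h6.trans (le_of_eq ?_)
      rw [Real.div_rpow (by linarith) (by norm_num), div_eq_mul_inv, mul_comm,
        ← Real.rpow_neg (by norm_num)]
      congr 2
      ring
    have hy' : 0 < (1 + y) ^ (a - 3) := Real.rpow_pos_of_pos (by linarith) _
    calc |(y + 1) ^ (a - 1) - 2 * y ^ (a - 1) + (y - 1) ^ (a - 1)| / Real.Gamma a
        ≤ 2 * (y - 1) ^ (a - 3) / Real.Gamma a := by gcongr
      _ ≤ 2 * (3 ^ (3 - a) * (1 + y) ^ (a - 3)) / Real.Gamma a := by gcongr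
      _ = (2 * 3 ^ (3 - a) / Real.Gamma a) * (1 + y) ^ (a - 3) := by ring
      _ ≤ _ := by
        gcongr
        have : 0 ≤ max M 0 * 3 ^ (3 - a) := by positivity
        linarith

lemma Th_two (y : ℝ) : Th 2 y = max (1 - |y|) 0 := by
  have h : ∀ y : ℝ, P 2 y = max y 0 := by
    intro y
    rw [P, show (2:ℝ) - 1 = 1 by norm_num, Real.rpow_one]
  rw [Th, h, h, h, show Real.Gamma 2 = 1 by
    rw [show (2:ℝ) = 1 + 1 by norm_num, Real.Gamma_add_one one_ne_zero, Real.Gamma_one, mul_one],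
    div_one]
  rcases le_total y 0 with h0 | h0
  · rw [abs_of_nonpos h0, max_eq_right h0, max_eq_right (show y - 1 ≤ 0 by linarith)]
    ring_nf
  · rw [abs_of_nonneg h0, max_eq_left h0, max_eq_left (show (0:ℝ) ≤ y + 1 by linarith)]
    rcases le_total y 1 with h1 | h1
    · rw [max_eq_right (show y - 1 ≤ 0 by linarith), max_eq_left (show (0:ℝ) ≤ 1 - y by linarith)]
      ring
    · rw [max_eq_left (show (0:ℝ) ≤ y - 1 by linarith), max_eq_right (show 1 - y ≤ 0 by linarith)]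
      ring

end Pool.Agent.Lib.MP_1ce311_an
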