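import Mathlib
import Pool.Agent.Lib.MP_1ce311_an.Theta

open MeasureTheory Set Filter Complex
open scoped Real Topology

namespace Pool.Agent.Lib.MP_1ce311_an

lemma integrable_P_exp {a : ℝ} (ha : 1 < a) {z : ℂ} (hz : 0 < z.re) :
    Integrable (fun y : ℝ => ((P a y : ℝ) : ℂ) * cexp (-(z * y))) := by
  have h := intble_rpow_exp (a := a) (by linarith) hz
  have h2 : Integrable (indicator (Ioi (0:ℝ)) (fun t : ℝ => t ^ (a - 1) *
      Real.exp (-(z.re * t)))) := by
    rwa [integrable_indicator_iff measurableSet_Ioi]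
  refine h2.mono' ?_ ?_
  · have := continuous_P ha
    exact (by fun_prop : Continuous fun y : ℝ =>
      ((P a y : ℝ) : ℂ) * cexp (-(z * y))).aestronglyMeasurable
  · refine Eventually.of_forall fun y => ?_
    by_cases hy : 0 < y
    · rw [indicator_of_mem (show y ∈ Ioi (0:ℝ) from hy), norm_mul, norm_real, Complex.norm_exp,
        P_of_pos hy.le, Real.norm_of_nonneg (by positivity)]
      apply le_of_eq
      congr 2
      simp
    · rw [indicator_of_notMem (show y ∉ Ioi (0:ℝ) from hy), P_of_nonpos ha (not_lt.1 hy)]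
      simp

lemma integral_P_exp {a : ℝ} (ha : 1 < a) {z : ℂ} (hz : 0 < z.re) :
    ∫ y : ℝ, ((P a y : ℝ) : ℂ) * cexp (-(z * y)) = Real.Gamma a * z ^ (-a : ℂ) := by
  rw [← laplace_rpow (by linarith : 0 < a) hz, ← integral_indicator measurableSet_Ioi]
  congr 1
  ext y
  by_cases hy : 0 < y
  · rw [indicator_of_mem (show y ∈ Ioi (0:ℝ) from hy), P_of_pos hy.le]
  · rw [indicator_of_notMem (show y ∉ Ioi (0:ℝ) from hy), P_of_nonpos ha (not_lt.1 hy)]
    simp

lemma integral_Th_exp {a : ℝ} (ha : 1 < a) {z : ℂ} (hz : 0 < z.re) :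
    ∫ y : ℝ, ((Th a y : ℝ) : ℂ) * cexp (-(z * y)) =
      (cexp z - 2 + cexp (-z)) * z ^ (-a : ℂ) := by
  have hG : (Real.Gamma a : ℂ) ≠ 0 := by
    exact_mod_cast (Real.Gamma_pos_of_pos (by linarith : 0 < a)).ne'
  have hI := integrable_P_exp ha hz
  have h := integral_P_exp ha hz
  have e1 : ∀ c : ℝ, ∀ y : ℝ, ((P a (y + c) : ℝ) : ℂ) * cexp (-(z * y)) =
      cexp (z * c) * (((P a (y + c) : ℝ) : ℂ) * cexp (-(z * ((y + c : ℝ) : ℂ)))) := by
    intro c y
    have : cexp (-(z * y)) = cexp (z * c) * cexp (-(z * ((y + c : ℝ) : ℂ))) := by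
      rw [← Complex.exp_add]
      congr 1
      push_cast
      ring
    rw [this]
    ring
  have hI' : ∀ c : ℝ, Integrable (fun y : ℝ => ((P a (y + c) : ℝ) : ℂ) * cexp (-(z * y))) := by
    intro c
    have := (hI.comp_add_right c).const_mul (cexp (z * c))
    refine this.congr (Eventually.of_forall fun y => ?_)
    exact (e1 c y).symm
  have h' : ∀ c : ℝ, ∫ y : ℝ, ((P a (y + c) : ℝ) : ℂ) * cexp (-(z * y)) =
      cexp (z * c) * (Real.Gamma a * z ^ (-a : ℂ)) := by
    intro c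
    have : ∫ y : ℝ, ((P a (y + c) : ℝ) : ℂ) * cexp (-(z * y)) =
        ∫ y : ℝ, cexp (z * c) * (((P a (y + c) : ℝ) : ℂ) * cexp (-(z * ((y + c : ℝ) : ℂ)))) := by
      congr 1
      ext y
      exact e1 c y
    rw [this, integral_const_mul]
    congr 1
    rw [← h]
    exact integral_add_right_eq_self (fun y : ℝ => ((P a y : ℝ) : ℂ) * cexp (-(z * y))) c
  have e2 : ∀ y : ℝ, ((Th a y : ℝ) : ℂ) * cexp (-(z * y)) =
      (Real.Gamma a : ℂ)⁻¹ * ((((P a (y + 1) : ℝ) : ℂ) * cexp (-(z * y)) -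
        2 * (((P a y : ℝ) : ℂ) * cexp (-(z * y)))) +
        ((P a (y + (-1)) : ℝ) : ℂ) * cexp (-(z * y))) := by
    intro y
    rw [Th, ← sub_eq_add_neg]
    push_cast
    field_simp
  simp_rw [e2]
  rw [integral_const_mul]
  have s1 : ∫ y : ℝ, ((((P a (y + 1) : ℝ) : ℂ) * cexp (-(z * y)) -
        2 * (((P a y : ℝ) : ℂ) * cexp (-(z * y)))) +
        ((P a (y + (-1)) : ℝ) : ℂ) * cexp (-(z * y))) =
      ((∫ y : ℝ, ((P a (y + 1) : ℝ) : ℂ) * cexp (-(z * y))) -
        2 * ∫ y : ℝ, ((P a y : ℝ) : ℂ) * cexp (-(z * y))) +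
        ∫ y : ℝ, ((P a (y + (-1)) : ℝ) : ℂ) * cexp (-(z * y)) := by
    rw [integral_add (f := fun y : ℝ => ((P a (y + 1) : ℝ) : ℂ) * cexp (-(z * y)) -
        2 * (((P a y : ℝ) : ℂ) * cexp (-(z * y)))) ((hI' 1).sub (hI.const_mul 2)) (hI' (-1)),
      integral_sub (hI' 1) (hI.const_mul 2), integral_const_mul]
  rw [s1, h' 1, h' (-1), h]
  push_cast
  field_simp

lemma integrable_Th {a : ℝ} (ha : 1 < a) (ha2 : a < 2) : Integrable (Th a) := by
  obtain ⟨C, hC, h⟩ := Th_bound ha ha2.le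
  have hI : Integrable (fun y : ℝ => C * (1 + ‖y‖) ^ (-(3 - a))) :=
    (integrable_one_add_norm (by simp; linarith)).const_mul C
  refine hI.mono' (continuous_Th ha).aestronglyMeasurable (Eventually.of_forall fun y => ?_)
  rw [Real.norm_eq_abs, Real.norm_eq_abs, show -(3 - a) = a - 3 by ring]
  exact h y

lemma integrable_Th' {a : ℝ} (ha : 1 < a) (ha2 : a ≤ 2) : Integrable (Th a) := by
  rcases eq_or_lt_of_le ha2 with rfl | h
  · have hc : HasCompactSupport (Th 2) := by
      refine HasCompactSupport.intro (K := Icc (-1:ℝ) 1) isCompact_Icc fun y hy => ?_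
      rw [Th_two]
      apply max_eq_right
      by_contra hcon
      apply hy
      rw [not_le] at hcon
      have : |y| < 1 := by linarith
      exact ⟨(abs_lt.1 this).1.le, (abs_lt.1 this).2.le⟩
    exact (continuous_Th ha).integrable_of_hasCompactSupport hc
  · exact integrable_Th ha h

/-- Fourier transform of `Th a` away from zero -/
lemma integral_Th_fourier {a : ℝ} (ha : 1 < a) (ha2 : a ≤ 2) {w : ℂ} (hw : w.re = 0)
    (hw' : w ≠ 0) :
    ∫ y : ℝ, ((Th a y : ℝ) : ℂ) * cexp (-(w * y)) =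
      (cexp w - 2 + cexp (-w)) * w ^ (-a : ℂ) := by
  have him : w.im ≠ 0 := by
    intro h
    exact hw' (Complex.ext hw h)
  -- limit ε → 0+
  have hlim1 : Tendsto (fun ε : ℝ => ∫ y : ℝ, ((Th a y : ℝ) : ℂ) * cexp (-(((ε:ℂ) + w) * y)))
      (𝓝[>] 0) (𝓝 (∫ y : ℝ, ((Th a y : ℝ) : ℂ) * cexp (-(w * y)))) := by
    refine tendsto_integral_filter_of_dominated_convergence
      (fun y => |Th a y| * Real.exp 1) ?_ ?_ ?_ ?_
    · refine Eventually.of_forall fun ε => ?_
      have := continuous_Th ha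
      exact (by fun_prop : Continuous fun y : ℝ =>
        ((Th a y : ℝ) : ℂ) * cexp (-(((ε:ℂ) + w) * y))).aestronglyMeasurable
    · have h01 : ∀ᶠ ε : ℝ in 𝓝[>] 0, ε < 1 :=
        mem_nhdsWithin_of_mem_nhds (Iio_mem_nhds one_pos)
      filter_upwards [self_mem_nhdsWithin, h01] with ε hε hε1
      refine Eventually.of_forall fun y => ?_
      have hε' : (0:ℝ) < ε := hε
      rcases le_or_gt y (-1) with hy | hy
      · rw [Th_of_le ha hy]; simp
      · rw [norm_mul, norm_real, Real.norm_eq_abs, Complex.norm_exp]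
        gcongr
        have : (-(((ε:ℂ) + w) * y)).re = -(ε * y) := by
          simp [hw]
        rw [this]
        nlinarith
    · exact ((integrable_Th' ha ha2).abs).mul_const _
    · refine Eventually.of_forall fun y => ?_
      have : Continuous fun ε : ℝ => ((Th a y : ℝ) : ℂ) * cexp (-(((ε:ℂ) + w) * y)) := by
        fun_prop
      have h2 := (this.tendsto 0).mono_left (nhdsWithin_le_nhds (s := Ioi 0))
      simpa using h2
  have hlim2 : Tendsto (fun ε : ℝ => (cexp ((ε:ℂ) + w) - 2 + cexp (-((ε:ℂ) + w))) *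
      ((ε:ℂ) + w) ^ (-a : ℂ)) (𝓝[>] 0) (𝓝 ((cexp w - 2 + cexp (-w)) * w ^ (-a : ℂ))) := by
    have hc1 : ContinuousAt (fun z : ℂ => (cexp z - 2 + cexp (-z)) * z ^ (-a : ℂ)) w := by
      refine ContinuousAt.mul (by fun_prop) ?_
      exact continuousAt_id.cpow continuousAt_const (Or.inr him)
    have hc2 : Tendsto (fun ε : ℝ => (ε:ℂ) + w) (𝓝[>] 0) (𝓝 w) := by
      have : Continuous fun ε : ℝ => (ε:ℂ) + w := by fun_prop
      have h2 := (this.tendsto 0).mono_left (nhdsWithin_le_nhds (s := Ioi 0))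
      simpa using h2
    exact hc1.tendsto.comp hc2
  refine tendsto_nhds_unique hlim1 (hlim2.congr' ?_)
  filter_upwards [self_mem_nhdsWithin] with ε hε
  have hε' : (0:ℝ) < ε := hε
  exact (integral_Th_exp ha (z := (ε:ℂ) + w) (by simp [hw]; exact hε')).symm

end Pool.Agent.Lib.MP_1ce311_an
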