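import Mathlib
import Pool.Agent.Lib.MP_1ce311_an.FT

open MeasureTheory Set Filter Complex TopologicalSpace Asymptotics
open scoped Real Topology FourierTransform

namespace Pool.Agent.Lib.MP_1ce311_an

/-- periodisation of a continuous function on the line, as a function on `ℝ / ℤ` -/
noncomputable def per (g : C(ℝ, ℝ)) : C(UnitAddCircle, ℝ) :=
  ⟨(g.periodic_tsum_comp_add_zsmul 1).lift, continuous_coinduced_dom.mpr (map_continuous _)⟩

/-- decay hypothesis -/
def Decay (g : C(ℝ, ℝ)) : Prop := ∃ b : ℝ, 1 < b ∧ (g : ℝ → ℝ) =O[cocompact ℝ] (fun x => |x| ^ (-b))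

lemma Decay.summable_restrict {g : C(ℝ, ℝ)} (hg : Decay g) (K : Compacts ℝ) :
    Summable fun n : ℤ => ‖(g.comp (ContinuousMap.addRight (n:ℝ))).restrict K‖ := by
  obtain ⟨b, hb, h⟩ := hg
  exact summable_of_isBigO (Real.summable_abs_int_rpow hb)
    ((isBigO_norm_restrict_cocompact g (zero_lt_one.trans hb) h K).comp_tendsto
    Int.tendsto_coe_cofinite)

lemma Decay.summable {g : C(ℝ, ℝ)} (hg : Decay g) (t : ℝ) :
    Summable fun n : ℤ => g (t + n) := by
  have h := hg.summable_restrict ⟨{t}, isCompact_singleton⟩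
  refine Summable.of_norm_bounded h fun n => ?_
  have := ContinuousMap.norm_coe_le_norm
    ((g.comp (ContinuousMap.addRight (n:ℝ))).restrict ({t} : Set ℝ)) ⟨t, rfl⟩
  simpa using this

lemma per_apply {g : C(ℝ, ℝ)} (hg : Decay g) (t : ℝ) :
    per g (t : UnitAddCircle) = ∑' n : ℤ, g (t + n) := by
  have h := ContinuousMap.summable_of_locally_summable_norm
    (F := fun n : ℤ => g.comp (ContinuousMap.addRight (n:ℝ))) hg.summable_restrict
  have h2 := ContinuousMap.tsum_apply h t
  simp only [per, ContinuousMap.coe_mk, Function.Periodic.lift_coe, zsmul_one]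
  rw [← h2]
  simp

lemma fourierCoeff_per {g : C(ℝ, ℝ)} (hg : Decay g) (m : ℤ) :
    fourierCoeff (fun x : UnitAddCircle => ((per g x : ℝ) : ℂ)) m =
      ∫ x : ℝ, ((g x : ℝ) : ℂ) * cexp (-((2 * π * I * m) * x)) := by
  let f : C(ℝ, ℂ) := (⟨fun x : ℝ => (x : ℂ), continuous_ofReal⟩ : C(ℝ, ℂ)).comp g
  have hf : ∀ K : Compacts ℝ, Summable fun n : ℤ =>
      ‖(f.comp (ContinuousMap.addRight (n:ℝ))).restrict K‖ := by
    intro K
    refine (hg.summable_restrict K).congr fun n => ?_
    rw [ContinuousMap.norm_eq_iSup_norm, ContinuousMap.norm_eq_iSup_norm]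
    congr 1
    ext x
    show ‖g ((x:ℝ) + n)‖ = ‖((g ((x:ℝ) + n) : ℝ) : ℂ)‖
    rw [Complex.norm_real]
  have h := Real.fourierCoeff_tsum_comp_add hf m
  have h2 : (fun x : UnitAddCircle => ((per g x : ℝ) : ℂ)) =
      (f.periodic_tsum_comp_add_zsmul 1).lift := by
    ext x
    induction x using QuotientAddGroup.induction_on with
    | H t =>
      have h3 := per_apply hg t
      have h4 := ContinuousMap.tsum_apply (ContinuousMap.summable_of_locally_summable_norm
        (F := fun n : ℤ => f.comp (ContinuousMap.addRight (n:ℝ))) hf) t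
      have h5 : (f.periodic_tsum_comp_add_zsmul 1).lift (t : UnitAddCircle) =
          ∑' n : ℤ, f (t + n) := by
        simp only [Function.Periodic.lift_coe, zsmul_one]
        rw [← h4]
        simp
      rw [h5]
      show ((per g (t : UnitAddCircle) : ℝ) : ℂ) = _
      rw [h3, Complex.ofReal_tsum]
      rfl
  rw [h2, h, Real.fourier_real_eq_integral_exp_smul]
  congr 1
  ext x
  rw [smul_eq_mul, mul_comm]
  show ((g x : ℝ) : ℂ) * _ = _
  congr 2
  push_cast
  ring

end Pool.Agent.Lib.MP_1ce311_an
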