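import Mathlib
import Pool.Agent.Lib.MP_1ce311_an.Per

open MeasureTheory Set Filter Complex TopologicalSpace Asymptotics
open scoped Real Topology FourierTransform

namespace Pool.Agent.Lib.MP_1ce311_an

/-- the function `x ↦ Th a (2^j x - k)` -/
noncomputable def gf (a : ℝ) (j : ℕ) (k : ℤ) : C(ℝ, ℝ) :=
  ⟨fun x => (if 1 < a then Th a (2 ^ j * x - k) else 0), by
    split_ifs with h
    · exact (continuous_Th h).comp (by fun_prop)
    · exact continuous_const⟩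

lemma gf_apply {a : ℝ} (ha : 1 < a) (j : ℕ) (k : ℤ) (x : ℝ) :
    gf a j k x = Th a (2 ^ j * x - k) := by
  simp [gf, ha]

lemma Th_decay {a : ℝ} (ha : 1 < a) (ha2 : a ≤ 2) :
    ∃ b : ℝ, 1 < b ∧ ∃ C : ℝ, 0 < C ∧ ∀ y, |Th a y| ≤ C * (1 + |y|) ^ (-b) := by
  rcases eq_or_lt_of_le ha2 with rfl | h
  · refine ⟨2, by norm_num, 4, by norm_num, fun y => ?_⟩
    rw [Th_two, abs_of_nonneg (le_max_right _ _), Real.rpow_neg (by positivity),
      show ((2:ℝ)) = ((2:ℕ):ℝ) by norm_num, Real.rpow_natCast, ← div_eq_mul_inv,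
      le_div_iff₀ (by positivity)]
    rcases le_total (1 - |y|) 0 with h | h
    · rw [max_eq_right h]; norm_num
    · rw [max_eq_left h]
      have h0 := abs_nonneg y
      nlinarith [mul_nonneg h0 h0, mul_nonneg h h0]
  · obtain ⟨C, hC, hb⟩ := Th_bound ha ha2
    refine ⟨3 - a, by linarith, C, hC, fun y => ?_⟩
    rw [show -(3 - a) = a - 3 by ring]
    exact hb y

lemma gf_decay {a : ℝ} (ha : 1 < a) (ha2 : a ≤ 2) (j : ℕ) (k : ℤ) : Decay (gf a j k) := by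
  obtain ⟨b, hb, C, hC, h⟩ := Th_decay ha ha2
  refine ⟨b, hb, ?_⟩
  refine IsBigO.of_bound (C * 2 ^ b) ?_
  have hev : ∀ᶠ x : ℝ in cocompact ℝ, 2 * |(k:ℝ)| + 1 ≤ ‖x‖ :=
    (tendsto_norm_cocompact_atTop (E := ℝ)).eventually (eventually_ge_atTop _)
  filter_upwards [hev] with x hx
  rw [Real.norm_eq_abs] at hx
  rw [Real.norm_eq_abs, gf_apply ha, Real.norm_of_nonneg (by positivity)]
  have hx0 : 0 < |x| := by have := abs_nonneg (k:ℝ); linarith
  have h1 : |x| / 2 ≤ 1 + |2 ^ j * x - k| := by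
    have h2 : |x| ≤ |2 ^ j * x| := by
      rw [abs_mul, abs_of_pos (by positivity : (0:ℝ) < 2 ^ j)]
      have : (1:ℝ) ≤ 2 ^ j := one_le_pow₀ (by norm_num)
      nlinarith
    have h3 : |2 ^ j * x| - |(k:ℝ)| ≤ |2 ^ j * x - k| := abs_sub_abs_le_abs_sub _ _
    linarith
  calc |Th a (2 ^ j * x - k)| ≤ C * (1 + |2 ^ j * x - k|) ^ (-b) := h _
    _ ≤ C * (|x| / 2) ^ (-b) := by
        gcongr C * ?_
        exact Real.rpow_le_rpow_of_nonpos (by positivity) h1 (by linarith)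
    _ = C * 2 ^ b * |x| ^ (-b) := by
        rw [Real.div_rpow hx0.le (by norm_num), Real.rpow_neg (by norm_num : (0:ℝ) ≤ 2)]
        field_simp

lemma fourierCoeff_gf {a : ℝ} (ha : 1 < a) (ha2 : a ≤ 2) (j : ℕ) (k m : ℤ) (hm : m ≠ 0) :
    fourierCoeff (fun x : UnitAddCircle => ((per (gf a j k) x : ℝ) : ℂ)) m =
      (2 ^ j : ℂ)⁻¹ * cexp (-(2 * π * I * m * k / 2 ^ j)) *
      ((cexp (2 * π * I * m / 2 ^ j) - 2 + cexp (-(2 * π * I * m / 2 ^ j))) *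
        (2 * π * I * m / 2 ^ j) ^ (-a : ℂ)) := by
  rw [fourierCoeff_per (gf_decay ha ha2 j k)]
  have hw : (2 * π * I * m / 2 ^ j : ℂ).re = 0 := by
    have : (2 * π * I * m / 2 ^ j : ℂ) = ((2 * π * m / 2 ^ j : ℝ) : ℂ) * I := by
      push_cast; ring
    rw [this, Complex.re_ofReal_mul, Complex.I_re, mul_zero]
  have hw' : (2 * π * I * m / 2 ^ j : ℂ) ≠ 0 := by
    have : (m:ℂ) ≠ 0 := by exact_mod_cast hm
    have h2 : (π:ℂ) ≠ 0 := by exact_mod_cast Real.pi_ne_zero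
    have h3 : (2:ℂ) ^ j ≠ 0 := pow_ne_zero _ two_ne_zero
    simp [this, h2, I_ne_zero]
  rw [← integral_Th_fourier ha ha2 hw hw']
  -- substitution y = 2^j x - k
  have h2j : (0:ℝ) < 2 ^ j := by positivity
  have hsub := integral_sub_right_eq_self (μ := volume)
    (fun y : ℝ => ((Th a y : ℝ) : ℂ) * cexp (-((2 * π * I * m / 2 ^ j) * y))) (k:ℝ)
  have hmul := Measure.integral_comp_mul_left
    (fun y : ℝ => ((Th a (y - k) : ℝ) : ℂ) * cexp (-((2 * π * I * m / 2 ^ j) * ((y - k : ℝ) : ℂ))))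
    (2 ^ j)
  rw [hsub] at hmul
  have e : ∀ x : ℝ, ((gf a j k x : ℝ) : ℂ) * cexp (-((2 * π * I * m) * x)) =
      cexp (-(2 * π * I * m * k / 2 ^ j)) *
      (((Th a (2 ^ j * x - k) : ℝ) : ℂ) *
        cexp (-((2 * π * I * m / 2 ^ j) * ((2 ^ j * x - k : ℝ) : ℂ)))) := by
    intro x
    rw [gf_apply ha]
    have h3 : (2:ℂ) ^ j ≠ 0 := pow_ne_zero _ two_ne_zero
    have : cexp (-((2 * π * I * m) * x)) = cexp (-(2 * π * I * m * k / 2 ^ j)) *
        cexp (-((2 * π * I * m / 2 ^ j) * ((2 ^ j * x - k : ℝ) : ℂ))) := by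
      rw [← Complex.exp_add]
      congr 1
      push_cast
      field_simp
      ring
    rw [this]
    ring
  simp_rw [e]
  rw [integral_const_mul, hmul, abs_of_pos (inv_pos.2 h2j)]
  rw [Complex.real_smul]
  push_cast
  ring

/-- Fourier coefficients of the Bernoulli kernel -/
noncomputable def bern (r : ℝ) (k : ℤ) : ℂ :=
  if k = 0 then 1 else ((|(k:ℝ)| ^ (-r) : ℝ) : ℂ) * cexp (-(π * r / 2 * (k.sign : ℂ)) * I)

lemma bern_eq {r : ℝ} {k : ℤ} (hk : k ≠ 0) : bern r k = (I * k) ^ (-r : ℂ) := by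
  rw [bern, if_neg hk]
  have hk' : (k:ℂ) ≠ 0 := by exact_mod_cast hk
  have h0 : I * (k:ℂ) ≠ 0 := mul_ne_zero I_ne_zero hk'
  have habs : 0 < |(k:ℝ)| := abs_pos.2 (by exact_mod_cast hk)
  rw [Complex.cpow_def_of_ne_zero h0, Complex.log]
  have hn : ‖I * (k:ℂ)‖ = |(k:ℝ)| := by simp
  have harg : arg (I * (k:ℂ)) = π / 2 * (k.sign : ℝ) := by
    rcases lt_or_gt_of_ne hk with h | h
    · have : I * (k:ℂ) = ((-(k:ℝ) : ℝ) : ℂ) * (-I) := by push_cast; ring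
      rw [this, Complex.arg_real_mul _ (by
        have : (k:ℝ) < 0 := by exact_mod_cast h
        linarith), Complex.arg_neg_I, Int.sign_eq_neg_one_of_neg h]
      push_cast; ring
    · have : I * (k:ℂ) = (((k:ℝ) : ℝ) : ℂ) * I := by push_cast; ring
      rw [this, Complex.arg_real_mul _ (by exact_mod_cast h), Complex.arg_I,
        Int.sign_eq_one_of_pos h]
      push_cast; ring
  rw [hn, harg, Real.rpow_def_of_pos habs]
  push_cast
  rw [← Complex.exp_add]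
  congr 1
  ring

/-- the multiplier identity -/
lemma fourierCoeff_gf_two {r : ℝ} (hr : 0 < r) (hr1 : r < 1) (j : ℕ) (k m : ℤ) (hm : m ≠ 0) :
    fourierCoeff (fun x : UnitAddCircle => ((per (gf 2 j k) x : ℝ) : ℂ)) m =
      bern r m * (((2 ^ j : ℝ) ^ r * (2 * π) ^ (-r) : ℝ) *
      fourierCoeff (fun x : UnitAddCircle => ((per (gf (2 - r) j k) x : ℝ) : ℂ)) m) := by
  rw [fourierCoeff_gf (by norm_num) le_rfl j k m hm,
    fourierCoeff_gf (by linarith) (by linarith) j k m hm, bern_eq hm]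
  have hm' : (m:ℂ) ≠ 0 := by exact_mod_cast hm
  have h3 : (2:ℂ) ^ j ≠ 0 := pow_ne_zero _ two_ne_zero
  have hpos : (0:ℝ) < 2 * π / 2 ^ j := by positivity
  have hw : (2 * π * I * m / 2 ^ j : ℂ) = ((2 * π / 2 ^ j : ℝ) : ℂ) * (I * m) := by
    push_cast; ring
  have hIm : I * (m:ℂ) ≠ 0 := mul_ne_zero I_ne_zero hm'
  have key : (2 * π * I * m / 2 ^ j : ℂ) ^ (-(2:ℝ) : ℂ) =
      (I * m) ^ (-r : ℂ) * ((((2 ^ j : ℝ) ^ r * (2 * π) ^ (-r) : ℝ) : ℂ) *
        (2 * π * I * m / 2 ^ j : ℂ) ^ (-((2 - r : ℝ) : ℂ))) := by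
    rw [hw]
    have e1 : ∀ s : ℂ, (((2 * π / 2 ^ j : ℝ) : ℂ) * (I * m)) ^ s =
        ((2 * π / 2 ^ j : ℝ) : ℂ) ^ s * (I * m) ^ s := by
      intro s
      have hne : (((2 * π / 2 ^ j : ℝ) : ℂ) * (I * m)) ≠ 0 :=
        mul_ne_zero (by exact_mod_cast hpos.ne') hIm
      rw [Complex.cpow_def_of_ne_zero hne,
        Complex.cpow_def_of_ne_zero (by exact_mod_cast hpos.ne'), Complex.cpow_def_of_ne_zero hIm,
        Complex.log_ofReal_mul hpos hIm, ← Complex.exp_add, Complex.ofReal_log hpos.le]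
      congr 1
      ring
    rw [e1, e1]
    have e2 : (I * (m:ℂ)) ^ (-(2:ℝ) : ℂ) = (I * m) ^ (-r : ℂ) * (I * m) ^ (-((2 - r : ℝ) : ℂ)) := by
      rw [← Complex.cpow_add _ _ hIm]
      congr 1
      push_cast
      ring
    have e3 : ((2 * π / 2 ^ j : ℝ) : ℂ) ^ (-(2:ℝ) : ℂ) =
        (((2 ^ j : ℝ) ^ r * (2 * π) ^ (-r) : ℝ) : ℂ) *
          ((2 * π / 2 ^ j : ℝ) : ℂ) ^ (-((2 - r : ℝ) : ℂ)) := by
      have : ∀ s : ℝ, ((2 * π / 2 ^ j : ℝ) : ℂ) ^ (-(s:ℂ)) = (((2 * π / 2 ^ j : ℝ) ^ (-s) : ℝ) : ℂ) := by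
        intro s
        rw [Complex.ofReal_cpow hpos.le]
        push_cast
        rfl
      rw [this, this, ← Complex.ofReal_mul]
      congr 1
      have hr' : (2 ^ j : ℝ) ^ r * (2 * π) ^ (-r) = (2 * π / 2 ^ j : ℝ) ^ (-r) := by
        rw [Real.div_rpow (by positivity) (by positivity), Real.rpow_neg (by positivity : (0:ℝ) ≤ 2 ^ j)]
        field_simp
      rw [hr', ← Real.rpow_add hpos]
      congr 1
      ring
    rw [e2, e3]
    ring
  have : ((2:ℝ) : ℂ) = 2 := by norm_num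
  rw [this] at key ⊢
  rw [key]
  ring

end Pool.Agent.Lib.MP_1ce311_an
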