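import Mathlib
import Pool.Agent.Lib.MP_1ce311_an.Block

open MeasureTheory Set Filter Complex TopologicalSpace Asymptotics
open scoped Real Topology FourierTransform

namespace Pool.Agent.Lib.MP_1ce311_an

/-- the periodic hat function of generation `j` centred at `k / 2^j` -/
noncomputable def Hh (j : ℕ) (k : ℤ) : C(UnitAddCircle, ℝ) := per (gf 2 j k)

lemma hat_decay (j : ℕ) (k : ℤ) : Decay (gf 2 j k) := gf_decay (by norm_num) le_rfl j k

lemma Hh_apply (j : ℕ) (k : ℤ) (t : ℝ) :
    Hh j k (t : UnitAddCircle) = ∑' n : ℤ, max (1 - |2 ^ j * (t + n) - k|) 0 := by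
  rw [Hh, per_apply (hat_decay j k)]
  congr 1
  ext n
  rw [gf_apply (by norm_num), Th_two]

lemma Hh_summable (j : ℕ) (k : ℤ) (t : ℝ) :
    Summable fun n : ℤ => max (1 - |2 ^ j * (t + n) - k|) 0 := by
  refine ((hat_decay j k).summable t).congr fun n => ?_
  rw [gf_apply (by norm_num), Th_two]

lemma Hh_nonneg (j : ℕ) (k : ℤ) (x : UnitAddCircle) : 0 ≤ Hh j k x := by
  induction x using QuotientAddGroup.induction_on with
  | H t =>
    show 0 ≤ Hh j k (t : UnitAddCircle)
    rw [Hh_apply]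
    exact tsum_nonneg fun n => le_max_right _ _

lemma hat_refine_pos {y : ℝ} (hy : 0 ≤ y) : max (1 - |y|) 0 = 1 / 2 * max (1 - |2 * y + 1|) 0 +
    max (1 - |2 * y|) 0 + 1 / 2 * max (1 - |2 * y - 1|) 0 := by
  rw [abs_of_nonneg hy, abs_of_nonneg (show 0 ≤ 2 * y by linarith),
    abs_of_nonneg (show 0 ≤ 2 * y + 1 by linarith),
    max_eq_right (show 1 - (2 * y + 1) ≤ 0 by linarith)]
  rcases le_total y (1/2) with h | h
  · rw [abs_of_nonpos (show 2 * y - 1 ≤ 0 by linarith), max_eq_left (show 0 ≤ 1 - y by linarith),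
      max_eq_left (show 0 ≤ 1 - 2 * y by linarith),
      max_eq_left (show 0 ≤ 1 - -(2 * y - 1) by linarith)]
    ring
  · rw [abs_of_nonneg (show 0 ≤ 2 * y - 1 by linarith),
      max_eq_right (show 1 - 2 * y ≤ 0 by linarith)]
    rcases le_total y 1 with h1 | h1
    · rw [max_eq_left (show 0 ≤ 1 - y by linarith),
        max_eq_left (show 0 ≤ 1 - (2 * y - 1) by linarith)]
      ring
    · rw [max_eq_right (show 1 - y ≤ 0 by linarith),
        max_eq_right (show 1 - (2 * y - 1) ≤ 0 by linarith)]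
      ring

lemma hat_refine (y : ℝ) : max (1 - |y|) 0 = 1 / 2 * max (1 - |2 * y + 1|) 0 +
    max (1 - |2 * y|) 0 + 1 / 2 * max (1 - |2 * y - 1|) 0 := by
  rcases le_total 0 y with h | h
  · exact hat_refine_pos h
  · have := hat_refine_pos (y := -y) (by linarith)
    rw [abs_neg, show 2 * -y + 1 = -(2 * y - 1) by ring, show 2 * -y = -(2 * y) by ring,
      show -(2 * y) - 1 = -(2 * y + 1) by ring, abs_neg, abs_neg, abs_neg] at this
    rw [this]
    ring

lemma Hh_refine (j : ℕ) (k : ℤ) (x : UnitAddCircle) :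
    Hh j k x = 1 / 2 * Hh (j + 1) (2 * k - 1) x + Hh (j + 1) (2 * k) x +
      1 / 2 * Hh (j + 1) (2 * k + 1) x := by
  induction x using QuotientAddGroup.induction_on with
  | H t =>
    show Hh j k (t : UnitAddCircle) = 1 / 2 * Hh (j + 1) (2 * k - 1) (t : UnitAddCircle) +
      Hh (j + 1) (2 * k) (t : UnitAddCircle) + 1 / 2 * Hh (j + 1) (2 * k + 1) (t : UnitAddCircle)
    rw [Hh_apply, Hh_apply, Hh_apply, Hh_apply, ← tsum_mul_left, ← tsum_mul_left,
      ← ((Hh_summable _ _ t).mul_left _).tsum_add (Hh_summable _ _ t),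
      ← (((Hh_summable _ _ t).mul_left _).add (Hh_summable _ _ t)).tsum_add
        ((Hh_summable _ _ t).mul_left _)]
    congr 1
    ext n
    rw [hat_refine]
    congr 2
    · congr 3
      push_cast
      ring_nf
    · congr 3
      push_cast
      ring_nf
    · congr 3
      push_cast
      ring_nf

lemma Hh_periodic (j : ℕ) (k : ℤ) (x : UnitAddCircle) : Hh j (k + 2 ^ j) x = Hh j k x := by
  induction x using QuotientAddGroup.induction_on with
  | H t =>
    show Hh j (k + 2 ^ j) (t : UnitAddCircle) = Hh j k (t : UnitAddCircle)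
    rw [Hh_apply, Hh_apply, ← (Equiv.addRight (1:ℤ)).tsum_eq]
    congr 1
    ext n
    simp only [Equiv.coe_addRight]
    congr 3
    push_cast
    ring

/-- `k / 2^j` is within `2^-j` of `t` modulo one -/
def Near (j : ℕ) (k : ℤ) (t : ℝ) : Prop := ∃ n : ℤ, |2 ^ j * (t + n) - k| < 1

lemma Hh_eq_zero {j : ℕ} {k : ℤ} {t : ℝ} (h : ¬ Near j k t) : Hh j k (t : UnitAddCircle) = 0 := by
  rw [Hh_apply]
  convert tsum_zero with n
  apply max_eq_right
  by_contra hcon
  exact h ⟨n, by linarith⟩

lemma Hh_zero (k : ℤ) (x : UnitAddCircle) : Hh 0 k x = 1 := by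
  induction x using QuotientAddGroup.induction_on with
  | H t =>
    show Hh 0 k (t : UnitAddCircle) = 1
    rw [Hh_apply]
    -- only n = k - ⌊t⌋ and n = k - ⌊t⌋ - 1 matter
    have h0 : ∀ n : ℤ, n ∉ ({k - ⌊t⌋, k - ⌊t⌋ - 1} : Finset ℤ) →
        max (1 - |2 ^ 0 * (t + n) - k|) 0 = 0 := by
      intro n hn
      simp only [Finset.mem_insert, Finset.mem_singleton, not_or] at hn
      apply max_eq_right
      have h1 := Int.floor_le t
      have h2 := Int.lt_floor_add_one t
      rw [pow_zero, one_mul]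
      rcases lt_or_gt_of_ne hn.1 with h | h
      · have h3 : n ≤ k - ⌊t⌋ - 2 := by
          have := hn.2
          omega
        have h4 : (n:ℝ) ≤ k - ⌊t⌋ - 2 := by exact_mod_cast h3
        rw [abs_of_nonpos (by linarith)]
        linarith
      · have h4 : (k:ℝ) - ⌊t⌋ + 1 ≤ n := by exact_mod_cast h
        rw [abs_of_nonneg (by linarith)]
        linarith
    rw [tsum_eq_sum h0, Finset.sum_pair (by omega)]
    have h1 := Int.floor_le t
    have h2 := Int.lt_floor_add_one t
    push_cast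
    rw [pow_zero, one_mul, one_mul, abs_of_nonneg (by linarith), abs_of_nonpos (by linarith),
      max_eq_left (by linarith), max_eq_left (by linarith)]
    ring

end Pool.Agent.Lib.MP_1ce311_an
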