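import Mathlib
import Pool.Agent.Lib.MP_1ce311_an.Hat

open Finset

namespace Pool.Agent.Lib.MP_1ce311_an

/-! ### periodic sums -/

lemma sum_range_periodic_shift (N : ℕ) (hN : 0 < N) (F : ℤ → ℝ) (hF : ∀ k, F (k + N) = F k) (s : ℤ) :
    ∑ k ∈ range N, F (k + s) = ∑ k ∈ range N, F k := by
  have : NeZero N := ⟨hN.ne'⟩
  have hF' : ∀ (k : ℤ) (n : ℤ), F (k + n * N) = F k := by
    intro k n
    induction n using Int.induction_on with
    | zero => simp
    | succ n ih => rw [add_mul, one_mul, ← add_assoc, hF, ih]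
    | pred n ih => rw [← hF (k + (-(n:ℤ) - 1) * N), ← ih]; congr 1; ring
  have hmod : ∀ k : ℤ, F k = F (((k : ZMod N).val : ℕ) : ℤ) := by
    intro k
    have h1 : (((k : ZMod N).val : ℕ) : ℤ) = k % N := by
      rw [ZMod.val_intCast]
    rw [h1, ← hF' (k % N) (k / N)]
    congr 1
    have := Int.emod_add_mul_ediv k N
    linarith [mul_comm (k / (N:ℤ)) (N:ℤ)]
  have key : ∀ G : ZMod N → ℝ, ∑ k ∈ range N, G ((k : ℤ) : ZMod N) = ∑ x : ZMod N, G x := by
    intro G
    rw [Finset.sum_range]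
    refine Fintype.sum_equiv (ZMod.finEquiv N).toEquiv _ _ ?_
    intro x
    congr 1
    obtain ⟨n, rfl⟩ : ∃ n, N = n + 1 := ⟨N - 1, by omega⟩
    show (((x : ℕ) : ℤ) : ZMod (n + 1)) = x
    apply ZMod.val_injective
    push_cast
    rw [ZMod.val_natCast]
    exact Nat.mod_eq_of_lt x.2
  have e1 : ∑ k ∈ range N, F (k + s) =
      ∑ k ∈ range N, (fun x : ZMod N => F (((x + (s : ZMod N)).val : ℕ) : ℤ)) ((k : ℤ) : ZMod N) := by
    refine Finset.sum_congr rfl fun k _ => ?_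
    rw [hmod]
    congr 3
    push_cast
    rfl
  have e2 : ∑ k ∈ range N, F k =
      ∑ k ∈ range N, (fun x : ZMod N => F ((x.val : ℕ) : ℤ)) ((k : ℤ) : ZMod N) := by
    refine Finset.sum_congr rfl fun k _ => ?_
    rw [hmod]
  rw [e1, e2]
  refine (key (fun x : ZMod N => F (((x + (s : ZMod N)).val : ℕ) : ℤ))).trans
    (Eq.trans ?_ (key (fun x : ZMod N => F ((x.val : ℕ) : ℤ))).symm)
  exact Fintype.sum_equiv (Equiv.addRight (s : ZMod N)) _ _ fun x => rfl

lemma sum_range_periodic_refl (N : ℕ) (hN : 0 < N) (F : ℤ → ℝ) (hF : ∀ k, F (k + N) = F k) (s : ℤ) :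
    ∑ k ∈ range N, F (s - k) = ∑ k ∈ range N, F k := by
  rw [← Finset.sum_range_reflect]
  have h : ∀ k ∈ range N, F (s - ((N - 1 - k : ℕ) : ℤ)) = F ((k:ℤ) + (s - (N - 1))) := by
    intro k hk
    have := mem_range.1 hk
    congr 1
    omega
  rw [Finset.sum_congr rfl h]
  exact sum_range_periodic_shift N hN F hF _

end Pool.Agent.Lib.MP_1ce311_an
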