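import Mathlib
import Pool.Agent.Lib.MP_1ce311_an.PerSum

open Finset

open scoped Classical in
/-- incoming coefficient of the stopping time construction -/
noncomputable def Pool.Agent.Lib.MP_1ce311_an.cf (R : ℕ → ℤ → Prop) : ℕ → ℤ → ℝ
  | 0 => fun _ => 1
  | g + 1 => fun k =>
      ((if R g (k / 2) then 0 else cf R g (k / 2)) +
        (if R g ((k + 1) / 2) then 0 else cf R g ((k + 1) / 2))) / 2

namespace Pool.Agent.Lib.MP_1ce311_an

open scoped Classical in
/-- the part of the coefficient that is passed on -/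
noncomputable def ps (R : ℕ → ℤ → Prop) (g : ℕ) (k : ℤ) : ℝ := if R g k then 0 else cf R g k

lemma cf_zero (R : ℕ → ℤ → Prop) (k : ℤ) : cf R 0 k = 1 := rfl

lemma cf_succ (R : ℕ → ℤ → Prop) (g : ℕ) (k : ℤ) :
    cf R (g + 1) k = (ps R g (k / 2) + ps R g ((k + 1) / 2)) / 2 := rfl

lemma cf_even (R : ℕ → ℤ → Prop) (g : ℕ) (k : ℤ) : cf R (g + 1) (2 * k) = ps R g k := by
  rw [cf_succ, show (2 * k) / 2 = k by omega, show (2 * k + 1) / 2 = k by omega]
  ring

lemma cf_odd (R : ℕ → ℤ → Prop) (g : ℕ) (k : ℤ) :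
    cf R (g + 1) (2 * k + 1) = (ps R g k + ps R g (k + 1)) / 2 := by
  rw [cf_succ, show (2 * k + 1) / 2 = k by omega, show (2 * k + 1 + 1) / 2 = k + 1 by omega]

lemma cf_mem (R : ℕ → ℤ → Prop) (g : ℕ) (k : ℤ) : 0 ≤ cf R g k ∧ cf R g k ≤ 1 := by
  induction g generalizing k with
  | zero => simp [cf_zero]
  | succ g ih =>
    have h : ∀ k, 0 ≤ ps R g k ∧ ps R g k ≤ 1 := by
      intro k
      unfold ps
      split_ifs
      · simp
      · exact ih k
    rw [cf_succ]
    have h1 := h (k / 2)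
    have h2 := h ((k + 1) / 2)
    constructor <;> linarith [h1.1, h1.2, h2.1, h2.2]

lemma ps_mem (R : ℕ → ℤ → Prop) (g : ℕ) (k : ℤ) : 0 ≤ ps R g k ∧ ps R g k ≤ 1 := by
  unfold ps
  split_ifs
  · simp
  · exact cf_mem R g k

lemma cf_periodic {R : ℕ → ℤ → Prop} (hR : ∀ g k, R g (k + 2 ^ g) ↔ R g k) (g : ℕ) (k : ℤ) :
    cf R g (k + 2 ^ g) = cf R g k := by
  induction g generalizing k with
  | zero => simp [cf_zero]
  | succ g ih =>
    have h : ∀ k, ps R g (k + 2 ^ g) = ps R g k := by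
      intro k
      unfold ps
      by_cases hk : R g k
      · rw [if_pos ((hR g k).2 hk), if_pos hk]
      · rw [if_neg (mt (hR g k).1 hk), if_neg hk, ih]
    rw [cf_succ, cf_succ]
    have e1 : (k + 2 ^ (g + 1)) / 2 = k / 2 + 2 ^ g := by
      rw [pow_succ, Int.add_mul_ediv_right _ _ (by norm_num)]
    have e2 : (k + 2 ^ (g + 1) + 1) / 2 = (k + 1) / 2 + 2 ^ g := by
      rw [show k + 2 ^ (g + 1) + 1 = (k + 1) + 2 ^ g * 2 by ring,
        Int.add_mul_ediv_right _ _ (by norm_num)]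
    rw [e1, e2, h, h]

lemma ps_periodic {R : ℕ → ℤ → Prop} (hR : ∀ g k, R g (k + 2 ^ g) ↔ R g k) (g : ℕ) (k : ℤ) :
    ps R g (k + 2 ^ g) = ps R g k := by
  unfold ps
  by_cases hk : R g k
  · rw [if_pos ((hR g k).2 hk), if_pos hk]
  · rw [if_neg (mt (hR g k).1 hk), if_neg hk, cf_periodic hR]

/-- passing the coefficients to the next generation -/
lemma sum_pass {R : ℕ → ℤ → Prop} (hR : ∀ g k, R g (k + 2 ^ g) ↔ R g k) (g : ℕ)
    (x : UnitAddCircle) :
    ∑ k ∈ range (2 ^ g), ps R g k * Hh g k x =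
      ∑ k ∈ range (2 ^ (g + 1)), cf R (g + 1) k * Hh (g + 1) k x := by
  have h1 : ∑ k ∈ range (2 ^ (g + 1)), cf R (g + 1) k * Hh (g + 1) k x =
      ∑ k ∈ range (2 ^ g), (ps R g k * Hh (g + 1) (2 * k) x +
        (ps R g k + ps R g (k + 1)) / 2 * Hh (g + 1) (2 * k + 1) x) := by
    have hsplit : ∀ (n : ℕ) (f : ℕ → ℝ), ∑ k ∈ range (n * 2), f k =
        ∑ k ∈ range n, (f (2 * k) + f (2 * k + 1)) := by
      intro n f
      induction n with
      | zero => simp
      | succ n ih =>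
        rw [Nat.succ_mul, sum_range_succ, sum_range_succ, ih, sum_range_succ]
        rw [show n * 2 + 1 = 2 * n + 1 by ring, show n * 2 = 2 * n by ring]
        ring_nf
    rw [pow_succ, hsplit]
    refine sum_congr rfl fun k _ => ?_
    push_cast
    rw [cf_even, cf_odd]
  rw [h1]
  have h2 : ∑ k ∈ range (2 ^ g), (ps R g (k + 1) * Hh (g + 1) (2 * k + 1) x) =
      ∑ k ∈ range (2 ^ g), (ps R g k * Hh (g + 1) (2 * k - 1) x) := by
    have h3 := sum_range_periodic_shift (2 ^ g) (by positivity)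
      (fun k => ps R g k * Hh (g + 1) (2 * k - 1) x) (fun k => by
        push_cast
        rw [ps_periodic hR]
        congr 1
        rw [show 2 * (k + 2 ^ g) - 1 = (2 * k - 1) + 2 ^ (g + 1) by ring]
        exact Hh_periodic _ _ _) 1
    rw [← h3]
    refine sum_congr rfl fun k _ => ?_
    congr 2
    ring
  have h4 : ∑ k ∈ range (2 ^ g), (ps R g k * Hh (g + 1) (2 * k) x +
        (ps R g k + ps R g (k + 1)) / 2 * Hh (g + 1) (2 * k + 1) x) =
      ∑ k ∈ range (2 ^ g), (ps R g k * Hh (g + 1) (2 * k) x +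
        ps R g k / 2 * Hh (g + 1) (2 * k + 1) x) +
      (1 / 2) * ∑ k ∈ range (2 ^ g), (ps R g (k + 1) * Hh (g + 1) (2 * k + 1) x) := by
    rw [mul_sum, ← sum_add_distrib]
    refine sum_congr rfl fun k _ => ?_
    ring
  rw [h4, h2, mul_sum, ← sum_add_distrib]
  refine sum_congr rfl fun k _ => ?_
  rw [Hh_refine g k x]
  ring

open scoped Classical in
/-- telescoping identity -/
lemma telescope {R : ℕ → ℤ → Prop} (hR : ∀ g k, R g (k + 2 ^ g) ↔ R g k) (G : ℕ)
    (x : UnitAddCircle) :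
    ∑ g ∈ range G, ∑ k ∈ range (2 ^ g), (if R g k then cf R g k else 0) * Hh g k x +
      ∑ k ∈ range (2 ^ G), cf R G k * Hh G k x = 1 := by
  induction G with
  | zero => simp [cf_zero, Hh_zero]
  | succ G ih =>
    rw [sum_range_succ, ← sum_pass hR, add_assoc, ← sum_add_distrib]
    refine Eq.trans ?_ ih
    congr 1
    refine sum_congr rfl fun k _ => ?_
    unfold ps
    split_ifs <;> ring

open scoped Classical in
lemma telescope' {R : ℕ → ℤ → Prop} (hR : ∀ g k, R g (k + 2 ^ g) ↔ R g k) (i : ℕ)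
    (x : UnitAddCircle) :
    ∑ g ∈ range (i + 1), ∑ k ∈ range (2 ^ g), (if R g k then cf R g k else 0) * Hh g k x =
      1 - ∑ k ∈ range (2 ^ i), ps R i k * Hh i k x := by
  have h := telescope hR i x
  rw [sum_range_succ]
  have h2 : ∑ k ∈ range (2 ^ i), cf R i k * Hh i k x =
      ∑ k ∈ range (2 ^ i), (if R i k then cf R i k else 0) * Hh i k x +
      ∑ k ∈ range (2 ^ i), ps R i k * Hh i k x := by
    rw [← sum_add_distrib]
    refine sum_congr rfl fun k _ => ?_
    unfold ps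
    split_ifs <;> ring
  linarith

/-- partition of unity -/
lemma sum_Hh (j : ℕ) (x : UnitAddCircle) : ∑ k ∈ range (2 ^ j), Hh j k x = 1 := by
  have h := telescope (R := fun _ _ => False) (fun _ _ => Iff.rfl) j x
  have hc : ∀ g k, cf (fun _ _ => False) g k = 1 := by
    intro g
    induction g with
    | zero => intro k; rfl
    | succ g ih =>
      intro k
      rw [cf_succ]
      unfold ps
      simp only [if_false, ih]
      norm_num
  simpa [hc] using h

/-- ancestors of a cell with nonzero incoming coefficient -/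
lemma ancestor (R : ℕ → ℤ → Prop) (δ : ℕ) (hδ : 1 ≤ δ) (g : ℕ) (k : ℤ) (h : cf R (g + δ) k ≠ 0) :
    ∃ k' : ℤ, |k - 2 ^ δ * k'| < 2 ^ δ ∧ ¬ R g k' := by
  suffices H : ∃ k' : ℤ, |k - 2 ^ δ * k'| < 2 ^ δ ∧ ps R g k' ≠ 0 by
    obtain ⟨k', h1, h2⟩ := H
    refine ⟨k', h1, fun h3 => h2 ?_⟩
    unfold ps
    rw [if_pos h3]
  induction δ, hδ using Nat.le_induction generalizing k with
  | base =>
    have h' : cf R (g + 1) k ≠ 0 := h
    rw [cf_succ] at h'
    by_cases h1 : ps R g (k / 2) = 0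
    · refine ⟨(k + 1) / 2, ?_, ?_⟩
      · rw [abs_lt]; constructor <;> norm_num <;> omega
      · intro h2
        apply h'
        rw [h1, h2]
        norm_num
    · refine ⟨k / 2, ?_, h1⟩
      rw [abs_lt]; constructor <;> norm_num <;> omega
  | succ δ hδ ih =>
    have h' : cf R ((g + δ) + 1) k ≠ 0 := h
    rw [cf_succ] at h'
    have key : ∃ k₁ : ℤ, |k - 2 * k₁| < 2 ∧ ps R (g + δ) k₁ ≠ 0 := by
      by_cases h1 : ps R (g + δ) (k / 2) = 0
      · refine ⟨(k + 1) / 2, ?_, ?_⟩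
        · rw [abs_lt]; constructor <;> omega
        · intro h2
          apply h'
          rw [h1, h2]
          norm_num
      · refine ⟨k / 2, ?_, h1⟩
        rw [abs_lt]; constructor <;> omega
    obtain ⟨k₁, hk₁, hp⟩ := key
    have hc : cf R (g + δ) k₁ ≠ 0 := by
      unfold ps at hp
      split_ifs at hp with h3
      · exact absurd rfl hp
      · exact hp
    obtain ⟨k', hk', hp'⟩ := ih k₁ hc
    refine ⟨k', ?_, hp'⟩
    have e : k - 2 ^ (δ + 1) * k' = (k - 2 * k₁) + 2 * (k₁ - 2 ^ δ * k') := by ring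
    have h5 : |k - 2 * k₁| ≤ 1 := by omega
    have h6 : |k₁ - 2 ^ δ * k'| ≤ 2 ^ δ - 1 := by omega
    calc |k - 2 ^ (δ + 1) * k'| ≤ |k - 2 * k₁| + |2 * (k₁ - 2 ^ δ * k')| := by
          rw [e]; exact abs_add_le _ _
      _ = |k - 2 * k₁| + 2 * |k₁ - 2 ^ δ * k'| := by
          rw [abs_mul]; norm_num
      _ ≤ 1 + 2 * (2 ^ δ - 1) := by linarith
      _ < 2 ^ (δ + 1) := by rw [pow_succ]; linarith

end Pool.Agent.Lib.MP_1ce311_an
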