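import Mathlib
import Pool.Agent.Lib.MP_1ce311_an.Tree

open Finset

namespace Pool.Agent.Lib.MP_1ce311_an

lemma near_mod {j : ℕ} {k : ℤ} {t : ℝ} (h : Near j k t) :
    ∃ n : ℤ, k = ⌊2 ^ j * t⌋ + 2 ^ j * n ∨ k = ⌊2 ^ j * t⌋ + 1 + 2 ^ j * n := by
  obtain ⟨n, hn⟩ := h
  rw [abs_lt] at hn
  have h1 := Int.floor_le (2 ^ j * t)
  have h2 := Int.lt_floor_add_one (2 ^ j * t)
  refine ⟨n, ?_⟩
  have e1 : ((⌊2 ^ j * t⌋ + 2 ^ j * n - 1 : ℤ) : ℝ) < k := by push_cast; linarith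
  have e2 : (k : ℝ) < ((⌊2 ^ j * t⌋ + 2 ^ j * n + 2 : ℤ) : ℝ) := by push_cast; linarith
  have e3 : ⌊2 ^ j * t⌋ + 2 ^ j * n - 1 < k := by exact_mod_cast e1
  have e4 : k < ⌊2 ^ j * t⌋ + 2 ^ j * n + 2 := by exact_mod_cast e2
  omega

lemma near_periodic (j : ℕ) (k : ℤ) (t : ℝ) : Near j (k + 2 ^ j) t ↔ Near j k t := by
  constructor
  · rintro ⟨n, hn⟩
    refine ⟨n - 1, ?_⟩
    push_cast at hn ⊢
    convert hn using 2
    ring
  · rintro ⟨n, hn⟩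
    refine ⟨n + 1, ?_⟩
    push_cast at hn ⊢
    convert hn using 2
    ring

lemma near_ancestor {g δ : ℕ} {k k' : ℤ} {t : ℝ} (h : Near (g + δ) k t)
    (hk : |k - 2 ^ δ * k'| < 2 ^ δ) : Near g k' t := by
  obtain ⟨n, hn⟩ := h
  refine ⟨n, ?_⟩
  have h1 : |k - 2 ^ δ * k'| ≤ 2 ^ δ - 1 := by omega
  have h2 : |(k:ℝ) - 2 ^ δ * k'| ≤ 2 ^ δ - 1 := by exact_mod_cast h1
  have h3 : |2 ^ (g + δ) * (t + n) - 2 ^ δ * (k':ℝ)| < 2 ^ δ := by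
    calc |2 ^ (g + δ) * (t + n) - 2 ^ δ * (k':ℝ)|
        = |(2 ^ (g + δ) * (t + n) - k) + (k - 2 ^ δ * k')| := by ring_nf
      _ ≤ |2 ^ (g + δ) * (t + n) - k| + |(k:ℝ) - 2 ^ δ * k'| := abs_add_le _ _
      _ < 2 ^ δ := by linarith
  have h4 : 2 ^ (g + δ) * (t + n) - 2 ^ δ * (k':ℝ) = 2 ^ δ * (2 ^ g * (t + n) - k') := by ring
  rw [h4, abs_mul, abs_of_pos (by positivity : (0:ℝ) < 2 ^ δ)] at h3
  have h5 : (0:ℝ) < 2 ^ δ := by positivity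
  nlinarith

lemma card_mod_le_one {j e : ℕ} (he : e ≤ j) (a c : ℤ) (s : Finset ℕ)
    (hs : ∀ w ∈ s, w < 2 ^ e ∧ ∃ n : ℤ, a + w = c + 2 ^ j * n) : s.card ≤ 1 := by
  rw [card_le_one]
  intro w hw w' hw'
  obtain ⟨h1, n, hn⟩ := hs w hw
  obtain ⟨h2, n', hn'⟩ := hs w' hw'
  have hp : (2:ℕ) ^ e ≤ 2 ^ j := Nat.pow_le_pow_right (by norm_num) he
  have hp1 : (w:ℤ) < 2 ^ j := by exact_mod_cast h1.trans_le hp
  have hp2 : (w':ℤ) < 2 ^ j := by exact_mod_cast h2.trans_le hp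
  have h3 : (w:ℤ) - w' = 2 ^ j * (n - n') := by linarith
  have hpos : (0:ℤ) < 2 ^ j := by positivity
  have h4 : n - n' < 1 := by
    by_contra hcon
    have : 1 ≤ n - n' := by omega
    nlinarith
  have h5 : -1 < n - n' := by
    by_contra hcon
    have : n - n' ≤ -1 := by omega
    nlinarith
  have h6 : n - n' = 0 := by omega
  rw [h6, mul_zero] at h3
  omega

open scoped Classical in
lemma near_card {j e : ℕ} (he : e ≤ j) (a : ℤ) (t : ℝ) :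
    ((range (2 ^ e)).filter fun w : ℕ => Near j (a + w) t).card ≤ 2 := by
  have hsub : ((range (2 ^ e)).filter fun w : ℕ => Near j (a + w) t) ⊆
      ((range (2 ^ e)).filter fun w : ℕ => ∃ n : ℤ, a + w = ⌊2 ^ j * t⌋ + 2 ^ j * n) ∪
      ((range (2 ^ e)).filter fun w : ℕ => ∃ n : ℤ, a + w = ⌊2 ^ j * t⌋ + 1 + 2 ^ j * n) := by
    intro w hw
    rw [mem_filter] at hw
    obtain ⟨n, hn | hn⟩ := near_mod hw.2
    · exact mem_union_left _ (mem_filter.2 ⟨hw.1, n, hn⟩)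
    · exact mem_union_right _ (mem_filter.2 ⟨hw.1, n, hn⟩)
  refine (card_le_card hsub).trans ((card_union_le _ _).trans ?_)
  have h1 := card_mod_le_one he a ⌊2 ^ j * t⌋
    ((range (2 ^ e)).filter fun w : ℕ => ∃ n : ℤ, a + w = ⌊2 ^ j * t⌋ + 2 ^ j * n)
    (fun w hw => by rw [mem_filter, mem_range] at hw; exact hw)
  have h2 := card_mod_le_one he a (⌊2 ^ j * t⌋ + 1)
    ((range (2 ^ e)).filter fun w : ℕ => ∃ n : ℤ, a + w = ⌊2 ^ j * t⌋ + 1 + 2 ^ j * n)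
    (fun w hw => by rw [mem_filter, mem_range] at hw; exact hw)
  omega

end Pool.Agent.Lib.MP_1ce311_an
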