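import Mathlib

/-!
Discrete Littlewood-Paley engine for MP_1ce311_an: definitions.
-/

namespace Pool.Agent.Lib.MP_1ce311_an

/-- A family of kernels on the cyclic group `ℤ / 2^L` (as `2^L`-periodic functions on `ℤ`), one for
every dyadic level `σ`, with decay, fine regularity and coarse cancellation. -/
structure Ker (L : ℕ) (C r : ℝ) (w : ℕ → ℤ → ℝ) : Prop where
  per : ∀ σ z, w σ (z + 2 ^ L) = w σ z
  decay : ∀ σ, σ ≤ L → ∀ z : ℕ, z < 2 ^ L →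
    |w σ z| ≤ C * (1 + (z : ℝ) / 2 ^ (L - σ)) ^ (-(1 + r))
  fine : ∀ σ τ, σ < τ → τ ≤ L →
    ∑ z ∈ Finset.range (2 ^ L), |w σ z - w σ (z - 2 ^ (L - τ))| ≤ C * 2 ^ (L - τ)
  coarse : ∀ τ σ, τ ≤ σ → σ ≤ L →
    ∑ z ∈ Finset.range (2 ^ L), |∑ i ∈ Finset.range (2 ^ (σ - τ)), w σ (z - i * 2 ^ (L - σ))| ≤
      C * 2 ^ (L - τ) * ((2 : ℝ) ^ (σ - τ)) ^ (-r)

/-- matrix of the operator `T_σ` on functions on `Fin (2^L)` -/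
noncomputable def Tk (L : ℕ) (w : ℕ → ℤ → ℝ) (σ : ℕ) (x y : Fin (2 ^ L)) : ℝ :=
  2 ^ σ / 2 ^ L * w σ (((x : ℕ) : ℤ) - ((((y : ℕ) / 2 ^ (L - σ)) * 2 ^ (L - σ) : ℕ) : ℤ))

/-- vector-valued boundedness `ℓ^{2k}(ℓ²) → ℓ^{2k}(ℓ²)` of a matrix -/
def VBdd {I X I' X' : Type} [Fintype I] [Fintype X] [Fintype I'] [Fintype X'] (k : ℕ) (C : ℝ)
    (A : I' → X' → I → X → ℝ) : Prop :=
  ∀ (κ : Type) [Fintype κ] (a : κ → I → X → ℝ),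
    ∑ x', (∑ c, ∑ i', (∑ i, ∑ x, A i' x' i x * a c i x) ^ 2) ^ k ≤
      C * ∑ x, (∑ c, ∑ i, (a c i x) ^ 2) ^ k

end Pool.Agent.Lib.MP_1ce311_an
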