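import Mathlib
import Pool.Agent.Lib.MP_1ce311_an.Hat

open MeasureTheory Set Filter Complex TopologicalSpace Asymptotics
open scoped Real Topology FourierTransform

namespace Pool.Agent.Lib.MP_1ce311_an

/-- normalised Haar measure on the circle -/
noncomputable abbrev hm : Measure UnitAddCircle := AddCircle.haarAddCircle

/-- normalising factor -/
noncomputable def cj (r : ℝ) (j : ℕ) : ℝ := (2 ^ j : ℝ) ^ r * (2 * π) ^ (-r)

/-- the fractional derivative of the hat function -/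
noncomputable def thh (r : ℝ) (j : ℕ) (k : ℤ) : C(UnitAddCircle, ℝ) :=
  cj r j • per (gf (2 - r) j k) +
    ContinuousMap.const _ ((∫ x, Hh j k x ∂hm) - cj r j * ∫ x, per (gf (2 - r) j k) x ∂hm)

lemma cont_integrable (f : C(UnitAddCircle, ℝ)) : Integrable f hm :=
  f.continuous.integrable_of_hasCompactSupport (HasCompactSupport.of_compactSpace _)

lemma cont_integrable' (f : C(UnitAddCircle, ℂ)) : Integrable f hm :=
  f.continuous.integrable_of_hasCompactSupport (HasCompactSupport.of_compactSpace _)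

lemma fourierCoeff_zero' (f : C(UnitAddCircle, ℝ)) :
    fourierCoeff (fun x : UnitAddCircle => ((f x : ℝ) : ℂ)) 0 = ((∫ x, f x ∂hm : ℝ) : ℂ) := by
  rw [fourierCoeff]
  simp only [neg_zero, fourier_zero, one_smul]
  exact integral_ofReal

lemma fourierCoeff_thh (r : ℝ) (j : ℕ) (k m : ℤ) (hm' : m ≠ 0) :
    fourierCoeff (fun x : UnitAddCircle => ((thh r j k x : ℝ) : ℂ)) m =
      (cj r j : ℂ) * fourierCoeff (fun x : UnitAddCircle => ((per (gf (2 - r) j k) x : ℝ) : ℂ)) m := by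
  set g := per (gf (2 - r) j k)
  set c : ℝ := (∫ x, Hh j k x ∂hm) - cj r j * ∫ x, per (gf (2 - r) j k) x ∂hm with hc
  have h1 : (fun x : UnitAddCircle => ((thh r j k x : ℝ) : ℂ)) =
      fun x => (cj r j : ℂ) * ((g x : ℝ) : ℂ) + (c : ℂ) := by
    ext x
    simp [thh, g, hc]
  rw [h1]
  simp only [fourierCoeff, smul_eq_mul]
  have hg : Integrable (fun x : UnitAddCircle => fourier (-m) x * ((g x : ℝ) : ℂ)) hm :=
    cont_integrable' ⟨fun x => fourier (-m) x * ((g x : ℝ) : ℂ), by fun_prop⟩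
  have hf : Integrable (fun x : UnitAddCircle => (fourier (-m) x : ℂ)) hm :=
    cont_integrable' (fourier (-m))
  have h2 : ∀ x : UnitAddCircle, fourier (-m) x * ((cj r j : ℂ) * ((g x : ℝ) : ℂ) + (c : ℂ)) =
      (cj r j : ℂ) * (fourier (-m) x * ((g x : ℝ) : ℂ)) + (c : ℂ) * fourier (-m) x := by
    intro x; ring
  simp_rw [h2]
  rw [integral_add (hg.const_mul _) (hf.const_mul _), integral_const_mul, integral_const_mul]
  have h3 : ∫ x : UnitAddCircle, (fourier (-m) x : ℂ) ∂hm = 0 := by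
    have h6 : fourierCoeff (fun _ : UnitAddCircle => (1:ℂ)) m = ∫ x : UnitAddCircle, (fourier (-m) x : ℂ) ∂hm := by
      simp [fourierCoeff]
    rw [← h6]
    have h8 : (fun x : UnitAddCircle => ((per (gf 2 0 0) x : ℝ) : ℂ)) = fun _ => (1:ℂ) := by
      ext x
      have := Hh_zero 0 x
      rw [Hh] at this
      rw [this]
      norm_num
    have h9 := fourierCoeff_gf (a := 2) (by norm_num) le_rfl 0 0 m hm'
    rw [h8] at h9
    rw [h9]
    have h10 : cexp (2 * π * I * m / 2 ^ 0) = 1 := by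
      rw [pow_zero, div_one, show (2 * π * I * m : ℂ) = m * (2 * π * I) by ring]
      exact Complex.exp_int_mul_two_pi_mul_I m
    have h11 : cexp (-(2 * π * I * m / 2 ^ 0)) = 1 := by
      rw [Complex.exp_neg, h10, inv_one]
    rw [h10, h11]
    norm_num
  rw [h3, mul_zero, add_zero]

lemma cj_pos (r : ℝ) (j : ℕ) : 0 < cj r j := by unfold cj; positivity

lemma integral_thh (r : ℝ) (j : ℕ) (k : ℤ) : ∫ x, thh r j k x ∂hm = ∫ x, Hh j k x ∂hm := by
  have h1 : ∀ x, thh r j k x = cj r j * per (gf (2 - r) j k) x +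
      ((∫ x, Hh j k x ∂hm) - cj r j * ∫ x, per (gf (2 - r) j k) x ∂hm) := by
    intro x; simp [thh]
  simp_rw [h1]
  rw [integral_add ((cont_integrable _).const_mul _) (integrable_const _), integral_const_mul,
    integral_const]
  simp

/-- the fundamental relation between the hat function and its fractional derivative -/
lemma fourierCoeff_Hh {r : ℝ} (hr : 0 < r) (hr1 : r < 1) (j : ℕ) (k m : ℤ) :
    fourierCoeff (fun x : UnitAddCircle => ((Hh j k x : ℝ) : ℂ)) m =
      bern r m * fourierCoeff (fun x : UnitAddCircle => ((thh r j k x : ℝ) : ℂ)) m := by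
  by_cases hm' : m = 0
  · subst hm'
    rw [fourierCoeff_zero', fourierCoeff_zero', integral_thh, bern, if_pos rfl, one_mul]
  · rw [fourierCoeff_thh r j k m hm']
    exact fourierCoeff_gf_two hr hr1 j k m hm'

lemma abs_integral_per_le {a : ℝ} (ha : 1 < a) (ha2 : a ≤ 2) (j : ℕ) (k : ℤ) :
    |∫ x, per (gf a j k) x ∂hm| ≤ (2 ^ j : ℝ)⁻¹ * ∫ y, |Th a y| := by
  have h := fourierCoeff_per (gf_decay ha ha2 j k) 0
  rw [fourierCoeff_zero'] at h
  have h2 : ((∫ x, per (gf a j k) x ∂hm : ℝ) : ℂ) = ((∫ x : ℝ, gf a j k x : ℝ) : ℂ) := by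
    rw [h]
    have : ∀ x : ℝ, ((gf a j k x : ℝ) : ℂ) * cexp (-((2 * π * I * ((0:ℤ):ℂ)) * x)) =
        ((gf a j k x : ℝ) : ℂ) := by
      intro x; simp
    simp_rw [this]
    exact integral_ofReal
  have h3 : ∫ x, per (gf a j k) x ∂hm = ∫ x : ℝ, gf a j k x := by exact_mod_cast h2
  have h2j : (0:ℝ) < 2 ^ j := by positivity
  have h4 : ∫ x : ℝ, |gf a j k x| = (2 ^ j : ℝ)⁻¹ * ∫ y, |Th a y| := by
    simp_rw [gf_apply ha]
    have hsub := integral_sub_right_eq_self (μ := volume) (fun y : ℝ => |Th a y|) (k:ℝ)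
    have hmul := Measure.integral_comp_mul_left (fun y : ℝ => |Th a (y - k)|) (2 ^ j)
    rw [hmul, hsub, abs_of_pos (inv_pos.2 h2j), smul_eq_mul]
  rw [h3, ← h4]
  exact abs_integral_le_integral_abs

lemma summable_rpow_int {r : ℝ} (hr : 0 < r) : Summable fun m : ℤ => (1 + |(m:ℝ)|) ^ (-(1 + r)) := by
  have h := Real.summable_abs_int_rpow (b := 1 + r) (by linarith)
  have h2 : Summable fun m : ℤ => (if m = 0 then (1:ℝ) else 0) + |(m:ℝ)| ^ (-(1 + r)) := by
    refine Summable.add ?_ h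
    exact (hasSum_ite_eq (0:ℤ) (1:ℝ)).summable
  refine Summable.of_nonneg_of_le (fun m => by positivity) (fun m => ?_) h2
  by_cases hm' : m = 0
  · subst hm'
    simp only [Int.cast_zero, abs_zero, add_zero, Real.one_rpow, if_true]
    have : (0:ℝ) ≤ 0 ^ (-(1 + r)) := Real.rpow_nonneg le_rfl _
    linarith
  · rw [if_neg hm', zero_add]
    have : 0 < |(m:ℝ)| := abs_pos.2 (by exact_mod_cast hm')
    exact Real.rpow_le_rpow_of_nonpos this (by linarith) (by linarith)

/-- weights bounding the fractional derivative on dyadic cells -/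
theorem exists_weights {r : ℝ} (hr : 0 < r) (hr1 : r < 1) :
    ∃ (aw : ℕ → ℤ → ℝ) (A : ℝ), 0 < A ∧ (∀ j i, 0 ≤ aw j i) ∧
      (∀ j i, aw j (i + 2 ^ j) = aw j i) ∧
      (∀ j, ∑ i ∈ Finset.range (2 ^ j), aw j i ≤ A) ∧
      ∀ j k (t : ℝ), |thh r j k (t : UnitAddCircle)| ≤ (2 ^ j : ℝ) ^ r * aw j (⌊2 ^ j * t⌋ - k) := by
  have ha : 1 < 2 - r := by linarith
  have ha2 : 2 - r ≤ 2 := by linarith
  obtain ⟨C, hC, hTh⟩ := Th_bound ha ha2
  set B : ℤ → ℝ := fun i => C * 2 ^ (1 + r) * (1 + |(i:ℝ)|) ^ (-(1 + r)) with hB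
  have hB0 : ∀ i, 0 ≤ B i := fun i => by simp only [hB]; positivity
  have hBs : Summable B := (summable_rpow_int hr).mul_left _
  set D : ℝ := (∫ y, |Th 2 y|) + ∫ y, |Th (2 - r) y| with hD
  have hD0 : 0 ≤ D := add_nonneg (integral_nonneg fun _ => abs_nonneg _)
    (integral_nonneg fun _ => abs_nonneg _)
  have hinj : ∀ (j : ℕ) (i : ℤ), Function.Injective fun n : ℤ => i + 2 ^ j * n := by
    intro j i n n' h
    have h2 : (2:ℤ) ^ j * n = 2 ^ j * n' := by simpa using h
    exact mul_left_cancel₀ (by positivity) h2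
  have hBs' : ∀ (j : ℕ) (i : ℤ), Summable fun n : ℤ => B (i + 2 ^ j * n) := fun j i =>
    hBs.comp_injective (hinj j i)
  refine ⟨fun j i => (∑' n : ℤ, B (i + 2 ^ j * n)) + D / 2 ^ j, (∑' m, B m) + D + 1, ?_, ?_, ?_,
    ?_, ?_⟩
  · have : 0 ≤ ∑' m, B m := tsum_nonneg hB0
    linarith
  · intro j i
    exact add_nonneg (tsum_nonneg fun n => hB0 _) (by positivity)
  · intro j i
    simp only
    congr 1
    rw [← (Equiv.addRight (1:ℤ)).tsum_eq (fun n : ℤ => B (i + 2 ^ j * n))]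
    congr 1
    ext n
    congr 1
    simp only [Equiv.coe_addRight]
    ring
  · intro j
    rw [Finset.sum_add_distrib, Finset.sum_const, Finset.card_range, nsmul_eq_mul]
    have h1 : ((2 ^ j : ℕ) : ℝ) * (D / 2 ^ j) = D := by
      push_cast
      field_simp
    rw [h1]
    have h2 : ∑ i ∈ Finset.range (2 ^ j), ∑' n : ℤ, B ((i:ℤ) + 2 ^ j * n) = ∑' m, B m := by
      have : NeZero (2 ^ j) := ⟨by positivity⟩
      rw [← (Int.divModEquiv (2 ^ j)).symm.tsum_eq B]
      have hs : Summable fun p : ℤ × Fin (2 ^ j) => B ((Int.divModEquiv (2 ^ j)).symm p) :=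
        (Int.divModEquiv (2 ^ j)).symm.summable_iff.2 hBs
      have hs' : Summable fun p : Fin (2 ^ j) × ℤ =>
          B ((Int.divModEquiv (2 ^ j)).symm (p.2, p.1)) :=
        (Equiv.prodComm _ _).summable_iff.2 hs
      rw [← (Equiv.prodComm (Fin (2 ^ j)) ℤ).tsum_eq
        (fun p : ℤ × Fin (2 ^ j) => B ((Int.divModEquiv (2 ^ j)).symm p))]
      have h3 := hs'.tsum_prod
      rw [show (∑' c : Fin (2 ^ j) × ℤ, B ((Int.divModEquiv (2 ^ j)).symm
        ((Equiv.prodComm (Fin (2 ^ j)) ℤ) c))) =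
        ∑' p : Fin (2 ^ j) × ℤ, B ((Int.divModEquiv (2 ^ j)).symm (p.2, p.1)) from rfl, h3,
        tsum_fintype, Finset.sum_range]
      refine Finset.sum_congr rfl fun i _ => ?_
      congr 1
      ext n
      congr 1
      simp only [Int.divModEquiv_symm_apply]
      push_cast
      ring
    rw [h2]
    linarith
  · intro j k t
    have h2j : (0:ℝ) < 2 ^ j := by positivity
    have hcj0 := cj_pos r j
    have hcj : cj r j ≤ (2 ^ j : ℝ) ^ r := by
      rw [cj]
      have h1 : (2 * π) ^ (-r) ≤ 1 := by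
        apply Real.rpow_le_one_of_one_le_of_nonpos _ (by linarith)
        have := Real.pi_gt_three
        linarith
      have h2 : 0 ≤ (2 ^ j : ℝ) ^ r := by positivity
      nlinarith
    have h1 : thh r j k (t : UnitAddCircle) = cj r j * per (gf (2 - r) j k) (t : UnitAddCircle) +
      ((∫ x, Hh j k x ∂hm) - cj r j * ∫ x, per (gf (2 - r) j k) x ∂hm) := by
      simp [thh]
    have h2 : |per (gf (2 - r) j k) (t : UnitAddCircle)| ≤
        ∑' n : ℤ, B ((⌊2 ^ j * t⌋ - k) + 2 ^ j * n) := by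
      rw [per_apply (gf_decay ha ha2 j k)]
      have hle : ∀ n : ℤ, ‖gf (2 - r) j k (t + n)‖ ≤ B ((⌊2 ^ j * t⌋ - k) + 2 ^ j * n) := by
        intro n
        rw [gf_apply ha, Real.norm_eq_abs]
        refine (hTh _).trans ?_
        simp only [hB]
        rw [mul_assoc]
        gcongr C * ?_
        set y : ℝ := 2 ^ j * (t + n) - k with hy
        set i : ℤ := (⌊2 ^ j * t⌋ - k) + 2 ^ j * n with hi
        have hf1 := Int.floor_le (2 ^ j * t)
        have hf2 := Int.lt_floor_add_one (2 ^ j * t)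
        have e1 : (i:ℝ) = ⌊2 ^ j * t⌋ - k + 2 ^ j * n := by
          rw [hi]; push_cast; ring
        have e2 : (i:ℝ) ≤ y := by rw [e1, hy]; linarith
        have e3 : y < i + 1 := by rw [e1, hy]; linarith
        have e4 : (1 + |(i:ℝ)|) / 2 ≤ 1 + |y| := by
          have : |(i:ℝ)| ≤ |y| + 1 := by
            have h5 : |(i:ℝ)| - |y| ≤ |(i:ℝ) - y| := abs_sub_abs_le_abs_sub _ _
            have h6 : |(i:ℝ) - y| ≤ 1 := abs_le.2 ⟨by linarith, by linarith⟩
            linarith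
          have := abs_nonneg y
          linarith
        calc (1 + |y|) ^ (2 - r - 3) = (1 + |y|) ^ (-(1 + r)) := by ring_nf
          _ ≤ ((1 + |(i:ℝ)|) / 2) ^ (-(1 + r)) :=
            Real.rpow_le_rpow_of_nonpos (by positivity) e4 (by linarith)
          _ = 2 ^ (1 + r) * (1 + |(i:ℝ)|) ^ (-(1 + r)) := by
            rw [Real.div_rpow (by positivity) (by norm_num),
              Real.rpow_neg (by norm_num : (0:ℝ) ≤ 2)]
            field_simp
      have h3 := tsum_of_norm_bounded (hBs' j (⌊2 ^ j * t⌋ - k)).hasSum hle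
      rwa [Real.norm_eq_abs] at h3
    have h3 := abs_integral_per_le (a := 2) (by norm_num) le_rfl j k
    have h4 := abs_integral_per_le ha ha2 j k
    have h5 : |∫ x, Hh j k x ∂hm| ≤ (2 ^ j : ℝ)⁻¹ * ∫ y, |Th 2 y| := h3
    have hone : 1 ≤ (2 ^ j : ℝ) ^ r := by
      apply Real.one_le_rpow _ hr.le
      exact one_le_pow₀ (by norm_num)
    set S := ∑' n : ℤ, B ((⌊2 ^ j * t⌋ - k) + 2 ^ j * n)
    set I2 := ∫ y, |Th 2 y|
    set Ir := ∫ y, |Th (2 - r) y|
    have hI2 : 0 ≤ I2 := integral_nonneg fun _ => abs_nonneg _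
    have hIr : 0 ≤ Ir := integral_nonneg fun _ => abs_nonneg _
    rw [h1]
    calc |cj r j * per (gf (2 - r) j k) (t : UnitAddCircle) +
          ((∫ x, Hh j k x ∂hm) - cj r j * ∫ x, per (gf (2 - r) j k) x ∂hm)|
        ≤ |cj r j * per (gf (2 - r) j k) (t : UnitAddCircle)| +
          (|∫ x, Hh j k x ∂hm| + |cj r j * ∫ x, per (gf (2 - r) j k) x ∂hm|) := by
          refine (abs_add_le _ _).trans ?_
          gcongr
          exact abs_sub _ _
      _ = cj r j * |per (gf (2 - r) j k) (t : UnitAddCircle)| +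
          (|∫ x, Hh j k x ∂hm| + cj r j * |∫ x, per (gf (2 - r) j k) x ∂hm|) := by
          rw [abs_mul, abs_mul, abs_of_pos hcj0]
      _ ≤ (2 ^ j : ℝ) ^ r * S + ((2 ^ j : ℝ) ^ r * ((2 ^ j : ℝ)⁻¹ * I2) +
          (2 ^ j : ℝ) ^ r * ((2 ^ j : ℝ)⁻¹ * Ir)) := by
          have h6 : (2 ^ j : ℝ)⁻¹ * I2 ≤ (2 ^ j : ℝ) ^ r * ((2 ^ j : ℝ)⁻¹ * I2) :=
            le_mul_of_one_le_left (by positivity) hone
          gcongr
          exact h5.trans h6
      _ = (2 ^ j : ℝ) ^ r * (S + D / 2 ^ j) := by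
          rw [hD]
          ring

end Pool.Agent.Lib.MP_1ce311_an
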