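import Mathlib
import Pool.Agent.Lib.MP_1ce311_an.LPDefs
import Pool.Agent.Lib.MP_1ce311_an.Thh

open Finset

namespace Pool.Agent.Lib.MP_1ce311_an

/-- properties of the truncated power on the grid -/
structure Conc (p : ℤ → ℝ) : Prop where
  neg : ∀ j < 0, p j = 0
  nn : ∀ j, 0 ≤ p j
  mono : Monotone p
  conc : ∀ i j : ℤ, 0 ≤ i → i ≤ j → p (j + 1) - p j ≤ p (i + 1) - p i

lemma Conc.antitone_diff {p : ℤ → ℝ} (hp : Conc p) (U : ℕ) {j j' : ℤ} (hj : (U:ℤ) ≤ j)
    (hjj : j ≤ j') : p j' - p (j' - U) ≤ p j - p (j - U) := by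
  induction U generalizing j j' with
  | zero => simp
  | succ U ih =>
    have h1 := ih (j := j) (j' := j') (by push_cast at hj; omega) hjj
    have h2 := hp.conc (j - U - 1) (j' - U - 1) (by push_cast at hj; omega) (by omega)
    push_cast
    have e1 : j - (U + 1 : ℤ) = j - U - 1 := by ring
    have e2 : j' - (U + 1 : ℤ) = j' - U - 1 := by ring
    rw [show j' - (U:ℤ) - 1 + 1 = j' - U by ring, show j - (U:ℤ) - 1 + 1 = j - U by ring] at h2
    rw [e1, e2]
    linarith

lemma Conc.diff_nonneg {p : ℤ → ℝ} (hp : Conc p) (U : ℕ) (j : ℤ) : 0 ≤ p j - p (j - U) := by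
  have := hp.mono (show j - (U:ℤ) ≤ j by omega)
  linarith

lemma sum_telescope_le (a : ℕ → ℝ) (ha : ∀ i, 0 ≤ a i) (n b : ℕ) :
    ∑ i ∈ range n, (a i - a (b + i)) ≤ ∑ i ∈ range b, a i := by
  rw [sum_sub_distrib]
  have h1 : ∑ i ∈ range n, a i ≤ ∑ i ∈ range (b + n), a i :=
    sum_le_sum_of_subset_of_nonneg (fun i hi => by rw [mem_range] at *; omega)
      (fun i _ _ => ha i)
  rw [sum_range_add] at h1
  linarith

/-- sums of first differences -/
lemma Conc.sum_diff {p : ℤ → ℝ} (hp : Conc p) (U b : ℕ) :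
    ∑ j ∈ range (b + U), (p j - p ((j:ℤ) - U)) ≤ U * p ((b + U : ℕ) : ℤ) := by
  rw [sum_sub_distrib]
  have h1 : ∑ j ∈ range (b + U), p ((j:ℤ) - U) = ∑ j ∈ range b, p j := by
    rw [add_comm, sum_range_add]
    have h2 : ∑ j ∈ range U, p ((j:ℤ) - U) = 0 := by
      refine sum_eq_zero fun j hj => hp.neg _ ?_
      rw [mem_range] at hj
      omega
    rw [h2, zero_add]
    refine sum_congr rfl fun j _ => ?_
    congr 1
    push_cast
    ring
  rw [h1, sum_range_add]
  have h3 : ∑ i ∈ range U, p ((b + i : ℕ) : ℤ) ≤ ∑ i ∈ range U, p ((b + U : ℕ) : ℤ) := by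
    refine sum_le_sum fun i hi => hp.mono ?_
    rw [mem_range] at hi
    push_cast
    omega
  rw [sum_const, card_range, nsmul_eq_mul] at h3
  linarith

/-- **Lemma T** -/
lemma Conc.lemmaT {p : ℤ → ℝ} (hp : Conc p) (U b N : ℕ) :
    ∑ j ∈ range N, |(p j - p ((j:ℤ) - U)) - (p ((j:ℤ) - b) - p ((j:ℤ) - b - U))| ≤
      3 * (U * p ((b + U : ℕ) : ℤ)) := by
  set D : ℤ → ℝ := fun j => p j - p (j - U) with hD
  have hD0 : ∀ j, 0 ≤ D j := hp.diff_nonneg U
  have hDneg : ∀ j < 0, D j = 0 := by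
    intro j hj
    simp only [hD]
    rw [hp.neg j hj, hp.neg _ (by omega), sub_zero]
  have hsum := hp.sum_diff U b
  have h1 : ∑ j ∈ range N, |D j - D ((j:ℤ) - b)| ≤
      ∑ j ∈ range (b + U + N), |D j - D ((j:ℤ) - b)| :=
    sum_le_sum_of_subset_of_nonneg (fun i hi => by rw [mem_range] at *; omega)
      (fun i _ _ => abs_nonneg _)
  refine h1.trans ?_
  rw [sum_range_add]
  have h2 : ∑ j ∈ range (b + U), |D j - D ((j:ℤ) - b)| ≤ 2 * ∑ j ∈ range (b + U), D j := by
    have h3 : ∀ j ∈ range (b + U), |D j - D ((j:ℤ) - b)| ≤ D j + D ((j:ℤ) - b) := by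
      intro j _
      rw [abs_le]
      constructor <;> linarith [hD0 j, hD0 ((j:ℤ) - b)]
    refine (sum_le_sum h3).trans ?_
    rw [sum_add_distrib]
    have h4 : ∑ j ∈ range (b + U), D ((j:ℤ) - b) ≤ ∑ j ∈ range (b + U), D j := by
      rw [sum_range_add]
      have h5 : ∑ j ∈ range b, D ((j:ℤ) - b) = 0 := by
        refine sum_eq_zero fun j hj => hDneg _ ?_
        rw [mem_range] at hj
        omega
      rw [h5, zero_add]
      have h6 : ∑ j ∈ range U, D (((b + j : ℕ) : ℤ) - b) = ∑ j ∈ range U, D j := by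
        refine sum_congr rfl fun j _ => ?_
        congr 1
        push_cast
        ring
      rw [h6]
      exact sum_le_sum_of_subset_of_nonneg (fun i hi => by rw [mem_range] at *; omega)
        (fun i _ _ => hD0 _)
    linarith
  have h3 : ∑ i ∈ range N, |D ((b + U + i : ℕ) : ℤ) - D (((b + U + i : ℕ) : ℤ) - b)| ≤
      ∑ j ∈ range (b + U), D j := by
    have h4 : ∀ i ∈ range N, |D ((b + U + i : ℕ) : ℤ) - D (((b + U + i : ℕ) : ℤ) - b)| =
        D ((U + i : ℕ) : ℤ) - D ((U + (b + i) : ℕ) : ℤ) := by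
      intro i _
      have e1 : ((b + U + i : ℕ) : ℤ) - b = ((U + i : ℕ) : ℤ) := by push_cast; ring
      have e2 : ((b + U + i : ℕ) : ℤ) = ((U + (b + i) : ℕ) : ℤ) := by push_cast; ring
      rw [e1, e2, abs_sub_comm, abs_of_nonneg]
      have := hp.antitone_diff U (j := ((U + i : ℕ) : ℤ)) (j' := ((U + (b + i) : ℕ) : ℤ))
        (by push_cast; omega) (by push_cast; omega)
      simp only [hD]
      linarith
    rw [sum_congr rfl h4]
    refine (sum_telescope_le (fun i => D ((U + i : ℕ) : ℤ)) (fun i => hD0 _) N b).trans ?_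
    rw [add_comm b U, sum_range_add]
    have : 0 ≤ ∑ j ∈ range U, D j := sum_nonneg fun j _ => hD0 _
    linarith
  simp only [hD] at h2 h3 ⊢
  linarith

/-- the truncated power on the grid -/
noncomputable def pp (s θ : ℝ) (j : ℤ) : ℝ := (max (θ + j) 0) ^ s

lemma pp_conc {s θ : ℝ} (hs : 0 < s) (hs1 : s ≤ 1) (hθ0 : 0 ≤ θ) (hθ1 : θ < 1) :
    Conc (pp s θ) where
  neg j hj := by
    have h1 : (j:ℝ) ≤ -1 := by exact_mod_cast (by omega : j ≤ -1)
    rw [pp, max_eq_right (by linarith), Real.zero_rpow hs.ne']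
  nn j := Real.rpow_nonneg (le_max_right _ _) _
  mono := by
    intro i j hij
    unfold pp
    have : (i:ℝ) ≤ j := by exact_mod_cast hij
    apply Real.rpow_le_rpow (le_max_right _ _) _ hs.le
    exact max_le_max (by linarith) le_rfl
  conc i j hi hij := by
    have hi' : (0:ℝ) ≤ i := by exact_mod_cast hi
    have hij' : (i:ℝ) ≤ j := by exact_mod_cast hij
    unfold pp
    push_cast
    rw [max_eq_left (by linarith), max_eq_left (by linarith), max_eq_left (by linarith),
      max_eq_left (by linarith)]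
    set x := θ + i with hx
    set y := θ + j with hy
    have hx0 : 0 ≤ x := by linarith
    have hxy : x ≤ y := by linarith
    rw [show θ + ((j:ℝ) + 1) = y + 1 by rw [hy]; ring, show θ + ((i:ℝ) + 1) = x + 1 by rw [hx]; ring]
    have hc := Real.concaveOn_rpow hs.le hs1
    have hd : 0 < y + 1 - x := by linarith
    set t := 1 / (y + 1 - x) with ht
    have ht0 : 0 ≤ t := by positivity
    have ht1 : t ≤ 1 := by
      rw [ht, div_le_one hd]; linarith
    have hy1 : (0:ℝ) ≤ y + 1 := by linarith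
    have ht2 : (0:ℝ) ≤ 1 - t := by linarith
    have h1 := hc.2 (Set.mem_Ici.2 hx0) (Set.mem_Ici.2 hy1) ht2 ht0 (by ring)
    have h2 := hc.2 (Set.mem_Ici.2 hx0) (Set.mem_Ici.2 hy1) ht0 ht2 (by ring)
    simp only [smul_eq_mul] at h1 h2
    have htd : t * (y + 1 - x) = 1 := by
      rw [ht]; field_simp
    have e1 : (1 - t) * x + t * (y + 1) = x + 1 := by linarith
    have e2 : t * x + (1 - t) * (y + 1) = y := by linarith
    rw [e1] at h1
    rw [e2] at h2
    linarith

/-- periodisation of a sequence on the grid -/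
lemma sum_abs_periodised (n : ℕ) (hn : 0 < n) (q : ℤ → ℝ) (hq : ∀ j < 0, q j = 0) (Q : ℝ)
    (hQ : ∀ N, ∑ j ∈ range N, |q j| ≤ Q) :
    ∑ z ∈ range n, |∑' k : ℤ, q (z + k * n)| ≤ Q := by
  have hQ0 : 0 ≤ Q := by simpa using hQ 0
  have hsupp : ∀ z : ℕ, z < n → Function.support (fun k : ℤ => |q (z + k * n)|) ⊆
      Set.range (Nat.cast : ℕ → ℤ) := by
    intro z hz k hk
    by_contra hcon
    apply hk
    have : k < 0 := by
      by_contra h0
      exact hcon ⟨k.toNat, Int.toNat_of_nonneg (by omega)⟩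
    have h1 : (z:ℤ) + k * n < 0 := by
      have : k * n ≤ -1 * n := by
        apply mul_le_mul_of_nonneg_right (by omega) (by omega)
      omega
    simp [hq _ h1]
  have hNat : ∀ z : ℕ, z < n → ∑' k : ℤ, |q (z + k * n)| = ∑' k : ℕ, |q (z + (k:ℤ) * n)| := by
    intro z hz
    exact (Function.Injective.tsum_eq Nat.cast_injective (hsupp z hz)).symm
  -- partial sums over blocks
  have hblock : ∀ K : ℕ, ∑ k ∈ range K, ∑ z ∈ range n, |q (z + (k:ℤ) * n)| ≤ Q := by
    intro K
    have h1 : ∑ k ∈ range K, ∑ z ∈ range n, |q (z + (k:ℤ) * n)| = ∑ j ∈ range (K * n), |q j| := by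
      induction K with
      | zero => simp
      | succ K ih =>
        rw [sum_range_succ, ih, Nat.succ_mul, sum_range_add]
        congr 1
        refine sum_congr rfl fun z _ => ?_
        congr 2
        push_cast
        ring
    rw [h1]
    exact hQ _
  have hsz : ∀ z ∈ range n, Summable fun k : ℕ => |q ((z:ℤ) + (k:ℤ) * n)| := by
    intro z hz
    refine summable_of_sum_range_le (c := Q) (fun k => abs_nonneg _) fun K => ?_
    refine le_trans (sum_le_sum fun k _ => ?_) (hblock K)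
    exact single_le_sum (f := fun z : ℕ => |q ((z:ℤ) + (k:ℤ) * n)|) (fun z _ => abs_nonneg _) hz
  have h1 : ∀ z ∈ range n, |∑' k : ℤ, q (z + k * n)| ≤ ∑' k : ℕ, |q (z + (k:ℤ) * n)| := by
    intro z hz
    rw [← hNat z (mem_range.1 hz)]
    have hsum : Summable fun k : ℤ => |q (z + k * n)| := by
      have := (Function.Injective.summable_iff (f := fun k : ℤ => |q (z + k * n)|)
        Nat.cast_injective (fun k hk => by
          by_contra h0
          exact hk (hsupp z (mem_range.1 hz) h0))).1 (hsz z hz)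
      exact this
    have := norm_tsum_le_tsum_norm (f := fun k : ℤ => q (z + k * n)) hsum
    simpa using this
  refine (sum_le_sum h1).trans ?_
  rw [← Summable.tsum_finsetSum hsz]
  refine Real.tsum_le_of_sum_range_le (fun k => sum_nonneg fun z _ => abs_nonneg _) hblock

end Pool.Agent.Lib.MP_1ce311_an
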