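import Mathlib
import Pool.Agent.Lib.MP_1ce311_an.Thh

open MeasureTheory Set Filter Complex TopologicalSpace Asymptotics
open scoped Real Topology FourierTransform

namespace Pool.Agent.Lib.MP_1ce311_an

/-- the fractional derivative of the hat has mean zero -/
lemma integral_Th_zero {a : ℝ} (ha : 1 < a) (ha2 : a < 2) : ∫ y, Th a y = 0 := by
  have hI := integrable_Th ha ha2
  -- limit along w = i ε
  have hlim1 : Tendsto (fun ε : ℝ => ∫ y : ℝ, ((Th a y : ℝ) : ℂ) * cexp (-((I * ε) * y)))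
      (𝓝[>] 0) (𝓝 (∫ y : ℝ, ((Th a y : ℝ) : ℂ))) := by
    refine tendsto_integral_filter_of_dominated_convergence (fun y => |Th a y|) ?_ ?_ ?_ ?_
    · refine Eventually.of_forall fun ε => ?_
      have := continuous_Th ha
      exact (by fun_prop : Continuous fun y : ℝ =>
        ((Th a y : ℝ) : ℂ) * cexp (-((I * ε) * y))).aestronglyMeasurable
    · refine Eventually.of_forall fun ε => Eventually.of_forall fun y => ?_
      rw [norm_mul, norm_real, Real.norm_eq_abs, Complex.norm_exp]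
      have : (-((I * ε) * y) : ℂ).re = 0 := by simp
      rw [this, Real.exp_zero, mul_one]
    · exact hI.abs
    · refine Eventually.of_forall fun y => ?_
      have : Continuous fun ε : ℝ => ((Th a y : ℝ) : ℂ) * cexp (-((I * ε) * y)) := by
        fun_prop
      have h2 := (this.tendsto 0).mono_left (nhdsWithin_le_nhds (s := Ioi 0))
      simpa using h2
  have hlim2 : Tendsto (fun ε : ℝ => (cexp (I * ε) - 2 + cexp (-(I * ε))) *
      (I * ε) ^ (-a : ℂ)) (𝓝[>] 0) (𝓝 0) := by
    rw [tendsto_zero_iff_norm_tendsto_zero]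
    have hb : ∀ᶠ ε : ℝ in 𝓝[>] 0, ‖(cexp (I * ε) - 2 + cexp (-(I * ε))) *
        (I * ε) ^ (-a : ℂ)‖ ≤ ε ^ (2 - a) := by
      filter_upwards [self_mem_nhdsWithin] with ε hε
      have hε' : (0:ℝ) < ε := hε
      have h1 : cexp (I * ε) - 2 + cexp (-(I * ε)) = ((2 * Real.cos ε - 2 : ℝ) : ℂ) := by
        have := Complex.two_cos (ε : ℂ)
        push_cast
        rw [this]
        ring_nf
      have h2 : |2 * Real.cos ε - 2| ≤ ε ^ 2 := by
        have h3 := Real.one_sub_sq_div_two_le_cos (x := ε)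
        have h4 := Real.cos_le_one ε
        rw [abs_le]
        constructor <;> nlinarith
      have h3 : ‖(I * ε : ℂ) ^ (-a : ℂ)‖ = ε ^ (-a) := by
        have hne : (I * ε : ℂ) ≠ 0 := mul_ne_zero I_ne_zero (by exact_mod_cast hε'.ne')
        rw [show (-a : ℂ) = ((-a : ℝ) : ℂ) by push_cast; ring, Complex.norm_cpow_of_ne_zero hne]
        simp [abs_of_pos hε']
      rw [norm_mul, h1, h3, Complex.norm_real, Real.norm_eq_abs]
      calc |2 * Real.cos ε - 2| * ε ^ (-a) ≤ ε ^ 2 * ε ^ (-a) := by gcongr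
        _ = ε ^ (2 - a) := by
          rw [← Real.rpow_natCast, ← Real.rpow_add hε']
          norm_num
          ring_nf
    have hz : Tendsto (fun ε : ℝ => ε ^ (2 - a)) (𝓝[>] 0) (𝓝 0) := by
      have hc : ContinuousAt (fun ε : ℝ => ε ^ (2 - a)) 0 :=
        Real.continuousAt_rpow_const _ _ (Or.inr (by linarith))
      have := hc.tendsto
      rw [Real.zero_rpow (by linarith)] at this
      exact this.mono_left nhdsWithin_le_nhds
    exact squeeze_zero' (Eventually.of_forall fun _ => norm_nonneg _) hb hz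
  have heq : ∀ᶠ ε : ℝ in 𝓝[>] 0, ∫ y : ℝ, ((Th a y : ℝ) : ℂ) * cexp (-((I * ε) * y)) =
      (cexp (I * ε) - 2 + cexp (-(I * ε))) * (I * ε) ^ (-a : ℂ) := by
    filter_upwards [self_mem_nhdsWithin] with ε hε
    have hε' : (0:ℝ) < ε := hε
    exact integral_Th_fourier ha ha2.le (w := I * ε) (by simp)
      (mul_ne_zero I_ne_zero (by exact_mod_cast hε'.ne'))
  have h0 : ∫ y : ℝ, ((Th a y : ℝ) : ℂ) = 0 :=
    tendsto_nhds_unique (hlim1.congr' heq) hlim2
  rw [integral_complex_ofReal] at h0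
  exact_mod_cast h0

lemma integral_Th_two : ∫ y, Th 2 y = 1 := by
  have h1 : ∀ y, Th 2 y = (Ioc (-1:ℝ) 1).indicator (fun y => 1 - |y|) y := by
    intro y
    rw [Th_two]
    by_cases hy : y ∈ Ioc (-1:ℝ) 1
    · rw [indicator_of_mem hy]
      apply max_eq_left
      have : |y| ≤ 1 := abs_le.2 ⟨hy.1.le, hy.2⟩
      linarith
    · rw [indicator_of_notMem hy]
      apply max_eq_right
      by_contra hcon
      push Not at hcon
      have : |y| < 1 := by linarith
      rw [abs_lt] at this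
      exact hy ⟨this.1, this.2.le⟩
  simp_rw [h1]
  rw [integral_indicator measurableSet_Ioc, ← intervalIntegral.integral_of_le (by norm_num)]
  have hint : ∀ a b : ℝ, IntervalIntegrable (fun y : ℝ => 1 - |y|) volume a b :=
    fun a b => (by fun_prop : Continuous fun y : ℝ => 1 - |y|).intervalIntegrable a b
  rw [← intervalIntegral.integral_add_adjacent_intervals (hint (-1) 0) (hint 0 1)]
  have e1 : ∫ y in (-1:ℝ)..0, (1 - |y|) = ∫ y in (-1:ℝ)..0, (1 + y) := by
    refine intervalIntegral.integral_congr fun y hy => ?_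
    rw [uIcc_of_le (by norm_num)] at hy
    simp only [abs_of_nonpos hy.2]
    ring
  have e2 : ∫ y in (0:ℝ)..1, (1 - |y|) = ∫ y in (0:ℝ)..1, (1 - y) := by
    refine intervalIntegral.integral_congr fun y hy => ?_
    rw [uIcc_of_le (by norm_num)] at hy
    simp only [abs_of_nonneg hy.1]
  rw [e1, e2, intervalIntegral.integral_add (by simp) (by simp),
    intervalIntegral.integral_sub (by simp) (by simp)]
  simp
  norm_num

lemma integral_per {a : ℝ} (ha : 1 < a) (ha2 : a ≤ 2) (j : ℕ) (k : ℤ) :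
    ∫ x, per (gf a j k) x ∂hm = (2 ^ j : ℝ)⁻¹ * ∫ y, Th a y := by
  have h := fourierCoeff_per (gf_decay ha ha2 j k) 0
  rw [fourierCoeff_zero'] at h
  have h2 : ((∫ x, per (gf a j k) x ∂hm : ℝ) : ℂ) = ((∫ x : ℝ, gf a j k x : ℝ) : ℂ) := by
    rw [h]
    have : ∀ x : ℝ, ((gf a j k x : ℝ) : ℂ) * cexp (-((2 * π * I * ((0:ℤ):ℂ)) * x)) =
        ((gf a j k x : ℝ) : ℂ) := by
      intro x; simp
    simp_rw [this]
    exact integral_ofReal
  have h3 : ∫ x, per (gf a j k) x ∂hm = ∫ x : ℝ, gf a j k x := by exact_mod_cast h2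
  have h2j : (0:ℝ) < 2 ^ j := by positivity
  rw [h3]
  simp_rw [gf_apply ha]
  have hsub := integral_sub_right_eq_self (μ := volume) (fun y : ℝ => Th a y) (k:ℝ)
  have hmul := Measure.integral_comp_mul_left (fun y : ℝ => Th a (y - k)) (2 ^ j)
  rw [hmul, hsub, abs_of_pos (inv_pos.2 h2j), smul_eq_mul]

lemma integral_Hh (j : ℕ) (k : ℤ) : ∫ x, Hh j k x ∂hm = (2 ^ j : ℝ)⁻¹ := by
  have := integral_per (a := 2) (by norm_num) le_rfl j k
  rw [integral_Th_two, mul_one] at this
  exact this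

/-- the fractional derivative of the hat, explicitly -/
lemma thh_apply {r : ℝ} (hr : 0 < r) (hr1 : r < 1) (j : ℕ) (k : ℤ) (x : UnitAddCircle) :
    thh r j k x = cj r j * per (gf (2 - r) j k) x + (2 ^ j : ℝ)⁻¹ := by
  have h1 := integral_per (a := 2 - r) (by linarith) (by linarith) j k
  rw [integral_Th_zero (by linarith) (by linarith), mul_zero] at h1
  have h2 := integral_Hh j k
  simp only [thh, ContinuousMap.add_apply, ContinuousMap.smul_apply, smul_eq_mul,
    ContinuousMap.const_apply, h1, h2, mul_zero, sub_zero]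

/-- translation -/
lemma per_translate {a : ℝ} (ha : 1 < a) (ha2 : a ≤ 2) (j : ℕ) (k k' : ℤ) (t : ℝ) :
    per (gf a j (k + k')) (t : UnitAddCircle) =
      per (gf a j k') ((t - k / 2 ^ j : ℝ) : UnitAddCircle) := by
  rw [per_apply (gf_decay ha ha2 _ _), per_apply (gf_decay ha ha2 _ _)]
  congr 1
  ext n
  rw [gf_apply ha, gf_apply ha]
  congr 1
  push_cast
  field_simp
  ring

lemma thh_translate {r : ℝ} (hr : 0 < r) (hr1 : r < 1) (j : ℕ) (k k' : ℤ) (t : ℝ) :
    thh r j (k + k') (t : UnitAddCircle) = thh r j k' ((t - k / 2 ^ j : ℝ) : UnitAddCircle) := by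
  rw [thh_apply hr hr1, thh_apply hr hr1, per_translate (by linarith) (by linarith)]

end Pool.Agent.Lib.MP_1ce311_an
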