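import Mathlib
import Pool.Agent.Lib.MP_1ce311_an.LemT
import Pool.Agent.Lib.MP_1ce311_an.Means

open Finset
open scoped Real

namespace Pool.Agent.Lib.MP_1ce311_an

/-- the rescaled kernel on the grid with base point `θ` -/
noncomputable def wk (r : ℝ) (L : ℕ) (θ : ℝ) (σ : ℕ) (z : ℤ) : ℝ :=
  (2 ^ σ : ℝ) ^ (-r) * thh r σ 1 ((θ + z / 2 ^ L : ℝ) : UnitAddCircle)

/-- values of the kernel on the grid -/
noncomputable def gg (r : ℝ) (L : ℕ) (θ : ℝ) (σ : ℕ) (j : ℤ) : ℝ :=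
  Th (2 - r) (2 ^ σ * (θ + j / 2 ^ L) - 1)

/-- periodised values of the kernel on the grid -/
noncomputable def Wk (r : ℝ) (L : ℕ) (θ : ℝ) (σ : ℕ) (z : ℤ) : ℝ :=
  ∑' n : ℤ, gg r L θ σ (z + n * (2 ^ L : ℕ))

section
variable {r : ℝ} (hr : 0 < r) (hr1 : r < 1) {L : ℕ} {θ : ℝ} (hθ0 : 0 ≤ θ) (hθ1 : θ < (2 ^ L : ℝ)⁻¹)

lemma gg_grid (σ : ℕ) (z n : ℤ) : gg r L θ σ (z + n * (2 ^ L : ℕ)) =
    Th (2 - r) (2 ^ σ * ((θ + z / 2 ^ L) + n) - 1) := by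
  unfold gg
  congr 2
  push_cast
  field_simp
  ring

include hr hr1 in
lemma per_eq_Wk (σ : ℕ) (z : ℤ) :
    per (gf (2 - r) σ 1) ((θ + z / 2 ^ L : ℝ) : UnitAddCircle) = Wk r L θ σ z := by
  rw [per_apply (gf_decay (by linarith) (by linarith) _ _), Wk]
  congr 1
  ext n
  rw [gf_apply (by linarith), gg_grid]
  push_cast
  rfl

include hr hr1 in
lemma gg_summable (σ : ℕ) (z : ℤ) : Summable fun n : ℤ => gg r L θ σ (z + n * (2 ^ L : ℕ)) := by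
  refine ((gf_decay (a := 2 - r) (by linarith) (by linarith) σ 1).summable
    (θ + z / 2 ^ L)).congr fun n => ?_
  rw [gf_apply (by linarith), gg_grid]
  push_cast
  rfl

include hr hr1 in
lemma wk_eq (σ : ℕ) (z : ℤ) :
    wk r L θ σ z = (2 * π) ^ (-r) * Wk r L θ σ z + (2 ^ σ : ℝ) ^ (-(1 + r)) := by
  unfold wk
  rw [thh_apply hr hr1, per_eq_Wk hr hr1, cj]
  have h2 : (0:ℝ) < 2 ^ σ := by positivity
  have e1 : (2 ^ σ : ℝ) ^ (-r) * (2 ^ σ : ℝ) ^ r = 1 := by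
    rw [← Real.rpow_add h2]; simp
  have e2 : (2 ^ σ : ℝ) ^ (-r) * (2 ^ σ : ℝ)⁻¹ = (2 ^ σ : ℝ) ^ (-(1 + r)) := by
    rw [← Real.rpow_neg_one, ← Real.rpow_add h2]
    congr 1
    ring
  calc (2 ^ σ : ℝ) ^ (-r) * ((2 ^ σ : ℝ) ^ r * (2 * π) ^ (-r) * Wk r L θ σ z + (2 ^ σ : ℝ)⁻¹)
      = ((2 ^ σ : ℝ) ^ (-r) * (2 ^ σ : ℝ) ^ r) * (2 * π) ^ (-r) * Wk r L θ σ z +
        (2 ^ σ : ℝ) ^ (-r) * (2 ^ σ : ℝ)⁻¹ := by ring
    _ = _ := by rw [e1, e2, one_mul]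

/-- constant of the grid kernel -/
noncomputable def cg (r : ℝ) (h : ℕ) : ℝ := (h : ℝ) ^ (-(1 - r)) / Real.Gamma (2 - r)

omit hr1 in
lemma gg_eq {σ : ℕ} (hσ : σ ≤ L) (j : ℤ) : gg r L θ σ j = cg r (2 ^ (L - σ)) *
    (pp (1 - r) (2 ^ L * θ) j - 2 * pp (1 - r) (2 ^ L * θ) (j - (2 ^ (L - σ) : ℕ)) +
      pp (1 - r) (2 ^ L * θ) (j - (2 ^ (L - σ) : ℕ) - (2 ^ (L - σ) : ℕ))) := by
  have hP : ∀ i : ℤ, P (2 - r) ((2 ^ L * θ + i) / ((2 ^ (L - σ) : ℕ) : ℝ)) =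
      ((2 ^ (L - σ) : ℕ) : ℝ) ^ (-(1 - r)) * pp (1 - r) (2 ^ L * θ) i := by
    intro i
    have hpos : (0:ℝ) < ((2 ^ (L - σ) : ℕ) : ℝ) := by positivity
    unfold P pp
    rw [show (2:ℝ) - r - 1 = 1 - r by ring, Real.rpow_neg hpos.le, ← div_eq_inv_mul,
      ← Real.div_rpow (le_max_right _ _) hpos.le]
    congr 1
    rw [← max_div_div_right hpos.le, zero_div]
  have h2 : (2:ℝ) ^ L = 2 ^ σ * ((2 ^ (L - σ) : ℕ) : ℝ) := by
    push_cast
    rw [← pow_add]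
    congr 1
    omega
  have hpos : (0:ℝ) < ((2 ^ (L - σ) : ℕ) : ℝ) := by positivity
  have hσpos : (0:ℝ) < 2 ^ σ := by positivity
  have e1 : 2 ^ σ * (θ + (j:ℝ) / 2 ^ L) - 1 + 1 =
      (2 ^ L * θ + j) / ((2 ^ (L - σ) : ℕ) : ℝ) := by
    rw [h2]; field_simp; ring
  have e2 : 2 ^ σ * (θ + (j:ℝ) / 2 ^ L) - 1 =
      (2 ^ L * θ + ((j - (2 ^ (L - σ) : ℕ) : ℤ) : ℝ)) / ((2 ^ (L - σ) : ℕ) : ℝ) := by
    rw [h2, Int.cast_sub, Int.cast_natCast]; field_simp; ring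
  have e3 : 2 ^ σ * (θ + (j:ℝ) / 2 ^ L) - 1 - 1 =
      (2 ^ L * θ + ((j - (2 ^ (L - σ) : ℕ) - (2 ^ (L - σ) : ℕ) : ℤ) : ℝ)) /
        ((2 ^ (L - σ) : ℕ) : ℝ) := by
    rw [h2, Int.cast_sub, Int.cast_sub, Int.cast_natCast]; field_simp; ring
  unfold gg Th
  rw [e1, e3, e2, hP, hP, hP, cg]
  ring

/-- the scaled truncated power is concave -/
lemma pp_conc' (hr : 0 < r) (hr1 : r < 1) (hθ0 : 0 ≤ θ) (hθ1 : θ < (2 ^ L : ℝ)⁻¹) :
    Conc (pp (1 - r) (2 ^ L * θ)) := by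
  refine pp_conc (by linarith) (by linarith) (by positivity) ?_
  have h2 : (0:ℝ) < 2 ^ L := by positivity
  calc 2 ^ L * θ < 2 ^ L * (2 ^ L : ℝ)⁻¹ := by gcongr
    _ = 1 := mul_inv_cancel₀ h2.ne'

lemma cg_pos (hr1 : r < 1) {h : ℕ} (hh : 0 < h) : 0 < cg r h := by
  unfold cg
  have : (0:ℝ) < h := by exact_mod_cast hh
  have := Real.Gamma_pos_of_pos (show 0 < 2 - r by linarith)
  positivity

lemma gg_neg (hr : 0 < r) (hr1 : r < 1) (hθ0 : 0 ≤ θ) (hθ1 : θ < (2 ^ L : ℝ)⁻¹) {σ : ℕ} (hσ : σ ≤ L)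
    (j : ℤ) (hj : j < 0) : gg r L θ σ j = 0 := by
  have hc := pp_conc' (L := L) hr hr1 hθ0 hθ1
  have hpos : 0 < 2 ^ (L - σ) := by positivity
  rw [gg_eq hσ, hc.neg j hj, hc.neg _ (by omega), hc.neg _ (by omega)]
  ring

/-- size of the truncated power -/
lemma pp_le (hr : 0 < r) (hr1 : r < 1) (hθ1 : θ < (2 ^ L : ℝ)⁻¹) (n h : ℕ)
    (hn : 1 ≤ n) (hh : 0 < h) :
    cg r h * pp (1 - r) (2 ^ L * θ) (n : ℕ) ≤
      2 / Real.Gamma (2 - r) * ((n : ℝ) / h) ^ (1 - r) := by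
  have hG := Real.Gamma_pos_of_pos (show 0 < 2 - r by linarith)
  have hh' : (0:ℝ) < h := by exact_mod_cast hh
  have hn' : (1:ℝ) ≤ n := by exact_mod_cast hn
  have h2 : 2 ^ L * θ ≤ 1 := by
    have h2 : (0:ℝ) < 2 ^ L := by positivity
    calc 2 ^ L * θ ≤ 2 ^ L * (2 ^ L : ℝ)⁻¹ := by gcongr
      _ = 1 := mul_inv_cancel₀ h2.ne'
  have h3 : pp (1 - r) (2 ^ L * θ) (n : ℕ) ≤ 2 * (n:ℝ) ^ (1 - r) := by
    unfold pp
    have hmax : max (2 ^ L * θ + ((n : ℤ) : ℝ)) 0 ≤ 2 * n := by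
      apply max_le
      · push_cast; linarith
      · positivity
    calc (max (2 ^ L * θ + ((n : ℤ) : ℝ)) 0) ^ (1 - r) ≤ (2 * (n:ℝ)) ^ (1 - r) :=
          Real.rpow_le_rpow (le_max_right _ _) hmax (by linarith)
      _ = 2 ^ (1 - r) * (n:ℝ) ^ (1 - r) := Real.mul_rpow (by norm_num) (by positivity)
      _ ≤ 2 ^ (1:ℝ) * (n:ℝ) ^ (1 - r) := by
          gcongr
          · norm_num
          · linarith
      _ = 2 * (n:ℝ) ^ (1 - r) := by rw [Real.rpow_one]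
  calc cg r h * pp (1 - r) (2 ^ L * θ) (n : ℕ) ≤ cg r h * (2 * (n:ℝ) ^ (1 - r)) := by
        have := cg_pos hr1 hh
        gcongr
    _ = _ := by
        unfold cg
        rw [Real.div_rpow (by positivity) hh'.le, Real.rpow_neg hh'.le]
        field_simp

/-- shifts do not increase partial sums -/
lemma sum_shift_le (E : ℤ → ℝ) (hE : ∀ j < 0, E j = 0) (Q : ℝ)
    (hQ : ∀ N, ∑ j ∈ range N, |E j| ≤ Q) (h N : ℕ) : ∑ j ∈ range N, |E ((j:ℤ) - h)| ≤ Q := by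
  have h1 : ∑ j ∈ range N, |E ((j:ℤ) - h)| ≤ ∑ j ∈ range (h + N), |E ((j:ℤ) - h)| :=
    sum_le_sum_of_subset_of_nonneg (fun i hi => by rw [mem_range] at *; omega)
      (fun i _ _ => abs_nonneg _)
  refine h1.trans ?_
  rw [sum_range_add]
  have h2 : ∑ j ∈ range h, |E ((j:ℤ) - h)| = 0 := by
    refine sum_eq_zero fun j hj => ?_
    rw [mem_range] at hj
    rw [hE _ (by omega), abs_zero]
  have h3 : ∑ j ∈ range N, |E (((h + j : ℕ) : ℤ) - h)| = ∑ j ∈ range N, |E j| := by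
    refine sum_congr rfl fun j _ => ?_
    congr 2
    push_cast
    ring
  rw [h2, h3, zero_add]
  exact hQ N

/-- fine regularity -/
lemma Wk_fine (hr : 0 < r) (hr1 : r < 1) (hθ0 : 0 ≤ θ) (hθ1 : θ < (2 ^ L : ℝ)⁻¹) {σ τ : ℕ}
    (hστ : σ < τ) (hτ : τ ≤ L) :
    ∑ z ∈ range (2 ^ L), |Wk r L θ σ z - Wk r L θ σ (z - (2 ^ (L - τ) : ℕ))| ≤
      24 / Real.Gamma (2 - r) * 2 ^ (L - τ) := by
  have hG := Real.Gamma_pos_of_pos (show 0 < 2 - r by linarith)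
  have hc := pp_conc' (L := L) hr hr1 hθ0 hθ1
  have hσ : σ ≤ L := by omega
  set v := 2 ^ (L - τ) with hv
  set h := 2 ^ (L - σ) with hh
  have hhpos : 0 < h := by positivity
  have hvpos : 0 < v := by positivity
  have hvh : v ≤ h := Nat.pow_le_pow_right (by norm_num) (by omega)
  have h1 : ∀ z : ℤ, Wk r L θ σ z - Wk r L θ σ (z - v) =
      ∑' n : ℤ, (fun j => gg r L θ σ j - gg r L θ σ (j - v)) (z + n * (2 ^ L : ℕ)) := by
    intro z
    unfold Wk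
    rw [← (gg_summable hr hr1 σ z).tsum_sub (gg_summable hr hr1 σ (z - v))]
    congr 1
    ext n
    simp only
    congr 2
    ring
  have h1' : ∀ z ∈ range (2 ^ L), |Wk r L θ σ z - Wk r L θ σ ((z:ℤ) - v)| =
      |∑' n : ℤ, (fun j => gg r L θ σ j - gg r L θ σ (j - v)) ((z:ℤ) + n * (2 ^ L : ℕ))| :=
    fun z _ => by rw [h1]
  rw [sum_congr rfl h1']
  refine sum_abs_periodised (2 ^ L) (by positivity)
    (fun j => gg r L θ σ j - gg r L θ σ (j - v)) ?_ _ ?_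
  · intro j hj
    rw [gg_neg hr hr1 hθ0 hθ1 hσ j hj, gg_neg hr hr1 hθ0 hθ1 hσ _ (by omega), sub_zero]
  · intro N
    set D : ℤ → ℝ := fun j => pp (1 - r) (2 ^ L * θ) j - pp (1 - r) (2 ^ L * θ) (j - v) with hD
    set E : ℤ → ℝ := fun j => D j - D (j - h) with hE
    have hEneg : ∀ j < 0, E j = 0 := by
      intro j hj
      simp only [hE, hD]
      rw [hc.neg j hj, hc.neg _ (by omega), hc.neg _ (by omega), hc.neg _ (by omega)]
      ring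
    have hEQ : ∀ N, ∑ j ∈ range N, |E j| ≤ 3 * (v * pp (1 - r) (2 ^ L * θ) ((h + v : ℕ) : ℤ)) :=
      fun N => hc.lemmaT v h N
    have h2 : ∀ j : ℤ, gg r L θ σ j - gg r L θ σ (j - v) = cg r h * (E j - E (j - h)) := by
      intro j
      rw [gg_eq hσ, gg_eq hσ]
      simp only [hE, hD]
      rw [show j - (v:ℤ) - h = j - h - v by ring, show j - (h:ℤ) - v - h = j - h - h - v by ring]
      ring
    have hcg := cg_pos hr1 hhpos
    calc ∑ j ∈ range N, |gg r L θ σ j - gg r L θ σ (j - v)|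
        = ∑ j ∈ range N, cg r h * |E j - E ((j:ℤ) - h)| := by
          refine sum_congr rfl fun j _ => ?_
          rw [h2, abs_mul, abs_of_pos hcg]
      _ ≤ ∑ j ∈ range N, cg r h * (|E j| + |E ((j:ℤ) - h)|) := by
          gcongr with j _
          exact abs_sub _ _
      _ = cg r h * (∑ j ∈ range N, |E j| + ∑ j ∈ range N, |E ((j:ℤ) - h)|) := by
          rw [← mul_sum, sum_add_distrib]
      _ ≤ cg r h * (3 * (v * pp (1 - r) (2 ^ L * θ) ((h + v : ℕ) : ℤ)) +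
            3 * (v * pp (1 - r) (2 ^ L * θ) ((h + v : ℕ) : ℤ))) := by
          gcongr
          · exact hEQ N
          · exact sum_shift_le E hEneg _ hEQ h N
      _ = 6 * v * (cg r h * pp (1 - r) (2 ^ L * θ) ((h + v : ℕ) : ℤ)) := by ring
      _ ≤ 6 * v * (2 / Real.Gamma (2 - r) * (((h + v : ℕ) : ℝ) / h) ^ (1 - r)) := by
          exact mul_le_mul_of_nonneg_left (pp_le hr hr1 hθ1 (h + v) h (by omega) hhpos)
            (by positivity)
      _ ≤ 6 * v * (2 / Real.Gamma (2 - r) * 2) := by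
          have hh' : (0:ℝ) < h := by exact_mod_cast hhpos
          have hle : ((h + v : ℕ) : ℝ) / h ≤ 2 := by
            rw [div_le_iff₀ hh']
            have : (v:ℝ) ≤ h := by exact_mod_cast hvh
            push_cast
            linarith
          gcongr
          calc (((h + v : ℕ) : ℝ) / h) ^ (1 - r) ≤ (2:ℝ) ^ (1 - r) :=
                Real.rpow_le_rpow (by positivity) hle (by linarith)
            _ ≤ (2:ℝ) ^ (1:ℝ) := Real.rpow_le_rpow_of_exponent_le (by norm_num) (by linarith)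
            _ = 2 := Real.rpow_one _
      _ = 24 / Real.Gamma (2 - r) * 2 ^ (L - τ) := by
          rw [hv]; push_cast; ring

/-- coarse cancellation -/
lemma Wk_coarse (hr : 0 < r) (hr1 : r < 1) (hθ0 : 0 ≤ θ) (hθ1 : θ < (2 ^ L : ℝ)⁻¹) {σ τ : ℕ}
    (hτσ : τ ≤ σ) (hσ : σ ≤ L) :
    ∑ z ∈ range (2 ^ L), |∑ i ∈ range (2 ^ (σ - τ)), Wk r L θ σ (z - i * (2 ^ (L - σ) : ℕ))| ≤
      12 / Real.Gamma (2 - r) * 2 ^ (L - τ) * ((2:ℝ) ^ (σ - τ)) ^ (-r) := by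
  have hG := Real.Gamma_pos_of_pos (show 0 < 2 - r by linarith)
  have hc := pp_conc' (L := L) hr hr1 hθ0 hθ1
  set h := 2 ^ (L - σ) with hh
  set M := 2 ^ (σ - τ) with hM
  have hhpos : 0 < h := by positivity
  have hMpos : 0 < M := by positivity
  have hb : M * h = 2 ^ (L - τ) := by
    rw [hM, hh, ← pow_add]; congr 1; omega
  have h1 : ∀ z : ℤ, ∑ i ∈ range M, Wk r L θ σ (z - i * h) =
      ∑' n : ℤ, (fun j => ∑ i ∈ range M, gg r L θ σ (j - i * h)) (z + n * (2 ^ L : ℕ)) := by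
    intro z
    unfold Wk
    rw [← Summable.tsum_finsetSum (f := fun (i : ℕ) (n : ℤ) =>
      gg r L θ σ (z - i * h + n * (2 ^ L : ℕ))) fun i _ => gg_summable hr hr1 σ (z - i * h)]
    congr 1
    ext n
    refine sum_congr rfl fun i _ => ?_
    congr 1
    ring
  have h1' : ∀ z ∈ range (2 ^ L), |∑ i ∈ range M, Wk r L θ σ ((z:ℤ) - i * h)| =
      |∑' n : ℤ, (fun j => ∑ i ∈ range M, gg r L θ σ (j - i * h)) ((z:ℤ) + n * (2 ^ L : ℕ))| :=
    fun z _ => by rw [h1]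
  rw [sum_congr rfl h1']
  refine sum_abs_periodised (2 ^ L) (by positivity)
    (fun j => ∑ i ∈ range M, gg r L θ σ (j - i * h)) ?_ _ ?_
  · intro j hj
    refine sum_eq_zero fun i _ => ?_
    apply gg_neg hr hr1 hθ0 hθ1 hσ
    have : (0:ℤ) ≤ i * h := by positivity
    omega
  · intro N
    set p : ℤ → ℝ := pp (1 - r) (2 ^ L * θ) with hp
    have h2 : ∀ (m : ℕ) (j : ℤ), ∑ i ∈ range m, gg r L θ σ (j - i * h) =
        cg r h * ((p j - p (j - h)) - (p (j - (m * h : ℕ)) - p (j - (m * h : ℕ) - h))) := by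
      intro m j
      induction m with
      | zero => simp
      | succ m ih =>
        rw [sum_range_succ, ih, gg_eq hσ]
        simp only [← hh, ← hp]
        push_cast
        rw [show j - ((m:ℤ) + 1) * h = j - m * h - h by ring]
        ring
    have hcg := cg_pos hr1 hhpos
    calc ∑ j ∈ range N, |∑ i ∈ range M, gg r L θ σ ((j:ℤ) - i * h)|
        = ∑ j ∈ range N, cg r h * |(p j - p ((j:ℤ) - h)) -
            (p ((j:ℤ) - (M * h : ℕ)) - p ((j:ℤ) - (M * h : ℕ) - h))| := by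
          refine sum_congr rfl fun j _ => ?_
          rw [h2, abs_mul, abs_of_pos hcg]
      _ = cg r h * ∑ j ∈ range N, |(p j - p ((j:ℤ) - h)) -
            (p ((j:ℤ) - (M * h : ℕ)) - p ((j:ℤ) - (M * h : ℕ) - h))| := by rw [mul_sum]
      _ ≤ cg r h * (3 * (h * p ((M * h + h : ℕ) : ℤ))) := by
          gcongr
          exact hc.lemmaT h (M * h) N
      _ = 3 * h * (cg r h * p ((M * h + h : ℕ) : ℤ)) := by ring
      _ ≤ 3 * h * (2 / Real.Gamma (2 - r) * (((M * h + h : ℕ) : ℝ) / h) ^ (1 - r)) := by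
          exact mul_le_mul_of_nonneg_left (pp_le hr hr1 hθ1 (M * h + h) h (by omega) hhpos)
            (by positivity)
      _ ≤ 3 * h * (2 / Real.Gamma (2 - r) * (2 * (M:ℝ) ^ (1 - r))) := by
          have hh' : (0:ℝ) < h := by exact_mod_cast hhpos
          have hM' : (1:ℝ) ≤ M := by exact_mod_cast hMpos
          have hle : ((M * h + h : ℕ) : ℝ) / h ≤ 2 * M := by
            rw [div_le_iff₀ hh']
            push_cast
            nlinarith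
          gcongr
          calc (((M * h + h : ℕ) : ℝ) / h) ^ (1 - r) ≤ (2 * (M:ℝ)) ^ (1 - r) :=
                Real.rpow_le_rpow (by positivity) hle (by linarith)
            _ = (2:ℝ) ^ (1 - r) * (M:ℝ) ^ (1 - r) := Real.mul_rpow (by norm_num) (by positivity)
            _ ≤ (2:ℝ) ^ (1:ℝ) * (M:ℝ) ^ (1 - r) := by
                gcongr
                · norm_num
                · linarith
            _ = 2 * (M:ℝ) ^ (1 - r) := by rw [Real.rpow_one]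
      _ = 12 / Real.Gamma (2 - r) * 2 ^ (L - τ) * ((2:ℝ) ^ (σ - τ)) ^ (-r) := by
          have e1 : (2:ℝ) ^ (σ - τ) = M := by rw [hM]; push_cast; rfl
          have e2 : (2:ℝ) ^ (L - τ) = M * h := by exact_mod_cast hb.symm
          have hM' : (0:ℝ) < M := by exact_mod_cast hMpos
          rw [e1, e2, show 1 - r = 1 + -r by ring, Real.rpow_add hM', Real.rpow_one]
          ring

/-- pointwise decay -/
lemma Wk_decay (hr : 0 < r) (hr1 : r < 1) : ∃ C : ℝ, 0 < C ∧ ∀ (L : ℕ) (θ : ℝ), 0 ≤ θ →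
    θ < (2 ^ L : ℝ)⁻¹ → ∀ σ ≤ L, ∀ z : ℕ, z < 2 ^ L →
      |Wk r L θ σ z| ≤ C * (1 + (z : ℝ) / 2 ^ (L - σ)) ^ (-(1 + r)) := by
  obtain ⟨C, hC, hTh⟩ := Th_bound (a := 2 - r) (by linarith) (by linarith)
  have hS := summable_rpow_int hr
  set S := ∑' m : ℤ, (1 + |(m:ℝ)|) ^ (-(1 + r)) with hSdef
  have hS0 : 0 ≤ S := tsum_nonneg fun m => by positivity
  refine ⟨C * 4 ^ (1 + r) * S + 1, by positivity, ?_⟩
  intro L θ hθ0 hθ1 σ hσ z hz
  set Z : ℝ := (z:ℝ) / 2 ^ (L - σ) with hZ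
  have hZ0 : 0 ≤ Z := by positivity
  have h2L : (2:ℝ) ^ L = 2 ^ σ * 2 ^ (L - σ) := by
    rw [← pow_add]; congr 1; omega
  have hσpos : (0:ℝ) < 2 ^ σ := by positivity
  have hσ1 : (1:ℝ) ≤ 2 ^ σ := one_le_pow₀ (by norm_num)
  have hzr : (z:ℝ) < 2 ^ L := by exact_mod_cast hz
  have hZ2 : Z ≤ 2 ^ σ := by
    rw [hZ, div_le_iff₀ (by positivity), ← h2L]
    exact hzr.le
  have hzx : 2 ^ σ * (θ + (z:ℝ) / 2 ^ L) = 2 ^ σ * θ + Z := by
    rw [hZ, h2L]; field_simp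
  have hx1 : θ + (z:ℝ) / 2 ^ L < 1 := by
    have h1 : (z:ℝ) + 1 ≤ 2 ^ L := by exact_mod_cast hz
    have h2 : (0:ℝ) < 2 ^ L := by positivity
    calc θ + (z:ℝ) / 2 ^ L < (2 ^ L : ℝ)⁻¹ + (z:ℝ) / 2 ^ L := by linarith
      _ = ((z:ℝ) + 1) / 2 ^ L := by field_simp; ring
      _ ≤ 1 := by rw [div_le_one h2]; exact h1
  have hterm : ∀ n : ℤ, ‖gg r L θ σ (z + n * (2 ^ L : ℕ))‖ ≤
      (C * 4 ^ (1 + r) * (1 + Z) ^ (-(1 + r))) * (1 + |(n:ℝ)|) ^ (-(1 + r)) := by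
    intro n
    rw [gg_grid, Real.norm_eq_abs]
    rcases lt_or_ge n 0 with hn | hn
    · have hn' : (n:ℝ) ≤ -1 := by exact_mod_cast (by omega : n ≤ -1)
      rw [Th_of_le (by linarith) (by
        push_cast
        have : (θ + (z:ℝ) / 2 ^ L) + n ≤ 0 := by linarith
        nlinarith), abs_zero]
      positivity
    · have hn' : (0:ℝ) ≤ n := by exact_mod_cast hn
      refine (hTh _).trans ?_
      rw [show 2 - r - 3 = -(1 + r) by ring]
      set Y : ℝ := 2 ^ σ * ((θ + ((z:ℤ):ℝ) / 2 ^ L) + n) with hY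
      have hYe : Y = 2 ^ σ * θ + Z + 2 ^ σ * n := by
        rw [hY, mul_add, Int.cast_natCast, hzx]
      have hY1 : Z + 2 ^ σ * n ≤ Y := by
        rw [hYe]
        have : 0 ≤ 2 ^ σ * θ := by positivity
        linarith
      have hY0 : 0 ≤ Y := le_trans (by positivity) hY1
      have h1 : (1 + Y) / 2 ≤ 1 + |Y - 1| := by
        rcases le_total 1 Y with h | h
        · rw [abs_of_nonneg (by linarith)]; linarith
        · rw [abs_of_nonpos (by linarith)]; linarith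
      have h2 : (1 + Z) * (1 + |(n:ℝ)|) / 4 ≤ (1 + Y) / 2 := by
        rw [abs_of_nonneg hn']
        have h3 : (1 + Z) * n ≤ 2 * (2 ^ σ * n) := by
          have : 1 + Z ≤ 2 * 2 ^ σ := by linarith
          nlinarith
        nlinarith
      calc C * (1 + |Y - 1|) ^ (-(1 + r)) ≤ C * ((1 + Z) * (1 + |(n:ℝ)|) / 4) ^ (-(1 + r)) := by
            gcongr C * ?_
            exact Real.rpow_le_rpow_of_nonpos (by positivity) (h2.trans h1) (by linarith)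
        _ = _ := by
            rw [Real.div_rpow (by positivity) (by norm_num),
              Real.mul_rpow (by positivity) (by positivity), Real.rpow_neg (by norm_num : (0:ℝ) ≤ 4)]
            field_simp
  have h1 := tsum_of_norm_bounded (hS.mul_left (C * 4 ^ (1 + r) * (1 + Z) ^ (-(1 + r)))).hasSum hterm
  rw [Real.norm_eq_abs, tsum_mul_left] at h1
  refine h1.trans ?_
  have hZr : 0 ≤ (1 + Z) ^ (-(1 + r)) := by positivity
  calc C * 4 ^ (1 + r) * (1 + Z) ^ (-(1 + r)) * S = (C * 4 ^ (1 + r) * S) * (1 + Z) ^ (-(1 + r)) := by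
        ring
    _ ≤ _ := by
        gcongr
        linarith

/-- **Kernel bounds** (Task K) -/
theorem ker_bounds (hr : 0 < r) (hr1 : r < 1) : ∃ C : ℝ, 0 < C ∧ ∀ (L : ℕ) (θ : ℝ), 0 ≤ θ →
    θ < (2 ^ L : ℝ)⁻¹ → Ker L C r (wk r L θ) := by
  obtain ⟨C, hC, hdec⟩ := Wk_decay hr hr1
  have hG := Real.Gamma_pos_of_pos (show 0 < 2 - r by linarith)
  have hpi : (2 * π) ^ (-r) ≤ 1 := by
    apply Real.rpow_le_one_of_one_le_of_nonpos _ (by linarith)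
    have := Real.pi_gt_three
    linarith
  have hpi0 : 0 ≤ (2 * π) ^ (-r) := by positivity
  refine ⟨C + 4 + 24 / Real.Gamma (2 - r) + 12 / Real.Gamma (2 - r), by positivity, ?_⟩
  intro L θ hθ0 hθ1
  set C' := C + 4 + 24 / Real.Gamma (2 - r) + 12 / Real.Gamma (2 - r) with hC'
  have hg24 : 0 ≤ 24 / Real.Gamma (2 - r) := by positivity
  have hg12 : 0 ≤ 12 / Real.Gamma (2 - r) := by positivity
  constructor
  · intro σ z
    unfold wk
    congr 2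
    have : (θ + ((z + 2 ^ L : ℤ) : ℝ) / 2 ^ L : ℝ) = (θ + (z:ℝ) / 2 ^ L) + 1 := by
      push_cast
      field_simp
      ring
    rw [this]
    exact AddCircle.coe_add_period 1 _
  · intro σ hσ z hz
    rw [wk_eq hr hr1]
    have h1 := hdec L θ hθ0 hθ1 σ hσ z hz
    have hσ1 : (1:ℝ) ≤ 2 ^ σ := one_le_pow₀ (by norm_num)
    have h2L : (2:ℝ) ^ L = 2 ^ σ * 2 ^ (L - σ) := by
      rw [← pow_add]; congr 1; omega
    have hzr : (z:ℝ) < 2 ^ L := by exact_mod_cast hz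
    set Z : ℝ := (z:ℝ) / 2 ^ (L - σ) with hZ
    have hZ0 : 0 ≤ Z := by positivity
    have hZ2 : Z ≤ 2 ^ σ := by
      rw [hZ, div_le_iff₀ (by positivity), ← h2L]
      exact hzr.le
    have h2 : (2 ^ σ : ℝ) ^ (-(1 + r)) ≤ 4 * (1 + Z) ^ (-(1 + r)) := by
      have h3 : (2 ^ σ : ℝ) ^ (-(1 + r)) ≤ ((1 + Z) / 2) ^ (-(1 + r)) :=
        Real.rpow_le_rpow_of_nonpos (by positivity) (by linarith) (by linarith)
      refine h3.trans ?_
      rw [Real.div_rpow (by positivity) (by norm_num), Real.rpow_neg (by norm_num : (0:ℝ) ≤ 2),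
        div_inv_eq_mul, mul_comm]
      gcongr
      calc (2:ℝ) ^ (1 + r) ≤ (2:ℝ) ^ (2:ℝ) :=
            Real.rpow_le_rpow_of_exponent_le (by norm_num) (by linarith)
        _ = 4 := by norm_num
    have hZr : 0 ≤ (1 + Z) ^ (-(1 + r)) := by positivity
    calc |(2 * π) ^ (-r) * Wk r L θ σ z + (2 ^ σ : ℝ) ^ (-(1 + r))|
        ≤ |(2 * π) ^ (-r) * Wk r L θ σ z| + |(2 ^ σ : ℝ) ^ (-(1 + r))| := abs_add_le _ _
      _ = (2 * π) ^ (-r) * |Wk r L θ σ z| + (2 ^ σ : ℝ) ^ (-(1 + r)) := by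
          rw [abs_mul, abs_of_nonneg hpi0, abs_of_nonneg (by positivity : 0 ≤ (2 ^ σ : ℝ) ^ (-(1 + r)))]
      _ ≤ 1 * (C * (1 + Z) ^ (-(1 + r))) + 4 * (1 + Z) ^ (-(1 + r)) := by gcongr
      _ = (C + 4) * (1 + Z) ^ (-(1 + r)) := by ring
      _ ≤ C' * (1 + Z) ^ (-(1 + r)) := by
          gcongr
          rw [hC']; linarith
  · intro σ τ hστ hτ
    have h1 := Wk_fine hr hr1 hθ0 hθ1 hστ hτ
    have h2 : ∀ z ∈ range (2 ^ L), |wk r L θ σ z - wk r L θ σ ((z:ℤ) - 2 ^ (L - τ))| ≤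
        |Wk r L θ σ z - Wk r L θ σ ((z:ℤ) - (2 ^ (L - τ) : ℕ))| := by
      intro z _
      rw [wk_eq hr hr1, wk_eq hr hr1]
      push_cast
      rw [add_sub_add_right_eq_sub, ← mul_sub, abs_mul, abs_of_nonneg hpi0]
      exact mul_le_of_le_one_left (abs_nonneg _) hpi
    refine (sum_le_sum h2).trans (h1.trans ?_)
    gcongr
    rw [hC']; linarith
  · intro τ σ hτσ hσ
    have h1 := Wk_coarse hr hr1 hθ0 hθ1 hτσ hσ
    have hσpos : (0:ℝ) < 2 ^ σ := by positivity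
    have hMpos : (0:ℝ) < 2 ^ (σ - τ) := by positivity
    have h2 : ∀ z ∈ range (2 ^ L),
        |∑ i ∈ range (2 ^ (σ - τ)), wk r L θ σ ((z:ℤ) - i * 2 ^ (L - σ))| ≤
        |∑ i ∈ range (2 ^ (σ - τ)), Wk r L θ σ ((z:ℤ) - i * (2 ^ (L - σ) : ℕ))| +
          2 ^ (σ - τ) * (2 ^ σ : ℝ) ^ (-(1 + r)) := by
      intro z _
      have h3 : ∑ i ∈ range (2 ^ (σ - τ)), wk r L θ σ ((z:ℤ) - i * 2 ^ (L - σ)) =
          (2 * π) ^ (-r) * ∑ i ∈ range (2 ^ (σ - τ)), Wk r L θ σ ((z:ℤ) - i * (2 ^ (L - σ) : ℕ)) +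
          2 ^ (σ - τ) * (2 ^ σ : ℝ) ^ (-(1 + r)) := by
        rw [mul_sum]
        simp_rw [wk_eq hr hr1]
        rw [sum_add_distrib, sum_const, card_range, nsmul_eq_mul]
        push_cast
        rfl
      rw [h3]
      refine (abs_add_le _ _).trans ?_
      rw [abs_mul, abs_of_nonneg hpi0,
        abs_of_nonneg (by positivity : 0 ≤ 2 ^ (σ - τ) * (2 ^ σ : ℝ) ^ (-(1 + r)))]
      gcongr
      exact mul_le_of_le_one_left (abs_nonneg _) hpi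
    refine (sum_le_sum h2).trans ?_
    rw [sum_add_distrib, sum_const, card_range, nsmul_eq_mul]
    have h4 : ((2 ^ L : ℕ) : ℝ) * (2 ^ (σ - τ) * (2 ^ σ : ℝ) ^ (-(1 + r))) ≤
        4 * 2 ^ (L - τ) * ((2:ℝ) ^ (σ - τ)) ^ (-r) := by
      push_cast
      have e1 : (2:ℝ) ^ L * 2 ^ (σ - τ) = 2 ^ (L - τ) * 2 ^ σ := by
        rw [← pow_add, ← pow_add]; congr 1; omega
      have e2 : (2 ^ σ : ℝ) ^ (-(1 + r)) = (2 ^ σ : ℝ)⁻¹ * (2 ^ σ : ℝ) ^ (-r) := by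
        rw [← Real.rpow_neg_one, ← Real.rpow_add hσpos]; congr 1; ring
      have e3 : (2 ^ σ : ℝ) ^ (-r) ≤ ((2:ℝ) ^ (σ - τ)) ^ (-r) := by
        apply Real.rpow_le_rpow_of_nonpos hMpos _ (by linarith)
        exact pow_le_pow_right₀ (by norm_num) (Nat.sub_le _ _)
      calc (2:ℝ) ^ L * (2 ^ (σ - τ) * (2 ^ σ : ℝ) ^ (-(1 + r)))
          = (2 ^ L * 2 ^ (σ - τ)) * ((2 ^ σ : ℝ)⁻¹ * (2 ^ σ : ℝ) ^ (-r)) := by rw [e2]; ring
        _ = 2 ^ (L - τ) * (2 ^ σ : ℝ) ^ (-r) := by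
            rw [e1]; field_simp
        _ ≤ 2 ^ (L - τ) * ((2:ℝ) ^ (σ - τ)) ^ (-r) := by gcongr
        _ ≤ 4 * (2 ^ (L - τ) * ((2:ℝ) ^ (σ - τ)) ^ (-r)) := by
            have : 0 ≤ 2 ^ (L - τ) * ((2:ℝ) ^ (σ - τ)) ^ (-r) := by positivity
            linarith
        _ = _ := by ring
    have hX : 0 ≤ 2 ^ (L - τ) * ((2:ℝ) ^ (σ - τ)) ^ (-r) := by positivity
    calc _ ≤ 12 / Real.Gamma (2 - r) * 2 ^ (L - τ) * ((2:ℝ) ^ (σ - τ)) ^ (-r) +
          4 * 2 ^ (L - τ) * ((2:ℝ) ^ (σ - τ)) ^ (-r) := add_le_add h1 h4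
      _ = (12 / Real.Gamma (2 - r) + 4) * (2 ^ (L - τ) * ((2:ℝ) ^ (σ - τ)) ^ (-r)) := by ring
      _ ≤ C' * (2 ^ (L - τ) * ((2:ℝ) ^ (σ - τ)) ^ (-r)) := by
          gcongr
          rw [hC']; linarith
      _ = _ := by ring

end

end Pool.Agent.Lib.MP_1ce311_an
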