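import Mathlib
import Pool.Agent.Lib.MP_1ce311_an.Thh

open MeasureTheory Finset

namespace Pool.Agent.Lib.MP_1ce311_an

/-- integral over the circle bounded by the sum over cells -/
lemma integral_circle_cells (Φ : C(UnitAddCircle, ℝ)) (N : ℕ) (Ψ : ℤ → ℝ)
    (h : ∀ t : ℝ, Φ (t : UnitAddCircle) ≤ Ψ ⌊2 ^ N * t⌋) :
    ∫ x, Φ x ∂hm ≤ (∑ z ∈ range (2 ^ N), Ψ z) / 2 ^ N := by
  have h0 : ∫ x, Φ x ∂hm = ∫ t in (0:ℝ)..1, Φ (t : UnitAddCircle) := by
    have := AddCircle.intervalIntegral_preimage 1 0 (fun x : UnitAddCircle => Φ x)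
    rw [zero_add] at this
    rw [this, AddCircle.volume_eq_smul_haarAddCircle]
    simp
  rw [h0]
  have hc : Continuous fun t : ℝ => Φ (t : UnitAddCircle) :=
    Φ.continuous.comp (AddCircle.continuous_mk' 1)
  have hint : ∀ a b : ℝ, IntervalIntegrable (fun t : ℝ => Φ (t : UnitAddCircle)) volume a b :=
    fun a b => hc.intervalIntegrable a b
  have h2 : (0:ℝ) < 2 ^ N := by positivity
  have h3 := intervalIntegral.sum_integral_adjacent_intervals (μ := volume)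
    (f := fun t : ℝ => Φ (t : UnitAddCircle)) (a := fun k : ℕ => (k:ℝ) / 2 ^ N) (n := 2 ^ N)
    (fun k _ => hint _ _)
  simp only [Nat.cast_zero, zero_div] at h3
  have e1 : (((2 ^ N : ℕ) : ℝ)) / 2 ^ N = 1 := by
    push_cast
    exact div_self h2.ne'
  rw [e1] at h3
  rw [← h3, sum_div]
  refine sum_le_sum fun z _ => ?_
  have h4 : ∫ t in ((z:ℕ):ℝ) / 2 ^ N..((z + 1 : ℕ) : ℝ) / 2 ^ N, Φ (t : UnitAddCircle) ≤
      ∫ t in ((z:ℕ):ℝ) / 2 ^ N..((z + 1 : ℕ) : ℝ) / 2 ^ N, Ψ z := by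
    apply intervalIntegral.integral_mono_on_of_le_Ioo
    · gcongr
      push_cast
      linarith
    · exact hint _ _
    · exact intervalIntegrable_const
    · intro t ht
      have ht1 := ht.1
      have ht2 := ht.2
      rw [div_lt_iff₀ h2] at ht1
      rw [lt_div_iff₀ h2] at ht2
      push_cast at ht2
      have : ⌊2 ^ N * t⌋ = (z:ℤ) := by
        rw [Int.floor_eq_iff]
        push_cast
        constructor <;> linarith
      have h5 := h t
      rwa [this] at h5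
  refine h4.trans (le_of_eq ?_)
  rw [intervalIntegral.integral_const, smul_eq_mul]
  push_cast
  ring

/-- power version -/
lemma lintegral_circle_cells (Φ : C(UnitAddCircle, ℝ)) (N q : ℕ) (Ψ : ℤ → ℝ)
    (h : ∀ t : ℝ, |Φ (t : UnitAddCircle)| ≤ Ψ ⌊2 ^ N * t⌋) :
    ∫⁻ x, ‖Φ x‖ₑ ^ q ∂hm ≤ ENNReal.ofReal ((∑ z ∈ range (2 ^ N), Ψ z ^ q) / 2 ^ N) := by
  set G : C(UnitAddCircle, ℝ) := ⟨fun x => |Φ x| ^ q, by fun_prop⟩ with hG
  have h1 : ∫ x, G x ∂hm ≤ (∑ z ∈ range (2 ^ N), Ψ z ^ q) / 2 ^ N := by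
    refine integral_circle_cells G N (fun z => Ψ z ^ q) fun t => ?_
    exact pow_le_pow_left₀ (abs_nonneg _) (h t) q
  have h2 : ∫⁻ x, ‖Φ x‖ₑ ^ q ∂hm = ENNReal.ofReal (∫ x, G x ∂hm) := by
    rw [ofReal_integral_eq_lintegral_ofReal (cont_integrable G)
      (Filter.Eventually.of_forall fun x => by simp [hG])]
    refine lintegral_congr fun x => ?_
    simp only [hG, ContinuousMap.coe_mk]
    rw [ENNReal.ofReal_pow (abs_nonneg _), ← Real.norm_eq_abs, ofReal_norm]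
  rw [h2]
  exact ENNReal.ofReal_le_ofReal h1

/-- cell indices at coarser level -/
lemma floor_coarse {g N : ℕ} (h : g ≤ N) (t : ℝ) : ⌊2 ^ g * t⌋ = ⌊2 ^ N * t⌋ / 2 ^ (N - g) := by
  obtain ⟨e, rfl⟩ := Nat.exists_eq_add_of_le h
  rw [Nat.add_sub_cancel_left]
  have h1 : (2:ℝ) ^ g * t = (2 ^ (g + e) * t) / ((2 ^ e : ℕ) : ℝ) := by
    push_cast
    field_simp
    ring
  rw [h1, Int.floor_div_natCast]
  push_cast
  rfl

end Pool.Agent.Lib.MP_1ce311_an
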