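import Mathlib
import Pool.Agent.Lib.MP_1ce311_an.Cells

open MeasureTheory Finset

namespace Pool.Agent.Lib.MP_1ce311_an

/-- normalised measure on the torus -/
noncomputable abbrev mu (d : ℕ) : Measure (UnitAddTorus (Fin d)) :=
  Measure.pi fun _ => AddCircle.haarAddCircle

/-- tensor product of two functions -/
noncomputable def tp (f g : C(UnitAddCircle, ℝ)) : C(UnitAddTorus (Fin 2), ℝ) :=
  ⟨fun z => f (z 0) * g (z 1), by fun_prop⟩

lemma tor_integrable {d : ℕ} {E : Type*} [NormedAddCommGroup E] [NormedSpace ℝ E]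
    (f : C(UnitAddTorus (Fin d), E)) : Integrable f (mu d) :=
  f.continuous.integrable_of_hasCompactSupport (HasCompactSupport.of_compactSpace _)

lemma mFourierCoeff_def {d : ℕ} (f : UnitAddTorus (Fin d) → ℂ) (k : Fin d → ℤ) :
    UnitAddTorus.mFourierCoeff f k = ∫ x, UnitAddTorus.mFourier (-k) x • f x ∂(mu d) := rfl

/-- Fourier coefficient as a linear map -/
noncomputable def FC {d : ℕ} (k : Fin d → ℤ) : C(UnitAddTorus (Fin d), ℝ) →ₗ[ℝ] ℂ where
  toFun f := UnitAddTorus.mFourierCoeff (fun x => ((f x : ℝ) : ℂ)) k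
  map_add' f g := by
    simp only [mFourierCoeff_def, ContinuousMap.add_apply, Complex.ofReal_add, smul_add]
    exact integral_add (tor_integrable ⟨fun x => UnitAddTorus.mFourier (-k) x • ((f x : ℝ) : ℂ),
      by fun_prop⟩) (tor_integrable ⟨fun x => UnitAddTorus.mFourier (-k) x • ((g x : ℝ) : ℂ),
      by fun_prop⟩)
  map_smul' c f := by
    simp only [mFourierCoeff_def, ContinuousMap.smul_apply, smul_eq_mul, Complex.ofReal_mul,
      RingHom.id_apply]
    rw [← integral_smul]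
    congr 1
    ext x
    rw [Complex.real_smul]
    ring

lemma FC_apply {d : ℕ} (k : Fin d → ℤ) (f : C(UnitAddTorus (Fin d), ℝ)) :
    FC k f = UnitAddTorus.mFourierCoeff (fun x => ((f x : ℝ) : ℂ)) k := rfl

lemma FC_tp (f g : C(UnitAddCircle, ℝ)) (k : Fin 2 → ℤ) :
    FC k (tp f g) = fourierCoeff (fun x : UnitAddCircle => ((f x : ℝ) : ℂ)) (k 0) *
      fourierCoeff (fun x : UnitAddCircle => ((g x : ℝ) : ℂ)) (k 1) := by
  rw [FC_apply, mFourierCoeff_def]
  set F : Fin 2 → UnitAddCircle → ℂ := fun j =>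
    (fun x => fourier (-(k j)) x * (((if j = 0 then f x else g x) : ℝ) : ℂ)) with hF
  have h1 : ∀ x : UnitAddTorus (Fin 2), UnitAddTorus.mFourier (-k) x • ((tp f g x : ℝ) : ℂ) =
      ∏ j, F j (x j) := by
    intro x
    simp only [UnitAddTorus.mFourier, tp, ContinuousMap.coe_mk, Fin.prod_univ_two, hF,
      Pi.neg_apply, smul_eq_mul, if_true, Fin.isValue, one_ne_zero, if_false, Complex.ofReal_mul]
    ring
  simp_rw [h1]
  rw [mu, integral_fintype_prod_eq_prod, Fin.prod_univ_two]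
  simp [F, fourierCoeff]

lemma integral_eq_FC {d : ℕ} (f : C(UnitAddTorus (Fin d), ℝ)) :
    ((∫ x, f x ∂(mu d) : ℝ) : ℂ) = FC 0 f := by
  rw [FC_apply, mFourierCoeff_def]
  simp only [neg_zero, UnitAddTorus.mFourier_zero, ContinuousMap.one_apply, one_smul]
  exact integral_ofReal.symm

lemma integral_tp (f g : C(UnitAddCircle, ℝ)) :
    ∫ x, tp f g x ∂(mu 2) = (∫ x, f x ∂hm) * ∫ x, g x ∂hm := by
  have h1 := integral_eq_FC (tp f g)
  rw [FC_tp] at h1
  simp only [Pi.zero_apply] at h1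
  rw [fourierCoeff_zero', fourierCoeff_zero'] at h1
  exact_mod_cast h1

/-- the relation `f = F_r * φ` through Fourier coefficients -/
def Rel {d : ℕ} (r : ℝ) (f φ : C(UnitAddTorus (Fin d), ℝ)) : Prop :=
  ∀ k, FC k f = (∏ j, bern r (k j)) * FC k φ

lemma Rel.add {d : ℕ} {r : ℝ} {f φ f' φ' : C(UnitAddTorus (Fin d), ℝ)} (h : Rel r f φ)
    (h' : Rel r f' φ') : Rel r (f + f') (φ + φ') := by
  intro k
  rw [map_add, map_add, h k, h' k, mul_add]

lemma Rel.smul {d : ℕ} {r : ℝ} {f φ : C(UnitAddTorus (Fin d), ℝ)} (h : Rel r f φ) (c : ℝ) :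
    Rel r (c • f) (c • φ) := by
  intro k
  rw [map_smul, map_smul, h k, Complex.real_smul, Complex.real_smul]
  ring

lemma Rel.sum {d : ℕ} {r : ℝ} {κ : Type*} (s : Finset κ) {f φ : κ → C(UnitAddTorus (Fin d), ℝ)}
    (h : ∀ i ∈ s, Rel r (f i) (φ i)) : Rel r (∑ i ∈ s, f i) (∑ i ∈ s, φ i) := by
  intro k
  rw [map_sum, map_sum, mul_sum]
  exact sum_congr rfl fun i hi => h i hi k

lemma Rel.sub {d : ℕ} {r : ℝ} {f φ f' φ' : C(UnitAddTorus (Fin d), ℝ)} (h : Rel r f φ)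
    (h' : Rel r f' φ') : Rel r (f - f') (φ - φ') := by
  intro k
  rw [map_sub, map_sub, h k, h' k, mul_sub]

lemma rel_tp {r : ℝ} (hr : 0 < r) (hr1 : r < 1) (j j' : ℕ) (k k' : ℤ) :
    Rel r (tp (Hh j k) (Hh j' k')) (tp (thh r j k) (thh r j' k')) := by
  intro m
  rw [FC_tp, FC_tp, fourierCoeff_Hh hr hr1, fourierCoeff_Hh hr hr1, Fin.prod_univ_two]
  ring

lemma fourierCoeff_const_one (m : ℤ) (hm : m ≠ 0) :
    fourierCoeff (fun _ : UnitAddCircle => (1:ℂ)) m = 0 := by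
  have h8 : (fun x : UnitAddCircle => ((per (gf 2 0 0) x : ℝ) : ℂ)) = fun _ => (1:ℂ) := by
    ext x
    have := Hh_zero 0 x
    rw [Hh] at this
    rw [this]
    norm_num
  have h9 := fourierCoeff_gf (a := 2) (by norm_num) le_rfl 0 0 m hm
  rw [h8] at h9
  rw [h9]
  have h10 : Complex.exp (2 * Real.pi * Complex.I * m / 2 ^ 0) = 1 := by
    rw [pow_zero, div_one, show (2 * Real.pi * Complex.I * m : ℂ) = m * (2 * Real.pi * Complex.I) by ring]
    exact Complex.exp_int_mul_two_pi_mul_I m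
  have h11 : Complex.exp (-(2 * Real.pi * Complex.I * m / 2 ^ 0)) = 1 := by
    rw [Complex.exp_neg, h10, inv_one]
  rw [h10, h11]
  norm_num

lemma rel_one (r : ℝ) : Rel r (1 : C(UnitAddTorus (Fin 2), ℝ)) 1 := by
  intro k
  have h1 : (1 : C(UnitAddTorus (Fin 2), ℝ)) = tp 1 1 := by
    ext x
    simp [tp]
  rw [h1, FC_tp, Fin.prod_univ_two]
  simp only [ContinuousMap.one_apply, Complex.ofReal_one]
  by_cases h0 : k 0 = 0
  · by_cases h1 : k 1 = 0
    · rw [h0, h1]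
      simp [bern]
    · rw [fourierCoeff_const_one _ h1]
      simp
  · rw [fourierCoeff_const_one _ h0]
    simp

/-- bound of the norm on the two-dimensional torus by iterated integration -/
lemma eLpNorm_le_of_slices (Φ : C(UnitAddTorus (Fin 2), ℝ)) (q : ℕ) (hq : 1 ≤ q) (C : ℝ)
    (hC : 0 ≤ C)
    (h : ∀ y : UnitAddCircle, ∫⁻ x, ‖Φ ![x, y]‖ₑ ^ q ∂hm ≤ ENNReal.ofReal (C ^ q)) :
    eLpNorm Φ q (mu 2) ≤ ENNReal.ofReal C := by
  have hq0 : (q : ENNReal) ≠ 0 := by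
    simp only [ne_eq, Nat.cast_eq_zero]; omega
  rw [eLpNorm_eq_lintegral_rpow_enorm_toReal hq0 (ENNReal.natCast_ne_top q), ENNReal.toReal_natCast]
  have hqpos : (0:ℝ) < q := by exact_mod_cast hq
  rw [one_div, ENNReal.rpow_inv_le_iff hqpos]
  have h1 : ∀ x, ‖Φ x‖ₑ ^ (q:ℝ) = ‖Φ x‖ₑ ^ q := fun x => ENNReal.rpow_natCast _ _
  simp_rw [h1]
  rw [ENNReal.rpow_natCast, ← ENNReal.ofReal_pow hC]
  have h2 : ∫⁻ x, ‖Φ x‖ₑ ^ q ∂(mu 2) = ∫⁻ z : UnitAddCircle × UnitAddCircle,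
      ‖Φ ![z.1, z.2]‖ₑ ^ q ∂(hm.prod hm) := by
    have h3 := (measurePreserving_finTwoArrow (AddCircle.haarAddCircle (T := 1))).lintegral_comp_emb
      (MeasurableEquiv.finTwoArrow.measurableEmbedding)
      (fun z : UnitAddCircle × UnitAddCircle => ‖Φ ![z.1, z.2]‖ₑ ^ q)
    rw [← h3]
    refine lintegral_congr fun x => ?_
    congr 3
    ext j
    fin_cases j <;> rfl
  rw [h2]
  have hcont : Continuous fun z : UnitAddCircle × UnitAddCircle => Φ ![z.1, z.2] := by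
    refine Φ.continuous.comp ?_
    refine continuous_pi fun j => ?_
    fin_cases j
    · exact continuous_fst
    · exact continuous_snd
  have hmeas : Measurable fun z : UnitAddCircle × UnitAddCircle => ‖Φ ![z.1, z.2]‖ₑ ^ q :=
    (hcont.measurable.enorm).pow_const q
  rw [lintegral_prod_symm _ hmeas.aemeasurable]
  refine (lintegral_mono h).trans ?_
  rw [lintegral_const]
  simp

end Pool.Agent.Lib.MP_1ce311_an
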