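import Mathlib
import Pool.Agent.Lib.MP_1ce311_an.Torus
import Pool.Agent.Lib.MP_1ce311_an.KerBd

open MeasureTheory Finset

namespace Pool.Agent.Lib.MP_1ce311_an

/-- tensor product of `d` functions -/
noncomputable def tpd {d : ℕ} (f : Fin d → C(UnitAddCircle, ℝ)) : C(UnitAddTorus (Fin d), ℝ) :=
  ⟨fun z => ∏ j, f j (z j), by fun_prop⟩

lemma tpd_apply {d : ℕ} (f : Fin d → C(UnitAddCircle, ℝ)) (z : UnitAddTorus (Fin d)) :
    tpd f z = ∏ j, f j (z j) := rfl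

lemma FC_tpd {d : ℕ} (f : Fin d → C(UnitAddCircle, ℝ)) (k : Fin d → ℤ) :
    FC k (tpd f) = ∏ j, fourierCoeff (fun x : UnitAddCircle => ((f j x : ℝ) : ℂ)) (k j) := by
  rw [FC_apply, mFourierCoeff_def]
  have h1 : ∀ x : UnitAddTorus (Fin d), UnitAddTorus.mFourier (-k) x • ((tpd f x : ℝ) : ℂ) =
      ∏ j, (fun j (x : UnitAddCircle) => fourier (-(k j)) x * ((f j x : ℝ) : ℂ)) j (x j) := by
    intro x
    simp only [UnitAddTorus.mFourier, tpd, ContinuousMap.coe_mk, Pi.neg_apply, smul_eq_mul,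
      Complex.ofReal_prod, prod_mul_distrib]
  rw [integral_congr_ae (Filter.Eventually.of_forall h1)]
  exact integral_fintype_prod_eq_prod (μ := fun _ : Fin d => AddCircle.haarAddCircle)
    (fun j (x : UnitAddCircle) => fourier (-(k j)) x * ((f j x : ℝ) : ℂ))

lemma IL_tpd {d : ℕ} (f : Fin d → C(UnitAddCircle, ℝ)) :
    ∫ x, tpd f x ∂(mu d) = ∏ j, ∫ x, f j x ∂hm := by
  have h1 : ∀ x : UnitAddTorus (Fin d), tpd f x = ∏ j, (fun j x => f j x) j (x j) := fun x => rfl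
  simp_rw [h1]
  rw [mu, integral_fintype_prod_eq_prod]

/-- the value of an atom -/
noncomputable def atom (L : ℕ) (P : ℕ → ℤ → C(UnitAddCircle, ℝ)) (σ y : ℕ) : C(UnitAddCircle, ℝ) :=
  ((2:ℝ) ^ σ / 2 ^ L) • P σ (((y / 2 ^ (L - σ) : ℕ) : ℤ) + 1)

/-- synthesis operator -/
noncomputable def Syn {d : ℕ} (L : ℕ) (P : ℕ → ℤ → C(UnitAddCircle, ℝ))
    (g : (Fin d → Fin (L + 1)) → (Fin d → Fin (2 ^ L)) → ℝ) : C(UnitAddTorus (Fin d), ℝ) :=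
  ∑ s, ∑ y, g s y • tpd (fun j => atom L P (s j) (y j))

lemma Syn_apply {d : ℕ} (L : ℕ) (P : ℕ → ℤ → C(UnitAddCircle, ℝ))
    (g : (Fin d → Fin (L + 1)) → (Fin d → Fin (2 ^ L)) → ℝ) (x : UnitAddTorus (Fin d)) :
    Syn L P g x = ∑ s, ∑ y, g s y * ∏ j, atom L P (s j) (y j) (x j) := by
  unfold Syn
  simp only [ContinuousMap.coe_sum, Finset.sum_apply, ContinuousMap.smul_apply, smul_eq_mul,
    tpd_apply]

lemma Syn_sub {d : ℕ} (L : ℕ) (P : ℕ → ℤ → C(UnitAddCircle, ℝ))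
    (g g' : (Fin d → Fin (L + 1)) → (Fin d → Fin (2 ^ L)) → ℝ) :
    Syn L P (fun s y => g s y - g' s y) = Syn L P g - Syn L P g' := by
  ext x
  simp only [Syn_apply, ContinuousMap.sub_apply, sub_mul, sum_sub_distrib]

lemma Syn_sum {d : ℕ} (L : ℕ) (P : ℕ → ℤ → C(UnitAddCircle, ℝ)) {κ : Type*} (t : Finset κ)
    (g : κ → (Fin d → Fin (L + 1)) → (Fin d → Fin (2 ^ L)) → ℝ) :
    Syn L P (fun s y => ∑ l ∈ t, g l s y) = ∑ l ∈ t, Syn L P (g l) := by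
  ext x
  simp only [Syn_apply, ContinuousMap.coe_sum, Finset.sum_apply, sum_mul]
  rw [sum_comm]
  conv_rhs => rw [sum_comm]
  rw [sum_comm]
  refine sum_congr rfl fun s _ => ?_
  rw [sum_comm]

lemma atom_fourier {r : ℝ} (hr : 0 < r) (hr1 : r < 1) (L σ y : ℕ) (m : ℤ) :
    fourierCoeff (fun x : UnitAddCircle => ((atom L Hh σ y x : ℝ) : ℂ)) m =
      bern r m * fourierCoeff (fun x : UnitAddCircle => ((atom L (thh r) σ y x : ℝ) : ℂ)) m := by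
  have h : ∀ (f : C(UnitAddCircle, ℝ)) (c : ℝ),
      fourierCoeff (fun x : UnitAddCircle => (((c • f) x : ℝ) : ℂ)) m =
        c * fourierCoeff (fun x : UnitAddCircle => ((f x : ℝ) : ℂ)) m := by
    intro f c
    simp only [fourierCoeff, ContinuousMap.smul_apply, smul_eq_mul, Complex.ofReal_mul]
    rw [← integral_const_mul]
    congr 1
    ext x
    ring
  unfold atom
  rw [h, h, fourierCoeff_Hh hr hr1]
  ring

lemma rel_Syn {d : ℕ} {r : ℝ} (hr : 0 < r) (hr1 : r < 1) (L : ℕ)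
    (g : (Fin d → Fin (L + 1)) → (Fin d → Fin (2 ^ L)) → ℝ) :
    Rel r (Syn L Hh g) (Syn L (thh r) g) := by
  refine Rel.sum _ fun s _ => Rel.sum _ fun y _ => Rel.smul ?_ _
  intro k
  rw [FC_tpd, FC_tpd, ← prod_mul_distrib]
  exact prod_congr rfl fun j _ => atom_fourier hr hr1 _ _ _ _

/-- the integral as a linear map -/
noncomputable def ILd (d : ℕ) : C(UnitAddTorus (Fin d), ℝ) →ₗ[ℝ] ℝ where
  toFun f := ∫ x, f x ∂(mu d)
  map_add' f g := by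
    simp only [ContinuousMap.add_apply]
    exact integral_add (tor_integrable f) (tor_integrable g)
  map_smul' c f := by
    simp only [ContinuousMap.smul_apply, smul_eq_mul, RingHom.id_apply]
    exact integral_const_mul _ _

lemma integral_Syn {d : ℕ} (L : ℕ) (g : (Fin d → Fin (L + 1)) → (Fin d → Fin (2 ^ L)) → ℝ) :
    ∫ x, Syn L Hh g x ∂(mu d) = (∑ s, ∑ y, g s y) / ((2:ℝ) ^ L) ^ d := by
  have h0 : ∫ x, Syn L Hh g x ∂(mu d) = ILd d (Syn L Hh g) := rfl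
  rw [h0]
  unfold Syn
  simp only [map_sum, map_smul, smul_eq_mul]
  have h1 : ∀ (s : Fin d → Fin (L + 1)) (y : Fin d → Fin (2 ^ L)),
      ILd d (tpd fun j => atom L Hh (s j) (y j)) = 1 / ((2:ℝ) ^ L) ^ d := by
    intro s y
    show ∫ x, tpd (fun j => atom L Hh (s j) (y j)) x ∂(mu d) = _
    rw [IL_tpd]
    have h2 : ∀ j : Fin d, ∫ x, atom L Hh (s j) (y j) x ∂hm = 1 / (2:ℝ) ^ L := by
      intro j
      unfold atom
      simp only [ContinuousMap.smul_apply, smul_eq_mul]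
      rw [integral_const_mul, integral_Hh]
      field_simp
    rw [prod_congr rfl fun j _ => h2 j, prod_const, card_univ, Fintype.card_fin, one_div_pow]
  simp_rw [h1]
  rw [sum_div]
  refine sum_congr rfl fun s _ => ?_
  rw [sum_div]
  refine sum_congr rfl fun y _ => ?_
  ring

/-- values on the grid -/
lemma atom_thh_grid {r : ℝ} (hr : 0 < r) (hr1 : r < 1) (L : ℕ) (θ : ℝ) (σ : ℕ) (hσ : σ ≤ L)
    (ζ y : Fin (2 ^ L)) :
    atom L (thh r) σ y ((θ + (ζ : ℕ) / 2 ^ L : ℝ) : UnitAddCircle) =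
      ((2:ℝ) ^ σ) ^ r * Tk L (wk r L θ) σ ζ y := by
  unfold atom Tk wk
  rw [ContinuousMap.smul_apply, smul_eq_mul, thh_translate hr hr1]
  have h2σ : (0:ℝ) < 2 ^ σ := by positivity
  have h2L : (2:ℝ) ^ L = 2 ^ σ * 2 ^ (L - σ) := by
    rw [← pow_add]; congr 1; omega
  have e1 : (θ + (ζ : ℕ) / 2 ^ L - (((y : ℕ) / 2 ^ (L - σ) : ℕ) : ℤ) / 2 ^ σ : ℝ) =
      θ + (((ζ : ℕ) : ℤ) - ((((y : ℕ) / 2 ^ (L - σ)) * 2 ^ (L - σ) : ℕ) : ℤ) : ℤ) / 2 ^ L := by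
    push_cast
    rw [h2L]
    field_simp
    ring
  rw [e1]
  have e2 : ((2:ℝ) ^ σ) ^ r * ((2:ℝ) ^ σ) ^ (-r) = 1 := by
    rw [← Real.rpow_add h2σ]; simp
  set T := thh r σ 1 ((θ + (((ζ : ℕ) : ℤ) - ((((y : ℕ) / 2 ^ (L - σ)) * 2 ^ (L - σ) : ℕ) : ℤ) : ℤ) /
    2 ^ L : ℝ) : UnitAddCircle)
  calc (2:ℝ) ^ σ / 2 ^ L * T = (((2:ℝ) ^ σ) ^ r * ((2:ℝ) ^ σ) ^ (-r)) * ((2:ℝ) ^ σ / 2 ^ L * T) := by
        rw [e2, one_mul]
    _ = _ := by ring

lemma Syn_grid {d : ℕ} {r : ℝ} (hr : 0 < r) (hr1 : r < 1) (L : ℕ)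
    (g : (Fin d → Fin (L + 1)) → (Fin d → Fin (2 ^ L)) → ℝ) (θ : Fin d → ℝ)
    (ζ : Fin d → Fin (2 ^ L)) :
    Syn L (thh r) g (fun j => ((θ j + (ζ j : ℕ) / 2 ^ L : ℝ) : UnitAddCircle)) =
      ∑ s : Fin d → Fin (L + 1), ((2:ℝ) ^ (∑ j, (s j : ℕ))) ^ r *
        ∑ y, (∏ j, Tk L (wk r L (θ j)) (s j) (ζ j) (y j)) * g s y := by
  rw [Syn_apply]
  refine sum_congr rfl fun s _ => ?_
  rw [mul_sum]
  refine sum_congr rfl fun y _ => ?_
  have h1 : ∀ j, atom L (thh r) (s j) (y j) ((θ j + (ζ j : ℕ) / 2 ^ L : ℝ) : UnitAddCircle) =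
      ((2:ℝ) ^ (s j : ℕ)) ^ r * Tk L (wk r L (θ j)) (s j) (ζ j) (y j) :=
    fun j => atom_thh_grid hr hr1 L (θ j) (s j) (Nat.lt_succ_iff.1 (s j).2) (ζ j) (y j)
  have h2 : ∏ j, atom L (thh r) (s j) (y j) ((θ j + (ζ j : ℕ) / 2 ^ L : ℝ) : UnitAddCircle) =
      ((2:ℝ) ^ (∑ j, (s j : ℕ))) ^ r * ∏ j, Tk L (wk r L (θ j)) (s j) (ζ j) (y j) := by
    rw [prod_congr rfl fun j _ => h1 j, prod_mul_distrib, ← prod_pow_eq_pow_sum,
      ← Real.finsetProd_rpow _ _ (fun j _ => by positivity)]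
  rw [h2]
  ring

/-- reindexing of the grid -/
lemma grid_reindex (n : ℕ) (hn : 0 < n) (t : ℝ) : ∃ θ : ℝ, 0 ≤ θ ∧ θ < (n:ℝ)⁻¹ ∧
    ∃ e : Fin n ≃ Fin n, ∀ i : Fin n, ((t + (i : ℕ) / n : ℝ) : UnitAddCircle) =
      ((θ + (e i : ℕ) / n : ℝ) : UnitAddCircle) := by
  have : NeZero n := ⟨hn.ne'⟩
  have hn' : (0:ℝ) < n := by exact_mod_cast hn
  set a : ℤ := ⌊n * t⌋ with ha
  have ha1 := Int.floor_le (n * t)
  have ha2 := Int.lt_floor_add_one (n * t)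
  have hnz : (n:ℤ) ≠ 0 := by exact_mod_cast hn.ne'
  have hm0 : 0 ≤ a % n := Int.emod_nonneg _ hnz
  have hm1 : a % n < n := Int.emod_lt_of_pos _ (by exact_mod_cast hn)
  set b : Fin n := ⟨(a % n).toNat, by omega⟩ with hb
  have hbv : ((b : ℕ) : ℤ) = a % n := by
    rw [hb]; exact Int.toNat_of_nonneg hm0
  refine ⟨t - a / n, ?_, ?_, Equiv.addRight b, ?_⟩
  · rw [sub_nonneg, div_le_iff₀ hn', mul_comm]; exact ha1
  · rw [sub_lt_iff_lt_add, ← one_div, ← add_div, lt_div_iff₀ hn', mul_comm, add_comm]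
    exact ha2
  · intro i
    -- the two points differ by an integer
    obtain ⟨c, hc⟩ : ∃ c : ℤ, (((i + b : Fin n) : ℕ) : ℤ) = ((i : ℕ) : ℤ) + b - n * c := by
      refine ⟨((((i:ℕ) + (b:ℕ)) / n : ℕ) : ℤ), ?_⟩
      rw [Fin.val_add]
      have h3 : ((n * (((i:ℕ) + (b:ℕ)) / n) + ((i:ℕ) + (b:ℕ)) % n : ℕ) : ℤ) =
        (((i:ℕ) + (b:ℕ) : ℕ) : ℤ) := by exact_mod_cast Nat.div_add_mod ((i:ℕ) + (b:ℕ)) n
      push_cast at h3 ⊢
      linarith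
    obtain ⟨c', hc'⟩ : ∃ c' : ℤ, a = n * c' + b :=
      ⟨a / n, by rw [hbv]; exact (Int.mul_ediv_add_emod a n).symm⟩
    have h3 : ((((i + b : Fin n) : ℕ) : ℝ)) = ((i : ℕ) : ℝ) + b - n * c := by
      exact_mod_cast hc
    have h4 : (a:ℝ) = n * c' + b := by exact_mod_cast hc'
    show ((t + (i : ℕ) / n : ℝ) : UnitAddCircle) =
      ((t - a / n + ((i + b : Fin n) : ℕ) / n : ℝ) : UnitAddCircle)
    have h5 : (t - a / n + (((i + b : Fin n) : ℕ) : ℝ) / n : ℝ) =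
        (t + (i : ℕ) / n) + ((-c' - c : ℤ) : ℝ) := by
      rw [h3, h4]
      push_cast
      field_simp
      ring
    rw [h5]
    have h6 : ((((-c' - c : ℤ) : ℝ)) : UnitAddCircle) = 0 := by
      rw [AddCircle.coe_eq_zero_iff]
      exact ⟨-c' - c, by simp⟩
    rw [AddCircle.coe_add _ _ (((-c' - c : ℤ) : ℝ)), h6, add_zero]

end Pool.Agent.Lib.MP_1ce311_an
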