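import Mathlib
import Pool.Agent.Lib.MP_1ce311_an.TorusD
import Pool.Agent.Lib.MP_1ce311_an.Near

open MeasureTheory Finset

namespace Pool.Agent.Lib.MP_1ce311_an

/-- norm bound by averaging over the grid translations -/
lemma eLpNorm_le_of_grid {d : ℕ} (L k : ℕ) (hk : 1 ≤ k) (Φ : C(UnitAddTorus (Fin d), ℝ)) (Q : ℝ)
    (hQ : 0 ≤ Q)
    (h : ∀ θ : Fin d → ℝ, (∀ j, 0 ≤ θ j) → (∀ j, θ j < ((2:ℝ) ^ L)⁻¹) →
      ∑ ζ : Fin d → Fin (2 ^ L), Φ (fun j => ((θ j + (ζ j : ℕ) / 2 ^ L : ℝ) : UnitAddCircle)) ^ (2 * k) ≤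
        Q ^ (2 * k) * ((2:ℝ) ^ L) ^ d) :
    eLpNorm Φ ((2 * k : ℕ) : ENNReal) (mu d) ≤ ENNReal.ofReal Q := by
  have hq0 : ((2 * k : ℕ) : ENNReal) ≠ 0 := by
    simp only [ne_eq, Nat.cast_eq_zero]; omega
  rw [eLpNorm_eq_lintegral_rpow_enorm_toReal hq0 (ENNReal.natCast_ne_top _),
    ENNReal.toReal_natCast]
  have hqpos : (0:ℝ) < ((2 * k : ℕ) : ℝ) := by
    have : 0 < 2 * k := by omega
    exact_mod_cast this
  rw [one_div, ENNReal.rpow_inv_le_iff hqpos]
  have h1 : ∀ x, ‖Φ x‖ₑ ^ ((2 * k : ℕ) : ℝ) = ENNReal.ofReal (Φ x ^ (2 * k)) := by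
    intro x
    rw [ENNReal.rpow_natCast]
    have : Φ x ^ (2 * k) = |Φ x| ^ (2 * k) := by
      rw [pow_mul, pow_mul, sq_abs]
    rw [this, ENNReal.ofReal_pow (abs_nonneg _), ← Real.norm_eq_abs, ofReal_norm]
  simp_rw [h1]
  set G : C(UnitAddTorus (Fin d), ℝ) := ⟨fun x => Φ x ^ (2 * k), by fun_prop⟩ with hG
  have hG0 : ∀ x, 0 ≤ G x := fun x => by
    show 0 ≤ Φ x ^ (2 * k)
    rw [pow_mul]; positivity
  have h2 : ∫⁻ x, ENNReal.ofReal (Φ x ^ (2 * k)) ∂(mu d) = ENNReal.ofReal (∫ x, G x ∂(mu d)) := by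
    rw [ofReal_integral_eq_lintegral_ofReal (tor_integrable G)
      (Filter.Eventually.of_forall hG0)]
    rfl
  rw [h2, ENNReal.rpow_natCast, ← ENNReal.ofReal_pow hQ]
  apply ENNReal.ofReal_le_ofReal
  -- averaging
  set c : (Fin d → Fin (2 ^ L)) → UnitAddTorus (Fin d) :=
    fun ζ j => (((ζ j : ℕ) / 2 ^ L : ℝ) : UnitAddCircle) with hc
  have h3 : ∀ ζ, ∫ x, G x ∂(mu d) = ∫ x, G (x + c ζ) ∂(mu d) := by
    intro ζ
    exact (integral_add_right_eq_self (μ := mu d) (fun x => G x) (c ζ)).symm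
  have h4 : ((2:ℝ) ^ L) ^ d * ∫ x, G x ∂(mu d) = ∫ x, ∑ ζ, G (x + c ζ) ∂(mu d) := by
    rw [integral_finsetSum]
    · rw [sum_congr rfl fun ζ _ => (h3 ζ).symm, sum_const, card_univ, Fintype.card_pi, prod_const,
        card_univ, Fintype.card_fin, Fintype.card_fin, nsmul_eq_mul]
      push_cast
      ring
    · intro ζ _
      exact tor_integrable (⟨fun x => G (x + c ζ), by fun_prop⟩ : C(UnitAddTorus (Fin d), ℝ))
  have h5 : ∀ x, ∑ ζ, G (x + c ζ) ≤ Q ^ (2 * k) * ((2:ℝ) ^ L) ^ d := by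
    intro x
    have hlift : ∀ j, ∃ t : ℝ, (t : UnitAddCircle) = x j :=
      fun j => QuotientAddGroup.mk_surjective (x j)
    choose t ht using hlift
    have hre := fun j => grid_reindex (2 ^ L) (by positivity) (t j)
    choose θ hθ0 hθ1 e he using hre
    have h6 := h θ hθ0 (fun j => by have := hθ1 j; push_cast at this; exact this)
    refine le_trans (le_of_eq ?_) h6
    refine Fintype.sum_equiv (Equiv.piCongrRight e) _ _ fun ζ => ?_
    show Φ (x + c ζ) ^ (2 * k) = _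
    congr 2
    ext j
    show x j + c ζ j = _
    rw [← ht j, hc]
    simp only [Equiv.piCongrRight_apply, Pi.map_apply]
    have := he j (ζ j)
    push_cast at this
    rw [← AddCircle.coe_add]
    push_cast
    exact this
  have h7 : ∫ x, ∑ ζ, G (x + c ζ) ∂(mu d) ≤ Q ^ (2 * k) * ((2:ℝ) ^ L) ^ d := by
    have h8 : ∫ x, ∑ ζ, G (x + c ζ) ∂(mu d) ≤
        ∫ _ : UnitAddTorus (Fin d), Q ^ (2 * k) * ((2:ℝ) ^ L) ^ d ∂(mu d) := by
      refine integral_mono ?_ (integrable_const _) h5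
      exact tor_integrable (⟨fun x => ∑ ζ, G (x + c ζ), by fun_prop⟩ :
        C(UnitAddTorus (Fin d), ℝ))
    refine h8.trans (le_of_eq ?_)
    rw [integral_const]
    simp
  rw [← h4, mul_comm] at h7
  have hpos : (0:ℝ) < ((2:ℝ) ^ L) ^ d := by positivity
  exact le_of_mul_le_mul_right h7 hpos

/-- nodes and occupied cells -/
def occ {d m : ℕ} (L : ℕ) (X : Fin m → Fin d → ℝ) (s : Fin d → Fin (L + 1))
    (y : Fin d → Fin (2 ^ L)) : Prop :=
  ∃ i, ∀ j, Near (s j) (((((y j : ℕ) / 2 ^ (L - s j) : ℕ)) : ℤ) + 1) (X i j)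

/-- the synthesis vanishes at the nodes when the coefficients vanish on occupied cells -/
lemma Syn_node {d m : ℕ} (L : ℕ) (X : Fin m → Fin d → ℝ)
    (g : (Fin d → Fin (L + 1)) → (Fin d → Fin (2 ^ L)) → ℝ)
    (hg : ∀ s y, occ L X s y → g s y = 0) (i : Fin m) :
    Syn L Hh g (fun j => ((X i j : ℝ) : UnitAddCircle)) = 0 := by
  rw [Syn_apply]
  refine sum_eq_zero fun s _ => sum_eq_zero fun y _ => ?_
  by_cases ho : occ L X s y
  · rw [hg s y ho, zero_mul]
  · have : ∃ j, ¬ Near (s j) (((((y j : ℕ) / 2 ^ (L - s j) : ℕ)) : ℤ) + 1) (X i j) := by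
      by_contra hcon
      push Not at hcon
      exact ho ⟨i, hcon⟩
    obtain ⟨j, hj⟩ := this
    rw [prod_eq_zero (mem_univ j), mul_zero]
    unfold atom
    rw [ContinuousMap.smul_apply, Hh_eq_zero hj, smul_zero]

open scoped Classical in
/-- number of occupied cells -/
lemma card_occ_one (L σ : ℕ) (hσ : σ ≤ L) (t : ℝ) :
    (univ.filter fun y : Fin (2 ^ L) =>
      Near σ (((((y : ℕ) / 2 ^ (L - σ) : ℕ)) : ℤ) + 1) t).card ≤ 2 * 2 ^ (L - σ) := by
  have h1 : ((univ.filter fun y : Fin (2 ^ L) =>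
      Near σ (((((y : ℕ) / 2 ^ (L - σ) : ℕ)) : ℤ) + 1) t)).card ≤
      (((range (2 ^ σ)).filter fun w : ℕ => Near σ (1 + w) t) ×ˢ (range (2 ^ (L - σ)))).card := by
    refine card_le_card_of_injOn (fun y => ((y : ℕ) / 2 ^ (L - σ), (y : ℕ) % 2 ^ (L - σ))) ?_ ?_
    · intro y hy
      rw [mem_coe, mem_filter] at hy
      simp only [coe_product, Set.mem_prod, mem_coe, mem_filter, mem_range]
      refine ⟨⟨?_, ?_⟩, Nat.mod_lt _ (by positivity)⟩
      · rw [Nat.div_lt_iff_lt_mul (by positivity), ← pow_add, Nat.add_sub_cancel' hσ]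
        exact y.2
      · have := hy.2
        rwa [add_comm] at this
    · intro y _ y' _ h
      simp only [Prod.mk.injEq] at h
      apply Fin.ext
      rw [← Nat.div_add_mod (y:ℕ) (2 ^ (L - σ)), ← Nat.div_add_mod (y':ℕ) (2 ^ (L - σ)), h.1, h.2]
  refine h1.trans ?_
  rw [card_product, card_range]
  exact Nat.mul_le_mul_right _ (near_card le_rfl 1 t)

open scoped Classical in
lemma card_occ {d m : ℕ} (L : ℕ) (X : Fin m → Fin d → ℝ) (s : Fin d → Fin (L + 1)) :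
    (univ.filter fun y : Fin d → Fin (2 ^ L) => occ L X s y).card ≤
      m * (2 ^ d * 2 ^ (∑ j, (L - (s j : ℕ)))) := by
  have h1 : (univ.filter fun y : Fin d → Fin (2 ^ L) => occ L X s y) ⊆
      (univ : Finset (Fin m)).biUnion fun i => Fintype.piFinset fun j =>
        univ.filter fun y : Fin (2 ^ L) =>
          Near (s j) (((((y : ℕ) / 2 ^ (L - s j) : ℕ)) : ℤ) + 1) (X i j) := by
    intro y hy
    rw [mem_filter] at hy
    obtain ⟨i, hi⟩ := hy.2
    rw [mem_biUnion]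
    refine ⟨i, mem_univ _, ?_⟩
    rw [Fintype.mem_piFinset]
    intro j
    rw [mem_filter]
    exact ⟨mem_univ _, hi j⟩
  refine (card_le_card h1).trans (card_biUnion_le.trans ?_)
  calc ∑ i : Fin m, (Fintype.piFinset fun j => univ.filter fun y : Fin (2 ^ L) =>
          Near (s j) (((((y : ℕ) / 2 ^ (L - s j) : ℕ)) : ℤ) + 1) (X i j)).card
      ≤ ∑ i : Fin m, ∏ j : Fin d, (2 * 2 ^ (L - (s j : ℕ))) := by
        refine sum_le_sum fun i _ => ?_
        rw [Fintype.card_piFinset]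
        exact prod_le_prod' fun j _ => card_occ_one L (s j) (Nat.lt_succ_iff.1 (s j).2) _
    _ = _ := by
        rw [sum_const, card_univ, Fintype.card_fin, smul_eq_mul, prod_mul_distrib, prod_const,
          card_univ, Fintype.card_fin, prod_pow_eq_pow_sum]

end Pool.Agent.Lib.MP_1ce311_an
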