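import Mathlib
import Pool.Agent.Lib.MP_1ce311_an.Near

open Finset

namespace Pool.Agent.Lib.MP_1ce311_an

/-- the sparse set of depths -/
def ug : ℕ → ℕ
  | 0 => 0
  | γ + 1 => 4 ^ γ

/-- the weights attached to the depths -/
noncomputable def om (B : ℕ) : ℕ → ℝ
  | 0 => 1
  | γ + 1 => (1 / 16) ^ γ + (1 / 2) ^ (B + γ)

lemma om_pos (B ρ : ℕ) : 0 < om B ρ := by
  cases ρ with
  | zero => exact one_pos
  | succ γ => unfold om; positivity

lemma inv_om_le (B ρ : ℕ) : 1 / om B ρ ≤ (1 + (ug ρ : ℝ)) ^ 2 := by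
  cases ρ with
  | zero => simp [om, ug]
  | succ γ =>
    rw [div_le_iff₀ (om_pos _ _)]
    unfold om ug
    have h1 : (0:ℝ) ≤ (1 / 2) ^ (B + γ) := by positivity
    have h2 : (1:ℝ) = (4 ^ γ) ^ 2 * (1 / 16) ^ γ := by
      rw [← pow_mul, mul_comm γ 2, pow_mul, ← mul_pow]
      norm_num
    have h3 : ((4:ℝ) ^ γ) ^ 2 ≤ (1 + 4 ^ γ) ^ 2 := by
      have : (0:ℝ) ≤ 4 ^ γ := by positivity
      nlinarith
    push_cast
    calc (1:ℝ) = (4 ^ γ) ^ 2 * (1 / 16) ^ γ := h2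
      _ ≤ (1 + 4 ^ γ) ^ 2 * ((1 / 16) ^ γ + (1 / 2) ^ (B + γ)) := by
          apply mul_le_mul h3 (by linarith) (by positivity) (by positivity)

lemma sum_inv_om (B : ℕ) : ∑ ρ ∈ range (B + 1), 1 / om B ρ ≤ 2 * 4 ^ B := by
  have h : ∀ C ≤ B, ∑ ρ ∈ range (C + 1), 1 / om B ρ ≤ 2 ^ B * 2 ^ C := by
    intro C hC
    induction C with
    | zero =>
      simp [om]
      exact one_le_pow₀ (by norm_num)
    | succ γ ih =>
      rw [sum_range_succ]
      have h1 : 1 / om B (γ + 1) ≤ 2 ^ B * 2 ^ γ := by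
        rw [div_le_iff₀ (om_pos _ _)]
        unfold om
        have : (1:ℝ) = 2 ^ B * 2 ^ γ * (1 / 2) ^ (B + γ) := by
          rw [← pow_add, ← mul_pow]; norm_num
        have h2 : (0:ℝ) ≤ 2 ^ B * 2 ^ γ * (1 / 16) ^ γ := by positivity
        rw [mul_add]
        linarith
      have := ih (by omega)
      calc _ ≤ (2:ℝ) ^ B * 2 ^ γ + 2 ^ B * 2 ^ γ := by linarith
        _ = 2 ^ B * 2 ^ (γ + 1) := by ring
  have h2 := h B le_rfl
  have h3 : (2:ℝ) ^ B * 2 ^ B = 4 ^ B := by rw [← mul_pow]; norm_num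
  rw [h3] at h2
  have : (0:ℝ) ≤ 4 ^ B := by positivity
  linarith

lemma sum_om (B : ℕ) : ∑ γ ∈ range B, (4:ℝ) ^ γ * om B (γ + 1) ≤ 3 := by
  have h1 : ∀ C : ℕ, ∑ γ ∈ range C, (4:ℝ) ^ γ * (1 / 16) ^ γ ≤ 2 - 2 * (1 / 4) ^ C := by
    intro C
    induction C with
    | zero => simp
    | succ C ih =>
      rw [sum_range_succ, ← mul_pow]
      have : (4 * (1 / 16) : ℝ) = 1 / 4 := by norm_num
      rw [this, pow_succ]
      have h0 : (0:ℝ) ≤ (1/4) ^ C := by positivity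
      linarith
  have h2 : ∀ C : ℕ, ∑ γ ∈ range C, (4:ℝ) ^ γ * (1 / 2) ^ (B + γ) ≤ 2 ^ C * (1 / 2) ^ B := by
    intro C
    induction C with
    | zero => simp
    | succ C ih =>
      rw [sum_range_succ]
      have : (4:ℝ) ^ C * (1 / 2) ^ (B + C) = 2 ^ C * (1 / 2) ^ B := by
        rw [pow_add, mul_comm ((1/2:ℝ) ^ B), ← mul_assoc, ← mul_pow]
        norm_num
      rw [this, pow_succ]
      linarith
  have h3 := h1 B
  have h4 := h2 B
  have h5 : (2:ℝ) ^ B * (1 / 2) ^ B = 1 := by rw [← mul_pow]; norm_num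
  rw [h5] at h4
  have h6 : (0:ℝ) ≤ (1 / 4) ^ B := by positivity
  calc ∑ γ ∈ range B, (4:ℝ) ^ γ * om B (γ + 1)
      = ∑ γ ∈ range B, (4:ℝ) ^ γ * (1 / 16) ^ γ + ∑ γ ∈ range B, (4:ℝ) ^ γ * (1 / 2) ^ (B + γ) := by
        rw [← sum_add_distrib]
        refine sum_congr rfl fun γ _ => ?_
        unfold om
        ring
    _ ≤ 3 := by linarith

open scoped Classical in
/-- number of nodes near a cell -/
noncomputable def cnt {ι : Type*} (V : Finset ι) (X : ι → ℝ) (g : ℕ) (k : ℤ) : ℕ :=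
  (V.filter fun v => Near g k (X v)).card

/-- a cell is rich when it has many nodes compared with its depth -/
def Rich {ι : Type*} (B : ℕ) (V : Finset ι) (X : ι → ℝ) (i : ℕ) (g : ℕ) (k : ℤ) : Prop :=
  ∃ ρ ≤ B, g + ug ρ = i ∧ 2 ^ ug ρ * om B ρ ≤ cnt V X g k

/-- a cell is kept when it is rich and receives mass -/
def Kp {ι : Type*} (B : ℕ) (V : Finset ι) (X : ι → ℝ) (i : ℕ) (g : ℕ) (k : ℤ) : Prop :=
  Rich B V X i g k ∧ cf (Rich B V X i) g k ≠ 0

section
variable {ι : Type*} (B : ℕ) (V : Finset ι) (X : ι → ℝ) (i : ℕ)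

open scoped Classical in
lemma cnt_periodic (g : ℕ) (k : ℤ) : cnt V X g (k + 2 ^ g) = cnt V X g k := by
  unfold cnt
  rw [filter_congr fun v _ => near_periodic g k (X v)]

lemma rich_periodic (g : ℕ) (k : ℤ) : Rich B V X i g (k + 2 ^ g) ↔ Rich B V X i g k := by
  unfold Rich
  rw [cnt_periodic]

lemma kp_periodic (g : ℕ) (k : ℤ) : Kp B V X i g (k + 2 ^ g) ↔ Kp B V X i g k := by
  unfold Kp
  rw [rich_periodic, cf_periodic (rich_periodic B V X i)]

lemma ug_inj {ρ ρ' : ℕ} (h : ug ρ = ug ρ') : ρ = ρ' := by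
  cases ρ with
  | zero =>
    cases ρ' with
    | zero => rfl
    | succ γ => exact absurd h.symm (by unfold ug; positivity)
  | succ γ =>
    cases ρ' with
    | zero => exact absurd h (by unfold ug; positivity)
    | succ γ' =>
      unfold ug at h
      rw [Nat.pow_right_injective (by norm_num : 2 ≤ 4) h]

variable {B V X i}

lemma Rich.le {ρ g : ℕ} {k : ℤ} (h : Rich B V X (g + ug ρ) g k) :
    2 ^ ug ρ * om B ρ ≤ cnt V X g k := by
  obtain ⟨ρ', h1, h2, h3⟩ := h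
  have : ρ' = ρ := ug_inj (by omega)
  subst this
  exact h3

lemma lt_of_not_rich {ρ g : ℕ} {k : ℤ} (hρ : ρ ≤ B) (h : ¬ Rich B V X (g + ug ρ) g k) :
    (cnt V X g k : ℝ) < 2 ^ ug ρ * om B ρ := by
  by_contra hcon
  push Not at hcon
  exact h ⟨ρ, hρ, rfl, hcon⟩

variable (V X) in
open scoped Classical in
/-- double counting in a window -/
lemma sum_cnt_window {g e : ℕ} (he : e ≤ g) (a : ℤ) (S : Finset ℕ) (hS : S ⊆ range (2 ^ e))
    (V' : Finset ι) (hV' : ∀ w ∈ S, ∀ v ∈ V, Near g (a + w) (X v) → v ∈ V') :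
    ∑ w ∈ S, cnt V X g (a + w) ≤ 2 * V'.card := by
  unfold cnt
  simp_rw [card_filter]
  rw [sum_comm]
  calc ∑ v ∈ V, ∑ w ∈ S, (if Near g (a + w) (X v) then 1 else 0)
      ≤ ∑ v ∈ V, (if v ∈ V' then 2 else 0) := by
        refine sum_le_sum fun v hv => ?_
        split_ifs with h
        · rw [← card_filter]
          refine (card_le_card (filter_subset_filter _ hS)).trans (near_card he a (X v))
        · refine (sum_eq_zero fun w hw => ?_).le
          rw [if_neg]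
          intro hn
          exact h (hV' w hw v hv hn)
    _ = ∑ v ∈ V with v ∈ V', 2 := by rw [sum_filter]
    _ ≤ ∑ v ∈ V', 2 := by
        apply sum_le_sum_of_subset
        intro v hv
        exact (mem_filter.1 hv).2
    _ = 2 * V'.card := by rw [sum_const, smul_eq_mul, mul_comm]

variable (V X) in
open scoped Classical in
lemma sum_cnt_le (g : ℕ) : ∑ k ∈ range (2 ^ g), cnt V X g k ≤ 2 * V.card := by
  have := sum_cnt_window V X (le_refl g) 0 (range (2 ^ g)) subset_rfl V (fun _ _ v hv _ => hv)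
  simpa using this

open scoped Classical in
/-- number of kept cells in a window, first bound -/
lemma kp_window {ρ g γ δ : ℕ} (hγ : γ < B) (hu : ug ρ + δ = 4 ^ γ) (hδ1 : 1 ≤ δ) (hδ : δ ≤ g)
    (a : ℤ) :
    (((range (2 ^ δ)).filter fun w : ℕ => Kp B V X (g + ug ρ) g (a + w)).card : ℝ) ≤
      2 ^ δ * (6 * om B (γ + 1) / om B ρ) := by
  set S := (range (2 ^ δ)).filter fun w : ℕ => Kp B V X (g + ug ρ) g (a + w) with hS
  obtain ⟨g', rfl⟩ : ∃ g', g = g' + δ := ⟨g - δ, by omega⟩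
  set Q : ℤ := a / 2 ^ δ with hQ
  have hi : g' + δ + ug ρ = g' + ug (γ + 1) := by
    show g' + δ + ug ρ = g' + 4 ^ γ
    omega
  -- the assigned sets
  set T : ℕ → Finset ℕ := fun c => S.filter fun w : ℕ =>
    |(a + w) - 2 ^ δ * (Q + c)| < 2 ^ δ ∧ ¬ Rich B V X (g' + ug (γ + 1)) g' (Q + c) with hT
  have hpos : (0:ℤ) < 2 ^ δ := by positivity
  have hQ1 : 2 ^ δ * Q ≤ a := Int.mul_ediv_self_le hpos.ne'
  have hQ2 : a < 2 ^ δ * Q + 2 ^ δ := Int.lt_mul_ediv_self_add hpos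
  have hcover : S ⊆ (range 3).biUnion T := by
    intro w hw
    have hw' := hw
    rw [hS, mem_filter, mem_range] at hw'
    obtain ⟨hw1, hw2, hw3⟩ := hw'
    rw [hi] at hw3
    obtain ⟨k', hk1, hk2⟩ := ancestor _ δ hδ1 g' (a + w) hw3
    have hw1' : (w:ℤ) < 2 ^ δ := by exact_mod_cast hw1
    rw [abs_lt] at hk1
    have hw0 : (0:ℤ) ≤ w := Int.natCast_nonneg w
    have h1 : Q ≤ k' := by
      by_contra hcon
      have : k' ≤ Q - 1 := by omega
      nlinarith
    have h2 : k' ≤ Q + 2 := by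
      by_contra hcon
      have : Q + 3 ≤ k' := by omega
      nlinarith
    rw [mem_biUnion]
    refine ⟨(k' - Q).toNat, by rw [mem_range]; omega, ?_⟩
    rw [hT]
    simp only [mem_filter]
    have e : (((k' - Q).toNat : ℕ) : ℤ) = k' - Q := Int.toNat_of_nonneg (by omega)
    rw [e, show Q + (k' - Q) = k' by ring]
    exact ⟨hw, abs_lt.2 hk1, hk2⟩
  have hT1 : ∀ c, ((T c).card : ℝ) * (2 ^ ug ρ * om B ρ) ≤ 2 * (2 ^ (4 ^ γ) * om B (γ + 1)) := by
    intro c
    by_cases hne : (T c).Nonempty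
    · obtain ⟨w₀, hw₀⟩ := hne
      rw [hT] at hw₀
      simp only [mem_filter] at hw₀
      have hnr := hw₀.2.2
      have hlt := lt_of_not_rich (by omega : γ + 1 ≤ B) hnr
      have h1 : ∑ w ∈ T c, cnt V X (g' + δ) (a + w) ≤ 2 * cnt V X g' (Q + c) := by
        refine sum_cnt_window V X hδ a (T c) ?_ (V.filter fun v => Near g' (Q + c) (X v)) ?_
        · intro w hw
          rw [hT] at hw
          simp only [hS, mem_filter] at hw
          exact hw.1.1
        · intro w hw v hv hn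
          rw [hT] at hw
          simp only [mem_filter] at hw
          exact mem_filter.2 ⟨hv, near_ancestor hn hw.2.1⟩
      have h2 : ((T c).card : ℝ) * (2 ^ ug ρ * om B ρ) ≤
          ∑ w ∈ T c, (cnt V X (g' + δ) (a + w) : ℝ) := by
        rw [← nsmul_eq_mul, ← sum_const]
        refine sum_le_sum fun w hw => ?_
        rw [hT] at hw
        simp only [hS, mem_filter] at hw
        exact hw.1.2.1.le
      have h3 : (∑ w ∈ T c, (cnt V X (g' + δ) (a + w) : ℝ)) ≤ 2 * (cnt V X g' (Q + c) : ℝ) := by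
        exact_mod_cast h1
      have h4 : (cnt V X g' (Q + c) : ℝ) ≤ 2 ^ (4 ^ γ) * om B (γ + 1) := hlt.le
      linarith
    · rw [not_nonempty_iff_eq_empty] at hne
      rw [hne, card_empty, Nat.cast_zero, zero_mul]
      have := om_pos B (γ + 1)
      positivity
  have hcard : (S.card : ℝ) ≤ ∑ c ∈ range 3, ((T c).card : ℝ) := by
    exact_mod_cast (card_le_card hcover).trans card_biUnion_le
  have hom := om_pos B ρ
  have hkey : (S.card : ℝ) * (2 ^ ug ρ * om B ρ) ≤ 6 * (2 ^ (4 ^ γ) * om B (γ + 1)) := by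
    calc (S.card : ℝ) * (2 ^ ug ρ * om B ρ) ≤ (∑ c ∈ range 3, ((T c).card : ℝ)) *
          (2 ^ ug ρ * om B ρ) := by gcongr
      _ = ∑ c ∈ range 3, ((T c).card : ℝ) * (2 ^ ug ρ * om B ρ) := by rw [sum_mul]
      _ ≤ ∑ c ∈ range 3, 2 * (2 ^ (4 ^ γ) * om B (γ + 1)) := sum_le_sum fun c _ => hT1 c
      _ = _ := by simp; ring
  have hpow : (2:ℝ) ^ (4 ^ γ) = 2 ^ ug ρ * 2 ^ δ := by rw [← pow_add, hu]
  rw [hpow] at hkey
  have h2u : (0:ℝ) < 2 ^ ug ρ := by positivity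
  rw [show (2:ℝ) ^ δ * (6 * om B (γ + 1) / om B ρ) = (6 * (2 ^ δ * om B (γ + 1))) / om B ρ by ring,
    le_div_iff₀ hom]
  have : 2 ^ ug ρ * ((S.card : ℝ) * om B ρ) ≤ 2 ^ ug ρ * (6 * (2 ^ δ * om B (γ + 1))) := by
    linarith
  exact le_of_mul_le_mul_left this h2u

end

end Pool.Agent.Lib.MP_1ce311_an
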