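import Mathlib

namespace Pool.Agent.Lib.MP_1ce311_an

open Finset

/-- sum over the dyadic block number `J` of length `2^e` -/
def bs (f : ℤ → ℝ) (J : ℤ) (e : ℕ) : ℝ := ∑ w ∈ range (2 ^ e), f (J * 2 ^ e + w)

lemma sum_range_mul_block (f : ℕ → ℝ) (n b : ℕ) :
    ∑ z ∈ range (n * b), f z = ∑ c ∈ range n, ∑ w ∈ range b, f (c * b + w) := by
  induction n with
  | zero => simp
  | succ n ih => rw [Nat.succ_mul, sum_range_add, ih, sum_range_succ]

lemma bs_split (f : ℤ → ℝ) (J : ℤ) (a b : ℕ) :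
    bs f J (a + b) = ∑ c ∈ range (2 ^ a), bs f (J * 2 ^ a + c) b := by
  unfold bs
  rw [pow_add, sum_range_mul_block (fun z : ℕ => f (J * 2 ^ (a + b) + z))]
  refine sum_congr rfl fun c _ => sum_congr rfl fun w _ => ?_
  congr 1
  push_cast
  ring

lemma bs_mono {f g : ℤ → ℝ} (h : ∀ z, f z ≤ g z) (J : ℤ) (e : ℕ) : bs f J e ≤ bs g J e :=
  sum_le_sum fun _ _ => h _

lemma bs_const_div (G : ℤ → ℝ) (F : ℤ → ℝ) (c : ℤ) (e : ℕ) :
    bs (fun z => G (z / 2 ^ e) * F z) c e = G c * bs F c e := by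
  unfold bs
  rw [mul_sum]
  refine sum_congr rfl fun w hw => ?_
  have hw' : (w:ℤ) < 2 ^ e := by
    have := mem_range.1 hw
    exact_mod_cast this
  have : (c * 2 ^ e + (w:ℤ)) / 2 ^ e = c := by
    rw [add_comm, Int.add_mul_ediv_right _ _ (by positivity), Int.ediv_eq_zero_of_lt (by positivity)
      hw', zero_add]
  show G ((c * 2 ^ e + (w:ℤ)) / 2 ^ e) * F (c * 2 ^ e + (w:ℤ)) = _
  rw [this]

lemma pow_sub_pow_le {a b : ℝ} (hb : 0 ≤ b) (hab : b ≤ a) (q : ℕ) :
    a ^ (q + 1) - b ^ (q + 1) ≤ (q + 1) * (a - b) * a ^ q := by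
  have ha : 0 ≤ a := hb.trans hab
  induction q with
  | zero => simp
  | succ q ih =>
    have h1 : b ^ (q + 1) ≤ a ^ (q + 1) := pow_le_pow_left₀ hb hab _
    calc a ^ (q + 1 + 1) - b ^ (q + 1 + 1)
        = a * (a ^ (q + 1) - b ^ (q + 1)) + (a - b) * b ^ (q + 1) := by ring
      _ ≤ a * ((q + 1) * (a - b) * a ^ q) + (a - b) * a ^ (q + 1) := by
          have : 0 ≤ a - b := by linarith
          gcongr
      _ = (((q + 1 : ℕ) : ℝ) + 1) * (a - b) * a ^ (q + 1) := by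
          push_cast
          ring

lemma sum_pow_succ_le (x : ℕ → ℝ) (hx : ∀ i, 0 ≤ x i) (q j n : ℕ) :
    (∑ g ∈ Ico j n, x g) ^ (q + 1) ≤
      (q + 1) * ∑ g ∈ Ico j n, x g * (∑ g' ∈ Ico g n, x g') ^ q := by
  rcases le_total n j with h | h
  · rw [Ico_eq_empty_of_le h]; simp
  · induction h using Nat.decreasingInduction with
    | self => simp
    | of_succ j hj ih =>
      have hj' : j < n := by omega
      rw [Finset.sum_eq_sum_Ico_succ_bot hj', Finset.sum_eq_sum_Ico_succ_bot hj' (fun g =>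
        x g * (∑ g' ∈ Ico g n, x g') ^ q)]
      set T := ∑ g ∈ Ico (j + 1) n, x g with hT
      have hT0 : 0 ≤ T := sum_nonneg fun i _ => hx i
      have h1 := pow_sub_pow_le (a := x j + T) (b := T) hT0 (by linarith [hx j]) q
      have h2 : ∑ g' ∈ Ico j n, x g' = x j + T := Finset.sum_eq_sum_Ico_succ_bot hj' _
      rw [h2]
      have h3 : x j + T - T = x j := by ring
      rw [h3] at h1
      calc (x j + T) ^ (q + 1) ≤ T ^ (q + 1) + (q + 1) * x j * (x j + T) ^ q := by linarith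
        _ ≤ (q + 1) * ∑ g ∈ Ico (j + 1) n, x g * (∑ g' ∈ Ico g n, x g') ^ q +
            (q + 1) * x j * (x j + T) ^ q := by gcongr
        _ = _ := by ring

/-- **Garsia type lemma** on the dyadic tree. -/
theorem garsia (N : ℕ) (G : ℕ → ℤ → ℝ) (hG : ∀ g c, 0 ≤ G g c) (B : ℝ) (hB : 0 ≤ B)
    (hcond : ∀ j ≤ N, ∀ J : ℤ,
      ∑ g ∈ Ico j (N + 1), bs (G g) J (g - j) / 2 ^ (g - j) ≤ B)
    (q j : ℕ) (hj : j ≤ N) (J : ℤ) :
    bs (fun z => (∑ g ∈ Ico j (N + 1), G g (z / 2 ^ (N - g))) ^ q) J (N - j) ≤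
      q.factorial * B ^ q * 2 ^ (N - j) := by
  induction q generalizing j J with
  | zero => simp [bs]
  | succ q ih =>
    have h1 : bs (fun z => (∑ g ∈ Ico j (N + 1), G g (z / 2 ^ (N - g))) ^ (q + 1)) J (N - j) ≤
        (q + 1) * ∑ g ∈ Ico j (N + 1), bs (fun z => G g (z / 2 ^ (N - g)) *
          (∑ g' ∈ Ico g (N + 1), G g' (z / 2 ^ (N - g'))) ^ q) J (N - j) := by
      refine (bs_mono (fun z => sum_pow_succ_le (fun g => G g (z / 2 ^ (N - g)))
        (fun g => hG _ _) q j (N + 1)) J (N - j)).trans (le_of_eq ?_)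
      unfold bs
      rw [sum_comm, mul_sum]
    have h2 : ∀ g ∈ Ico j (N + 1), bs (fun z => G g (z / 2 ^ (N - g)) *
          (∑ g' ∈ Ico g (N + 1), G g' (z / 2 ^ (N - g'))) ^ q) J (N - j) ≤
        q.factorial * B ^ q * 2 ^ (N - j) * (bs (G g) J (g - j) / 2 ^ (g - j)) := by
      intro g hg
      rw [mem_Ico] at hg
      have e1 : N - j = (g - j) + (N - g) := by omega
      rw [e1, bs_split]
      have h3 : ∀ c ∈ range (2 ^ (g - j)), bs (fun z => G g (z / 2 ^ (N - g)) *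
          (∑ g' ∈ Ico g (N + 1), G g' (z / 2 ^ (N - g'))) ^ q) (J * 2 ^ (g - j) + c) (N - g) ≤
          G g (J * 2 ^ (g - j) + c) * (q.factorial * B ^ q * 2 ^ (N - g)) := by
        intro c _
        rw [bs_const_div]
        exact mul_le_mul_of_nonneg_left (ih g (by omega) _) (hG _ _)
      refine (sum_le_sum h3).trans (le_of_eq ?_)
      rw [← sum_mul, pow_add]
      unfold bs
      field_simp
    refine h1.trans ?_
    calc ((q:ℝ) + 1) * ∑ g ∈ Ico j (N + 1), bs (fun z => G g (z / 2 ^ (N - g)) *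
          (∑ g' ∈ Ico g (N + 1), G g' (z / 2 ^ (N - g'))) ^ q) J (N - j)
        ≤ (q + 1) * ∑ g ∈ Ico j (N + 1),
          q.factorial * B ^ q * 2 ^ (N - j) * (bs (G g) J (g - j) / 2 ^ (g - j)) := by
          gcongr with g hg
          exact h2 g hg
      _ = (q + 1) * (q.factorial * B ^ q * 2 ^ (N - j)) *
          ∑ g ∈ Ico j (N + 1), (bs (G g) J (g - j) / 2 ^ (g - j)) := by
          rw [← mul_sum]; ring
      _ ≤ (q + 1) * (q.factorial * B ^ q * 2 ^ (N - j)) * B := by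
          gcongr
          exact hcond j hj J
      _ = (q + 1).factorial * B ^ (q + 1) * 2 ^ (N - j) := by
          rw [Nat.factorial_succ]
          push_cast
          ring

end Pool.Agent.Lib.MP_1ce311_an
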