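import Mathlib
import Pool.Agent.Lib.MP_1ce311_an.Count
import Pool.Agent.Lib.MP_1ce311_an.Garsia

open Finset

namespace Pool.Agent.Lib.MP_1ce311_an

open scoped Classical in
/-- indicator of kept cells -/
noncomputable def kpi {ι : Type*} (B : ℕ) (V : Finset ι) (X : ι → ℝ) (i g : ℕ) (k : ℤ) : ℝ :=
  if Kp B V X i g k then 1 else 0

/-- the window density bound -/
noncomputable def Dw (B ρ e : ℕ) : ℝ := (if e < 1 + 3 * ug ρ then 1 else 0) +
  ∑ γ ∈ range B, (if 4 ^ γ ≤ ug ρ + e ∧ ug ρ + e < 4 ^ (γ + 1) then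
    6 * om B (γ + 1) / om B ρ else 0)

lemma Dw_nonneg (B ρ e : ℕ) : 0 ≤ Dw B ρ e := by
  unfold Dw
  have h1 : (0:ℝ) ≤ if e < 1 + 3 * ug ρ then 1 else 0 := by split_ifs <;> norm_num
  have h2 : ∀ γ ∈ range B, (0:ℝ) ≤ (if 4 ^ γ ≤ ug ρ + e ∧ ug ρ + e < 4 ^ (γ + 1) then
    6 * om B (γ + 1) / om B ρ else 0) := by
    intro γ _
    have := om_pos B ρ
    have := om_pos B (γ + 1)
    split_ifs
    · positivity
    · exact le_rfl
  exact add_nonneg h1 (sum_nonneg h2)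

lemma sum_Dw (B ρ n : ℕ) : ∑ e ∈ range n, Dw B ρ e ≤ 57 * (1 + (ug ρ : ℝ)) ^ 2 := by
  unfold Dw
  rw [sum_add_distrib]
  have h1 : ∑ e ∈ range n, (if e < 1 + 3 * ug ρ then (1:ℝ) else 0) ≤ 1 + 3 * ug ρ := by
    rw [← sum_filter, sum_const, nsmul_eq_mul, mul_one]
    have hsub : (range n).filter (fun e => e < 1 + 3 * ug ρ) ⊆ range (1 + 3 * ug ρ) := by
      intro e he
      rw [mem_filter] at he
      exact mem_range.2 he.2
    have := card_le_card hsub
    rw [card_range] at this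
    exact_mod_cast this
  have h2 : ∑ e ∈ range n, ∑ γ ∈ range B, (if 4 ^ γ ≤ ug ρ + e ∧ ug ρ + e < 4 ^ (γ + 1) then
      6 * om B (γ + 1) / om B ρ else 0) ≤ 54 * (1 / om B ρ) := by
    rw [sum_comm]
    have h3 : ∀ γ ∈ range B, ∑ e ∈ range n,
        (if 4 ^ γ ≤ ug ρ + e ∧ ug ρ + e < 4 ^ (γ + 1) then 6 * om B (γ + 1) / om B ρ else 0) ≤
        (18 / om B ρ) * (4 ^ γ * om B (γ + 1)) := by
      intro γ _
      rw [← sum_filter, sum_const, nsmul_eq_mul]
      have hsub : ((range n).filter fun e => 4 ^ γ ≤ ug ρ + e ∧ ug ρ + e < 4 ^ (γ + 1)).card ≤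
          3 * 4 ^ γ := by
        have himg : (((range n).filter fun e => 4 ^ γ ≤ ug ρ + e ∧ ug ρ + e < 4 ^ (γ + 1)).image
            fun e => ug ρ + e) ⊆ Ico (4 ^ γ) (4 ^ (γ + 1)) := by
          intro z hz
          rw [mem_image] at hz
          obtain ⟨e, he, rfl⟩ := hz
          rw [mem_filter] at he
          exact mem_Ico.2 he.2
        have := card_le_card himg
        rw [card_image_of_injective _ (fun a b h => by simpa using h), Nat.card_Ico] at this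
        have e4 : 4 ^ (γ + 1) = 4 * 4 ^ γ := by ring
        omega
      have hsub' : ((((range n).filter fun e => 4 ^ γ ≤ ug ρ + e ∧ ug ρ + e < 4 ^ (γ + 1)).card :
          ℕ) : ℝ) ≤ 3 * 4 ^ γ := by exact_mod_cast hsub
      have := om_pos B ρ
      have := om_pos B (γ + 1)
      calc _ ≤ (3 * 4 ^ γ) * (6 * om B (γ + 1) / om B ρ) := by gcongr
        _ = _ := by ring
    refine (sum_le_sum h3).trans ?_
    rw [← mul_sum]
    have := sum_om B
    have := om_pos B ρ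
    calc 18 / om B ρ * ∑ γ ∈ range B, (4:ℝ) ^ γ * om B (γ + 1) ≤ 18 / om B ρ * 3 := by gcongr
      _ = _ := by ring
  have h4 := inv_om_le B ρ
  have h5 : (0:ℝ) ≤ ug ρ := by positivity
  nlinarith

section
variable {ι : Type*} (B : ℕ) (V : Finset ι) (X : ι → ℝ)

lemma kpi_nonneg (i g : ℕ) (k : ℤ) : 0 ≤ kpi B V X i g k := by
  unfold kpi; split_ifs <;> norm_num

lemma kpi_le_one (i g : ℕ) (k : ℤ) : kpi B V X i g k ≤ 1 := by
  unfold kpi; split_ifs <;> norm_num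

lemma kpi_periodic (i g : ℕ) (k : ℤ) : kpi B V X i g (k + 2 ^ g) = kpi B V X i g k := by
  unfold kpi
  by_cases h : Kp B V X i g k
  · rw [if_pos h, if_pos ((kp_periodic B V X i g k).2 h)]
  · rw [if_neg h, if_neg (mt (kp_periodic B V X i g k).1 h)]

/-- number of kept cells in a window -/
lemma kpi_window {ρ g e n : ℕ} (hn : n ≤ 4 ^ B) (he : e ≤ g) (hg : g + ug ρ < n) (a : ℤ) :
    ∑ w ∈ range (2 ^ e), kpi B V X (g + ug ρ) g (a + w) ≤ 2 ^ e * Dw B ρ e := by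
  have hnn : ∀ γ ∈ range B, (0:ℝ) ≤ (if 4 ^ γ ≤ ug ρ + e ∧ ug ρ + e < 4 ^ (γ + 1) then
      6 * om B (γ + 1) / om B ρ else 0) := by
    intro γ _
    have := om_pos B ρ
    have := om_pos B (γ + 1)
    split_ifs
    · positivity
    · exact le_rfl
  by_cases h1 : e < 1 + 3 * ug ρ
  · have h2 : (1:ℝ) ≤ Dw B ρ e := by
      unfold Dw
      rw [if_pos h1]
      have := sum_nonneg hnn
      linarith
    calc ∑ w ∈ range (2 ^ e), kpi B V X (g + ug ρ) g (a + w)
        ≤ ∑ w ∈ range (2 ^ e), (1:ℝ) := sum_le_sum fun w _ => kpi_le_one _ _ _ _ _ _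
      _ = 2 ^ e * 1 := by simp
      _ ≤ _ := by gcongr
  · -- find γ
    push Not at h1
    have hz : ug ρ + e ≠ 0 := by omega
    obtain ⟨γ, hγ1, hγ2⟩ : ∃ γ, 4 ^ γ ≤ ug ρ + e ∧ ug ρ + e < 4 ^ (γ + 1) :=
      ⟨Nat.log 4 (ug ρ + e), Nat.pow_log_le_self 4 hz, Nat.lt_pow_succ_log_self (by norm_num) _⟩
    have hγ3 : γ < B := by
      have : 4 ^ γ < 4 ^ B := by omega
      exact (Nat.pow_lt_pow_iff_right (by norm_num)).1 this
    have hγ4 : ug ρ < 4 ^ γ := by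
      rw [pow_succ] at hγ2
      omega
    obtain ⟨δ, hδ⟩ : ∃ δ, ug ρ + δ = 4 ^ γ := ⟨4 ^ γ - ug ρ, by omega⟩
    have hδ1 : 1 ≤ δ := by omega
    have hδe : δ ≤ e := by omega
    have h2 : 6 * om B (γ + 1) / om B ρ ≤ Dw B ρ e := by
      unfold Dw
      rw [if_neg (by omega), zero_add]
      have h3 := single_le_sum hnn (mem_range.2 hγ3)
      rw [if_pos ⟨hγ1, hγ2⟩] at h3
      exact h3
    obtain ⟨f, rfl⟩ : ∃ f, e = f + δ := ⟨e - δ, by omega⟩
    have h3 : ∑ w ∈ range (2 ^ (f + δ)), kpi B V X (g + ug ρ) g (a + w) =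
        ∑ c ∈ range (2 ^ f), ∑ w ∈ range (2 ^ δ),
          kpi B V X (g + ug ρ) g ((a + c * 2 ^ δ) + w) := by
      rw [pow_add, sum_range_mul_block (fun w : ℕ => kpi B V X (g + ug ρ) g (a + w))]
      refine sum_congr rfl fun c _ => sum_congr rfl fun w _ => ?_
      congr 1
      push_cast
      ring
    rw [h3]
    have h4 : ∀ c ∈ range (2 ^ f), ∑ w ∈ range (2 ^ δ),
          kpi B V X (g + ug ρ) g ((a + c * 2 ^ δ) + w) ≤ 2 ^ δ * Dw B ρ (f + δ) := by
      intro c _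
      unfold kpi
      rw [← sum_filter, sum_const, nsmul_eq_mul, mul_one]
      refine (kp_window hγ3 hδ hδ1 (by omega) (a + c * 2 ^ δ)).trans ?_
      gcongr
    calc _ ≤ ∑ c ∈ range (2 ^ f), 2 ^ δ * Dw B ρ (f + δ) := sum_le_sum h4
      _ = 2 ^ (f + δ) * Dw B ρ (f + δ) := by
        rw [sum_const, card_range, nsmul_eq_mul, pow_add]
        push_cast
        ring

end

/-- convolution with a periodic weight -/
lemma conv_window {g e : ℕ} {K α : ℤ → ℝ} {A κ : ℝ} (hα : ∀ k, 0 ≤ α k)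
    (hKp : ∀ k, K (k + 2 ^ g) = K k) (hαp : ∀ k, α (k + 2 ^ g) = α k)
    (hA : ∑ k ∈ range (2 ^ g), α k ≤ A) (hκ0 : 0 ≤ κ)
    (hκ : ∀ a : ℤ, ∑ w ∈ range (2 ^ e), K (a + w) ≤ κ) (J : ℤ) :
    ∑ w ∈ range (2 ^ e), ∑ k ∈ range (2 ^ g), K k * α (J + w - k) ≤ A * κ := by
  have h1 : ∀ w ∈ range (2 ^ e), ∑ k ∈ range (2 ^ g), K k * α (J + w - k) =
      ∑ s ∈ range (2 ^ g), α s * K ((J - s) + w) := by
    intro w _
    have h2 := sum_range_periodic_refl (2 ^ g) (by positivity)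
      (fun k => K k * α (J + w - k)) (fun k => by
        push_cast
        rw [hKp]
        congr 1
        have := hαp (J + w - (k + 2 ^ g))
        rw [← this]
        congr 1
        ring) (J + w)
    rw [← h2]
    refine sum_congr rfl fun s _ => ?_
    rw [mul_comm]
    congr 2
    · ring
    · ring
  rw [sum_congr rfl h1, sum_comm]
  calc ∑ s ∈ range (2 ^ g), ∑ w ∈ range (2 ^ e), α s * K ((J - s) + w)
      = ∑ s ∈ range (2 ^ g), α s * ∑ w ∈ range (2 ^ e), K ((J - s) + w) := by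
        simp_rw [mul_sum]
    _ ≤ ∑ s ∈ range (2 ^ g), α s * κ := by
        gcongr with s _
        · exact hα _
        · exact hκ _
    _ = (∑ s ∈ range (2 ^ g), α s) * κ := by rw [sum_mul]
    _ ≤ A * κ := by gcongr

end Pool.Agent.Lib.MP_1ce311_an
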