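import Mathlib
import Pool.Agent.Lib.MP_1ce311_an.Window

open Finset

namespace Pool.Agent.Lib.MP_1ce311_an

open scoped Classical in
/-- nodes in a row -/
noncomputable def Vr {ι : Type*} [Fintype ι] (Y : ι → ℝ) (b : ℕ) (k : ℤ) : Finset ι :=
  univ.filter fun v => Near b k (Y v)

/-- the cell functions -/
noncomputable def GG {ι : Type*} [Fintype ι] (B n M : ℕ) (X Y : ι → ℝ) (aw : ℕ → ℤ → ℝ)
    (c₂ : ℕ → ℤ) (ρ g : ℕ) (c : ℤ) : ℝ :=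
  if g + ug ρ < n then
    ∑ k₂ ∈ range (2 ^ (M - (g + ug ρ))),
      (∑ k ∈ range (2 ^ g), kpi B (Vr Y (M - (g + ug ρ)) k₂) X (g + ug ρ) g k * aw g (c - k)) *
        aw (M - (g + ug ρ)) (c₂ (M - (g + ug ρ)) - k₂)
  else 0

section
variable {ι : Type*} [Fintype ι] (B n M : ℕ) (X Y : ι → ℝ) (aw : ℕ → ℤ → ℝ) (c₂ : ℕ → ℤ)

lemma GG_nonneg (h0 : ∀ j i, 0 ≤ aw j i) (ρ g : ℕ) (c : ℤ) : 0 ≤ GG B n M X Y aw c₂ ρ g c := by
  unfold GG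
  split_ifs
  · refine sum_nonneg fun k₂ _ => mul_nonneg (sum_nonneg fun k _ => ?_) (h0 _ _)
    exact mul_nonneg (kpi_nonneg _ _ _ _ _ _) (h0 _ _)
  · exact le_rfl

lemma bs_GG_le {A : ℝ} (hA0 : 0 < A) (h0 : ∀ j i, 0 ≤ aw j i)
    (hp : ∀ j i, aw j (i + 2 ^ j) = aw j i)
    (hA : ∀ j, ∑ i ∈ range (2 ^ j), aw j i ≤ A) (hn : n ≤ 4 ^ B) (ρ g e : ℕ) (he : e ≤ g) (J : ℤ) :
    bs (GG B n M X Y aw c₂ ρ g) J e / 2 ^ e ≤ A ^ 2 * Dw B ρ e := by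
  have hD := Dw_nonneg B ρ e
  rw [div_le_iff₀ (by positivity)]
  by_cases hg : g + ug ρ < n
  · unfold bs GG
    simp_rw [if_pos hg]
    set b := M - (g + ug ρ)
    rw [sum_comm]
    have h1 : ∀ k₂ ∈ range (2 ^ b), ∑ w ∈ range (2 ^ e),
        (∑ k ∈ range (2 ^ g), kpi B (Vr Y b k₂) X (g + ug ρ) g k * aw g (J * 2 ^ e + w - k)) *
          aw b (c₂ b - k₂) ≤ (A * (2 ^ e * Dw B ρ e)) * aw b (c₂ b - k₂) := by
      intro k₂ _
      rw [← sum_mul]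
      refine mul_le_mul_of_nonneg_right ?_ (h0 _ _)
      exact conv_window (h0 g) (kpi_periodic _ _ _ _ _) (hp g) (hA g) (by positivity)
        (fun a => kpi_window B (Vr Y b k₂) X hn he hg a) (J * 2 ^ e)
    refine (sum_le_sum h1).trans ?_
    rw [← mul_sum]
    have h2 : ∑ k₂ ∈ range (2 ^ b), aw b (c₂ b - k₂) ≤ A := by
      have := sum_range_periodic_refl (2 ^ b) (by positivity) (aw b)
        (fun k => by push_cast; exact hp b k) (c₂ b)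
      rw [this]
      exact hA b
    calc A * (2 ^ e * Dw B ρ e) * ∑ k₂ ∈ range (2 ^ b), aw b (c₂ b - k₂)
        ≤ A * (2 ^ e * Dw B ρ e) * A := by gcongr
      _ = _ := by ring
  · unfold bs GG
    simp_rw [if_neg hg]
    rw [sum_const_zero]
    positivity

/-- the bound of the moments of the cell functions -/
lemma GG_moment {A : ℝ} (hA0 : 0 < A) (h0 : ∀ j i, 0 ≤ aw j i)
    (hp : ∀ j i, aw j (i + 2 ^ j) = aw j i)
    (hA : ∀ j, ∑ i ∈ range (2 ^ j), aw j i ≤ A) (N : ℕ) (hN : N + 1 ≤ 4 ^ B) (ρ q : ℕ) :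
    ∑ z ∈ range (2 ^ N), (∑ g ∈ range (N + 1),
        GG B (N + 1) M X Y aw c₂ ρ g ((z:ℤ) / 2 ^ (N - g))) ^ q ≤
      q.factorial * (A ^ 2 * (57 * (1 + (ug ρ : ℝ)) ^ 2)) ^ q * 2 ^ N := by
  have h := garsia N (GG B (N + 1) M X Y aw c₂ ρ) (fun g c => GG_nonneg _ _ _ _ _ _ _ h0 _ _ _)
    (A ^ 2 * (57 * (1 + (ug ρ : ℝ)) ^ 2)) (by positivity) ?_ q 0 (Nat.zero_le _) 0
  · unfold bs at h
    simp only [Nat.sub_zero, zero_mul, zero_add, ← range_eq_Ico] at h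
    exact h
  · intro j hj J
    calc ∑ g ∈ Ico j (N + 1), bs (GG B (N + 1) M X Y aw c₂ ρ g) J (g - j) / 2 ^ (g - j)
        ≤ ∑ g ∈ Ico j (N + 1), A ^ 2 * Dw B ρ (g - j) := by
          refine sum_le_sum fun g hg => ?_
          exact bs_GG_le B (N + 1) M X Y aw c₂ hA0 h0 hp hA hN ρ g (g - j) (Nat.sub_le _ _) J
      _ = A ^ 2 * ∑ e ∈ range (N + 1 - j), Dw B ρ e := by
          rw [← mul_sum, sum_Ico_eq_sum_range]
          congr 1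
          refine sum_congr rfl fun e _ => ?_
          rw [Nat.add_sub_cancel_left]
      _ ≤ A ^ 2 * (57 * (1 + (ug ρ : ℝ)) ^ 2) := by
          gcongr
          exact sum_Dw B ρ _

end

/-- weighted power mean -/
lemma power_mean {κ Z : Type*} (s : Finset κ) (t : Finset Z) (a Bd : κ → ℝ) (S : κ → Z → ℝ)
    (ha : ∀ ρ ∈ s, 0 ≤ a ρ) (hB : ∀ ρ ∈ s, 0 < Bd ρ) (hS : ∀ ρ ∈ s, ∀ z ∈ t, 0 ≤ S ρ z)
    (q : ℕ) (hq : 1 ≤ q) {F D : ℝ} (hF : 0 ≤ F) (hD : 0 ≤ D)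
    (h : ∀ ρ ∈ s, ∑ z ∈ t, S ρ z ^ q ≤ F * Bd ρ ^ q * D) :
    ∑ z ∈ t, (∑ ρ ∈ s, a ρ * S ρ z) ^ q ≤ F * (∑ ρ ∈ s, a ρ * Bd ρ) ^ q * D := by
  set W := ∑ ρ ∈ s, a ρ * Bd ρ with hW
  have hW0 : 0 ≤ W := sum_nonneg fun ρ hρ => mul_nonneg (ha ρ hρ) (hB ρ hρ).le
  rcases hW0.eq_or_lt with hz | hpos
  · -- all a are zero
    have ha0 : ∀ ρ ∈ s, a ρ = 0 := by
      intro ρ hρ
      have h1 := (sum_eq_zero_iff_of_nonneg
        (fun ρ hρ => mul_nonneg (ha ρ hρ) (hB ρ hρ).le)).1 hz.symm ρ hρ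
      rcases mul_eq_zero.1 h1 with h2 | h2
      · exact h2
      · exact absurd h2 (hB ρ hρ).ne'
    have : ∀ z ∈ t, (∑ ρ ∈ s, a ρ * S ρ z) ^ q = 0 := by
      intro z _
      rw [sum_eq_zero (fun ρ hρ => by rw [ha0 ρ hρ, zero_mul]), zero_pow (by omega)]
    rw [sum_eq_zero this]
    positivity
  · have h1 : ∀ z ∈ t, (∑ ρ ∈ s, a ρ * S ρ z) ^ q ≤
        W ^ q * ∑ ρ ∈ s, (a ρ * Bd ρ / W) * (S ρ z / Bd ρ) ^ q := by
      intro z hz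
      have h2 := Real.pow_arith_mean_le_arith_mean_pow s (fun ρ => a ρ * Bd ρ / W)
        (fun ρ => S ρ z / Bd ρ) (fun ρ hρ => div_nonneg (mul_nonneg (ha ρ hρ) (hB ρ hρ).le) hW0)
        (by rw [← sum_div, div_self hpos.ne']) (fun ρ hρ => div_nonneg (hS ρ hρ z hz) (hB ρ hρ).le) q
      have h3 : ∑ ρ ∈ s, a ρ * S ρ z = W * ∑ ρ ∈ s, a ρ * Bd ρ / W * (S ρ z / Bd ρ) := by
        rw [mul_sum]
        refine sum_congr rfl fun ρ hρ => ?_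
        have := (hB ρ hρ).ne'
        field_simp
      rw [h3, mul_pow]
      gcongr
    refine (sum_le_sum h1).trans ?_
    rw [← mul_sum, sum_comm]
    have h4 : ∀ ρ ∈ s, ∑ z ∈ t, a ρ * Bd ρ / W * (S ρ z / Bd ρ) ^ q ≤
        a ρ * Bd ρ / W * (F * D) := by
      intro ρ hρ
      have hBρ := hB ρ hρ
      have haρ := ha ρ hρ
      rw [← mul_sum]
      gcongr
      simp_rw [div_pow]
      rw [← sum_div, div_le_iff₀ (by positivity)]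
      calc _ ≤ _ := h ρ hρ
        _ = _ := by ring
    calc W ^ q * ∑ ρ ∈ s, ∑ z ∈ t, a ρ * Bd ρ / W * (S ρ z / Bd ρ) ^ q
        ≤ W ^ q * ∑ ρ ∈ s, a ρ * Bd ρ / W * (F * D) := by
          gcongr with ρ hρ
          exact h4 ρ hρ
      _ = W ^ q * (F * D) := by
          rw [← sum_mul, ← sum_div, div_self hpos.ne', one_mul]
      _ = _ := by ring

end Pool.Agent.Lib.MP_1ce311_an
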