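import Mathlib
import Pool.Agent.Lib.MP_1ce311_an.Torus
import Pool.Agent.Lib.MP_1ce311_an.GG

open MeasureTheory Finset

namespace Pool.Agent.Lib.MP_1ce311_an

open scoped Classical in
/-- the coefficient of a cell -/
noncomputable def co {ι : Type*} (B : ℕ) (V : Finset ι) (X : ι → ℝ) (i g : ℕ) (k : ℤ) : ℝ :=
  if Rich B V X i g k then cf (Rich B V X i) g k else 0

lemma co_nonneg {ι : Type*} (B : ℕ) (V : Finset ι) (X : ι → ℝ) (i g : ℕ) (k : ℤ) :
    0 ≤ co B V X i g k := by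
  unfold co
  split_ifs
  · exact (cf_mem _ _ _).1
  · exact le_rfl

lemma co_le_kpi {ι : Type*} (B : ℕ) (V : Finset ι) (X : ι → ℝ) (i g : ℕ) (k : ℤ) :
    co B V X i g k ≤ kpi B V X i g k := by
  unfold co kpi Kp
  by_cases h : Rich B V X i g k
  · rw [if_pos h]
    by_cases h2 : cf (Rich B V X i) g k = 0
    · rw [h2]; split_ifs <;> norm_num
    · rw [if_pos ⟨h, h2⟩]
      exact (cf_mem _ _ _).2
  · rw [if_neg h]; split_ifs <;> norm_num

section
variable {ι : Type*} [Fintype ι]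

/-- the sum over all shapes of combinations of tensor products -/
noncomputable def FF (B n M : ℕ) (X Y : ι → ℝ) (P : ℕ → ℤ → C(UnitAddCircle, ℝ)) :
    C(UnitAddTorus (Fin 2), ℝ) :=
  ∑ i ∈ range n, ∑ k₂ ∈ range (2 ^ (M - i)), ∑ g ∈ range (i + 1), ∑ k ∈ range (2 ^ g),
    co B (Vr Y (M - i) k₂) X i g k • tp (P g k) (P (M - i) k₂)

lemma rel_FF {r : ℝ} (hr : 0 < r) (hr1 : r < 1) (B n M : ℕ) (X Y : ι → ℝ) :
    Rel r (FF B n M X Y Hh) (FF B n M X Y (thh r)) :=
  Rel.sum _ fun i _ => Rel.sum _ fun k₂ _ => Rel.sum _ fun g _ => Rel.sum _ fun k _ =>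
    (rel_tp hr hr1 g (M - i) k k₂).smul _

lemma FF_apply (B n M : ℕ) (X Y : ι → ℝ) (P : ℕ → ℤ → C(UnitAddCircle, ℝ))
    (x : UnitAddTorus (Fin 2)) :
    FF B n M X Y P x = ∑ i ∈ range n, ∑ k₂ ∈ range (2 ^ (M - i)),
      (∑ g ∈ range (i + 1), ∑ k ∈ range (2 ^ g), co B (Vr Y (M - i) k₂) X i g k * P g k (x 0)) *
        P (M - i) k₂ (x 1) := by
  unfold FF
  simp only [ContinuousMap.coe_sum, Finset.sum_apply, ContinuousMap.smul_apply, smul_eq_mul, tp,
    ContinuousMap.coe_mk]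
  refine sum_congr rfl fun i _ => sum_congr rfl fun k₂ _ => ?_
  rw [sum_mul]
  refine sum_congr rfl fun g _ => ?_
  rw [sum_mul]
  refine sum_congr rfl fun k _ => ?_
  ring

/-- the value at a node -/
lemma FF_node (B n M : ℕ) (X Y : ι → ℝ) (v : ι) (x : UnitAddTorus (Fin 2))
    (hx : x 0 = (X v : UnitAddCircle)) (hy : x 1 = (Y v : UnitAddCircle)) :
    FF B n M X Y Hh x = n := by
  rw [FF_apply]
  have h1 : ∀ i ∈ range n, ∑ k₂ ∈ range (2 ^ (M - i)),
      (∑ g ∈ range (i + 1), ∑ k ∈ range (2 ^ g), co B (Vr Y (M - i) k₂) X i g k * Hh g k (x 0)) *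
        Hh (M - i) k₂ (x 1) = 1 := by
    intro i _
    refine Eq.trans ?_ (sum_Hh (M - i) (x 1))
    refine sum_congr rfl fun k₂ _ => ?_
    have h2 := telescope' (rich_periodic B (Vr Y (M - i) k₂) X i) i (x 0)
    have h3 : (∑ g ∈ range (i + 1), ∑ k ∈ range (2 ^ g),
        co B (Vr Y (M - i) k₂) X i g k * Hh g k (x 0)) = 1 - ∑ k ∈ range (2 ^ i),
          ps (Rich B (Vr Y (M - i) k₂) X i) i k * Hh i k (x 0) := h2
    rw [h3, sub_mul, one_mul, sum_mul]
    have h4 : ∑ k ∈ range (2 ^ i), ps (Rich B (Vr Y (M - i) k₂) X i) i k * Hh i k (x 0) *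
        Hh (M - i) k₂ (x 1) = 0 := by
      refine sum_eq_zero fun k _ => ?_
      by_cases hR : Rich B (Vr Y (M - i) k₂) X i i k
      · rw [ps, if_pos hR, zero_mul, zero_mul]
      · by_cases hn2 : Near (M - i) k₂ (Y v)
        · by_cases hn1 : Near i k (X v)
          · exfalso
            apply hR
            refine ⟨0, Nat.zero_le _, rfl, ?_⟩
            have : 1 ≤ cnt (Vr Y (M - i) k₂) X i k := by
              unfold cnt Vr
              rw [Nat.one_le_iff_ne_zero, Finset.card_ne_zero]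
              exact ⟨v, by simp [hn1, hn2]⟩
            have h5 : (1:ℝ) ≤ cnt (Vr Y (M - i) k₂) X i k := by exact_mod_cast this
            simpa [ug, om] using h5
          · rw [hx, Hh_eq_zero hn1, mul_zero, zero_mul]
        · rw [hy, Hh_eq_zero hn2, mul_zero]
    rw [h4, sub_zero]
  rw [sum_congr rfl h1]
  simp

lemma integral_Hh_le (j : ℕ) (k : ℤ) : ∫ x, Hh j k x ∂hm ≤ 2 / 2 ^ j := by
  have h1 := abs_integral_per_le (a := 2) (by norm_num) le_rfl j k
  have h2 : ∫ y, |Th 2 y| ≤ 2 := by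
    have h3 : ∀ y, |Th 2 y| ≤ (Set.indicator (Set.Icc (-1:ℝ) 1) (fun _ => (1:ℝ))) y := by
      intro y
      rw [Th_two, abs_of_nonneg (le_max_right _ _)]
      by_cases hy : y ∈ Set.Icc (-1:ℝ) 1
      · rw [Set.indicator_of_mem hy]
        have := abs_nonneg y
        exact max_le (by linarith) (by norm_num)
      · rw [Set.indicator_of_notMem hy]
        have : 1 < |y| := by
          by_contra hcon
          push Not at hcon
          exact hy (abs_le.1 hcon)
        exact max_le (by linarith) le_rfl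
    have h4 : ∫ y, (Set.indicator (Set.Icc (-1:ℝ) 1) (fun _ => (1:ℝ))) y = 2 := by
      rw [integral_indicator measurableSet_Icc]
      simp
      norm_num
    refine (integral_mono (integrable_Th' (by norm_num) le_rfl).abs ?_ h3).trans h4.le
    exact (integrable_indicator_iff measurableSet_Icc).2 (by simp)
  have h5 : (0:ℝ) < 2 ^ j := by positivity
  calc ∫ x, Hh j k x ∂hm ≤ |∫ x, Hh j k x ∂hm| := le_abs_self _
    _ ≤ (2 ^ j : ℝ)⁻¹ * ∫ y, |Th 2 y| := h1
    _ ≤ (2 ^ j : ℝ)⁻¹ * 2 := by gcongr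
    _ = _ := by ring

lemma integral_Hh_nonneg (j : ℕ) (k : ℤ) : 0 ≤ ∫ x, Hh j k x ∂hm :=
  integral_nonneg fun x => Hh_nonneg j k x


/-- the integral as a linear map -/
noncomputable def IL (d : ℕ) : C(UnitAddTorus (Fin d), ℝ) →ₗ[ℝ] ℝ where
  toFun f := ∫ x, f x ∂(mu d)
  map_add' f g := by
    simp only [ContinuousMap.add_apply]
    exact integral_add (tor_integrable f) (tor_integrable g)
  map_smul' c f := by
    simp only [ContinuousMap.smul_apply, smul_eq_mul, RingHom.id_apply]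
    exact integral_const_mul _ _

lemma IL_apply {d : ℕ} (f : C(UnitAddTorus (Fin d), ℝ)) : IL d f = ∫ x, f x ∂(mu d) := rfl

lemma sum_cnt_rows (X Y : ι → ℝ) (b g : ℕ) :
    ∑ k₂ ∈ range (2 ^ b), ∑ k ∈ range (2 ^ g), cnt (Vr Y b k₂) X g k ≤ 4 * Fintype.card ι := by
  calc ∑ k₂ ∈ range (2 ^ b), ∑ k ∈ range (2 ^ g), cnt (Vr Y b k₂) X g k
      ≤ ∑ k₂ ∈ range (2 ^ b), 2 * (Vr Y b k₂).card := sum_le_sum fun k₂ _ => sum_cnt_le _ _ _
    _ = 2 * ∑ k₂ ∈ range (2 ^ b), cnt univ Y b k₂ := by rw [mul_sum]; rfl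
    _ ≤ 2 * (2 * (univ : Finset ι).card) := by
        gcongr
        exact sum_cnt_le _ _ _
    _ = _ := by rw [card_univ]; ring

lemma integral_FF_le (B n M : ℕ) (X Y : ι → ℝ) (hM : n ≤ M) :
    IL 2 (FF B n M X Y Hh) ≤ n * (32 * Fintype.card ι * 4 ^ B / 2 ^ M) := by
  unfold FF
  simp only [map_sum, map_smul, smul_eq_mul, IL_apply, integral_tp]
  have hi : ∀ i ∈ range n, ∑ k₂ ∈ range (2 ^ (M - i)), ∑ g ∈ range (i + 1), ∑ k ∈ range (2 ^ g),
      co B (Vr Y (M - i) k₂) X i g k * ((∫ x, Hh g k x ∂hm) * ∫ x, Hh (M - i) k₂ x ∂hm) ≤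
      32 * Fintype.card ι * 4 ^ B / 2 ^ M := by
    intro i hi
    have hiM : i ≤ M := (mem_range.1 hi).le.trans hM
    set b := M - i with hb
    have key : ∀ g ∈ range (i + 1), ∀ k₂ k : ℤ,
        co B (Vr Y b k₂) X i g k * ((∫ x, Hh g k x ∂hm) * ∫ x, Hh b k₂ x ∂hm) ≤
        ∑ ρ ∈ range (B + 1), if g + ug ρ = i then
          (4 / (2 ^ M * om B ρ)) * (cnt (Vr Y b k₂) X g k : ℝ) else 0 := by
      intro g hg k₂ k
      have hnn : ∀ ρ ∈ range (B + 1), (0:ℝ) ≤ if g + ug ρ = i then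
          (4 / (2 ^ M * om B ρ)) * (cnt (Vr Y b k₂) X g k : ℝ) else 0 := by
        intro ρ _
        have := om_pos B ρ
        split_ifs
        · positivity
        · exact le_rfl
      by_cases hR : Rich B (Vr Y b k₂) X i g k
      · have hR' := hR
        obtain ⟨ρ, hρ, hgi, hcnt⟩ := hR'
        have h1 := single_le_sum hnn (mem_range.2 (by omega : ρ < B + 1))
        rw [if_pos hgi] at h1
        refine le_trans ?_ h1
        have hco : co B (Vr Y b k₂) X i g k ≤ 1 :=
          (co_le_kpi _ _ _ _ _ _).trans (kpi_le_one _ _ _ _ _ _)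
        have hco0 := co_nonneg B (Vr Y b k₂) X i g k
        have e1 := integral_Hh_le g k
        have e2 := integral_Hh_le b k₂
        have e3 := integral_Hh_nonneg g k
        have e4 := integral_Hh_nonneg b k₂
        have hom := om_pos B ρ
        have hpow : (2:ℝ) ^ g * 2 ^ b * 2 ^ ug ρ = 2 ^ M := by
          rw [← pow_add, ← pow_add]
          congr 1
          omega
        calc co B (Vr Y b k₂) X i g k * ((∫ x, Hh g k x ∂hm) * ∫ x, Hh b k₂ x ∂hm)
            ≤ 1 * ((2 / 2 ^ g) * (2 / 2 ^ b)) := by gcongr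
          _ = (4 / (2 ^ M * om B ρ)) * (2 ^ ug ρ * om B ρ) := by
              rw [← hpow]
              field_simp
              ring
          _ ≤ _ := by gcongr
      · unfold co
        rw [if_neg hR, zero_mul]
        exact sum_nonneg hnn
    have hswap : ∑ k₂ ∈ range (2 ^ b), ∑ g ∈ range (i + 1), ∑ k ∈ range (2 ^ g),
        ∑ ρ ∈ range (B + 1), (if g + ug ρ = i then
          (4 / (2 ^ M * om B ρ)) * (cnt (Vr Y b k₂) X g k : ℝ) else 0) =
        ∑ ρ ∈ range (B + 1), ∑ g ∈ range (i + 1), (if g + ug ρ = i then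
          (4 / (2 ^ M * om B ρ)) * ((∑ k₂ ∈ range (2 ^ b), ∑ k ∈ range (2 ^ g),
            cnt (Vr Y b k₂) X g k : ℕ) : ℝ) else 0) := by
      rw [sum_comm]
      rw [sum_comm (s := range (B + 1))]
      refine sum_congr rfl fun g _ => ?_
      have : ∀ k₂ ∈ range (2 ^ b), ∑ k ∈ range (2 ^ g),
          ∑ ρ ∈ range (B + 1), (if g + ug ρ = i then
          (4 / (2 ^ M * om B ρ)) * (cnt (Vr Y b k₂) X g k : ℝ) else 0) =
          ∑ ρ ∈ range (B + 1), ∑ k ∈ range (2 ^ g), (if g + ug ρ = i then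
          (4 / (2 ^ M * om B ρ)) * (cnt (Vr Y b k₂) X g k : ℝ) else 0) := fun k₂ _ => sum_comm
      rw [sum_congr rfl this, sum_comm]
      refine sum_congr rfl fun ρ _ => ?_
      split_ifs
      · push_cast
        rw [mul_sum]
        refine sum_congr rfl fun k₂ _ => ?_
        rw [mul_sum]
      · simp
    calc _ ≤ ∑ k₂ ∈ range (2 ^ b), ∑ g ∈ range (i + 1), ∑ k ∈ range (2 ^ g),
        ∑ ρ ∈ range (B + 1), (if g + ug ρ = i then
          (4 / (2 ^ M * om B ρ)) * (cnt (Vr Y b k₂) X g k : ℝ) else 0) :=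
          sum_le_sum fun k₂ _ => sum_le_sum fun g hg => sum_le_sum fun k _ => key g hg _ _
      _ = _ := hswap
      _ ≤ ∑ ρ ∈ range (B + 1), (16 * Fintype.card ι / 2 ^ M) * (1 / om B ρ) := by
          refine sum_le_sum fun ρ _ => ?_
          have hom := om_pos B ρ
          have h1 : ∀ g ∈ range (i + 1), (if g + ug ρ = i then
              (4 / (2 ^ M * om B ρ)) * ((∑ k₂ ∈ range (2 ^ b), ∑ k ∈ range (2 ^ g),
              cnt (Vr Y b k₂) X g k : ℕ) : ℝ) else 0) ≤ (if g = i - ug ρ then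
                (16 * Fintype.card ι / 2 ^ M) * (1 / om B ρ) else 0) := by
            intro g _
            split_ifs with h2 h3 h3
            · have h4 : ((∑ k₂ ∈ range (2 ^ b), ∑ k ∈ range (2 ^ g),
                  cnt (Vr Y b k₂) X g k : ℕ) : ℝ) ≤ 4 * Fintype.card ι := by
                exact_mod_cast sum_cnt_rows X Y b g
              calc _ ≤ (4 / (2 ^ M * om B ρ)) * (4 * Fintype.card ι) := by gcongr
                _ = _ := by field_simp; ring
            · omega
            · positivity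
            · exact le_rfl
          refine (sum_le_sum h1).trans ?_
          rw [sum_ite_eq']
          split_ifs
          · exact le_rfl
          · positivity
      _ = (16 * Fintype.card ι / 2 ^ M) * ∑ ρ ∈ range (B + 1), (1 / om B ρ) := by rw [mul_sum]
      _ ≤ (16 * Fintype.card ι / 2 ^ M) * (2 * 4 ^ B) := by
          gcongr
          exact sum_inv_om B
      _ = _ := by ring
  refine (sum_le_sum hi).trans ?_
  rw [sum_const, card_range, nsmul_eq_mul]

end

end Pool.Agent.Lib.MP_1ce311_an
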