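import Mathlib
import Pool.Agent.Lib.MP_1ce311_an.Fool

open MeasureTheory Finset

namespace Pool.Agent.Lib.MP_1ce311_an

lemma sum_shapes (n B : ℕ) (T : ℕ → ℕ → ℝ) (hT0 : ∀ i g, 0 ≤ T i g)
    (hT : ∀ i g, T i g ≠ 0 → ∃ ρ ≤ B, g + ug ρ = i) :
    ∑ i ∈ range n, ∑ g ∈ range (i + 1), T i g ≤
      ∑ ρ ∈ range (B + 1), ∑ g ∈ range n, (if g + ug ρ < n then T (g + ug ρ) g else 0) := by
  have h1 : ∀ i ∈ range n, ∑ g ∈ range (i + 1), T i g ≤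
      ∑ g ∈ range n, ∑ ρ ∈ range (B + 1), (if g + ug ρ = i then T i g else 0) := by
    intro i hi
    have hsub : range (i + 1) ⊆ range n := by
      intro g hg
      rw [mem_range] at *
      omega
    refine le_trans ?_ (sum_le_sum_of_subset_of_nonneg hsub ?_)
    · refine sum_le_sum fun g _ => ?_
      have hnn : ∀ ρ ∈ range (B + 1), 0 ≤ (if g + ug ρ = i then T i g else 0) := by
        intro ρ _
        split_ifs
        · exact hT0 _ _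
        · exact le_rfl
      by_cases h0 : T i g = 0
      · rw [h0]
        exact sum_nonneg fun ρ _ => by split_ifs <;> exact le_rfl
      · obtain ⟨ρ, hρ, hg⟩ := hT i g h0
        have h1 := single_le_sum hnn (mem_range.2 (by omega : ρ < B + 1))
        rwa [if_pos hg] at h1
    · intro g _ _
      refine sum_nonneg fun ρ _ => ?_
      split_ifs
      · exact hT0 _ _
      · exact le_rfl
  refine (sum_le_sum h1).trans (le_of_eq ?_)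
  rw [sum_comm]
  have h2 : ∀ g ∈ range n, ∑ i ∈ range n, ∑ ρ ∈ range (B + 1),
      (if g + ug ρ = i then T i g else 0) =
      ∑ ρ ∈ range (B + 1), (if g + ug ρ < n then T (g + ug ρ) g else 0) := by
    intro g _
    rw [sum_comm]
    refine sum_congr rfl fun ρ _ => ?_
    have h3 : ∀ i ∈ range n, (if g + ug ρ = i then T i g else 0) =
        (if g + ug ρ = i then T (g + ug ρ) g else 0) := by
      intro i _
      split_ifs with h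
      · rw [h]
      · rfl
    rw [sum_congr rfl h3, sum_ite_eq]
    simp only [mem_range]
  rw [sum_congr rfl h2, sum_comm]

lemma pow_combine {r : ℝ} {M g u : ℕ} (h : g + u ≤ M) :
    ((2:ℝ) ^ g) ^ r * ((2:ℝ) ^ (M - (g + u))) ^ r = ((2:ℝ) ^ M) ^ r * ((2:ℝ) ^ u) ^ (-r) := by
  rw [← Real.mul_rpow (by positivity) (by positivity), ← pow_add,
    Real.rpow_neg (by positivity), ← div_eq_mul_inv, ← Real.div_rpow (by positivity) (by positivity)]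
  congr 1
  rw [eq_div_iff (by positivity), ← pow_add]
  congr 1
  omega

section
variable {ι : Type*} [Fintype ι]

/-- the majorant on cells -/
noncomputable def Ps (B M N : ℕ) (X Y : ι → ℝ) (aw : ℕ → ℤ → ℝ) (r : ℝ) (c₂ : ℕ → ℤ) (z : ℤ) : ℝ :=
  ∑ ρ ∈ range (B + 1), (((2:ℝ) ^ M) ^ r * ((2:ℝ) ^ ug ρ) ^ (-r)) *
    ∑ g ∈ range (N + 1), GG B (N + 1) M X Y aw c₂ ρ g (z / 2 ^ (N - g))

lemma FF_pointwise {r : ℝ} (B M N : ℕ) (hM : N + 1 ≤ M) (X Y : ι → ℝ)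
    (aw : ℕ → ℤ → ℝ) (h0 : ∀ j i, 0 ≤ aw j i)
    (hb : ∀ j k (t : ℝ), |thh r j k (t : UnitAddCircle)| ≤ (2 ^ j : ℝ) ^ r * aw j (⌊2 ^ j * t⌋ - k))
    (t₁ t₂ : ℝ) :
    |FF B (N + 1) M X Y (thh r) ![(t₁ : UnitAddCircle), (t₂ : UnitAddCircle)]| ≤
      Ps B M N X Y aw r (fun b => ⌊2 ^ b * t₂⌋) ⌊2 ^ N * t₁⌋ := by
  rw [FF_apply]
  simp only [Matrix.cons_val_zero, Matrix.cons_val_one]
  set T : ℕ → ℕ → ℝ := fun i g => ∑ k₂ ∈ range (2 ^ (M - i)), ∑ k ∈ range (2 ^ g),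
    kpi B (Vr Y (M - i) k₂) X i g k * (((2 ^ g : ℝ) ^ r * aw g (⌊2 ^ g * t₁⌋ - k)) *
      ((2 ^ (M - i) : ℝ) ^ r * aw (M - i) (⌊2 ^ (M - i) * t₂⌋ - k₂))) with hT
  have hT0 : ∀ i g, 0 ≤ T i g := by
    intro i g
    refine sum_nonneg fun k₂ _ => sum_nonneg fun k _ => ?_
    have := kpi_nonneg B (Vr Y (M - i) k₂) X i g k
    have := h0 g (⌊2 ^ g * t₁⌋ - k)
    have := h0 (M - i) (⌊2 ^ (M - i) * t₂⌋ - k₂)
    positivity
  have hTs : ∀ i g, T i g ≠ 0 → ∃ ρ ≤ B, g + ug ρ = i := by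
    intro i g hne
    obtain ⟨k₂, _, hk₂⟩ := exists_ne_zero_of_sum_ne_zero hne
    obtain ⟨k, _, hk⟩ := exists_ne_zero_of_sum_ne_zero hk₂
    have h1 : kpi B (Vr Y (M - i) k₂) X i g k ≠ 0 := left_ne_zero_of_mul hk
    unfold kpi at h1
    split_ifs at h1 with h2
    · obtain ⟨⟨ρ, hρ, hg, _⟩, _⟩ := h2
      exact ⟨ρ, hρ, hg⟩
    · exact absurd rfl h1
  have h1 : |∑ i ∈ range (N + 1), ∑ k₂ ∈ range (2 ^ (M - i)),
      (∑ g ∈ range (i + 1), ∑ k ∈ range (2 ^ g),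
        co B (Vr Y (M - i) k₂) X i g k * thh r g k (t₁ : UnitAddCircle)) *
        thh r (M - i) k₂ (t₂ : UnitAddCircle)| ≤
      ∑ i ∈ range (N + 1), ∑ g ∈ range (i + 1), T i g := by
    refine (abs_sum_le_sum_abs _ _).trans (sum_le_sum fun i _ => ?_)
    have h2 : ∑ g ∈ range (i + 1), T i g = ∑ k₂ ∈ range (2 ^ (M - i)), ∑ g ∈ range (i + 1),
        ∑ k ∈ range (2 ^ g), kpi B (Vr Y (M - i) k₂) X i g k *
          (((2 ^ g : ℝ) ^ r * aw g (⌊2 ^ g * t₁⌋ - k)) *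
          ((2 ^ (M - i) : ℝ) ^ r * aw (M - i) (⌊2 ^ (M - i) * t₂⌋ - k₂))) := by
      rw [hT]
      exact sum_comm
    rw [h2]
    refine (abs_sum_le_sum_abs _ _).trans (sum_le_sum fun k₂ _ => ?_)
    rw [sum_mul]
    refine (abs_sum_le_sum_abs _ _).trans (sum_le_sum fun g _ => ?_)
    rw [sum_mul]
    refine (abs_sum_le_sum_abs _ _).trans (sum_le_sum fun k _ => ?_)
    rw [mul_assoc, abs_mul, abs_mul, abs_of_nonneg (co_nonneg _ _ _ _ _ _)]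
    have e1 := co_nonneg B (Vr Y (M - i) k₂) X i g k
    have e2 := kpi_nonneg B (Vr Y (M - i) k₂) X i g k
    exact mul_le_mul (co_le_kpi _ _ _ _ _ _)
      (mul_le_mul (hb _ _ _) (hb _ _ _) (abs_nonneg _)
        ((abs_nonneg _).trans (hb _ _ _))) (by positivity) e2
  refine h1.trans ((sum_shapes (N + 1) B T hT0 hTs).trans (le_of_eq ?_))
  unfold Ps
  refine sum_congr rfl fun ρ _ => ?_
  rw [mul_sum]
  refine sum_congr rfl fun g hg => ?_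
  rw [mem_range] at hg
  rw [← floor_coarse (by omega : g ≤ N) t₁]
  unfold GG
  split_ifs with h3
  · rw [mul_sum, hT]
    refine sum_congr rfl fun k₂ _ => ?_
    rw [sum_mul, mul_sum]
    refine sum_congr rfl fun k _ => ?_
    have h4 := pow_combine (r := r) (M := M) (g := g) (u := ug ρ) (by omega)
    rw [← h4]
    ring
  · rw [mul_zero]


lemma Ps_nonneg (B M N : ℕ) (X Y : ι → ℝ) (aw : ℕ → ℤ → ℝ) (h0 : ∀ j i, 0 ≤ aw j i) (r : ℝ)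
    (c₂ : ℕ → ℤ) (z : ℤ) : 0 ≤ Ps B M N X Y aw r c₂ z := by
  unfold Ps
  refine sum_nonneg fun ρ _ => mul_nonneg (by positivity) (sum_nonneg fun g _ => ?_)
  exact GG_nonneg _ _ _ _ _ _ _ h0 _ _ _

/-- the constant of the summation over depths -/
noncomputable def Sc (r : ℝ) : ℝ := ∑' u : ℕ, ((2:ℝ) ^ u) ^ (-r) * (1 + (u:ℝ)) ^ 2

lemma summable_Sc {r : ℝ} (hr : 0 < r) :
    Summable fun u : ℕ => ((2:ℝ) ^ u) ^ (-r) * (1 + (u:ℝ)) ^ 2 := by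
  have h1 : ∀ u : ℕ, ((2:ℝ) ^ u) ^ (-r) = ((2:ℝ) ^ (-r)) ^ u := by
    intro u
    rw [← Real.rpow_natCast, ← Real.rpow_mul (by norm_num), ← Real.rpow_natCast,
      ← Real.rpow_mul (by norm_num), mul_comm]
  simp_rw [h1]
  have hx : (2:ℝ) ^ (-r) < 1 := Real.rpow_lt_one_of_one_lt_of_neg (by norm_num) (by linarith)
  have hx0 : (0:ℝ) < (2:ℝ) ^ (-r) := by positivity
  have hn : ‖(2:ℝ) ^ (-r)‖ < 1 := by rwa [Real.norm_of_nonneg hx0.le]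
  have s0 := summable_pow_mul_geometric_of_norm_lt_one 0 hn
  have s1 := summable_pow_mul_geometric_of_norm_lt_one 1 hn
  have s2 := summable_pow_mul_geometric_of_norm_lt_one 2 hn
  refine ((s0.add (s1.mul_left 2)).add s2).congr fun u => ?_
  ring

lemma sum_le_Sc {r : ℝ} (hr : 0 < r) (B : ℕ) :
    ∑ ρ ∈ range (B + 1), ((2:ℝ) ^ ug ρ) ^ (-r) * (1 + (ug ρ:ℝ)) ^ 2 ≤ Sc r := by
  have h1 : ∑ ρ ∈ range (B + 1), ((2:ℝ) ^ ug ρ) ^ (-r) * (1 + (ug ρ:ℝ)) ^ 2 =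
      ∑ u ∈ (range (B + 1)).image ug, ((2:ℝ) ^ u) ^ (-r) * (1 + (u:ℝ)) ^ 2 := by
    rw [sum_image]
    intro a _ b _ h
    exact ug_inj h
  rw [h1]
  exact (summable_Sc hr).sum_le_tsum _ (fun u _ => by positivity)

lemma Sc_pos {r : ℝ} (hr : 0 < r) : 0 < Sc r := by
  have h := sum_le_Sc hr 0
  have : (0:ℝ) < ∑ ρ ∈ range (0 + 1), ((2:ℝ) ^ ug ρ) ^ (-r) * (1 + (ug ρ:ℝ)) ^ 2 := by
    simp [ug]
  linarith

lemma Ps_moment {r A : ℝ} (hr : 0 < r) (hA0 : 0 < A) (B M N q : ℕ) (hN : N + 1 ≤ 4 ^ B)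
    (hq : 1 ≤ q) (X Y : ι → ℝ)
    (aw : ℕ → ℤ → ℝ) (h0 : ∀ j i, 0 ≤ aw j i)
    (hp : ∀ j i, aw j (i + 2 ^ j) = aw j i)
    (hA : ∀ j, ∑ i ∈ range (2 ^ j), aw j i ≤ A) (c₂ : ℕ → ℤ) :
    (∑ z ∈ range (2 ^ N), Ps B M N X Y aw r c₂ z ^ q) / 2 ^ N ≤
      (q * (((2:ℝ) ^ M) ^ r * (57 * A ^ 2 * Sc r))) ^ q := by
  rw [div_le_iff₀ (by positivity)]
  have h1 := power_mean (range (B + 1)) (range (2 ^ N))
    (fun ρ => ((2:ℝ) ^ M) ^ r * ((2:ℝ) ^ ug ρ) ^ (-r))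
    (fun ρ => A ^ 2 * (57 * (1 + (ug ρ : ℝ)) ^ 2))
    (fun ρ z => ∑ g ∈ range (N + 1), GG B (N + 1) M X Y aw c₂ ρ g ((z:ℤ) / 2 ^ (N - g)))
    (fun ρ _ => by positivity) (fun ρ _ => by positivity)
    (fun ρ _ z _ => sum_nonneg fun g _ => GG_nonneg _ _ _ _ _ _ _ h0 _ _ _) q hq
    (F := q.factorial) (D := 2 ^ N) (by positivity) (by positivity)
    (fun ρ _ => GG_moment B M X Y aw c₂ hA0 h0 hp hA N hN ρ q)
  have h2 : ∑ z ∈ range (2 ^ N), Ps B M N X Y aw r c₂ z ^ q ≤ _ := h1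
  refine h2.trans ?_
  gcongr
  have h3 : ∑ ρ ∈ range (B + 1), ((2:ℝ) ^ M) ^ r * ((2:ℝ) ^ ug ρ) ^ (-r) *
      (A ^ 2 * (57 * (1 + (ug ρ : ℝ)) ^ 2)) ≤ ((2:ℝ) ^ M) ^ r * (57 * A ^ 2 * Sc r) := by
    calc _ = ((2:ℝ) ^ M) ^ r * (57 * A ^ 2 *
          ∑ ρ ∈ range (B + 1), ((2:ℝ) ^ ug ρ) ^ (-r) * (1 + (ug ρ:ℝ)) ^ 2) := by
          rw [mul_sum, mul_sum]
          refine sum_congr rfl fun ρ _ => ?_
          ring
      _ ≤ _ := by
          gcongr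
          exact sum_le_Sc hr B
  have h4 : (q.factorial : ℝ) ≤ (q:ℝ) ^ q := by exact_mod_cast Nat.factorial_le_pow q
  rw [mul_pow]
  gcongr

/-- the `L_q` bound -/
lemma FF_norm {r A : ℝ} (hr : 0 < r) (hA0 : 0 < A) (B M N q : ℕ) (hN : N + 1 ≤ 4 ^ B)
    (hM : N + 1 ≤ M) (hq : 1 ≤ q) (X Y : ι → ℝ)
    (aw : ℕ → ℤ → ℝ) (h0 : ∀ j i, 0 ≤ aw j i)
    (hp : ∀ j i, aw j (i + 2 ^ j) = aw j i)
    (hA : ∀ j, ∑ i ∈ range (2 ^ j), aw j i ≤ A)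
    (hb : ∀ j k (t : ℝ), |thh r j k (t : UnitAddCircle)| ≤
      (2 ^ j : ℝ) ^ r * aw j (⌊2 ^ j * t⌋ - k)) :
    eLpNorm (FF B (N + 1) M X Y (thh r)) q (mu 2) ≤
      ENNReal.ofReal (q * (((2:ℝ) ^ M) ^ r * (57 * A ^ 2 * Sc r))) := by
  have hS := Sc_pos hr
  refine eLpNorm_le_of_slices _ q hq _ (by positivity) fun y => ?_
  induction y using QuotientAddGroup.induction_on with
  | H t₂ =>
    set Φ : C(UnitAddCircle, ℝ) := ⟨fun x => FF B (N + 1) M X Y (thh r) ![x, (t₂ : UnitAddCircle)],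
      by fun_prop⟩ with hΦ
    have h1 := lintegral_circle_cells Φ N q (Ps B M N X Y aw r (fun b => ⌊2 ^ b * t₂⌋)) (fun t₁ =>
      FF_pointwise B M N hM X Y aw h0 hb t₁ t₂)
    exact h1.trans (ENNReal.ofReal_le_ofReal (Ps_moment hr hA0 B M N q hN hq X Y aw h0 hp hA _))

end

end Pool.Agent.Lib.MP_1ce311_an
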