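import Mathlib

open Finset

namespace Pool.Agent.Lib.MP_1ce311_an

/-- shapes of level `M` -/
def shp (d L M : ℕ) : Finset (Fin d → Fin (L + 1)) := univ.filter fun s => ∑ j, (s j : ℕ) = M

lemma mem_shp {d L M : ℕ} (s : Fin d → Fin (L + 1)) : s ∈ shp d L M ↔ ∑ j, (s j : ℕ) = M := by
  simp [shp]

lemma card_shp_le (D L M : ℕ) : (shp (D + 1) L M).card ≤ (L + 1) ^ D := by
  have h1 : (shp (D + 1) L M).card ≤ (univ : Finset (Fin D → Fin (L + 1))).card := by
    refine card_le_card_of_injOn (fun s j => s j.castSucc) (fun s _ => mem_coe.2 (mem_univ _)) ?_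
    intro s hs s' hs' h
    rw [mem_coe, mem_shp, Fin.sum_univ_castSucc] at hs hs'
    have h2 : ∀ j : Fin D, s j.castSucc = s' j.castSucc := fun j => congrFun h j
    have h3 : ∑ j : Fin D, (s j.castSucc : ℕ) = ∑ j : Fin D, (s' j.castSucc : ℕ) :=
      sum_congr rfl fun j _ => by rw [h2]
    funext j
    refine Fin.lastCases ?_ (fun i => h2 i) j
    apply Fin.ext
    omega
  refine h1.trans (le_of_eq ?_)
  rw [card_univ, Fintype.card_pi, prod_const, card_univ, Fintype.card_fin, Fintype.card_fin]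

lemma card_shp_ge (D L M : ℕ) (hM : M ≤ L) : (M / (D + 1) + 1) ^ D ≤ (shp (D + 1) L M).card := by
  set q := M / (D + 1) with hq
  have hqM : q * (D + 1) ≤ M := Nat.div_mul_le_self M (D + 1)
  have hqL : q ≤ L := by nlinarith
  have h1 : (univ : Finset (Fin D → Fin (q + 1))).card ≤ (shp (D + 1) L M).card := by
    have hb : ∀ u : Fin D → Fin (q + 1), ∑ j, (u j : ℕ) ≤ D * q := by
      intro u
      calc ∑ j, (u j : ℕ) ≤ ∑ _j : Fin D, q := sum_le_sum fun j _ => Nat.lt_succ_iff.1 (u j).2
        _ = D * q := by simp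
    refine card_le_card_of_injOn (fun u => Fin.lastCases
      (⟨M - ∑ j, (u j : ℕ), by omega⟩ : Fin (L + 1))
      (fun j => (⟨(u j : ℕ), by have := (u j).2; omega⟩ : Fin (L + 1)))) ?_ ?_
    · intro u _
      rw [mem_coe, mem_shp, Fin.sum_univ_castSucc]
      simp only [Fin.lastCases_castSucc, Fin.lastCases_last]
      have := hb u
      have h2 : D * q ≤ M := by nlinarith
      omega
    · intro u _ u' _ h
      funext j
      have h2 := congrFun h j.castSucc
      simp only [Fin.lastCases_castSucc] at h2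
      apply Fin.ext
      exact congrArg (fun z : Fin (L + 1) => (z : ℕ)) h2
  refine le_trans (le_of_eq ?_) h1
  rw [card_univ, Fintype.card_pi, prod_const, card_univ, Fintype.card_fin, Fintype.card_fin]

lemma card_shp_ge' (D L M : ℕ) (hM : M ≤ L) :
    ((M:ℝ) / (D + 1)) ^ D ≤ ((shp (D + 1) L M).card : ℝ) := by
  have h1 := card_shp_ge D L M hM
  have h2 : (((M / (D + 1) + 1) ^ D : ℕ) : ℝ) ≤ ((shp (D + 1) L M).card : ℝ) := by exact_mod_cast h1
  refine le_trans ?_ h2
  push_cast
  gcongr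
  have hD : (0:ℝ) < (D:ℝ) + 1 := by positivity
  rw [div_le_iff₀ hD]
  have h3 : M < (M / (D + 1) + 1) * (D + 1) := by
    have := Nat.lt_div_mul_add (a := M) (b := D + 1) (by omega)
    linarith
  exact_mod_cast h3.le

end Pool.Agent.Lib.MP_1ce311_an
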