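import Mathlib
import Pool.Agent.Lib.MP_1ce311_an.Average
import Pool.Agent.Lib.MP_1ce311_an.Shapes

open MeasureTheory Finset

namespace Pool.Agent.Lib.MP_1ce311_an

/-- statement of the first engine -/
def Engine1 : Prop := ∀ (d k : ℕ), 1 ≤ k → ∀ (C r : ℝ), 0 < r → ∃ B : ℝ, 0 < B ∧
  ∀ (L : ℕ) (w : Fin d → ℕ → ℤ → ℝ), (∀ j, Ker L C r (w j)) →
  ∀ (ω : (Fin d → Fin (L + 1)) → ℝ) (g : (Fin d → Fin (2 ^ L)) → ℝ), (∀ s, |ω s| ≤ 1) →
    (∀ y, |g y| ≤ 1) →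
    ∑ x : Fin d → Fin (2 ^ L), (∑ s, ω s * ∑ y, (∏ j, Tk L (w j) (s j) (x j) (y j)) * g y) ^ (2 * k) ≤
      B * (2 ^ L) ^ d

/-- statement of the second engine -/
def Engine2 : Prop := ∀ (d k : ℕ), 1 ≤ k → ∀ (C r : ℝ), 0 < r → ∃ B : ℝ, 0 < B ∧
  ∀ (L : ℕ) (w : Fin d → ℕ → ℤ → ℝ), (∀ j, Ker L C r (w j)) →
  ∀ (a : (Fin d → Fin (L + 1)) → (Fin d → Fin (2 ^ L)) → ℝ) (M : ℝ),
    (∀ x, ∑ s, (a s x) ^ 2 ≤ M) →
    ∑ x : Fin d → Fin (2 ^ L), (∑ s, ∑ y, (∏ j, Tk L (w j) (s j) (x j) (y j)) * a s y) ^ (2 * k) ≤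
      B * M ^ k * (2 ^ L) ^ d

/-- lifts of nodes -/
lemma exists_lift {d m : ℕ} (ξ : Fin m → UnitAddTorus (Fin d)) : ∃ X : Fin m → Fin d → ℝ,
    ∀ i, ξ i = fun j => ((X i j : ℝ) : UnitAddCircle) := by
  have hlift : ∀ x : UnitAddCircle, ∃ t : ℝ, (t : UnitAddCircle) = x :=
    fun x => QuotientAddGroup.mk_surjective x
  choose lft hlft using hlift
  exact ⟨fun i j => lft (ξ i j), fun i => funext fun j => (hlft _).symm⟩

lemma le_max_pow {B : ℝ} (k : ℕ) (hk : 1 ≤ k) : B ≤ (max B 1) ^ k := by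
  calc B ≤ max B 1 := le_max_left _ _
    _ = (max B 1) ^ 1 := (pow_one _).symm
    _ ≤ (max B 1) ^ k := pow_le_pow_right₀ (le_max_right _ _) hk

lemma sum_sub_shape {d L : ℕ} (s : Fin d → Fin (L + 1)) :
    ∑ j, (L - (s j : ℕ)) + ∑ j, (s j : ℕ) = d * L := by
  rw [← sum_add_distrib]
  have : ∀ j : Fin d, L - (s j : ℕ) + (s j : ℕ) = L := fun j =>
    Nat.sub_add_cancel (Nat.lt_succ_iff.1 (s j).2)
  simp [this]

/-- norm of one level with a common coefficient function -/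
lemma level_norm (E1 : Engine1) {r : ℝ} (hr : 0 < r) (hr1 : r < 1) (d k : ℕ) (hk : 1 ≤ k) :
    ∃ K : ℝ, 0 < K ∧ ∀ (L M : ℕ) (g : (Fin d → Fin (2 ^ L)) → ℝ), (∀ y, |g y| ≤ 1) →
      eLpNorm (Syn L (thh r) (fun s y => if s ∈ shp d L M then g y else 0))
        ((2 * k : ℕ) : ENNReal) (mu d) ≤ ENNReal.ofReal (K * ((2:ℝ) ^ M) ^ r) := by
  obtain ⟨C, hC, hker⟩ := ker_bounds hr hr1
  obtain ⟨B, hB, hE⟩ := E1 d k hk C r hr
  refine ⟨max B 1, by positivity, ?_⟩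
  intro L M g hg
  refine eLpNorm_le_of_grid L k hk _ _ (by positivity) fun θ hθ0 hθ1 => ?_
  have h1 := hE L (fun j => wk r L (θ j)) (fun j => hker L (θ j) (hθ0 j) (hθ1 j))
    (fun s => if s ∈ shp d L M then 1 else 0) g (fun s => by split_ifs <;> simp) hg
  have h2 : ∀ ζ : Fin d → Fin (2 ^ L),
      Syn L (thh r) (fun s y => if s ∈ shp d L M then g y else 0)
        (fun j => ((θ j + (ζ j : ℕ) / 2 ^ L : ℝ) : UnitAddCircle)) =
      ((2:ℝ) ^ M) ^ r * ∑ s : Fin d → Fin (L + 1), (if s ∈ shp d L M then (1:ℝ) else 0) *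
        ∑ y, (∏ j, Tk L (wk r L (θ j)) (s j) (ζ j) (y j)) * g y := by
    intro ζ
    rw [Syn_grid hr hr1, mul_sum]
    refine sum_congr rfl fun s _ => ?_
    by_cases hs : s ∈ shp d L M
    · simp only [if_pos hs, one_mul]
      rw [(mem_shp s).1 hs]
    · simp only [if_neg hs, mul_zero, sum_const_zero, zero_mul]
  simp_rw [h2, mul_pow]
  rw [← mul_sum]
  calc (((2:ℝ) ^ M) ^ r) ^ (2 * k) * _ ≤ (((2:ℝ) ^ M) ^ r) ^ (2 * k) * (B * (2 ^ L) ^ d) := by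
        gcongr
    _ ≤ (((2:ℝ) ^ M) ^ r) ^ (2 * k) * ((max B 1) ^ (2 * k) * (2 ^ L) ^ d) := by
        gcongr
        exact le_max_pow _ (by omega)
    _ = _ := by ring

open scoped Classical in
/-- **Case 1** -/
lemma fool1 (E1 : Engine1) {r : ℝ} (hr : 0 < r) (hr1 : r < 1) (D k : ℕ) (hk : 1 ≤ k) :
    ∃ K : ℝ, 0 < K ∧ ∀ (L m : ℕ) (ξ : Fin m → UnitAddTorus (Fin (D + 1))),
      2 ^ (D + 2) * m * (L + 1) ^ D ≤ 2 ^ L →
      ∃ h φ : C(UnitAddTorus (Fin (D + 1)), ℝ), Rel r h φ ∧ (∀ i, h (ξ i) = 0) ∧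
        ((L:ℝ) / (D + 1)) ^ D / 2 ≤ ∫ x, h x ∂(mu (D + 1)) ∧
        eLpNorm φ ((2 * k : ℕ) : ENNReal) (mu (D + 1)) ≤ ENNReal.ofReal (K * ((2:ℝ) ^ L) ^ r) := by
  obtain ⟨K, hK, hlev⟩ := level_norm E1 hr hr1 (D + 1) k hk
  refine ⟨K, hK, ?_⟩
  intro L m ξ hL
  obtain ⟨X, hX⟩ := exists_lift ξ
  set Ω : Finset (Fin (D + 1) → Fin (2 ^ L)) :=
    univ.filter fun y => ∃ s ∈ shp (D + 1) L L, occ L X s y with hΩ
  set g : (Fin (D + 1) → Fin (2 ^ L)) → ℝ := fun y => if y ∈ Ω then 0 else 1 with hg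
  set G : (Fin (D + 1) → Fin (L + 1)) → (Fin (D + 1) → Fin (2 ^ L)) → ℝ :=
    fun s y => if s ∈ shp (D + 1) L L then g y else 0 with hG
  refine ⟨Syn L Hh G, Syn L (thh r) G, rel_Syn hr hr1 L G, ?_, ?_, ?_⟩
  · intro i
    rw [hX i]
    refine Syn_node L X G ?_ i
    intro s y ho
    simp only [hG, hg]
    split_ifs with h1 h2
    · rfl
    · exact absurd (mem_filter.2 ⟨mem_univ _, s, h1, ho⟩) h2
    · rfl
  · rw [integral_Syn]
    have hcardΩ : 2 * Ω.card ≤ 2 ^ (L * (D + 1)) := by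
      have h1 : Ω.card ≤ ∑ s ∈ shp (D + 1) L L, (univ.filter fun y => occ L X s y).card := by
        refine le_trans (card_le_card ?_) card_biUnion_le
        intro y hy
        rw [hΩ, mem_filter] at hy
        obtain ⟨_, s, hs, ho⟩ := hy
        exact mem_biUnion.2 ⟨s, hs, mem_filter.2 ⟨mem_univ _, ho⟩⟩
      have h2 : ∀ s ∈ shp (D + 1) L L, (univ.filter fun y => occ L X s y).card ≤
          m * (2 ^ (D + 1) * 2 ^ (L * D)) := by
        intro s hs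
        refine (card_occ L X s).trans ?_
        have h3 := sum_sub_shape s
        rw [(mem_shp s).1 hs] at h3
        have h4 : ∑ j, (L - (s j : ℕ)) = L * D := by
          have : (D + 1) * L = L * D + L := by ring
          omega
        rw [h4]
      have h5 : Ω.card ≤ (L + 1) ^ D * (m * (2 ^ (D + 1) * 2 ^ (L * D))) := by
        refine h1.trans ((sum_le_sum h2).trans ?_)
        rw [sum_const, smul_eq_mul]
        exact Nat.mul_le_mul_right _ (card_shp_le D L L)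
      calc 2 * Ω.card ≤ 2 * ((L + 1) ^ D * (m * (2 ^ (D + 1) * 2 ^ (L * D)))) :=
            Nat.mul_le_mul_left _ h5
        _ = (2 ^ (D + 2) * m * (L + 1) ^ D) * 2 ^ (L * D) := by ring
        _ ≤ 2 ^ L * 2 ^ (L * D) := Nat.mul_le_mul_right _ hL
        _ = 2 ^ (L * (D + 1)) := by rw [← pow_add]; ring_nf
    have hsumg : ((2:ℝ) ^ L) ^ (D + 1) / 2 ≤ ∑ y, g y := by
      have h1 : ∑ y, g y = ((2:ℝ) ^ L) ^ (D + 1) - Ω.card := by
        have h2 : ∀ y, g y = 1 - (if y ∈ Ω then (1:ℝ) else 0) := by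
          intro y
          simp only [hg]
          split_ifs <;> norm_num
        simp_rw [h2]
        rw [sum_sub_distrib, sum_const, card_univ, Fintype.card_pi, prod_const, card_univ,
          Fintype.card_fin, Fintype.card_fin, nsmul_eq_mul, mul_one, sum_ite_mem, univ_inter,
          sum_const, nsmul_eq_mul, mul_one]
        push_cast
        ring
      rw [h1]
      have h3 : (2:ℝ) * Ω.card ≤ ((2:ℝ) ^ L) ^ (D + 1) := by
        rw [← pow_mul]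
        exact_mod_cast hcardΩ
      linarith
    have hGsum : ∑ s, ∑ y, G s y = (shp (D + 1) L L).card * ∑ y, g y := by
      have h1 : ∀ s, ∑ y, G s y = if s ∈ shp (D + 1) L L then ∑ y, g y else 0 := by
        intro s
        simp only [hG]
        split_ifs <;> simp
      simp_rw [h1]
      rw [sum_ite_mem, univ_inter, sum_const, nsmul_eq_mul]
    rw [hGsum, le_div_iff₀ (by positivity)]
    have hc := card_shp_ge' D L L le_rfl
    calc ((L:ℝ) / (D + 1)) ^ D / 2 * ((2:ℝ) ^ L) ^ (D + 1)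
        = ((L:ℝ) / (D + 1)) ^ D * (((2:ℝ) ^ L) ^ (D + 1) / 2) := by ring
      _ ≤ _ := by gcongr
  · refine hlev L L g fun y => ?_
    simp only [hg]
    split_ifs <;> simp

end Pool.Agent.Lib.MP_1ce311_an
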