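import Mathlib
import Pool.Agent.Lib.MP_1ce311_an.CaseOne

open MeasureTheory Finset

namespace Pool.Agent.Lib.MP_1ce311_an

/-- norm of a general coefficient function through the second engine -/
lemma square_norm (E2 : Engine2) {r : ℝ} (hr : 0 < r) (hr1 : r < 1) (d k : ℕ) (hk : 1 ≤ k) :
    ∃ K : ℝ, 0 < K ∧ ∀ (L : ℕ) (G : (Fin d → Fin (L + 1)) → (Fin d → Fin (2 ^ L)) → ℝ) (M : ℝ),
      0 ≤ M → (∀ y, ∑ s, (((2:ℝ) ^ (∑ j, (s j : ℕ))) ^ r * G s y) ^ 2 ≤ M) →
      eLpNorm (Syn L (thh r) G) ((2 * k : ℕ) : ENNReal) (mu d) ≤ ENNReal.ofReal (K * √M) := by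
  obtain ⟨C, hC, hker⟩ := ker_bounds hr hr1
  obtain ⟨B, hB, hE⟩ := E2 d k hk C r hr
  refine ⟨max B 1, by positivity, ?_⟩
  intro L G M hM hGM
  refine eLpNorm_le_of_grid L k hk _ _ (by positivity) fun θ hθ0 hθ1 => ?_
  have h1 := hE L (fun j => wk r L (θ j)) (fun j => hker L (θ j) (hθ0 j) (hθ1 j))
    (fun s y => ((2:ℝ) ^ (∑ j, (s j : ℕ))) ^ r * G s y) M hGM
  have h2 : ∀ ζ : Fin d → Fin (2 ^ L),
      Syn L (thh r) G (fun j => ((θ j + (ζ j : ℕ) / 2 ^ L : ℝ) : UnitAddCircle)) =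
      ∑ s : Fin d → Fin (L + 1), ∑ y, (∏ j, Tk L (wk r L (θ j)) (s j) (ζ j) (y j)) *
        (((2:ℝ) ^ (∑ j, (s j : ℕ))) ^ r * G s y) := by
    intro ζ
    rw [Syn_grid hr hr1]
    refine sum_congr rfl fun s _ => ?_
    rw [mul_sum]
    refine sum_congr rfl fun y _ => ?_
    ring
  simp_rw [h2]
  refine h1.trans ?_
  have h3 : (√M) ^ (2 * k) = M ^ k := by
    rw [pow_mul, Real.sq_sqrt hM]
  rw [mul_pow, h3]
  gcongr
  exact le_max_pow _ (by omega)

lemma geom_sqrt (n l₀ : ℕ) : ∑ l ∈ range (l₀ + 1), ((2:ℝ) ^ (n + l)) ^ (1 / 2 : ℝ) ≤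
    4 * √(2 ^ n * 2 ^ l₀) := by
  have h : ∀ l : ℕ, ((2:ℝ) ^ (n + l)) ^ (1 / 2 : ℝ) = √(2 ^ n * 2 ^ l) := by
    intro l
    rw [← Real.sqrt_eq_rpow, pow_add]
  simp_rw [h]
  induction l₀ with
  | zero => simp
  | succ l ih =>
    rw [sum_range_succ]
    have h1 : √((2:ℝ) ^ n * 2 ^ (l + 1)) = √2 * √(2 ^ n * 2 ^ l) := by
      rw [← Real.sqrt_mul (by norm_num)]
      congr 1
      ring
    have h2 : (4:ℝ) / 3 ≤ √2 := by
      apply Real.le_sqrt_of_sq_le
      norm_num
    have h3 := Real.sqrt_nonneg ((2:ℝ) ^ n * 2 ^ l)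
    rw [h1]
    nlinarith

open scoped Classical in
/-- **Case 2** -/
lemma fool2 (E1 : Engine1) (E2 : Engine2) (D k : ℕ) (hD : 1 ≤ D) (hk : 1 ≤ k) :
    ∃ K : ℝ, 0 < K ∧ ∀ (n m : ℕ) (ξ : Fin m → UnitAddTorus (Fin (D + 1))), 1 ≤ n →
      2 ^ (D + 4) * m ≤ 2 ^ n →
      ∃ h φ : C(UnitAddTorus (Fin (D + 1)), ℝ), Rel (1 / 2) h φ ∧ (∀ i, h (ξ i) = 0) ∧
        3 / 4 * ((Nat.log 2 n + 1 : ℕ) * ((n:ℝ) / (D + 1)) ^ D) ≤ ∫ x, h x ∂(mu (D + 1)) ∧
        eLpNorm φ ((2 * k : ℕ) : ENNReal) (mu (D + 1)) ≤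
          ENNReal.ofReal (K * √(2 ^ n * (n + Nat.log 2 n + 1) ^ D * (Nat.log 2 n + 1 : ℕ))) := by
  obtain ⟨K1, hK1, hlev⟩ := level_norm E1 (r := 1 / 2) (by norm_num) (by norm_num) (D + 1) k hk
  obtain ⟨K2, hK2, hsq⟩ := square_norm E2 (r := 1 / 2) (by norm_num) (by norm_num) (D + 1) k hk
  refine ⟨4 * K1 + K2, by positivity, ?_⟩
  intro n m ξ hn hnm
  set l₀ := Nat.log 2 n with hl₀
  set L := n + l₀ with hL
  obtain ⟨X, hX⟩ := exists_lift ξ
  set S : ℕ → Finset (Fin (D + 1) → Fin (L + 1)) := fun l => shp (D + 1) L (n + l) with hS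
  set N : ℕ → (Fin (D + 1) → Fin (2 ^ L)) → ℕ :=
    fun l y => ((S l).filter fun s => occ L X s y).card with hN
  set Ω : ℕ → Finset (Fin (D + 1) → Fin (2 ^ L)) :=
    fun l => univ.filter fun y => (L + 1) ^ D < N l y * 2 ^ l with hΩ
  set gl : ℕ → (Fin (D + 1) → Fin (2 ^ L)) → ℝ := fun l y => if y ∈ Ω l then 0 else 1 with hgl
  have hgl0 : ∀ l y, 0 ≤ gl l y := fun l y => by simp only [hgl]; split_ifs <;> norm_num
  have hgl1 : ∀ l y, gl l y ≤ 1 := fun l y => by simp only [hgl]; split_ifs <;> norm_num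
  set G1 : ℕ → (Fin (D + 1) → Fin (L + 1)) → (Fin (D + 1) → Fin (2 ^ L)) → ℝ :=
    fun l s y => if s ∈ S l then gl l y else 0 with hG1
  set G2 : ℕ → (Fin (D + 1) → Fin (L + 1)) → (Fin (D + 1) → Fin (2 ^ L)) → ℝ :=
    fun l s y => if s ∈ S l then (if occ L X s y then gl l y else 0) else 0 with hG2
  set A : (Fin (D + 1) → Fin (L + 1)) → (Fin (D + 1) → Fin (2 ^ L)) → ℝ :=
    fun s y => ∑ l ∈ range (l₀ + 1), G1 l s y with hA
  set A' : (Fin (D + 1) → Fin (L + 1)) → (Fin (D + 1) → Fin (2 ^ L)) → ℝ :=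
    fun s y => ∑ l ∈ range (l₀ + 1), G2 l s y with hA'
  set G : (Fin (D + 1) → Fin (L + 1)) → (Fin (D + 1) → Fin (2 ^ L)) → ℝ :=
    fun s y => A s y - A' s y with hG
  -- counting
  have hocc : ∀ l, l ≤ l₀ → ∀ s ∈ S l,
      8 * (univ.filter fun y => occ L X s y).card * 2 ^ l ≤ 2 ^ (L * (D + 1)) := by
    intro l hl s hs
    have h1 := card_occ L X s
    have h3 := sum_sub_shape s
    rw [(mem_shp s).1 hs] at h3
    obtain ⟨e, he⟩ : ∃ e, ∑ j, (L - (s j : ℕ)) = e := ⟨_, rfl⟩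
    rw [he] at h1 h3
    calc 8 * (univ.filter fun y => occ L X s y).card * 2 ^ l
        ≤ 8 * (m * (2 ^ (D + 1) * 2 ^ e)) * 2 ^ l := by gcongr
      _ = (2 ^ (D + 4) * m) * 2 ^ e * 2 ^ l := by ring
      _ ≤ 2 ^ n * 2 ^ e * 2 ^ l := by gcongr
      _ = 2 ^ (L * (D + 1)) := by
          rw [← pow_add, ← pow_add]
          congr 1
          rw [mul_comm L]
          omega
  have hΩcard : ∀ l, l ≤ l₀ → 8 * (Ω l).card ≤ 2 ^ (L * (D + 1)) := by
    intro l hl
    have h1 : (Ω l).card * (L + 1) ^ D ≤ ∑ s ∈ S l, (univ.filter fun y => occ L X s y).card * 2 ^ l := by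
      calc (Ω l).card * (L + 1) ^ D = ∑ y ∈ Ω l, (L + 1) ^ D := by rw [sum_const, smul_eq_mul]
        _ ≤ ∑ y ∈ Ω l, N l y * 2 ^ l := sum_le_sum fun y hy => (mem_filter.1 hy).2.le
        _ ≤ ∑ y, N l y * 2 ^ l := sum_le_sum_of_subset (subset_univ _)
        _ = ∑ s ∈ S l, (univ.filter fun y => occ L X s y).card * 2 ^ l := by
            rw [← sum_mul, ← sum_mul]
            congr 1
            simp only [hN, card_filter]
            rw [sum_comm]
    have h2 : 8 * ((Ω l).card * (L + 1) ^ D) ≤ (L + 1) ^ D * 2 ^ (L * (D + 1)) := by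
      calc 8 * ((Ω l).card * (L + 1) ^ D)
          ≤ 8 * ∑ s ∈ S l, (univ.filter fun y => occ L X s y).card * 2 ^ l :=
            Nat.mul_le_mul_left _ h1
        _ = ∑ s ∈ S l, 8 * (univ.filter fun y => occ L X s y).card * 2 ^ l := by
            rw [mul_sum]; exact sum_congr rfl fun s _ => by ring
        _ ≤ ∑ s ∈ S l, 2 ^ (L * (D + 1)) := sum_le_sum fun s hs => hocc l hl s hs
        _ = (S l).card * 2 ^ (L * (D + 1)) := by rw [sum_const, smul_eq_mul]
        _ ≤ (L + 1) ^ D * 2 ^ (L * (D + 1)) := Nat.mul_le_mul_right _ (card_shp_le D L (n + l))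
    have h3 : (L + 1) ^ D * (8 * (Ω l).card) ≤ (L + 1) ^ D * 2 ^ (L * (D + 1)) := by
      calc (L + 1) ^ D * (8 * (Ω l).card) = 8 * ((Ω l).card * (L + 1) ^ D) := by ring
        _ ≤ _ := h2
    exact Nat.le_of_mul_le_mul_left h3 (by positivity)
  refine ⟨Syn L Hh G, Syn L (thh (1 / 2)) G, rel_Syn (by norm_num) (by norm_num) L G, ?_, ?_, ?_⟩
  · intro i
    rw [hX i]
    refine Syn_node L X G ?_ i
    intro s y ho
    simp only [hG, hA, hA']
    rw [← sum_sub_distrib]
    refine sum_eq_zero fun l _ => ?_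
    simp only [hG1, hG2, if_pos ho]
    split_ifs <;> ring
  · rw [integral_Syn, le_div_iff₀ (by positivity)]
    have h1 : ∑ s, ∑ y, G s y = ∑ l ∈ range (l₀ + 1), ∑ s ∈ S l, ∑ y,
        (if occ L X s y then 0 else gl l y) := by
      have h2 : ∀ s y, G s y = ∑ l ∈ range (l₀ + 1), (if s ∈ S l then
          (if occ L X s y then 0 else gl l y) else 0) := by
        intro s y
        simp only [hG, hA, hA']
        rw [← sum_sub_distrib]
        refine sum_congr rfl fun l _ => ?_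
        simp only [hG1, hG2]
        split_ifs <;> ring
      simp_rw [h2]
      have h3 : ∀ s, ∑ y, ∑ l ∈ range (l₀ + 1), (if s ∈ S l then
          (if occ L X s y then 0 else gl l y) else 0) =
          ∑ l ∈ range (l₀ + 1), (if s ∈ S l then ∑ y, (if occ L X s y then 0 else gl l y) else 0) := by
        intro s
        rw [sum_comm]
        refine sum_congr rfl fun l _ => ?_
        split_ifs
        · rfl
        · simp
      simp_rw [h3]
      rw [sum_comm]
      refine sum_congr rfl fun l _ => ?_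
      rw [sum_ite_mem, univ_inter]
    rw [h1]
    have h4 : ∀ l ∈ range (l₀ + 1), ∀ s ∈ S l,
        3 / 4 * ((2:ℝ) ^ L) ^ (D + 1) ≤ ∑ y, (if occ L X s y then 0 else gl l y) := by
      intro l hl s hs
      rw [mem_range] at hl
      have h5 : ∀ y, 1 - (if occ L X s y then (1:ℝ) else 0) - (if y ∈ Ω l then (1:ℝ) else 0) ≤
          (if occ L X s y then 0 else gl l y) := by
        intro y
        simp only [hgl]
        split_ifs <;> norm_num
      refine le_trans ?_ (sum_le_sum fun y _ => h5 y)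
      rw [sum_sub_distrib, sum_sub_distrib, ← sum_filter, sum_ite_mem, univ_inter, sum_const,
        sum_const, sum_const, card_univ, Fintype.card_pi, prod_const, card_univ, Fintype.card_fin,
        Fintype.card_fin, nsmul_eq_mul, nsmul_eq_mul, nsmul_eq_mul, mul_one, mul_one, mul_one]
      have h6 := hocc l (by omega) s hs
      have h7 := hΩcard l (by omega)
      have h6' : (8:ℝ) * (univ.filter fun y => occ L X s y).card ≤ ((2:ℝ) ^ L) ^ (D + 1) := by
        rw [← pow_mul]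
        have : 8 * (univ.filter fun y => occ L X s y).card ≤ 2 ^ (L * (D + 1)) := by
          refine le_trans ?_ h6
          exact Nat.le_mul_of_pos_right _ (by positivity)
        exact_mod_cast this
      have h7' : (8:ℝ) * (Ω l).card ≤ ((2:ℝ) ^ L) ^ (D + 1) := by
        rw [← pow_mul]
        exact_mod_cast h7
      push_cast
      linarith
    calc 3 / 4 * ((l₀ + 1 : ℕ) * ((n:ℝ) / (D + 1)) ^ D) * ((2:ℝ) ^ L) ^ (D + 1)
        = ∑ l ∈ range (l₀ + 1), ((n:ℝ) / (D + 1)) ^ D * (3 / 4 * ((2:ℝ) ^ L) ^ (D + 1)) := by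
          rw [sum_const, card_range, nsmul_eq_mul]; ring
      _ ≤ ∑ l ∈ range (l₀ + 1), (S l).card * (3 / 4 * ((2:ℝ) ^ L) ^ (D + 1)) := by
          refine sum_le_sum fun l hl => ?_
          rw [mem_range] at hl
          gcongr
          refine le_trans ?_ (card_shp_ge' D L (n + l) (by omega))
          push_cast
          gcongr
          have : (0:ℝ) ≤ l := by positivity
          linarith
      _ ≤ _ := by
          refine sum_le_sum fun l hl => ?_
          rw [← nsmul_eq_mul, ← sum_const]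
          exact sum_le_sum fun s hs => h4 l hl s hs
  · have hsplit : Syn L (thh (1 / 2)) G = ∑ l ∈ range (l₀ + 1), Syn L (thh (1 / 2)) (G1 l) -
        Syn L (thh (1 / 2)) A' := by
      rw [hG, Syn_sub, hA, Syn_sum]
    set M : ℝ := 2 ^ n * (n + l₀ + 1) ^ D * (l₀ + 1 : ℕ) with hM
    have hM0 : 0 ≤ M := by positivity
    have hAnorm : eLpNorm (∑ l ∈ range (l₀ + 1), Syn L (thh (1 / 2)) (G1 l) :
        C(UnitAddTorus (Fin (D + 1)), ℝ)) ((2 * k : ℕ) : ENNReal) (mu (D + 1)) ≤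
        ENNReal.ofReal (4 * K1 * √M) := by
      have h1 : ((∑ l ∈ range (l₀ + 1), Syn L (thh (1 / 2)) (G1 l) :
          C(UnitAddTorus (Fin (D + 1)), ℝ)) : UnitAddTorus (Fin (D + 1)) → ℝ) =
          ∑ l ∈ range (l₀ + 1), (Syn L (thh (1 / 2)) (G1 l) : UnitAddTorus (Fin (D + 1)) → ℝ) := by
        ext x; simp
      rw [h1]
      have h2 := eLpNorm_sum_le (μ := mu (D + 1)) (p := ((2 * k : ℕ) : ENNReal))
        (s := range (l₀ + 1))
        (f := fun l => (Syn L (thh (1 / 2)) (G1 l) : UnitAddTorus (Fin (D + 1)) → ℝ))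
        (fun l _ => (Syn L (thh (1 / 2)) (G1 l)).continuous.aestronglyMeasurable)
        (by exact_mod_cast (by omega : 1 ≤ 2 * k))
      refine h2.trans ?_
      have h3 : ∀ l ∈ range (l₀ + 1), eLpNorm (Syn L (thh (1 / 2)) (G1 l))
          ((2 * k : ℕ) : ENNReal) (mu (D + 1)) ≤
          ENNReal.ofReal (K1 * ((2:ℝ) ^ (n + l)) ^ (1 / 2 : ℝ)) := by
        intro l _
        refine hlev L (n + l) (gl l) fun y => ?_
        rw [abs_of_nonneg (hgl0 l y)]
        exact hgl1 l y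
      refine (sum_le_sum h3).trans ?_
      rw [← ENNReal.ofReal_sum_of_nonneg (fun l _ => by positivity)]
      apply ENNReal.ofReal_le_ofReal
      rw [← mul_sum]
      have h4 := geom_sqrt n l₀
      have h5 : √((2:ℝ) ^ n * 2 ^ l₀) ≤ √M := by
        apply Real.sqrt_le_sqrt
        rw [hM]
        have h6 : (2:ℝ) ^ l₀ ≤ n := by
          have : 2 ^ l₀ ≤ n := Nat.pow_log_le_self 2 (by omega)
          exact_mod_cast this
        have h7 : (n:ℝ) ≤ (n + l₀ + 1 : ℝ) ^ D := by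
          have h8 : (1:ℝ) ≤ n + l₀ + 1 := by
            have : (0:ℝ) ≤ n := by positivity
            have : (0:ℝ) ≤ l₀ := by positivity
            linarith
          calc (n:ℝ) ≤ n + l₀ + 1 := by
                have : (0:ℝ) ≤ l₀ := by positivity
                linarith
            _ = (n + l₀ + 1 : ℝ) ^ 1 := (pow_one _).symm
            _ ≤ (n + l₀ + 1 : ℝ) ^ D := pow_le_pow_right₀ h8 hD
        have h9 : (1:ℝ) ≤ ((l₀ + 1 : ℕ) : ℝ) := by
          push_cast
          have : (0:ℝ) ≤ l₀ := by positivity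
          linarith
        calc (2:ℝ) ^ n * 2 ^ l₀ ≤ 2 ^ n * (n + l₀ + 1 : ℝ) ^ D := by
              gcongr
              exact h6.trans h7
          _ = 2 ^ n * (n + l₀ + 1 : ℝ) ^ D * 1 := (mul_one _).symm
          _ ≤ 2 ^ n * (n + l₀ + 1 : ℝ) ^ D * ((l₀ + 1 : ℕ) : ℝ) := by gcongr
      calc K1 * ∑ l ∈ range (l₀ + 1), ((2:ℝ) ^ (n + l)) ^ (1 / 2 : ℝ)
          ≤ K1 * (4 * √M) := by
            gcongr
            exact h4.trans (by gcongr)
        _ = _ := by ring
    have hBnorm : eLpNorm (Syn L (thh (1 / 2)) A' : C(UnitAddTorus (Fin (D + 1)), ℝ))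
        ((2 * k : ℕ) : ENNReal) (mu (D + 1)) ≤ ENNReal.ofReal (K2 * √M) := by
      refine hsq L A' M hM0 fun y => ?_
      have hG20 : ∀ l s y, 0 ≤ G2 l s y := by
        intro l s y
        simp only [hG2]
        split_ifs
        · exact hgl0 l y
        · exact le_rfl
        · exact le_rfl
      have hA'1 : ∀ s, A' s y ≤ 1 := by
        intro s
        have h1 : ∀ l ∈ range (l₀ + 1), G2 l s y ≤ if l = (∑ j, (s j : ℕ)) - n then 1 else 0 := by
          intro l _
          simp only [hG2]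
          split_ifs with h2 h3 h4 h4
          · exact hgl1 l y
          · exfalso
            have := (mem_shp s).1 h2
            omega
          · exact zero_le_one
          · exact le_rfl
          · exact zero_le_one
          · exact le_rfl
        refine (sum_le_sum h1).trans ?_
        rw [sum_ite_eq']
        split_ifs <;> norm_num
      have hA'0 : ∀ s, 0 ≤ A' s y := fun s => sum_nonneg fun l _ => hG20 l s y
      have h1 : ∀ s, (((2:ℝ) ^ (∑ j, (s j : ℕ))) ^ (1 / 2 : ℝ) * A' s y) ^ 2 ≤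
          ∑ l ∈ range (l₀ + 1), 2 ^ (n + l) * G2 l s y := by
        intro s
        rw [mul_pow, ← Real.sqrt_eq_rpow, Real.sq_sqrt (by positivity)]
        have h2 : (A' s y) ^ 2 ≤ A' s y := by
          have := hA'1 s
          have := hA'0 s
          nlinarith
        calc (2:ℝ) ^ (∑ j, (s j : ℕ)) * (A' s y) ^ 2 ≤ (2:ℝ) ^ (∑ j, (s j : ℕ)) * A' s y := by
              gcongr
          _ = ∑ l ∈ range (l₀ + 1), (2:ℝ) ^ (∑ j, (s j : ℕ)) * G2 l s y := by
              simp only [hA']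
              rw [mul_sum]
          _ = _ := by
              refine sum_congr rfl fun l _ => ?_
              by_cases hs : s ∈ S l
              · rw [(mem_shp s).1 hs]
              · simp only [hG2, if_neg hs, mul_zero]
      refine (sum_le_sum fun s _ => h1 s).trans ?_
      rw [sum_comm]
      have h2 : ∀ l ∈ range (l₀ + 1), ∑ s, (2:ℝ) ^ (n + l) * G2 l s y ≤ 2 ^ n * (n + l₀ + 1) ^ D := by
        intro l _
        have h3 : ∑ s, (2:ℝ) ^ (n + l) * G2 l s y = 2 ^ (n + l) * (N l y * gl l y) := by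
          rw [← mul_sum]
          congr 1
          simp only [hG2]
          rw [sum_ite_mem, univ_inter, ← sum_filter, sum_const, nsmul_eq_mul]
        rw [h3]
        simp only [hgl]
        split_ifs with h4
        · rw [mul_zero, mul_zero]; positivity
        · have h5 : N l y * 2 ^ l ≤ (L + 1) ^ D := by
            by_contra hcon
            push Not at hcon
            exact h4 (mem_filter.2 ⟨mem_univ _, hcon⟩)
          have h6 : (N l y : ℝ) * 2 ^ l ≤ (n + l₀ + 1) ^ D := by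
            have : ((N l y * 2 ^ l : ℕ) : ℝ) ≤ (((L + 1) ^ D : ℕ) : ℝ) := by exact_mod_cast h5
            rw [hL] at this
            push_cast at this
            exact this
          calc (2:ℝ) ^ (n + l) * (N l y * 1) = 2 ^ n * (N l y * 2 ^ l) := by ring
            _ ≤ _ := by gcongr
      refine (sum_le_sum h2).trans (le_of_eq ?_)
      rw [sum_const, card_range, nsmul_eq_mul, hM]
      ring
    rw [hsplit, ContinuousMap.coe_sub]
    refine (eLpNorm_sub_le
      (∑ l ∈ range (l₀ + 1), Syn L (thh (1 / 2)) (G1 l)).continuous.aestronglyMeasurable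
      (Syn L (thh (1 / 2)) A').continuous.aestronglyMeasurable
      (by exact_mod_cast (by omega : 1 ≤ 2 * k))).trans ?_
    refine (add_le_add hAnorm hBnorm).trans ?_
    rw [← ENNReal.ofReal_add (by positivity) (by positivity)]
    apply ENNReal.ofReal_le_ofReal
    rw [hM]
    linarith

end Pool.Agent.Lib.MP_1ce311_an
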