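import Pool.Agent.Lib.MP_1ce311_an.LPDefs

/-!
Tensorisation of the vector-valued bounds `VBdd` for MP_1ce311_an.
-/

namespace Pool.Agent.Lib.MP_1ce311_an

theorem VBdd.reindex {I X I' X' J Y J' Y' : Type} [Fintype I] [Fintype X] [Fintype I']
    [Fintype X'] [Fintype J] [Fintype Y] [Fintype J'] [Fintype Y'] {k : ℕ} {C : ℝ}
    {A : I' → X' → I → X → ℝ} (h : VBdd k C A) (eI : J ≃ I) (eX : Y ≃ X) (eI' : J' ≃ I')
    (eX' : Y' ≃ X') :
    VBdd k C (fun j' y' j y => A (eI' j') (eX' y') (eI j) (eX y)) := by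
  intro κ _ a
  have h1 := h κ (fun c i x => a c (eI.symm i) (eX.symm x))
  have e1 : ∀ (c : κ) (j' : J') (y' : Y'),
      ∑ j, ∑ y, A (eI' j') (eX' y') (eI j) (eX y) * a c j y =
        ∑ i, ∑ x, A (eI' j') (eX' y') i x * a c (eI.symm i) (eX.symm x) := by
    intro c j' y'
    rw [← Equiv.sum_comp eI]
    refine Finset.sum_congr rfl fun j _ => ?_
    rw [← Equiv.sum_comp eX]
    refine Finset.sum_congr rfl fun y _ => ?_
    simp
  have e2 : ∑ y', (∑ c, ∑ j', (∑ j, ∑ y, A (eI' j') (eX' y') (eI j) (eX y) * a c j y) ^ 2) ^ k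
      = ∑ x', (∑ c, ∑ i', (∑ i, ∑ x, A i' x' i x * a c (eI.symm i) (eX.symm x)) ^ 2) ^ k := by
    rw [← Equiv.sum_comp eX']
    refine Finset.sum_congr rfl fun y' _ => ?_
    congr 1
    refine Finset.sum_congr rfl fun c _ => ?_
    rw [← Equiv.sum_comp eI']
    refine Finset.sum_congr rfl fun j' _ => ?_
    rw [e1]
  have e3 : ∑ y, (∑ c, ∑ j, (a c j y) ^ 2) ^ k
      = ∑ x, (∑ c, ∑ i, (a c (eI.symm i) (eX.symm x)) ^ 2) ^ k := by
    rw [← Equiv.sum_comp eX]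
    refine Finset.sum_congr rfl fun y _ => ?_
    congr 1
    refine Finset.sum_congr rfl fun c _ => ?_
    rw [← Equiv.sum_comp eI]
    refine Finset.sum_congr rfl fun j _ => ?_
    simp
  rw [e2, e3]
  exact h1

theorem VBdd.prod {I X I' X' J Y J' Y' : Type} [Fintype I] [Fintype X] [Fintype I']
    [Fintype X'] [Fintype J] [Fintype Y] [Fintype J'] [Fintype Y'] {k : ℕ} {C D : ℝ}
    (hC : 0 ≤ C) {A : I' → X' → I → X → ℝ} {B : J' → Y' → J → Y → ℝ}
    (hA : VBdd k C A) (hB : VBdd k D B) :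
    VBdd k (C * D) (fun (i' : I' × J') (x' : X' × Y') (i : I × J) (x : X × Y) =>
      A i'.1 x'.1 i.1 x.1 * B i'.2 x'.2 i.2 x.2) := by
  intro κ _ a
  -- the inner application of `B`
  have s1 : ∀ (c : κ) (i' : I') (j' : J') (x' : X') (y' : Y'),
      ∑ i : I × J, ∑ x : X × Y, A i' x' i.1 x.1 * B j' y' i.2 x.2 * a c i x =
        ∑ i, ∑ x, A i' x' i x * ∑ j, ∑ y, B j' y' j y * a c (i, j) (x, y) := by
    intro c i' j' x' y'
    rw [Fintype.sum_prod_type]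
    refine Finset.sum_congr rfl fun i _ => ?_
    have : ∀ j, ∑ x : X × Y, A i' x' i x.1 * B j' y' j x.2 * a c (i, j) x =
        ∑ x, ∑ y, A i' x' i x * B j' y' j y * a c (i, j) (x, y) := fun j =>
      Fintype.sum_prod_type _
    simp only [this]
    rw [Finset.sum_comm]
    refine Finset.sum_congr rfl fun x _ => ?_
    rw [Finset.mul_sum]
    refine Finset.sum_congr rfl fun j _ => ?_
    rw [Finset.mul_sum]
    refine Finset.sum_congr rfl fun y _ => ?_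
    ring
  have s2 : ∑ x' : X' × Y', (∑ c, ∑ i' : I' × J', (∑ i : I × J, ∑ x : X × Y,
        A i'.1 x'.1 i.1 x.1 * B i'.2 x'.2 i.2 x.2 * a c i x) ^ 2) ^ k =
      ∑ y' : Y', ∑ x' : X', (∑ cj : κ × J', ∑ i' : I', (∑ i, ∑ x, A i' x' i x *
        ∑ j, ∑ y, B cj.2 y' j y * a cj.1 (i, j) (x, y)) ^ 2) ^ k := by
    rw [Fintype.sum_prod_type_right]
    refine Finset.sum_congr rfl fun y' _ => Finset.sum_congr rfl fun x' _ => ?_
    congr 1
    rw [Fintype.sum_prod_type]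
    refine Finset.sum_congr rfl fun c _ => ?_
    rw [Fintype.sum_prod_type_right]
    refine Finset.sum_congr rfl fun j' _ => Finset.sum_congr rfl fun i' _ => ?_
    rw [s1]
  have s3 : ∀ y' : Y', ∑ x' : X', (∑ cj : κ × J', ∑ i' : I', (∑ i, ∑ x, A i' x' i x *
        ∑ j, ∑ y, B cj.2 y' j y * a cj.1 (i, j) (x, y)) ^ 2) ^ k ≤
      C * ∑ x, (∑ cj : κ × J', ∑ i,
        (∑ j, ∑ y, B cj.2 y' j y * a cj.1 (i, j) (x, y)) ^ 2) ^ k := fun y' =>
    hA (κ × J') (fun cj i x => ∑ j, ∑ y, B cj.2 y' j y * a cj.1 (i, j) (x, y))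
  have s4 : ∑ y' : Y', C * ∑ x, (∑ cj : κ × J', ∑ i,
        (∑ j, ∑ y, B cj.2 y' j y * a cj.1 (i, j) (x, y)) ^ 2) ^ k =
      C * ∑ x, ∑ y' : Y', (∑ ci : κ × I, ∑ j',
        (∑ j, ∑ y, B j' y' j y * a ci.1 (ci.2, j) (x, y)) ^ 2) ^ k := by
    rw [← Finset.mul_sum, Finset.sum_comm]
    congr 1
    refine Finset.sum_congr rfl fun x _ => Finset.sum_congr rfl fun y' _ => ?_
    congr 1
    rw [Fintype.sum_prod_type, Fintype.sum_prod_type]
    refine Finset.sum_congr rfl fun c _ => ?_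
    rw [Finset.sum_comm]
  have s5 : ∀ x : X, ∑ y' : Y', (∑ ci : κ × I, ∑ j',
        (∑ j, ∑ y, B j' y' j y * a ci.1 (ci.2, j) (x, y)) ^ 2) ^ k ≤
      D * ∑ y, (∑ ci : κ × I, ∑ j, (a ci.1 (ci.2, j) (x, y)) ^ 2) ^ k := fun x =>
    hB (κ × I) (fun ci j y => a ci.1 (ci.2, j) (x, y))
  have s6 : ∑ x : X, D * ∑ y, (∑ ci : κ × I, ∑ j, (a ci.1 (ci.2, j) (x, y)) ^ 2) ^ k =
      D * ∑ x : X × Y, (∑ c, ∑ i : I × J, (a c i x) ^ 2) ^ k := by
    rw [← Finset.mul_sum, Fintype.sum_prod_type]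
    congr 1
    refine Finset.sum_congr rfl fun x _ => Finset.sum_congr rfl fun y _ => ?_
    congr 1
    rw [Fintype.sum_prod_type]
    refine Finset.sum_congr rfl fun c _ => ?_
    rw [Fintype.sum_prod_type]
  calc _ = _ := s2
    _ ≤ _ := Finset.sum_le_sum fun y' _ => s3 y'
    _ = _ := s4
    _ ≤ C * ∑ x : X, D * ∑ y, (∑ ci : κ × I, ∑ j, (a ci.1 (ci.2, j) (x, y)) ^ 2) ^ k :=
      mul_le_mul_of_nonneg_left (Finset.sum_le_sum fun x _ => s5 x) hC
    _ = _ := by rw [s6, mul_assoc]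

theorem VBdd.pi {d k : ℕ} {I X I' X' : Type} [Fintype I] [Fintype X] [Fintype I'] [Fintype X']
    (C : Fin d → ℝ) (hC : ∀ j, 0 ≤ C j) (A : Fin d → I' → X' → I → X → ℝ)
    (h : ∀ j, VBdd k (C j) (A j)) :
    VBdd k (∏ j, C j) (fun (i' : Fin d → I') (x' : Fin d → X') (i : Fin d → I)
      (x : Fin d → X) => ∏ j, A j (i' j) (x' j) (i j) (x j)) := by
  induction d with
  | zero =>
    intro κ _ a
    simp
  | succ d ih =>
    have h1 := VBdd.prod (hC 0) (h 0)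
      (ih (fun j => C j.succ) (fun j => hC j.succ) (fun j => A j.succ) (fun j => h j.succ))
    have h2 := h1.reindex (Fin.consEquiv (fun _ => I)).symm (Fin.consEquiv (fun _ => X)).symm
      (Fin.consEquiv (fun _ => I')).symm (Fin.consEquiv (fun _ => X')).symm
    rw [Fin.prod_univ_succ]
    convert h2 using 1
    funext i' x' i x
    rw [Fin.prod_univ_succ]
    rfl

end Pool.Agent.Lib.MP_1ce311_an
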