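import Mathlib
import Pool.Agent.Lib.MP_1ce311_an.Tensor
import Pool.Agent.Lib.MP_1ce311_an.GG

open Finset

namespace Pool.Agent.Lib.MP_1ce311_an

/-- Minkowski inequality for powers -/
lemma minkowski_pow {κ Z : Type*} (s : Finset κ) (t : Finset Z) (G : κ → Z → ℝ) (β : κ → ℝ)
    (hβ : ∀ ρ ∈ s, 0 ≤ β ρ) (q : ℕ) (hq : 1 ≤ q) {F : ℝ} (hF : 0 ≤ F)
    (h : ∀ ρ ∈ s, ∑ z ∈ t, |G ρ z| ^ q ≤ F * β ρ ^ q) :
    ∑ z ∈ t, |∑ ρ ∈ s, G ρ z| ^ q ≤ F * (∑ ρ ∈ s, β ρ) ^ q := by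
  classical
  set s' := s.filter fun ρ => 0 < β ρ with hs'
  have hzero : ∀ ρ ∈ s, ρ ∉ s' → ∀ z ∈ t, G ρ z = 0 := by
    intro ρ hρ hρ' z hz
    have h0 : β ρ = 0 := by
      by_contra hne
      exact hρ' (mem_filter.2 ⟨hρ, lt_of_le_of_ne (hβ ρ hρ) (Ne.symm hne)⟩)
    have h1 := h ρ hρ
    rw [h0, zero_pow (by omega), mul_zero] at h1
    have h2 := (sum_eq_zero_iff_of_nonneg fun z _ => by positivity).1
      (le_antisymm h1 (sum_nonneg fun z _ => by positivity)) z hz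
    exact abs_eq_zero.1 (pow_eq_zero_iff (by omega) |>.1 h2)
  have e1 : ∀ z ∈ t, |∑ ρ ∈ s, G ρ z| ^ q ≤ (∑ ρ ∈ s', 1 * |G ρ z|) ^ q := by
    intro z hz
    have h3 : ∑ ρ ∈ s, G ρ z = ∑ ρ ∈ s', G ρ z := by
      symm
      refine sum_subset (filter_subset _ _) fun ρ hρ hρ' => hzero ρ hρ hρ' z hz
    rw [h3]
    refine pow_le_pow_left₀ (abs_nonneg _) ?_ q
    refine (abs_sum_le_sum_abs _ _).trans (le_of_eq ?_)
    simp
  refine (sum_le_sum e1).trans ?_
  have h4 := power_mean s' t (fun _ => 1) β (fun ρ z => |G ρ z|) (fun _ _ => zero_le_one)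
    (fun ρ hρ => (mem_filter.1 hρ).2) (fun _ _ _ _ => abs_nonneg _) q hq (F := F) (D := 1) hF
    zero_le_one (fun ρ hρ => by rw [mul_one]; exact h ρ (mem_filter.1 hρ).1)
  refine h4.trans ?_
  simp only [one_mul, mul_one]
  have h5 : ∑ ρ ∈ s', β ρ ≤ ∑ ρ ∈ s, β ρ :=
    sum_le_sum_of_subset_of_nonneg (filter_subset _ _) fun ρ hρ _ => hβ ρ hρ
  have h6 : 0 ≤ ∑ ρ ∈ s', β ρ := sum_nonneg fun ρ hρ => hβ ρ (mem_filter.1 hρ).1
  gcongr

/-- Cauchy-Schwarz for powers -/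
lemma sum_pow_cs {Z : Type*} (t : Finset Z) (B : Z → ℝ) (hB : ∀ z ∈ t, 0 ≤ B z) (k : ℕ)
    (hk : 1 ≤ k) : (∑ z ∈ t, B z ^ k) ^ 2 ≤ (∑ z ∈ t, B z) * ∑ z ∈ t, B z ^ (2 * k - 1) := by
  have h1 := sum_mul_sq_le_sq_mul_sq t (fun z => √(B z)) (fun z => √(B z ^ (2 * k - 1)))
  have e1 : ∑ z ∈ t, √(B z) * √(B z ^ (2 * k - 1)) = ∑ z ∈ t, B z ^ k := by
    refine sum_congr rfl fun z hz => ?_
    rw [← Real.sqrt_mul (hB z hz), ← pow_succ', show 2 * k - 1 + 1 = 2 * k by omega, mul_comm 2 k,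
      pow_mul, Real.sqrt_sq (pow_nonneg (hB z hz) _)]
  have e2 : ∑ z ∈ t, √(B z) ^ 2 = ∑ z ∈ t, B z :=
    sum_congr rfl fun z hz => Real.sq_sqrt (hB z hz)
  have e3 : ∑ z ∈ t, √(B z ^ (2 * k - 1)) ^ 2 = ∑ z ∈ t, B z ^ (2 * k - 1) :=
    sum_congr rfl fun z hz => Real.sq_sqrt (pow_nonneg (hB z hz) _)
  rwa [e1, e2, e3] at h1

theorem engine_abs (d k : ℕ) (hk : 1 ≤ k) (c : ℝ) (hc : 0 ≤ c) : ∃ B : ℝ, 0 < B ∧
    ∀ {I J X P : Type} [Fintype I] [Fintype J] [Fintype X] [Fintype P] (ε : P → ℝ)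
      (hε : ∀ p, 0 ≤ ε p) (hεs : ∑ p, (ε p) ^ (1 / (4 * k) : ℝ) ≤ c)
      (S : Fin d → P → J → X → X → ℝ) (A : Fin d → P → J → X → I → X → ℝ)
      (hS : ∀ j p, VBdd k c (fun (_ : Unit) (x : X) (s : J) (y : X) => S j p s x y))
      (hA : ∀ j p, VBdd (2 * k - 1) c (A j p))
      (hA1 : ∀ j p, VBdd 1 (c * ε p) (A j p))
      (T : Fin d → J → X → I → X → ℝ)
      (hT : ∀ j s x i y, T j s x i y = ∑ p, ∑ z, S j p s x z * A j p s z i y)
      (ω : (Fin d → J) → ℝ) (hω : ∀ s, |ω s| ≤ 1) (a : (Fin d → I) → (Fin d → X) → ℝ) (M : ℝ)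
      (hM : ∀ x, ∑ i, (a i x) ^ 2 ≤ M),
      ∑ x : Fin d → X, (∑ s, ω s * ∑ i, ∑ y, (∏ j, T j (s j) (x j) (i j) (y j)) * a i y) ^ (2 * k) ≤
        B * M ^ k * (Fintype.card X : ℝ) ^ d := by
  classical
  refine ⟨c ^ (2 * d) * (c ^ d) ^ (2 * k) + 1, by positivity, ?_⟩
  intro I J X P _ _ _ _ ε hε hεs S A hS hA hA1 T hT ω hω a M hM
  set n : ℝ := (Fintype.card X : ℝ) ^ d with hn
  have hn0 : 0 ≤ n := by positivity
  -- the case of an empty grid
  rcases isEmpty_or_nonempty (Fin d → X) with hemp | hne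
  · have hM' : (∑ x : Fin d → X, (∑ s, ω s * ∑ i, ∑ y,
        (∏ j, T j (s j) (x j) (i j) (y j)) * a i y) ^ (2 * k)) = 0 := by
      simp
    rw [hM']
    have hd : (Fintype.card X : ℝ) ^ d = 0 := by
      have : Fintype.card (Fin d → X) = 0 := Fintype.card_eq_zero
      rw [Fintype.card_pi, prod_const, card_univ, Fintype.card_fin] at this
      exact_mod_cast this
    rw [hn, hd, mul_zero]
  have hM0 : 0 ≤ M := by
    obtain ⟨x⟩ := hne
    exact (sum_nonneg fun i _ => sq_nonneg _).trans (hM x)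
  -- the pieces
  set b : (Fin d → P) → (Fin d → J) → (Fin d → X) → ℝ := fun p s z =>
    ∑ i, ∑ y, (∏ j, A j (p j) (s j) (z j) (i j) (y j)) * a i y with hb
  set G : (Fin d → P) → (Fin d → X) → ℝ := fun p x =>
    ∑ s, ∑ z, (∏ j, S j (p j) (s j) (x j) (z j)) * (ω s * b p s z) with hG
  have hdecomp : ∀ x : Fin d → X, ∑ s, ω s * ∑ i, ∑ y,
      (∏ j, T j (s j) (x j) (i j) (y j)) * a i y = ∑ p, G p x := by
    intro x
    have h1 : ∀ (s : Fin d → J) (i : Fin d → I) (y : Fin d → X),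
        ∏ j, T j (s j) (x j) (i j) (y j) = ∑ p : Fin d → P, ∑ z : Fin d → X,
          (∏ j, S j (p j) (s j) (x j) (z j)) * ∏ j, A j (p j) (s j) (z j) (i j) (y j) := by
      intro s i y
      simp_rw [hT]
      rw [prod_univ_sum]
      simp only [Fintype.piFinset_univ]
      refine sum_congr rfl fun p _ => ?_
      rw [prod_univ_sum]
      simp only [Fintype.piFinset_univ]
      refine sum_congr rfl fun z _ => ?_
      rw [prod_mul_distrib]
    simp_rw [h1]
    simp only [hG, hb]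
    rw [sum_comm]
    refine sum_congr rfl fun s _ => ?_
    simp only [mul_sum, sum_mul]
    -- both sides are sums over i y p z
    have h2 : ∀ i : Fin d → I, ∑ y : Fin d → X, ∑ p : Fin d → P, ∑ z : Fin d → X,
        ω s * ((∏ j, S j (p j) (s j) (x j) (z j)) *
          (∏ j, A j (p j) (s j) (z j) (i j) (y j)) * a i y) =
        ∑ p : Fin d → P, ∑ z : Fin d → X, ∑ y : Fin d → X,
        ω s * ((∏ j, S j (p j) (s j) (x j) (z j)) *
          (∏ j, A j (p j) (s j) (z j) (i j) (y j)) * a i y) := by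
      intro i
      rw [sum_comm]
      refine sum_congr rfl fun p _ => ?_
      rw [sum_comm]
    rw [sum_congr rfl fun i _ => h2 i, sum_comm]
    refine sum_congr rfl fun p _ => ?_
    rw [sum_comm]
    refine sum_congr rfl fun z _ => ?_
    refine sum_congr rfl fun i _ => ?_
    refine sum_congr rfl fun y _ => ?_
    ring
  simp_rw [hdecomp]
  -- bound of every piece
  set εp : (Fin d → P) → ℝ := fun p => ∏ j, ε (p j) with hεp
  have hεp0 : ∀ p, 0 ≤ εp p := fun p => prod_nonneg fun j _ => hε _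
  have hpiece : ∀ p ∈ (univ : Finset (Fin d → P)), ∑ x : Fin d → X, |G p x| ^ (2 * k) ≤
      (c ^ (2 * d) * M ^ k * n) * (εp p ^ (1 / (4 * k) : ℝ)) ^ (2 * k) := by
    intro p _
    set Bp : (Fin d → X) → ℝ := fun z => ∑ s, (b p s z) ^ 2 with hBp
    have hBp0 : ∀ z, 0 ≤ Bp z := fun z => sum_nonneg fun s _ => sq_nonneg _
    -- synthesis
    have hSp := VBdd.pi (k := k) (fun _ : Fin d => c) (fun _ => hc)
      (fun j (_ : Unit) (x : X) (s : J) (y : X) => S j (p j) s x y) (fun j => hS j (p j))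
    have h1 := hSp Unit (fun _ s z => ω s * b p s z)
    have h2 : ∑ x : Fin d → X, |G p x| ^ (2 * k) ≤ c ^ d * ∑ z, Bp z ^ k := by
      have e1 : ∑ x : Fin d → X, |G p x| ^ (2 * k) =
          ∑ x' : Fin d → X, (∑ _c : Unit, ∑ _i' : Fin d → Unit, (∑ i : Fin d → J, ∑ x : Fin d → X,
            (∏ j, S j (p j) (i j) (x' j) (x j)) * (ω i * b p i x)) ^ 2) ^ k := by
        refine sum_congr rfl fun x _ => ?_
        simp only [univ_unique, sum_const, card_singleton, one_smul]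
        rw [pow_mul, sq_abs]
      rw [e1]
      refine h1.trans ?_
      rw [prod_const, card_univ, Fintype.card_fin]
      have hcd : 0 ≤ c ^ d := by positivity
      refine mul_le_mul_of_nonneg_left (sum_le_sum fun z _ => ?_) hcd
      refine pow_le_pow_left₀ (sum_nonneg fun _ _ => sum_nonneg fun _ _ => sq_nonneg _) ?_ k
      simp only [univ_unique, sum_singleton, hBp]
      refine sum_le_sum fun s _ => ?_
      rw [mul_pow]
      have h3 : ω s ^ 2 ≤ 1 := by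
        rw [← sq_abs]
        have h4 := hω s
        have h5 := abs_nonneg (ω s)
        nlinarith
      have h6 : 0 ≤ b p s z ^ 2 := sq_nonneg _
      nlinarith
    -- analysis
    have hAp := VBdd.pi (k := 2 * k - 1) (fun _ : Fin d => c) (fun _ => hc)
      (fun j => A j (p j)) (fun j => hA j (p j))
    have hAp1 := VBdd.pi (k := 1) (fun j : Fin d => c * ε (p j))
      (fun j => mul_nonneg hc (hε _)) (fun j => A j (p j)) (fun j => hA1 j (p j))
    have h3 := hAp Unit (fun _ => a)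
    have h4 := hAp1 Unit (fun _ => a)
    simp only [univ_unique, sum_singleton, pow_one] at h3 h4
    have hcard : ∀ C : ℝ, ∑ _x : Fin d → X, C = C * n := by
      intro C
      rw [sum_const, card_univ, Fintype.card_pi, prod_const, card_univ, Fintype.card_fin,
        nsmul_eq_mul, hn]
      push_cast
      ring
    have h5 : ∑ z, Bp z ≤ (c ^ d * εp p) * (M * n) := by
      refine le_trans (le_of_eq ?_) (h4.trans ?_)
      · rfl
      · rw [prod_mul_distrib, prod_const, card_univ, Fintype.card_fin, ← hcard]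
        refine mul_le_mul_of_nonneg_left (sum_le_sum fun x _ => hM x) ?_
        have := hεp0 p
        positivity
    have h6 : ∑ z, Bp z ^ (2 * k - 1) ≤ c ^ d * (M ^ (2 * k - 1) * n) := by
      refine le_trans (le_of_eq ?_) (h3.trans ?_)
      · rfl
      · rw [prod_const, card_univ, Fintype.card_fin, ← hcard]
        refine mul_le_mul_of_nonneg_left (sum_le_sum fun x _ => ?_) (by positivity)
        exact pow_le_pow_left₀ (sum_nonneg fun _ _ => sq_nonneg _) (hM x) _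
    have h7 : ∑ z, Bp z ^ k ≤ c ^ d * M ^ k * n * √(εp p) := by
      have h8 := sum_pow_cs univ Bp (fun z _ => hBp0 z) k hk
      have h9 : (∑ z, Bp z ^ k) ^ 2 ≤ (c ^ d * M ^ k * n * √(εp p)) ^ 2 := by
        refine h8.trans ?_
        have h10 : 0 ≤ ∑ z, Bp z := sum_nonneg fun z _ => hBp0 z
        have h11 : 0 ≤ ∑ z, Bp z ^ (2 * k - 1) := sum_nonneg fun z _ => pow_nonneg (hBp0 z) _
        have hε' := hεp0 p
        calc (∑ z, Bp z) * ∑ z, Bp z ^ (2 * k - 1)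
            ≤ ((c ^ d * εp p) * (M * n)) * (c ^ d * (M ^ (2 * k - 1) * n)) := by gcongr
          _ = (c ^ d) ^ 2 * (M * M ^ (2 * k - 1)) * n ^ 2 * εp p := by ring
          _ = (c ^ d * M ^ k * n * √(εp p)) ^ 2 := by
              rw [← pow_succ', show 2 * k - 1 + 1 = k * 2 by omega, pow_mul, mul_pow, mul_pow,
                mul_pow, Real.sq_sqrt hε']
      exact le_of_sq_le_sq h9 (by positivity)
    have h8 : (εp p ^ (1 / (4 * k) : ℝ)) ^ (2 * k) = √(εp p) := by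
      rw [← Real.rpow_natCast, ← Real.rpow_mul (hεp0 p), Real.sqrt_eq_rpow]
      congr 1
      have : (k:ℝ) ≠ 0 := by
        have : (0:ℝ) < k := by exact_mod_cast hk
        exact this.ne'
      push_cast
      field_simp
      norm_num
    rw [h8]
    calc ∑ x : Fin d → X, |G p x| ^ (2 * k) ≤ c ^ d * ∑ z, Bp z ^ k := h2
      _ ≤ c ^ d * (c ^ d * M ^ k * n * √(εp p)) := by gcongr
      _ = _ := by rw [two_mul d, pow_add]; ring
  have hmink := minkowski_pow univ univ G (fun p => εp p ^ (1 / (4 * k) : ℝ))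
    (fun p _ => Real.rpow_nonneg (hεp0 p) _) (2 * k) (by omega)
    (F := c ^ (2 * d) * M ^ k * n) (by positivity) hpiece
  have hsum : ∑ p : Fin d → P, εp p ^ (1 / (4 * k) : ℝ) ≤ c ^ d := by
    have e1 : ∑ p : Fin d → P, εp p ^ (1 / (4 * k) : ℝ) =
        ∏ _j : Fin d, ∑ p : P, (ε p) ^ (1 / (4 * k) : ℝ) := by
      rw [prod_univ_sum]
      simp only [Fintype.piFinset_univ]
      refine sum_congr rfl fun p _ => ?_
      rw [hεp, Real.finsetProd_rpow _ _ (fun j _ => hε _)]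
    rw [e1, prod_const, card_univ, Fintype.card_fin]
    exact pow_le_pow_left₀ (sum_nonneg fun p _ => Real.rpow_nonneg (hε p) _) hεs d
  have hsum0 : 0 ≤ ∑ p : Fin d → P, εp p ^ (1 / (4 * k) : ℝ) :=
    sum_nonneg fun p _ => Real.rpow_nonneg (hεp0 p) _
  calc ∑ x : Fin d → X, (∑ p, G p x) ^ (2 * k) = ∑ x : Fin d → X, |∑ p, G p x| ^ (2 * k) := by
        refine sum_congr rfl fun x _ => ?_
        rw [pow_mul, pow_mul, sq_abs]
    _ ≤ (c ^ (2 * d) * M ^ k * n) * (∑ p, εp p ^ (1 / (4 * k) : ℝ)) ^ (2 * k) := hmink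
    _ ≤ (c ^ (2 * d) * M ^ k * n) * (c ^ d) ^ (2 * k) := by gcongr
    _ = (c ^ (2 * d) * (c ^ d) ^ (2 * k)) * M ^ k * n := by ring
    _ ≤ _ := by
        gcongr
        linarith

end Pool.Agent.Lib.MP_1ce311_an
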