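import Pool.Agent.Lib.MP_1ce311_an.LPPack
import Pool.Agent.Lib.MP_1ce311_an.EngineAbs
import Pool.Agent.Lib.MP_1ce311_an.CaseOne

open Finset

namespace Pool.Agent.Lib.MP_1ce311_an

theorem engine1_of_pack (h : Pack1) : Engine1 := by
  intro d k hk C r hr
  obtain ⟨c, hc, hL⟩ := h k hk C r hr
  obtain ⟨B, hB, hE⟩ := engine_abs d k hk c hc
  refine ⟨B, hB, ?_⟩
  intro L w hw ω g hω hg
  obtain ⟨ε, hε, hεs, S, hS, hA⟩ := hL L
  choose A hA2 hA1 hid using fun j => hA (w j) (hw j)
  have := hE (I := Unit) ε hε hεs (fun _ => S) A (fun j p => hS p) (fun j p => hA2 j p)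
    (fun j p => hA1 j p) (fun j s x _ y => Tk L (w j) s x y)
    (fun j s x i y => hid j s x i y) ω hω (fun _ y => g y) 1 (fun y => by
      simp only [univ_unique, sum_const, card_singleton, one_smul]
      rw [← abs_one, ← sq_abs, abs_one]
      exact pow_le_one₀ (abs_nonneg _) (hg y))
  simpa using this

theorem engine2_of_pack (h : Pack2) : Engine2 := by
  intro d k hk C r hr
  obtain ⟨c, hc, hL⟩ := h k hk C r hr
  obtain ⟨B, hB, hE⟩ := engine_abs d k hk c hc
  refine ⟨B, hB, ?_⟩
  intro L w hw a M ha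
  obtain ⟨ε, hε, hεs, S, hS, hA⟩ := hL L
  choose A hA2 hA1 hid using fun j => hA (w j) (hw j)
  have h1 := hE (I := Fin (L + 1)) ε hε hεs (fun _ => S) A (fun j p => hS p) (fun j p => hA2 j p)
    (fun j p => hA1 j p) (fun j s x i y => if i = s then Tk L (w j) s x y else 0)
    (fun j s x i y => hid j s x i y) (fun _ => 1) (fun _ => by simp) a M ha
  have h2 : ∀ (s : Fin d → Fin (L + 1)) (x : Fin d → Fin (2 ^ L)),
      ∑ i, ∑ y, (∏ j, if i j = s j then Tk L (w j) (s j) (x j) (y j) else 0) * a i y =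
      ∑ y, (∏ j, Tk L (w j) (s j) (x j) (y j)) * a s y := by
    intro s x
    rw [sum_eq_single s]
    · simp
    · intro i _ hi
      obtain ⟨j, hj⟩ := Function.ne_iff.1 hi
      refine sum_eq_zero fun y _ => ?_
      rw [prod_eq_zero (mem_univ j) (if_neg hj), zero_mul]
    · intro h
      exact absurd (mem_univ s) h
  simp only [h2, one_mul] at h1
  simpa using h1

theorem engine1 : Engine1 := engine1_of_pack pack1

theorem engine2 : Engine2 := engine2_of_pack pack2

end Pool.Agent.Lib.MP_1ce311_an
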