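import Pool.Agent.Lib.MP_1ce311_an.LPMat

open Finset

namespace Pool.Agent.Lib.MP_1ce311_an

lemma per_sum_shift {T : ℕ} {g : ℤ → ℝ} (hg : ∀ z, g (z + T) = g z) (c : ℤ) :
    ∑ t ∈ range T, g (c + t) = ∑ t ∈ range T, g t := by
  have hstep : ∀ c : ℤ, ∑ t ∈ range T, g (c + 1 + t) = ∑ t ∈ range T, g (c + t) := by
    intro c
    have h1 : ∑ t ∈ range (T + 1), g (c + t) = ∑ t ∈ range T, g (c + t) + g c := by
      rw [sum_range_succ, hg]
    have h2 : ∑ t ∈ range (T + 1), g (c + t) = ∑ t ∈ range T, g (c + 1 + t) + g c := by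
      rw [sum_range_succ']
      simp only [Nat.cast_zero, add_zero, add_left_inj]
      refine sum_congr rfl fun t _ => ?_
      congr 1
      push_cast
      ring
    linarith
  induction c using Int.induction_on with
  | zero => simp
  | succ n ih => rw [hstep]; exact ih
  | pred n ih =>
    have := hstep (-(n:ℤ) - 1)
    rw [← this]
    simpa using ih

lemma sum_range_mul (h M : ℕ) (g : ℕ → ℝ) :
    ∑ i ∈ range (h * M), g i = ∑ j ∈ range M, ∑ o ∈ range h, g (j * h + o) := by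
  induction M with
  | zero => simp
  | succ M ih =>
    rw [Nat.mul_succ, sum_range_add, ih, sum_range_succ]
    congr 1
    refine sum_congr rfl fun o _ => ?_
    rw [mul_comm]

lemma sum_block (L τ : ℕ) (x : Fin (2 ^ L)) (g : ℕ → ℝ) :
    ∑ y with (dyF L).b τ y = (dyF L).b τ x, g (y : ℕ) =
      ∑ i ∈ range (2 ^ (L - τ)), g ((x : ℕ) / 2 ^ (L - τ) * 2 ^ (L - τ) + i) := by
  set m := 2 ^ (L - τ) with hm
  have hm0 : 0 < m := by positivity
  have hdvd : m ∣ 2 ^ L := pow_dvd_pow 2 (Nat.sub_le _ _)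
  obtain ⟨q, hq⟩ := hdvd
  have hxq : (x : ℕ) / m < q := by
    rw [Nat.div_lt_iff_lt_mul hm0, mul_comm, ← hq]
    exact x.2
  symm
  refine sum_bij (fun i _ => (⟨(x : ℕ) / m * m + i % m, ?_⟩ : Fin (2 ^ L))) ?_ ?_ ?_ ?_
  · have h1 : i % m < m := Nat.mod_lt _ hm0
    calc (x : ℕ) / m * m + i % m < (x : ℕ) / m * m + m := by omega
      _ = ((x : ℕ) / m + 1) * m := by ring
      _ ≤ q * m := Nat.mul_le_mul_right _ hxq
      _ = 2 ^ L := by rw [hq, mul_comm]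
  · intro i hi
    rw [mem_range] at hi
    simp only [mem_filter, mem_univ, true_and]
    show ((x : ℕ) / m * m + i % m) / m = (x : ℕ) / m
    rw [Nat.mod_eq_of_lt hi, add_comm, Nat.add_mul_div_right _ _ hm0, Nat.div_eq_of_lt hi, zero_add]
  · intro i hi i' hi' h
    rw [mem_range] at hi hi'
    simp only [Fin.mk.injEq, add_right_inj] at h
    rwa [Nat.mod_eq_of_lt hi, Nat.mod_eq_of_lt hi'] at h
  · intro y hy
    simp only [mem_filter, mem_univ, true_and] at hy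
    have hy' : (y : ℕ) / m = (x : ℕ) / m := hy
    refine ⟨(y : ℕ) % m, mem_range.2 (Nat.mod_lt _ hm0), ?_⟩
    apply Fin.ext
    simp only [Nat.mod_mod]
    rw [← hy']
    exact Nat.div_add_mod' _ _
  · intro i hi
    rw [mem_range] at hi
    simp only [Nat.mod_eq_of_lt hi]

variable {L : ℕ} {C r : ℝ} {w : ℕ → ℤ → ℝ}

/-- row sum constant -/
noncomputable def cR (C r : ℝ) : ℝ := C * 2 ^ (1 + r) * (2 * (1 - (2:ℝ) ^ (-r))⁻¹)

lemma cR_nonneg (hr : 0 < r) (hC : 0 ≤ C) : 0 ≤ cR C r := by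
  have := rho_lt hr
  unfold cR
  have : 0 < (1 - (2:ℝ) ^ (-r))⁻¹ := inv_pos.2 (by linarith)
  positivity

lemma Tk_row (hw : Ker L C r w) (hr : 0 < r) (hC : 0 ≤ C) {σ : ℕ} (hσ : σ ≤ L) (x : Fin (2 ^ L)) :
    ∑ y, |Tk L w σ x y| ≤ cR C r := by
  have h1 := Tk_major hw hr hC hσ (fun _ => 1) (fun _ => zero_le_one) x
  simp only [mul_one] at h1
  have hE : ∀ τ z, (dyF L).E τ (fun _ => (1:ℝ)) z = 1 := fun τ z => by
    rw [(dyF L).E_eq_of_M (fun _ _ _ => rfl)]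
  refine h1.trans ?_
  unfold cR
  refine mul_le_mul_of_nonneg_left ?_ (by positivity)
  simp only [DF.Nb, hE]
  rw [← sum_mul]
  have := geom_le (ρ := (2:ℝ) ^ (-r)) (by positivity) (rho_lt hr) (σ + 1)
  linarith

lemma Ker.abs_sum (hw : Ker L C r w) {σ : ℕ} (hσ : σ ≤ L) :
    ∑ z ∈ range (2 ^ L), |w σ z| ≤ C * 2 ^ (L - σ) := by
  have := hw.coarse σ σ le_rfl hσ
  simpa using this

lemma scale_eq {σ : ℕ} (hσ : σ ≤ L) : (2:ℝ) ^ σ / 2 ^ L * 2 ^ (L - σ) = 1 := by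
  have hL : (2:ℝ) ^ L = 2 ^ σ * 2 ^ (L - σ) := by rw [← pow_add]; congr 1; omega
  rw [hL]; field_simp

lemma sum_x_shift (g : ℤ → ℝ) (hg : ∀ z, g (z + 2 ^ L) = g z) (p : ℤ) :
    ∑ x : Fin (2 ^ L), g (((x : ℕ) : ℤ) - p) = ∑ z ∈ range (2 ^ L), g z := by
  rw [Fin.sum_univ_eq_sum_range (fun i => g ((i : ℤ) - p))]
  have := per_sum_shift (T := 2 ^ L) (g := g) (by intro z; push_cast; exact hg z) (-p)
  rw [← this]
  exact sum_congr rfl fun t _ => by congr 1; ring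

lemma Tk_col (hw : Ker L C r w) {σ : ℕ} (hσ : σ ≤ L) (y : Fin (2 ^ L)) :
    ∑ x, |Tk L w σ x y| ≤ C := by
  have hper : ∀ z, |w σ (z + 2 ^ L)| = |w σ z| := fun z => by rw [hw.per]
  have h1 : ∀ x, |Tk L w σ x y| = 2 ^ σ / 2 ^ L *
      |w σ (((x : ℕ) : ℤ) - ((((y : ℕ) / 2 ^ (L - σ)) * 2 ^ (L - σ) : ℕ) : ℤ))| := by
    intro x
    rw [Tk, abs_mul, abs_of_nonneg (by positivity : (0:ℝ) ≤ 2 ^ σ / 2 ^ L)]
  simp only [h1]
  rw [← mul_sum, sum_x_shift (fun z => |w σ z|) hper]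
  calc 2 ^ σ / 2 ^ L * ∑ z ∈ range (2 ^ L), |w σ z| ≤ 2 ^ σ / 2 ^ L * (C * 2 ^ (L - σ)) := by
        gcongr
        exact hw.abs_sum hσ
    _ = C * (2 ^ σ / 2 ^ L * 2 ^ (L - σ)) := by ring
    _ = C := by rw [scale_eq hσ, mul_one]

/-! ### abstract facts -/

lemma E_split {X : Type} [Fintype X] (D : DF X) {V : Type*} [NormedAddCommGroup V]
    [InnerProductSpace ℝ V] {τ : ℕ} {x y : X} (hxy : D.b τ y = D.b τ x)
    (h : D.b (τ + 1) y ≠ D.b (τ + 1) x) (F : X → V) :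
    D.E τ F x = (2:ℝ)⁻¹ • (D.E (τ + 1) F x + D.E (τ + 1) F y) := by
  classical
  have hn := D.half τ x y hxy h
  have hsplit : univ.filter (fun z => D.b τ z = D.b τ x) =
      univ.filter (fun z => D.b (τ + 1) z = D.b (τ + 1) x) ∪
      univ.filter (fun z => D.b (τ + 1) z = D.b (τ + 1) y) := by
    ext z
    simp only [mem_filter, mem_univ, true_and, mem_union]
    constructor
    · intro hz
      exact D.bin τ x y z hxy h hz
    · rintro (hz | hz)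
      · exact D.nest τ (τ + 1) z x (by omega) hz
      · exact (D.nest τ (τ + 1) z y (by omega) hz).trans hxy
  have hdisj : Disjoint (univ.filter (fun z => D.b (τ + 1) z = D.b (τ + 1) x))
      (univ.filter (fun z => D.b (τ + 1) z = D.b (τ + 1) y)) := by
    rw [disjoint_left]
    intro z hz hz'
    simp only [mem_filter, mem_univ, true_and] at hz hz'
    exact h (hz'.symm.trans hz)
  simp only [DF.E]
  rw [hsplit, sum_union hdisj, hn, ← smul_add, smul_smul]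
  congr 1
  push_cast
  rw [mul_inv]

lemma E_nosplit {X : Type} [Fintype X] (D : DF X) {V : Type*} [NormedAddCommGroup V]
    [InnerProductSpace ℝ V] {τ : ℕ} {x : X}
    (h : ∀ y, D.b τ y = D.b τ x → D.b (τ + 1) y = D.b (τ + 1) x) (F : X → V) :
    D.E τ F x = D.E (τ + 1) F x := by
  have hf : univ.filter (fun z => D.b τ z = D.b τ x) =
      univ.filter (fun z => D.b (τ + 1) z = D.b (τ + 1) x) := by
    ext z
    simp only [mem_filter, mem_univ, true_and]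
    exact ⟨h z, D.nest τ (τ + 1) z x (by omega)⟩
  have hn : D.n τ = D.n (τ + 1) := by rw [← D.card τ x, ← D.card (τ + 1) x, hf]
  simp only [DF.E, hf, hn]

lemma E_shift {X : Type} [Fintype X] (D : DF X) (ν : ℕ) (f : X → ℝ) (x : X) :
    D.E ν f (D.e ν x) = D.E ν (fun y => f (D.e ν y)) x := by
  simp only [DF.E]
  congr 1
  rw [sum_filter, sum_filter, ← (D.e ν).sum_comp]
  refine sum_congr rfl fun y _ => ?_
  simp only [D.e1]

lemma sum_abs_Df {X : Type} [Fintype X] (D : DF X) (τ : ℕ) (f : X → ℝ) :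
    ∑ x, |D.Df (τ + 1) f x| ≤ ∑ x, |f (D.e (τ + 1) x) - f x| := by
  set ν := τ + 1 with hν
  have h1 : ∀ x, |D.Df (τ + 1) f x| ≤ (1 / 2) * (|D.E ν f (D.e ν x) - D.E ν f x| +
      |D.E ν f x - D.E ν f ((D.e ν).symm x)|) := by
    intro x
    simp only [DF.Df]
    by_cases hs : ∀ y, D.b τ y = D.b τ x → D.b (τ + 1) y = D.b (τ + 1) x
    · rw [E_nosplit D hs f, sub_self, abs_zero]
      positivity
    · push Not at hs
      obtain ⟨y, hy1, hy2⟩ := hs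
      have h2 : D.E (τ + 1) f x - D.E τ f x = (1 / 2) * (D.E ν f x - D.E ν f y) := by
        rw [E_split D hy1 hy2 f, smul_eq_mul]; ring
      rw [h2, abs_mul, abs_of_pos (by norm_num : (0:ℝ) < 1 / 2)]
      refine mul_le_mul_of_nonneg_left ?_ (by norm_num)
      rcases D.e3 τ x y hy1 hy2 with h3 | h3
      · rw [D.E_M ν f y (D.e ν x) h3, abs_sub_comm]
        linarith [abs_nonneg (D.E ν f x - D.E ν f ((D.e ν).symm x))]
      · have h4 : D.b ν y = D.b ν ((D.e ν).symm x) := by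
          rw [← D.e1 ν y ((D.e ν).symm x)]
          simpa using h3.symm
        rw [D.E_M ν f y _ h4]
        linarith [abs_nonneg (D.E ν f (D.e ν x) - D.E ν f x)]
  have h2 : ∑ x, |D.E ν f x - D.E ν f ((D.e ν).symm x)| = ∑ x, |D.E ν f (D.e ν x) - D.E ν f x| := by
    rw [← (D.e ν).sum_comp]
    simp
  calc ∑ x, |D.Df (τ + 1) f x| ≤ ∑ x, (1 / 2) * (|D.E ν f (D.e ν x) - D.E ν f x| +
      |D.E ν f x - D.E ν f ((D.e ν).symm x)|) := sum_le_sum fun x _ => h1 x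
    _ = ∑ x, |D.E ν f (D.e ν x) - D.E ν f x| := by
        rw [← mul_sum, sum_add_distrib, h2]; ring
    _ = ∑ x, |D.E ν (fun y => f (D.e ν y) - f y) x| := by
        refine sum_congr rfl fun x _ => ?_
        rw [E_shift, D.E_sub]
    _ ≤ ∑ x, D.E ν (fun y => |f (D.e ν y) - f y|) x :=
        sum_le_sum fun x _ => D.norm_E_le ν (fun y => f (D.e ν y) - f y) x
    _ = ∑ x, |f (D.e ν x) - f x| := by
        have := D.sum_mul_E (τ := ν) (φ := fun _ => 1) (fun _ _ _ => rfl)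
          (fun y => |f (D.e ν y) - f y|)
        simpa using this

/-- fine regularity: column sums of `Δ_τ T_σ` -/
lemma fine_col (hw : Ker L C r w) {σ τ : ℕ} (hτ : σ ≤ τ) (hτL : τ + 1 ≤ L) (y : Fin (2 ^ L)) :
    ∑ x, |(dyF L).Df (τ + 1) (fun z => Tk L w σ z y) x| ≤ C * (1 / 2) ^ (τ + 1 - σ) := by
  refine (sum_abs_Df (dyF L) τ _).trans ?_
  set p : ℤ := ((((y : ℕ) / 2 ^ (L - σ)) * 2 ^ (L - σ) : ℕ) : ℤ) with hp
  set u : ℤ := 2 ^ (L - (τ + 1)) with hu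
  have h1 : ∀ x : Fin (2 ^ L), |Tk L w σ ((dyF L).e (τ + 1) x) y - Tk L w σ x y| =
      2 ^ σ / 2 ^ L * |w σ (((x : ℕ) : ℤ) - (p - u)) - w σ (((x : ℕ) : ℤ) - (p - u) - u)| := by
    intro x
    have h2 : w σ ((((shiftE L (τ + 1) x : Fin (2 ^ L)) : ℕ) : ℤ) - p) =
        w σ (((x : ℕ) : ℤ) - (p - u)) := by
      rw [shiftE_val]
      have h3 : (2 ^ (L - (τ + 1)) : ℕ) ≤ 2 ^ L := Nat.pow_le_pow_right (by norm_num) (Nat.sub_le _ _)
      have hx := x.2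
      by_cases h4 : (x : ℕ) + 2 ^ (L - (τ + 1)) < 2 ^ L
      · rw [Nat.mod_eq_of_lt h4]
        congr 1
        rw [hu]; push_cast; ring
      · rw [show (x : ℕ) + 2 ^ (L - (τ + 1)) = ((x : ℕ) + 2 ^ (L - (τ + 1)) - 2 ^ L) + 2 ^ L by omega,
          Nat.add_mod_right, Nat.mod_eq_of_lt (by omega), ← hw.per σ]
        congr 1
        rw [Nat.cast_sub (by omega), hu]; push_cast; ring
    show |2 ^ σ / 2 ^ L * w σ ((((shiftE L (τ + 1) x : Fin (2 ^ L)) : ℕ) : ℤ) - p) -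
      2 ^ σ / 2 ^ L * w σ (((x : ℕ) : ℤ) - p)| = _
    rw [h2, ← mul_sub, abs_mul, abs_of_nonneg (by positivity : (0:ℝ) ≤ 2 ^ σ / 2 ^ L)]
    congr 4
    ring
  simp only [h1]
  rw [← mul_sum, sum_x_shift (fun z => |w σ z - w σ (z - u)|) (fun z => by
    rw [hw.per, show z + 2 ^ L - u = (z - u) + 2 ^ L by ring, hw.per])]
  have h5 := hw.fine σ (τ + 1) (by omega) hτL
  calc 2 ^ σ / 2 ^ L * ∑ z ∈ range (2 ^ L), |w σ z - w σ (z - u)|
      ≤ 2 ^ σ / 2 ^ L * (C * 2 ^ (L - (τ + 1))) := by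
        gcongr
    _ = C * (1 / 2) ^ (τ + 1 - σ) := by
        have hL : (2:ℝ) ^ L = 2 ^ σ * 2 ^ (τ + 1 - σ) * 2 ^ (L - (τ + 1)) := by
          rw [← pow_add, ← pow_add]; congr 1; omega
        rw [hL, one_div, inv_pow]
        field_simp

/-- block sums of the kernel -/
noncomputable def SM (L : ℕ) (w : ℕ → ℤ → ℝ) (σ M : ℕ) (z : ℤ) : ℝ :=
  ∑ i ∈ range M, w σ (z - i * 2 ^ (L - σ))

lemma SM_per (hw : Ker L C r w) (σ M : ℕ) (z : ℤ) : SM L w σ M (z + 2 ^ L) = SM L w σ M z := by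
  unfold SM
  refine sum_congr rfl fun i _ => ?_
  rw [show z + 2 ^ L - (i:ℤ) * 2 ^ (L - σ) = (z - i * 2 ^ (L - σ)) + 2 ^ L by ring, hw.per]

lemma pow_rpow_eq (r : ℝ) (n : ℕ) : ((2:ℝ) ^ n) ^ (-r) = ((2:ℝ) ^ (-r)) ^ n := by
  rw [← Real.rpow_natCast, ← Real.rpow_natCast, ← Real.rpow_mul (by norm_num),
    ← Real.rpow_mul (by norm_num)]
  congr 1
  ring

lemma SM_sum (hw : Ker L C r w) {τ σ : ℕ} (hτ : τ ≤ σ) (hσ : σ ≤ L) (c : ℤ) :
    ∑ z ∈ range (2 ^ L), |SM L w σ (2 ^ (σ - τ)) (c + z)| ≤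
      C * 2 ^ (L - τ) * ((2:ℝ) ^ (-r)) ^ (σ - τ) := by
  rw [per_sum_shift (T := 2 ^ L) (g := fun z => |SM L w σ (2 ^ (σ - τ)) z|) (by
    intro z; push_cast; rw [SM_per hw])]
  rw [← pow_rpow_eq]
  exact hw.coarse τ σ hτ hσ

lemma reflect_sum (M : ℕ) (hM : 0 < M) (g : ℤ → ℝ) (c h : ℤ) :
    ∑ j ∈ range M, g (c + j * h) = ∑ i ∈ range M, g (c + (M - 1) * h - i * h) := by
  rw [← sum_range_reflect]
  refine sum_congr rfl fun j hj => ?_
  have hj' := mem_range.1 hj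
  congr 1
  rw [Nat.cast_sub (by omega), Nat.cast_sub (by omega)]
  push_cast
  ring

lemma two_pow_L {σ : ℕ} (hσ : σ ≤ L) : 2 ^ L = 2 ^ (L - σ) * 2 ^ σ := by
  rw [← pow_add]; congr 1; omega

/-- coarse cancellation: row sums of `E_τ T_σ` -/
lemma coarse_row (hw : Ker L C r w) {τ σ : ℕ} (hτ : τ ≤ σ) (hσ : σ ≤ L) (x : Fin (2 ^ L)) :
    ∑ y, |(dyF L).E τ (fun z => Tk L w σ z y) x| ≤ C * ((2:ℝ) ^ (-r)) ^ (σ - τ) := by
  set h := 2 ^ (L - σ) with hh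
  set M := 2 ^ (σ - τ) with hM
  have hh0 : 0 < h := by positivity
  have hM0 : 0 < M := by positivity
  have hH : 2 ^ (L - τ) = h * M := by rw [hh, hM, ← pow_add]; congr 1; omega
  set p := (x : ℕ) / 2 ^ (L - τ) * 2 ^ (L - τ) with hp
  -- value of the conditional expectation
  have h1 : ∀ y : Fin (2 ^ L), (dyF L).E τ (fun z => Tk L w σ z y) x =
      ((2:ℝ) ^ (L - τ))⁻¹ * (2 ^ σ / 2 ^ L) * ∑ o ∈ range h,
        SM L w σ M ((p : ℤ) + (M - 1) * h + o - ((y : ℕ) / h * h : ℕ)) := by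
    intro y
    have h2 : (dyF L).E τ (fun z => Tk L w σ z y) x = ((2:ℝ) ^ (L - τ))⁻¹ *
        ∑ z with (dyF L).b τ z = (dyF L).b τ x,
          (2 ^ σ / 2 ^ L * w σ (((z : ℕ) : ℤ) - ((y : ℕ) / h * h : ℕ))) := by
      rw [DF.E, smul_eq_mul]
      congr 2
      show ((2 ^ (L - τ) : ℕ) : ℝ) = _
      push_cast
      rfl
    rw [h2, sum_block L τ x (fun i => 2 ^ σ / 2 ^ L * w σ ((i : ℤ) - ((y : ℕ) / h * h : ℕ))),
      ← hp, hH, sum_range_mul, sum_comm, mul_assoc]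
    congr 1
    rw [mul_sum]
    refine sum_congr rfl fun o _ => ?_
    rw [← mul_sum]
    congr 1
    unfold SM
    have h3 := reflect_sum M hM0 (w σ) ((p : ℤ) + o - ((y : ℕ) / h * h : ℕ)) h
    have e1 : ∀ j ∈ range M, w σ (((p + (j * h + o) : ℕ) : ℤ) - ((y : ℕ) / h * h : ℕ)) =
        w σ ((p : ℤ) + o - ((y : ℕ) / h * h : ℕ) + j * h) := by
      intro j _
      congr 1
      push_cast
      ring
    rw [sum_congr rfl e1, h3]
    refine sum_congr rfl fun i _ => ?_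
    congr 1
    have : (h : ℤ) = 2 ^ (L - σ) := by rw [hh]; push_cast; rfl
    rw [← this]
    ring
  set c : ℤ := (p : ℤ) + (M - 1) * h with hc
  have h4 : ∀ y : Fin (2 ^ L), |(dyF L).E τ (fun z => Tk L w σ z y) x| ≤
      ((2:ℝ) ^ (L - τ))⁻¹ * (2 ^ σ / 2 ^ L) * ∑ o ∈ range h,
        |SM L w σ M (c + o - ((y : ℕ) / h * h : ℕ))| := by
    intro y
    rw [h1, abs_mul, abs_of_nonneg (by positivity)]
    exact mul_le_mul_of_nonneg_left (abs_sum_le_sum_abs _ _) (by positivity)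
  refine (sum_le_sum fun y _ => h4 y).trans ?_
  rw [← mul_sum, Fin.sum_univ_eq_sum_range (fun y => ∑ o ∈ range h,
    |SM L w σ M (c + o - ((y / h * h : ℕ) : ℤ))|)]
  have h5 : ∑ y ∈ range (2 ^ L), ∑ o ∈ range h, |SM L w σ M (c + o - ((y / h * h : ℕ) : ℤ))| =
      h * ∑ z ∈ range (2 ^ L), |SM L w σ M (c - (2 ^ σ - 1) * h + z)| := by
    conv_lhs => rw [two_pow_L hσ, ← hh]
    rw [sum_range_mul h (2 ^ σ)]
    have e2 : ∀ j ∈ range (2 ^ σ), ∑ o' ∈ range h, ∑ o ∈ range h,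
        |SM L w σ M (c + o - (((j * h + o') / h * h : ℕ) : ℤ))| =
        h * ∑ o ∈ range h, |SM L w σ M (c + o - (j * h : ℤ))| := by
      intro j _
      rw [sum_congr rfl (g := fun _ => ∑ o ∈ range h, |SM L w σ M (c + o - (j * h : ℤ))|)]
      · rw [sum_const, card_range, nsmul_eq_mul]
      · intro o' ho'
        have : (j * h + o') / h = j := by
          rw [add_comm, Nat.add_mul_div_right _ _ hh0, Nat.div_eq_of_lt (mem_range.1 ho'), zero_add]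
        rw [this]
        push_cast
        rfl
    rw [sum_congr rfl e2, ← mul_sum]
    congr 1
    conv_rhs => rw [two_pow_L hσ, ← hh]
    rw [sum_range_mul h (2 ^ σ), ← sum_range_reflect]
    refine sum_congr rfl fun j hj => sum_congr rfl fun o _ => ?_
    have hj' := mem_range.1 hj
    congr 2
    rw [Nat.cast_sub (by omega), Nat.cast_sub (by omega)]
    push_cast
    ring
  rw [h5]
  have h6 := SM_sum hw hτ hσ (c - (2 ^ σ - 1) * h)
  have hsc : (2:ℝ) ^ σ / 2 ^ L * h = 1 := by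
    rw [hh]; push_cast; exact scale_eq hσ
  calc ((2:ℝ) ^ (L - τ))⁻¹ * (2 ^ σ / 2 ^ L) * (h * ∑ z ∈ range (2 ^ L),
        |SM L w σ M (c - (2 ^ σ - 1) * h + z)|)
      = ((2:ℝ) ^ (L - τ))⁻¹ * (2 ^ σ / 2 ^ L * h) * ∑ z ∈ range (2 ^ L),
        |SM L w σ M (c - (2 ^ σ - 1) * h + z)| := by ring
    _ ≤ ((2:ℝ) ^ (L - τ))⁻¹ * 1 * (C * 2 ^ (L - τ) * ((2:ℝ) ^ (-r)) ^ (σ - τ)) := by
        rw [hsc]
        gcongr
    _ = _ := by field_simp

/-- coarse cancellation: column sums of `T_σ E_τ` -/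
lemma coarse_col (hw : Ker L C r w) {τ σ : ℕ} (hτ : τ ≤ σ) (hσ : σ ≤ L) (y : Fin (2 ^ L)) :
    ∑ x, |(dyF L).E τ (fun z => Tk L w σ x z) y| ≤ C * ((2:ℝ) ^ (-r)) ^ (σ - τ) := by
  set h := 2 ^ (L - σ) with hh
  set M := 2 ^ (σ - τ) with hM
  have hh0 : 0 < h := by positivity
  have hM0 : 0 < M := by positivity
  have hH : 2 ^ (L - τ) = h * M := by rw [hh, hM, ← pow_add]; congr 1; omega
  set p := (y : ℕ) / 2 ^ (L - τ) * 2 ^ (L - τ) with hp
  have hph : p = (y : ℕ) / 2 ^ (L - τ) * M * h := by rw [hp, hH]; ring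
  have h1 : ∀ x : Fin (2 ^ L), (dyF L).E τ (fun z => Tk L w σ x z) y =
      ((2:ℝ) ^ (L - τ))⁻¹ * (2 ^ σ / 2 ^ L * h) * SM L w σ M (((x : ℕ) : ℤ) - p) := by
    intro x
    have h2 : (dyF L).E τ (fun z => Tk L w σ x z) y = ((2:ℝ) ^ (L - τ))⁻¹ *
        ∑ z with (dyF L).b τ z = (dyF L).b τ y,
          (2 ^ σ / 2 ^ L * w σ (((x : ℕ) : ℤ) - ((z : ℕ) / h * h : ℕ))) := by
      rw [DF.E, smul_eq_mul]
      congr 2
      show ((2 ^ (L - τ) : ℕ) : ℝ) = _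
      push_cast
      rfl
    rw [h2, sum_block L τ y (fun i => 2 ^ σ / 2 ^ L * w σ (((x : ℕ) : ℤ) - (i / h * h : ℕ))),
      ← hp, hH, sum_range_mul, mul_assoc]
    congr 1
    unfold SM
    rw [mul_sum]
    refine sum_congr rfl fun j _ => ?_
    rw [sum_congr rfl (g := fun _ => 2 ^ σ / 2 ^ L * w σ (((x : ℕ) : ℤ) - p - j * 2 ^ (L - σ)))]
    · rw [sum_const, card_range, nsmul_eq_mul]
      ring
    · intro o ho
      have e1 : (p + (j * h + o)) / h * h = p + j * h := by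
        have : p + (j * h + o) = o + ((y : ℕ) / 2 ^ (L - τ) * M + j) * h := by rw [hph]; ring
        rw [this, Nat.add_mul_div_right _ _ hh0, Nat.div_eq_of_lt (mem_range.1 ho), zero_add, hph]
        ring
      rw [e1]
      congr 2
      push_cast
      rw [hh]
      push_cast
      ring
  have hsc : (2:ℝ) ^ σ / 2 ^ L * h = 1 := by
    rw [hh]; push_cast; exact scale_eq hσ
  simp only [h1, hsc, mul_one, abs_mul]
  rw [← mul_sum, sum_x_shift (fun z => |SM L w σ M z|) (fun z => by rw [SM_per hw]),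
    abs_of_nonneg (by positivity)]
  have h6 := SM_sum hw hτ hσ 0
  simp only [zero_add] at h6
  calc ((2:ℝ) ^ (L - τ))⁻¹ * ∑ z ∈ range (2 ^ L), |SM L w σ M z|
      ≤ ((2:ℝ) ^ (L - τ))⁻¹ * (C * 2 ^ (L - τ) * ((2:ℝ) ^ (-r)) ^ (σ - τ)) := by
        gcongr
    _ = _ := by field_simp

end Pool.Agent.Lib.MP_1ce311_an
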