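import Pool.Agent.Lib.MP_1ce311_an.LPCol

open Finset

namespace Pool.Agent.Lib.MP_1ce311_an

variable {V : Type*} [NormedAddCommGroup V] [InnerProductSpace ℝ V]
variable {L : ℕ} {C r : ℝ} {w : ℕ → ℤ → ℝ}

/-- decay rate -/
noncomputable def lam (r : ℝ) : ℝ := max ((2:ℝ) ^ (-r)) (1 / 2)

lemma lam_lt (hr : 0 < r) : lam r < 1 := max_lt (rho_lt hr) (by norm_num)
lemma lam_pos (r : ℝ) : 0 < lam r := lt_max_of_lt_right (by norm_num)
lemma rho_le_lam (r : ℝ) : (2:ℝ) ^ (-r) ≤ lam r := le_max_left _ _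
lemma half_le_lam (r : ℝ) : (1 / 2 : ℝ) ≤ lam r := le_max_right _ _

/-- constant for the `ℓ²` decay -/
noncomputable def cB (C r : ℝ) : ℝ := 4 * (C * C + cR C r * C)

lemma cB_nonneg (hr : 0 < r) (hC : 0 ≤ C) : 0 ≤ cB C r := by
  have := cR_nonneg hr hC
  unfold cB
  positivity

lemma sum_abs_E_le {X : Type} [Fintype X] (D : DF X) (τ : ℕ) (f : X → ℝ) :
    ∑ x, |D.E τ f x| ≤ ∑ x, |f x| := by
  calc ∑ x, |D.E τ f x| ≤ ∑ x, D.E τ (fun y => |f y|) x :=
        sum_le_sum fun x _ => D.norm_E_le τ f x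
    _ = ∑ x, |f x| := by
        have := D.sum_mul_E (τ := τ) (φ := fun _ => 1) (fun _ _ _ => rfl) (fun y => |f y|)
        simpa using this

lemma sum_E_abs_row {X : Type} [Fintype X] (D : DF X) (τ : ℕ) (K : X → X → ℝ) {R : ℝ}
    (hR : ∀ z, ∑ y, |K z y| ≤ R) (x : X) : ∑ y, |D.E τ (fun z => K z y) x| ≤ R := by
  calc ∑ y, |D.E τ (fun z => K z y) x| ≤ ∑ y, D.E τ (fun z => |K z y|) x :=
        sum_le_sum fun y _ => D.norm_E_le τ (fun z => K z y) x
    _ = D.E τ (fun z => ∑ y, |K z y|) x := by rw [D.E_sum]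
    _ ≤ D.E τ (fun _ => R) x := D.E_mono hR x
    _ = R := by rw [D.E_eq_of_M (fun _ _ _ => rfl)]

lemma mm_EM (L τ : ℕ) (K : Fin (2 ^ L) → Fin (2 ^ L) → ℝ) (x y : Fin (2 ^ L)) :
    mm (EM L τ) K x y = (dyF L).E τ (fun z => K z y) x :=
  congrFun (ap_EM L τ (fun z => K z y)) x

lemma mm_EM' (L τ : ℕ) (K : Fin (2 ^ L) → Fin (2 ^ L) → ℝ) (x y : Fin (2 ^ L)) :
    mm K (EM L τ) x y = (dyF L).E τ (fun z => K x z) y := by
  rw [← congrFun (ap_EM L τ (fun z => K x z)) y]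
  simp only [mm, ap]
  exact sum_congr rfl fun z _ => by rw [EM_symm, mul_comm]

lemma mm_DM (L : ℕ) (v : ℤ) (K : Fin (2 ^ L) → Fin (2 ^ L) → ℝ) (x y : Fin (2 ^ L)) :
    mm (DM L v) K x y = DV L v (fun z => K z y) x :=
  congrFun (ap_DM L v (fun z => K z y)) x

lemma L2B_EM_T (hw : Ker L C r w) (hC : 0 ≤ C) {τ σ : ℕ} (hτ : τ ≤ σ) (hσ : σ ≤ L) :
    L2B (mm (EM L τ) (Tk L w σ)) (C * C * ((2:ℝ) ^ (-r)) ^ (σ - τ)) := by
  have h := schur (K := mm (EM L τ) (Tk L w σ)) (R := C * ((2:ℝ) ^ (-r)) ^ (σ - τ)) (C := C)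
    (by positivity) (fun x => by
      simp only [mm_EM]
      exact coarse_row hw hτ hσ x) (fun y => by
      simp only [mm_EM]
      exact (sum_abs_E_le _ _ _).trans (Tk_col hw hσ y))
  exact h.mono (le_of_eq (by ring))

lemma L2B_T_EM (hw : Ker L C r w) (hr : 0 < r) (hC : 0 ≤ C) {τ σ : ℕ} (hτ : τ ≤ σ) (hσ : σ ≤ L) :
    L2B (mm (Tk L w σ) (EM L τ)) (cR C r * C * ((2:ℝ) ^ (-r)) ^ (σ - τ)) := by
  have h := schur (K := mm (Tk L w σ) (EM L τ)) (R := cR C r) (C := C * ((2:ℝ) ^ (-r)) ^ (σ - τ))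
    (cR_nonneg hr hC) (fun x => by
      simp only [mm_EM']
      exact (sum_abs_E_le _ _ _).trans (Tk_row hw hr hC hσ x)) (fun y => by
      simp only [mm_EM']
      exact coarse_col hw hτ hσ y)
  exact h.mono (le_of_eq (by ring))

lemma L2B_zero {X : Type} [Fintype X] {K : X → X → ℝ} (h : ∀ x y, K x y = 0) {B : ℝ} (hB : 0 ≤ B) :
    L2B K B := by
  intro f
  simp only [ap, h, zero_mul, sum_const_zero, ne_eq, OfNat.ofNat_ne_zero, not_false_eq_true,
    zero_pow]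
  positivity

lemma pow_shift_le {ρ a : ℝ} (h0 : 0 ≤ ρ) (h1 : ρ ≤ 1) (ha : 0 ≤ a) (n : ℕ) :
    2 * (a * ρ ^ n + a * ρ ^ (n + 1)) ≤ 4 * a * ρ ^ n := by
  have h2 : ρ ^ (n + 1) ≤ ρ ^ n := pow_le_pow_of_le_one h0 h1 (Nat.le_succ n)
  have h3 : a * ρ ^ (n + 1) ≤ a * ρ ^ n := mul_le_mul_of_nonneg_left h2 ha
  linarith

lemma L2B_DM_T (hw : Ker L C r w) (hr : 0 < r) (hC : 0 ≤ C) {σ : ℕ} (hσ : σ ≤ L) (v : ℤ) :
    L2B (mm (DM L (σ + v)) (Tk L w σ)) (cB C r * lam r ^ v.natAbs) := by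
  have hcR := cR_nonneg (C := C) hr hC
  have hcB := cB_nonneg (C := C) hr hC
  have hl := lam_pos r
  have hρ0 : 0 ≤ (2:ℝ) ^ (-r) := by positivity
  have hρ1 := (rho_lt hr).le
  by_cases hrange : 0 ≤ (σ : ℤ) + v ∧ (σ : ℤ) + v ≤ L
  swap
  · apply L2B_zero _ (by positivity)
    intro x y
    rw [mm_DM, DV, if_neg hrange]
  rcases lt_or_ge 0 v with hv | hv
  · -- fine scales
    obtain ⟨τ, hτ⟩ : ∃ τ : ℕ, (σ : ℤ) + v = (τ + 1 : ℕ) := ⟨((σ : ℤ) + v).toNat - 1, by omega⟩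
    have hστ : σ ≤ τ := by omega
    have hτL : τ + 1 ≤ L := by omega
    have hval : ∀ x y, mm (DM L (σ + v)) (Tk L w σ) x y =
        (dyF L).Df (τ + 1) (fun z => Tk L w σ z y) x := by
      intro x y
      rw [mm_DM, DV, if_pos hrange, hτ, Int.toNat_natCast]
    have h := schur (K := mm (DM L (σ + v)) (Tk L w σ)) (R := 2 * cR C r)
      (C := C * (1 / 2) ^ (τ + 1 - σ)) (by positivity) (fun x => by
        simp only [hval, DF.Df]
        calc ∑ y, |(dyF L).E (τ + 1) (fun z => Tk L w σ z y) x - (dyF L).E τ (fun z => Tk L w σ z y) x|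
            ≤ ∑ y, (|(dyF L).E (τ + 1) (fun z => Tk L w σ z y) x| +
              |(dyF L).E τ (fun z => Tk L w σ z y) x|) := sum_le_sum fun y _ => abs_sub _ _
          _ ≤ cR C r + cR C r := by
              rw [sum_add_distrib]
              exact add_le_add (sum_E_abs_row _ _ _ (Tk_row hw hr hC hσ) x)
                (sum_E_abs_row _ _ _ (Tk_row hw hr hC hσ) x)
          _ = _ := by ring) (fun y => by
        simp only [hval]
        exact fine_col hw hστ hτL y)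
    refine h.mono ?_
    have hn : v.natAbs = τ + 1 - σ := by omega
    rw [hn]
    have h2 : (1 / 2 : ℝ) ^ (τ + 1 - σ) ≤ lam r ^ (τ + 1 - σ) :=
      pow_le_pow_left₀ (by norm_num) (half_le_lam r) _
    calc 2 * cR C r * (C * (1 / 2) ^ (τ + 1 - σ)) = (2 * (cR C r * C)) * (1 / 2) ^ (τ + 1 - σ) := by ring
      _ ≤ cB C r * lam r ^ (τ + 1 - σ) := by
          have h3 : 0 ≤ cR C r * C := by positivity
          have h4 : 0 ≤ C * C := by positivity
          have h5 : 2 * (cR C r * C) ≤ cB C r := by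
            unfold cB
            linarith
          exact mul_le_mul h5 h2 (by positivity) hcB
  · -- coarse scales
    have hfin : ∀ n, C * C * ((2:ℝ) ^ (-r)) ^ n ≤ 4 * (C * C) * lam r ^ n := by
      intro n
      have : ((2:ℝ) ^ (-r)) ^ n ≤ lam r ^ n := pow_le_pow_left₀ hρ0 (rho_le_lam r) _
      have h0 : 0 ≤ C * C := by positivity
      calc C * C * ((2:ℝ) ^ (-r)) ^ n ≤ C * C * lam r ^ n := by gcongr
        _ ≤ _ := by
          have : 0 ≤ C * C * lam r ^ n := by positivity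
          linarith
    have hcB4 : 4 * (C * C) ≤ cB C r := by
      unfold cB
      have : 0 ≤ cR C r * C := by positivity
      linarith
    by_cases h0 : (σ : ℤ) + v = 0
    · have hval : mm (DM L (σ + v)) (Tk L w σ) = mm (EM L 0) (Tk L w σ) := by
        funext x y
        rw [mm_DM, mm_EM, h0, DV, if_pos (by omega)]
        rfl
      rw [hval]
      refine (L2B_EM_T hw hC (Nat.zero_le σ) hσ).mono ?_
      have hn : v.natAbs = σ - 0 := by omega
      rw [hn]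
      refine (hfin _).trans ?_
      gcongr
    · obtain ⟨τ, hτ⟩ : ∃ τ : ℕ, (σ : ℤ) + v = (τ + 1 : ℕ) := ⟨((σ : ℤ) + v).toNat - 1, by omega⟩
      have hval : mm (DM L (σ + v)) (Tk L w σ) = fun x y =>
          mm (EM L (τ + 1)) (Tk L w σ) x y - mm (EM L τ) (Tk L w σ) x y := by
        funext x y
        rw [mm_DM, DV, if_pos hrange, hτ, Int.toNat_natCast, mm_EM, mm_EM]
        rfl
      rw [hval]
      refine ((L2B_EM_T hw hC (show τ + 1 ≤ σ by omega) hσ).sub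
        (L2B_EM_T hw hC (show τ ≤ σ by omega) hσ)).mono ?_
      have hn : v.natAbs = σ - (τ + 1) := by omega
      have hn2 : σ - τ = (σ - (τ + 1)) + 1 := by omega
      rw [hn, hn2]
      refine (pow_shift_le hρ0 hρ1 (by positivity) _).trans ?_
      have : ((2:ℝ) ^ (-r)) ^ (σ - (τ + 1)) ≤ lam r ^ (σ - (τ + 1)) :=
        pow_le_pow_left₀ hρ0 (rho_le_lam r) _
      calc 4 * (C * C) * ((2:ℝ) ^ (-r)) ^ (σ - (τ + 1)) ≤ 4 * (C * C) * lam r ^ (σ - (τ + 1)) := by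
            gcongr
        _ ≤ _ := by gcongr

lemma L2B_T_DM (hw : Ker L C r w) (hr : 0 < r) (hC : 0 ≤ C) {σ : ℕ} (hσ : σ ≤ L) (u : ℕ) :
    L2B (mm (Tk L w σ) (DM L (σ - u))) (cB C r * lam r ^ u) := by
  have hcR := cR_nonneg (C := C) hr hC
  have hcB := cB_nonneg (C := C) hr hC
  have hl := lam_pos r
  have hρ0 : 0 ≤ (2:ℝ) ^ (-r) := by positivity
  have hρ1 := (rho_lt hr).le
  have hcB4 : 4 * (cR C r * C) ≤ cB C r := by
    unfold cB
    have : 0 ≤ C * C := by positivity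
    linarith
  have hpow : ∀ n, ((2:ℝ) ^ (-r)) ^ n ≤ lam r ^ n := fun n => pow_le_pow_left₀ hρ0 (rho_le_lam r) _
  by_cases hrange : 0 ≤ (σ : ℤ) - u ∧ (σ : ℤ) - u ≤ L
  swap
  · apply L2B_zero _ (by positivity)
    intro x y
    simp only [mm, DM, if_neg hrange, mul_zero, sum_const_zero]
  by_cases h0 : (σ : ℤ) - u = 0
  · have hval : mm (Tk L w σ) (DM L (σ - u)) = mm (Tk L w σ) (EM L 0) := by
      funext x y
      simp only [mm, DM, if_pos hrange, if_pos h0]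
    rw [hval]
    refine (L2B_T_EM hw hr hC (Nat.zero_le σ) hσ).mono ?_
    have hn : u = σ - 0 := by omega
    rw [← hn]
    have h1 : 0 ≤ cR C r * C := by positivity
    calc cR C r * C * ((2:ℝ) ^ (-r)) ^ u ≤ cR C r * C * lam r ^ u := by
          gcongr
          exact rho_le_lam r
      _ ≤ cB C r * lam r ^ u := by
          gcongr
          linarith
  · obtain ⟨τ, hτ⟩ : ∃ τ : ℕ, (σ : ℤ) - u = (τ + 1 : ℕ) := ⟨((σ : ℤ) - u).toNat - 1, by omega⟩
    have hval : mm (Tk L w σ) (DM L (σ - u)) = fun x y =>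
        mm (Tk L w σ) (EM L (τ + 1)) x y - mm (Tk L w σ) (EM L τ) x y := by
      funext x y
      simp only [mm, DM, if_pos hrange, if_neg h0]
      rw [← sum_sub_distrib]
      refine sum_congr rfl fun z _ => ?_
      rw [hτ, Int.toNat_natCast, Nat.add_sub_cancel]
      ring
    rw [hval]
    refine ((L2B_T_EM hw hr hC (show τ + 1 ≤ σ by omega) hσ).sub
      (L2B_T_EM hw hr hC (show τ ≤ σ by omega) hσ)).mono ?_
    have hn : u = σ - (τ + 1) := by omega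
    have hn2 : σ - τ = u + 1 := by omega
    rw [← hn, hn2]
    refine (pow_shift_le hρ0 hρ1 (by positivity) _).trans ?_
    calc 4 * (cR C r * C) * ((2:ℝ) ^ (-r)) ^ u ≤ 4 * (cR C r * C) * lam r ^ u := by
          gcongr
          exact rho_le_lam r
      _ ≤ _ := by gcongr

/-- the sandwiched operator -/
noncomputable def Th3 (L : ℕ) (w : ℕ → ℤ → ℝ) (u : ℕ) (v : ℤ) (σ : ℕ) :
    Fin (2 ^ L) → Fin (2 ^ L) → ℝ :=
  mm (DM L (σ + v)) (mm (Tk L w σ) (DM L (σ - u)))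

lemma lam_le_one (hr : 0 < r) : lam r ≤ 1 := (lam_lt hr).le

lemma L2B_Th3 (hw : Ker L C r w) (hr : 0 < r) (hC : 0 ≤ C) {σ : ℕ} (hσ : σ ≤ L) (u : ℕ) (v : ℤ) :
    L2B (Th3 L w u v σ) (4 * cB C r * (Real.sqrt (lam r)) ^ (u + v.natAbs)) := by
  have hcB := cB_nonneg (C := C) hr hC
  have hl := lam_pos r
  have hl1 := lam_le_one hr
  have hs : Real.sqrt (lam r) ^ 2 = lam r := Real.sq_sqrt hl.le
  have hs0 : 0 ≤ Real.sqrt (lam r) := Real.sqrt_nonneg _
  have hs1 : Real.sqrt (lam r) ≤ 1 := Real.sqrt_le_one.2 hl1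
  rcases le_total u v.natAbs with h | h
  · have h1 : L2B (Th3 L w u v σ) ((cB C r * lam r ^ v.natAbs) * 4) := by
      rw [Th3, ← mm_assoc]
      exact (L2B_DM_T hw hr hC hσ v).mm (by positivity) (L2B_DM L _)
    refine h1.mono ?_
    have h2 : lam r ^ v.natAbs ≤ Real.sqrt (lam r) ^ (u + v.natAbs) := by
      rw [← hs, ← pow_mul, Real.sqrt_sq hs0]
      exact pow_le_pow_of_le_one hs0 hs1 (by omega)
    calc cB C r * lam r ^ v.natAbs * 4 = 4 * cB C r * lam r ^ v.natAbs := by ring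
      _ ≤ _ := by gcongr
  · have h1 : L2B (Th3 L w u v σ) (4 * (cB C r * lam r ^ u)) := by
      rw [Th3]
      exact (L2B_DM L _).mm (by norm_num) (L2B_T_DM hw hr hC hσ u)
    refine h1.mono ?_
    have h2 : lam r ^ u ≤ Real.sqrt (lam r) ^ (u + v.natAbs) := by
      rw [← hs, ← pow_mul, Real.sqrt_sq hs0]
      exact pow_le_pow_of_le_one hs0 hs1 (by omega)
    calc 4 * (cB C r * lam r ^ u) = 4 * cB C r * lam r ^ u := by ring
      _ ≤ _ := by gcongr

end Pool.Agent.Lib.MP_1ce311_an
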