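import Pool.Agent.Lib.MP_1ce311_an.LPMart

open Finset

namespace Pool.Agent.Lib.MP_1ce311_an

lemma card_block (L τ : ℕ) (x : Fin (2 ^ L)) :
    (univ.filter fun y : Fin (2 ^ L) => (y : ℕ) / 2 ^ (L - τ) = (x : ℕ) / 2 ^ (L - τ)).card =
      2 ^ (L - τ) := by
  set m := 2 ^ (L - τ) with hm
  have hm0 : 0 < m := by positivity
  have hdvd : m ∣ 2 ^ L := pow_dvd_pow 2 (Nat.sub_le _ _)
  obtain ⟨q, hq⟩ := hdvd
  have hcard : m = (range m).card := (card_range m).symm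
  conv_rhs => rw [hcard]
  symm
  have hxq : (x : ℕ) / m < q := by
    rw [Nat.div_lt_iff_lt_mul hm0, mul_comm, ← hq]
    exact x.2
  refine card_bij (fun i _ => (⟨(x : ℕ) / m * m + i % m, ?_⟩ : Fin (2 ^ L))) ?_ ?_ ?_
  · have h1 : i % m < m := Nat.mod_lt _ hm0
    calc (x : ℕ) / m * m + i % m < (x : ℕ) / m * m + m := by omega
      _ = ((x : ℕ) / m + 1) * m := by ring
      _ ≤ q * m := Nat.mul_le_mul_right _ hxq
      _ = 2 ^ L := by rw [hq, mul_comm]
  · intro i hi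
    simp only [mem_filter, mem_univ, true_and]
    rw [mem_range] at hi
    rw [Nat.mod_eq_of_lt hi, add_comm, Nat.add_mul_div_right _ _ hm0, Nat.div_eq_of_lt hi, zero_add]
  · intro i hi i' hi' h
    rw [mem_range] at hi hi'
    simp only [Fin.mk.injEq, add_right_inj] at h
    rwa [Nat.mod_eq_of_lt hi, Nat.mod_eq_of_lt hi'] at h
  · intro y hy
    simp only [mem_filter, mem_univ, true_and] at hy
    refine ⟨(y : ℕ) % m, mem_range.2 (Nat.mod_lt _ hm0), ?_⟩
    apply Fin.ext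
    simp only [Nat.mod_mod]
    rw [← hy]
    exact Nat.div_add_mod' _ _

/-- right shift by `2^(L-ν)` -/
def shiftE (L ν : ℕ) : Fin (2 ^ L) ≃ Fin (2 ^ L) where
  toFun x := ⟨((x : ℕ) + 2 ^ (L - ν)) % 2 ^ L, Nat.mod_lt _ (by positivity)⟩
  invFun x := ⟨((x : ℕ) + (2 ^ L - 2 ^ (L - ν))) % 2 ^ L, Nat.mod_lt _ (by positivity)⟩
  left_inv x := by
    apply Fin.ext
    have h1 : 2 ^ (L - ν) ≤ 2 ^ L := Nat.pow_le_pow_right (by norm_num) (Nat.sub_le _ _)
    simp only [Nat.mod_add_mod]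
    rw [show (x : ℕ) + 2 ^ (L - ν) + (2 ^ L - 2 ^ (L - ν)) = (x : ℕ) + 2 ^ L by omega,
      Nat.add_mod_right, Nat.mod_eq_of_lt x.2]
  right_inv x := by
    apply Fin.ext
    have h1 : 2 ^ (L - ν) ≤ 2 ^ L := Nat.pow_le_pow_right (by norm_num) (Nat.sub_le _ _)
    simp only [Nat.mod_add_mod]
    rw [show (x : ℕ) + (2 ^ L - 2 ^ (L - ν)) + 2 ^ (L - ν) = (x : ℕ) + 2 ^ L by omega,
      Nat.add_mod_right, Nat.mod_eq_of_lt x.2]

lemma shiftE_val (L ν : ℕ) (x : Fin (2 ^ L)) :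
    ((shiftE L ν x : Fin (2 ^ L)) : ℕ) = ((x : ℕ) + 2 ^ (L - ν)) % 2 ^ L := rfl

lemma shiftE_symm_val (L ν : ℕ) (x : Fin (2 ^ L)) :
    (((shiftE L ν).symm x : Fin (2 ^ L)) : ℕ) = ((x : ℕ) + (2 ^ L - 2 ^ (L - ν))) % 2 ^ L := rfl

/-- number of blocks -/
lemma two_pow_split (L ν : ℕ) : ∃ q, 0 < q ∧ 2 ^ L = 2 ^ (L - ν) * q := by
  refine ⟨2 ^ (L - (L - ν)), by positivity, ?_⟩
  rw [← pow_add]
  congr 1
  omega

lemma div_shift (L ν μ q : ℕ) (hq : 2 ^ L = 2 ^ (L - μ) * q) (x : Fin (2 ^ L)) :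
    ((shiftE L ν x : Fin (2 ^ L)) : ℕ) / 2 ^ (L - μ) =
      (((x : ℕ) + 2 ^ (L - ν)) / 2 ^ (L - μ)) % q := by
  rw [shiftE_val]
  generalize (x : ℕ) = X
  rw [hq, Nat.mod_mul_right_div_self]

lemma b_lt (L μ q : ℕ) (hq : 2 ^ L = 2 ^ (L - μ) * q) (x : Fin (2 ^ L)) :
    (x : ℕ) / 2 ^ (L - μ) < q := by
  rw [Nat.div_lt_iff_lt_mul (by positivity), mul_comm, ← hq]
  exact x.2

lemma b_succ (L τ : ℕ) (h : τ + 1 ≤ L) (x : ℕ) :
    x / 2 ^ (L - τ) = x / 2 ^ (L - (τ + 1)) / 2 := by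
  rw [Nat.div_div_eq_div_mul, ← pow_succ]
  congr 2
  omega

/-- the dyadic filtration on `Fin (2^L)` -/
def dyF (L : ℕ) : DF (Fin (2 ^ L)) where
  b τ x := (x : ℕ) / 2 ^ (L - τ)
  n τ := 2 ^ (L - τ)
  npos τ := by positivity
  card τ x := card_block L τ x
  nest τ σ x y h hxy := by
    obtain ⟨c, hc⟩ := Nat.exists_eq_add_of_le (show L - σ ≤ L - τ by omega)
    rw [hc, pow_add, ← Nat.div_div_eq_div_mul, ← Nat.div_div_eq_div_mul, hxy]
  bin τ x y z h1 h2 h3 := by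
    by_cases h : τ + 1 ≤ L
    · rw [b_succ L τ h, b_succ L τ h] at h1 h3
      omega
    · exfalso
      apply h2
      rw [show L - (τ + 1) = L - τ by omega]
      exact h1
  half τ x y h1 h2 := by
    by_cases h : τ + 1 ≤ L
    · rw [← pow_succ']
      congr 1
      omega
    · exfalso
      apply h2
      rw [show L - (τ + 1) = L - τ by omega]
      exact h1
  e ν := shiftE L ν
  e1 ν x y := by
    obtain ⟨q, hq0, hq⟩ := two_pow_split L ν
    rw [div_shift L ν ν q hq, div_shift L ν ν q hq]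
    have hx := b_lt L ν q hq x
    have hy := b_lt L ν q hq y
    have hm : 0 < 2 ^ (L - ν) := by positivity
    rw [Nat.add_div_right _ hm, Nat.add_div_right _ hm]
    set a := (x : ℕ) / 2 ^ (L - ν)
    set c := (y : ℕ) / 2 ^ (L - ν)
    constructor
    · intro h
      have h2 : (a + 1) ≡ (c + 1) [MOD q] := h
      have h3 : a ≡ c [MOD q] := Nat.ModEq.add_right_cancel' 1 h2
      exact Nat.ModEq.eq_of_lt_of_lt h3 hx hy
    · intro h
      rw [h]
  e2 ν μ x h := by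
    obtain ⟨q, hq0, hq⟩ := two_pow_split L μ
    rw [div_shift L ν μ q hq, div_shift L μ μ q hq]
    have hx := b_lt L μ q hq x
    have hm : 0 < 2 ^ (L - μ) := by positivity
    have hle : 2 ^ (L - ν) ≤ 2 ^ (L - μ) := Nat.pow_le_pow_right (by norm_num) (by omega)
    generalize 2 ^ (L - ν) = A at *
    generalize 2 ^ (L - μ) = B at *
    have h1 : ((x : ℕ) + A) / B = (x : ℕ) / B ∨
        ((x : ℕ) + A) / B = (x : ℕ) / B + 1 := by
      have e1 : (x : ℕ) / B ≤ ((x : ℕ) + A) / B :=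
        Nat.div_le_div_right (by omega)
      have e2 : ((x : ℕ) + A) / B ≤ ((x : ℕ) + B) / B :=
        Nat.div_le_div_right (by omega)
      rw [Nat.add_div_right _ hm] at e2
      omega
    rcases h1 with h1 | h1
    · left
      rw [h1, Nat.mod_eq_of_lt hx]
    · right
      rw [h1, Nat.add_div_right _ hm]
  e3 τ x y h1 h2 := by
    by_cases h : τ + 1 ≤ L
    · obtain ⟨q, hq0, hq⟩ := two_pow_split L (τ + 1)
      rw [div_shift L (τ + 1) (τ + 1) q hq, div_shift L (τ + 1) (τ + 1) q hq]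
      have hx := b_lt L (τ + 1) q hq x
      have hy := b_lt L (τ + 1) q hq y
      have hm : 0 < 2 ^ (L - (τ + 1)) := by positivity
      rw [Nat.add_div_right _ hm, Nat.add_div_right _ hm]
      rw [b_succ L τ h, b_succ L τ h] at h1
      set a := (x : ℕ) / 2 ^ (L - (τ + 1))
      set c := (y : ℕ) / 2 ^ (L - (τ + 1))
      rcases lt_or_gt_of_ne h2 with h3 | h3
      · right
        have : c + 1 = a := by omega
        rw [this, Nat.mod_eq_of_lt hx]
      · left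
        have : a + 1 = c := by omega
        rw [this, Nat.mod_eq_of_lt hy]
    · exfalso
      apply h2
      rw [show L - (τ + 1) = L - τ by omega]
      exact h1

end Pool.Agent.Lib.MP_1ce311_an
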