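import Pool.Agent.Lib.MP_1ce311_an.LPDec

open Finset

namespace Pool.Agent.Lib.MP_1ce311_an

variable {L : ℕ} {C r : ℝ} {w : ℕ → ℤ → ℝ}

section vecs

variable {κ : Type} [Fintype κ] {X : Type} [Fintype X]

/-- vector of components -/
noncomputable def vec (a : κ → X → ℝ) (y : X) : EuclideanSpace ℝ κ :=
  WithLp.toLp 2 (fun c => a c y)

omit [Fintype X] in
lemma vec_sq (a : κ → X → ℝ) (y : X) : ‖vec a y‖ ^ 2 = ∑ c, (a c y) ^ 2 := by
  rw [EuclideanSpace.norm_sq_eq]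
  simp [vec]

omit [Fintype κ] in
lemma sum_smul_vec (K : X → X → ℝ) (a : κ → X → ℝ) (x : X) :
    ∑ y, K x y • vec a y = vec (fun c => ap K (a c)) x := by
  ext c
  simp [vec, ap]

omit [Fintype κ] [Fintype X] in
lemma sum_vec {ι : Type*} (s : Finset ι) (a : ι → κ → X → ℝ) (x : X) :
    ∑ i ∈ s, vec (a i) x = vec (fun c x => ∑ i ∈ s, a i c x) x := by
  ext c
  simp [vec]

end vecs

lemma DV_vec {κ : Type} [Fintype κ] (v : ℤ) (a : κ → Fin (2 ^ L) → ℝ) (x : Fin (2 ^ L)) :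
    DV L v (vec a) x = vec (fun c => ap (DM L v) (a c)) x := by
  rw [← sum_DM_smul, sum_smul_vec]

lemma TV_vec {κ : Type} [Fintype κ] (σ : ℕ) (a : κ → Fin (2 ^ L) → ℝ) (x : Fin (2 ^ L)) :
    TV L w σ (vec a) x = vec (fun c => ap (Tk L w σ) (a c)) x := by
  rw [TV, sum_smul_vec]

lemma ofNat_self {L : ℕ} (s : Fin (L + 1)) : Fin.ofNat (L + 1) (s : ℕ) = s := by
  apply Fin.ext
  simp [Fin.ofNat, Nat.mod_eq_of_lt s.2]

section bounds

variable {κ : Type} [Fintype κ]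

lemma Q_D' (L j : ℕ) (v : ℤ) (a : κ → Fin (L + 1) → Fin (2 ^ L) → ℝ) :
    ∑ x, (∑ c, ∑ s : Fin (L + 1), (ap (DM L (s + v)) (a c s) x) ^ 2) ^ (j + 1) ≤
      cD j * ∑ x, (∑ c, ∑ s, (a c s x) ^ 2) ^ (j + 1) := by
  have h := Q_D L j v (fun σ => vec (fun c => a c (Fin.ofNat (L + 1) σ)))
  simp only [DV_vec, vec_sq, sum_range, ofNat_self] at h
  calc ∑ x, (∑ c, ∑ s : Fin (L + 1), (ap (DM L (s + v)) (a c s) x) ^ 2) ^ (j + 1)
      = ∑ x, (∑ s : Fin (L + 1), ∑ c, (ap (DM L (s + v)) (a c s) x) ^ 2) ^ (j + 1) :=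
        sum_congr rfl fun x _ => by rw [sum_comm]
    _ ≤ _ := h
    _ = _ := by
        congr 1
        exact sum_congr rfl fun x _ => by rw [sum_comm]

lemma Q_T' (hw : Ker L C r w) (hr : 0 < r) (hC : 0 ≤ C) (j : ℕ)
    (a : κ → Fin (L + 1) → Fin (2 ^ L) → ℝ) :
    ∑ x, (∑ c, ∑ s : Fin (L + 1), (ap (Tk L w s) (a c s) x) ^ 2) ^ (j + 1) ≤
      cQ C r j * ∑ x, (∑ c, ∑ s, (a c s x) ^ 2) ^ (j + 1) := by
  have h := Q_T hw hr hC j (fun σ => vec (fun c => a c (Fin.ofNat (L + 1) σ)))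
  simp only [TV_vec, vec_sq, sum_range, ofNat_self] at h
  calc ∑ x, (∑ c, ∑ s : Fin (L + 1), (ap (Tk L w s) (a c s) x) ^ 2) ^ (j + 1)
      = ∑ x, (∑ s : Fin (L + 1), ∑ c, (ap (Tk L w s) (a c s) x) ^ 2) ^ (j + 1) :=
        sum_congr rfl fun x _ => by rw [sum_comm]
    _ ≤ _ := h
    _ = _ := by
        congr 1
        exact sum_congr rfl fun x _ => by rw [sum_comm]

lemma cF3_nonneg (j : ℕ) : 0 ≤ DF.cF3 j := by
  have := DF.cT_pos j
  unfold DF.cF3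
  positivity

lemma cD_nonneg (j : ℕ) : 0 ≤ cD j := by
  have := cF1_pos j
  unfold cD
  positivity

lemma cQ_nonneg (hr : 0 < r) (j : ℕ) : 0 ≤ cQ C r j := by
  have h1 := cP_nonneg (C := C) hr
  have h2 := rho_lt hr
  have h3 : 0 < (1 - (2:ℝ) ^ (-r))⁻¹ := inv_pos.2 (by linarith)
  have h4 : 0 ≤ DF.cF1 j := (cF1_pos j).le
  have h5 : 0 ≤ DF.cF2 j := by unfold DF.cF2; positivity
  unfold cQ
  positivity

lemma Syn' (L j : ℕ) (v : ℤ) (a : κ → Fin (L + 1) → Fin (2 ^ L) → ℝ) :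
    ∑ x, (∑ c, (∑ s : Fin (L + 1), ap (DM L (s + v)) (a c s) x) ^ 2) ^ (j + 1) ≤
      DF.cF3 j * cD j * ∑ x, (∑ c, ∑ s, (a c s x) ^ 2) ^ (j + 1) := by
  have h := Syn_bd L j v (fun σ => vec (fun c => a c (Fin.ofNat (L + 1) σ)))
  simp only [DV_vec, sum_vec, vec_sq, sum_range, ofNat_self] at h
  refine h.trans ?_
  rw [mul_assoc]
  refine mul_le_mul_of_nonneg_left ?_ (cF3_nonneg j)
  refine le_trans (le_of_eq ?_) (Q_D' L j v a)
  exact sum_congr rfl fun x _ => by rw [sum_comm]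

lemma Ana' (L j : ℕ) (v : ℤ) (f : κ → Fin (2 ^ L) → ℝ) :
    ∑ x, (∑ c, ∑ s : Fin (L + 1), (ap (DM L (s + v)) (f c) x) ^ 2) ^ (j + 1) ≤
      DF.cF1 j * ∑ x, (∑ c, (f c x) ^ 2) ^ (j + 1) := by
  have h := Ana_bd L j v (vec f)
  simp only [DV_vec, vec_sq, sum_range] at h
  refine le_trans (le_of_eq ?_) h
  exact sum_congr rfl fun x _ => by rw [sum_comm]

end bounds

lemma VBdd.mono {I X I' X' : Type} [Fintype I] [Fintype X] [Fintype I'] [Fintype X'] {k : ℕ}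
    {C C' : ℝ} {A : I' → X' → I → X → ℝ} (h : VBdd k C A) (hle : C ≤ C') : VBdd k C' A := by
  intro κ _ a
  refine (h κ a).trans (mul_le_mul_of_nonneg_right hle ?_)
  exact sum_nonneg fun x _ => pow_nonneg (sum_nonneg fun c _ => sum_nonneg fun i _ => sq_nonneg _) _

/-- synthesis operators -/
lemma VBdd_S (L j : ℕ) (v : ℤ) : VBdd (j + 1) (DF.cF3 j * cD j)
    (fun (_ : Unit) (x : Fin (2 ^ L)) (s : Fin (L + 1)) (y : Fin (2 ^ L)) =>
      DM L ((s : ℕ) + v) x y) := by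
  intro κ _ a
  simpa [ap] using Syn' L j v a

lemma ap_Th3 (L : ℕ) (w : ℕ → ℤ → ℝ) (u : ℕ) (v : ℤ) (σ : ℕ) (f : Fin (2 ^ L) → ℝ) :
    ap (Th3 L w u v σ) f = ap (DM L (σ + v)) (ap (Tk L w σ) (ap (DM L (σ - u)) f)) := by
  rw [Th3, ap_mm, ap_mm]

lemma ap_Th3' (L : ℕ) (w : ℕ → ℤ → ℝ) (u : ℕ) (v : ℤ) (σ : ℕ) (f : Fin (2 ^ L) → ℝ) :
    ap (Th3 L w u v σ) f = ap (Th3 L w u v σ) (ap (DM L (σ - u)) f) := by
  rw [ap_Th3, ap_Th3, ← ap_mm (DM L (σ - u)) (DM L (σ - u)), mm_DM_DM]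

/-- analysis operators: `ℓ^{2k}` bound -/
lemma VBdd_A (hw : Ker L C r w) (hr : 0 < r) (hC : 0 ≤ C) (j u : ℕ) (v : ℤ) :
    VBdd (j + 1) (cD j * (cQ C r j * DF.cF1 j))
    (fun (s : Fin (L + 1)) (x : Fin (2 ^ L)) (_ : Unit) (y : Fin (2 ^ L)) =>
      Th3 L w u v (s : ℕ) x y) := by
  intro κ _ a
  have h1 := Q_D' L j v (fun c (s : Fin (L + 1)) => ap (Tk L w s) (ap (DM L ((s : ℕ) - u)) (a c ())))
  have h2 := Q_T' hw hr hC j (fun c (s : Fin (L + 1)) => ap (DM L ((s : ℕ) - u)) (a c ()))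
  have h3 := Ana' L j (-(u : ℤ)) (fun c => a c ())
  have e : ∀ (c : κ) (s : Fin (L + 1)) (x : Fin (2 ^ L)),
      ∑ i : Unit, ∑ y, Th3 L w u v (s : ℕ) x y * a c i y =
      ap (DM L ((s : ℕ) + v)) (ap (Tk L w s) (ap (DM L ((s : ℕ) - u)) (a c ()))) x := by
    intro c s x
    rw [← ap_Th3]
    simp [ap]
  simp only [e]
  refine h1.trans ?_
  rw [mul_assoc, mul_assoc]
  refine mul_le_mul_of_nonneg_left ?_ (cD_nonneg j)
  refine h2.trans (mul_le_mul_of_nonneg_left ?_ (cQ_nonneg hr j))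
  simpa [sub_eq_add_neg] using h3

/-- analysis operators: `ℓ^2` decay -/
lemma VBdd_A1 (hw : Ker L C r w) (hr : 0 < r) (hC : 0 ≤ C) (u : ℕ) (v : ℤ) :
    VBdd 1 (4 * cB C r * (Real.sqrt (lam r)) ^ (u + v.natAbs) * DF.cF1 0)
    (fun (s : Fin (L + 1)) (x : Fin (2 ^ L)) (_ : Unit) (y : Fin (2 ^ L)) =>
      Th3 L w u v (s : ℕ) x y) := by
  intro κ _ a
  have hcB := cB_nonneg (C := C) hr hC
  have h3 := Ana' L 0 (-(u : ℤ)) (fun c => a c ())
  have e : ∀ (c : κ) (s : Fin (L + 1)) (x : Fin (2 ^ L)),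
      ∑ i : Unit, ∑ y, Th3 L w u v (s : ℕ) x y * a c i y =
      ap (Th3 L w u v s) (ap (DM L ((s : ℕ) - u)) (a c ())) x := by
    intro c s x
    rw [← ap_Th3']
    simp [ap]
  simp only [e, pow_one]
  set β := 4 * cB C r * (Real.sqrt (lam r)) ^ (u + v.natAbs) with hβ
  have hβ0 : 0 ≤ β := by positivity
  calc ∑ x, ∑ c, ∑ s : Fin (L + 1), (ap (Th3 L w u v s) (ap (DM L ((s : ℕ) - u)) (a c ())) x) ^ 2
      = ∑ c, ∑ s : Fin (L + 1), ∑ x, (ap (Th3 L w u v s) (ap (DM L ((s : ℕ) - u)) (a c ())) x) ^ 2 := by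
        rw [sum_comm]
        exact sum_congr rfl fun c _ => by rw [sum_comm]
    _ ≤ ∑ c, ∑ s : Fin (L + 1), β * ∑ x, (ap (DM L ((s : ℕ) - u)) (a c ()) x) ^ 2 := by
        refine sum_le_sum fun c _ => sum_le_sum fun s _ => ?_
        exact L2B_Th3 hw hr hC (by omega) u v _
    _ = β * ∑ x, ∑ c, ∑ s : Fin (L + 1), (ap (DM L ((s : ℕ) - u)) (a c ()) x) ^ 2 := by
        simp only [← mul_sum]
        congr 1
        symm
        rw [sum_comm]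
        exact sum_congr rfl fun c _ => by rw [sum_comm]
    _ ≤ β * (DF.cF1 0 * ∑ x, ∑ c, (a c () x) ^ 2) := by
        refine mul_le_mul_of_nonneg_left ?_ hβ0
        simpa [sub_eq_add_neg] using h3
    _ = _ := by
        simp [hβ, mul_assoc]

/-- diagonal analysis operators: `ℓ^{2k}` bound -/
lemma VBdd_B (hw : Ker L C r w) (hr : 0 < r) (hC : 0 ≤ C) (j : ℕ) (v : ℤ) :
    VBdd (j + 1) (cD j * cQ C r j)
    (fun (s : Fin (L + 1)) (x : Fin (2 ^ L)) (i : Fin (L + 1)) (y : Fin (2 ^ L)) =>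
      if i = s then mm (DM L ((s : ℕ) + v)) (Tk L w s) x y else 0) := by
  intro κ _ a
  have h1 := Q_D' L j v (fun c (s : Fin (L + 1)) => ap (Tk L w s) (a c s))
  have h2 := Q_T' hw hr hC j a
  have e : ∀ (c : κ) (s : Fin (L + 1)) (x : Fin (2 ^ L)),
      ∑ i : Fin (L + 1), ∑ y, (if i = s then mm (DM L ((s : ℕ) + v)) (Tk L w s) x y else 0) * a c i y =
      ap (DM L ((s : ℕ) + v)) (ap (Tk L w s) (a c s)) x := by
    intro c s x
    rw [← ap_mm, sum_eq_single s (fun i _ hi => by simp [hi]) (fun h => absurd (mem_univ s) h)]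
    simp [ap]
  simp only [e]
  refine h1.trans ?_
  rw [mul_assoc]
  exact mul_le_mul_of_nonneg_left h2 (cD_nonneg j)

/-- diagonal analysis operators: `ℓ^2` decay -/
lemma VBdd_B1 (hw : Ker L C r w) (hr : 0 < r) (hC : 0 ≤ C) (v : ℤ) :
    VBdd 1 (cB C r * lam r ^ v.natAbs)
    (fun (s : Fin (L + 1)) (x : Fin (2 ^ L)) (i : Fin (L + 1)) (y : Fin (2 ^ L)) =>
      if i = s then mm (DM L ((s : ℕ) + v)) (Tk L w s) x y else 0) := by
  intro κ _ a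
  have e : ∀ (c : κ) (s : Fin (L + 1)) (x : Fin (2 ^ L)),
      ∑ i : Fin (L + 1), ∑ y, (if i = s then mm (DM L ((s : ℕ) + v)) (Tk L w s) x y else 0) * a c i y =
      ap (mm (DM L ((s : ℕ) + v)) (Tk L w s)) (a c s) x := by
    intro c s x
    rw [sum_eq_single s (fun i _ hi => by simp [hi]) (fun h => absurd (mem_univ s) h)]
    simp [ap]
  simp only [e, pow_one]
  calc ∑ x, ∑ c, ∑ s : Fin (L + 1), (ap (mm (DM L ((s : ℕ) + v)) (Tk L w s)) (a c s) x) ^ 2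
      = ∑ c, ∑ s : Fin (L + 1), ∑ x, (ap (mm (DM L ((s : ℕ) + v)) (Tk L w s)) (a c s) x) ^ 2 := by
        rw [sum_comm]
        exact sum_congr rfl fun c _ => by rw [sum_comm]
    _ ≤ ∑ c, ∑ s : Fin (L + 1), (cB C r * lam r ^ v.natAbs) * ∑ x, (a c s x) ^ 2 := by
        refine sum_le_sum fun c _ => sum_le_sum fun s _ => ?_
        exact L2B_DM_T hw hr hC (by omega) v _
    _ = (cB C r * lam r ^ v.natAbs) * ∑ x, ∑ c, ∑ s : Fin (L + 1), (a c s x) ^ 2 := by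
        simp only [← mul_sum]
        congr 1
        symm
        rw [sum_comm]
        exact sum_congr rfl fun c _ => by rw [sum_comm]

/-! ### identities -/

lemma sum_shift_all {W : Type*} [AddCommMonoid W] (h : ℤ → W) (h0 : ∀ z, ¬ (0 ≤ z ∧ z ≤ (L : ℤ)) → h z = 0)
    {σ : ℕ} (hσ : σ ≤ L) :
    ∑ q ∈ range (2 * L + 1), h (σ + ((q : ℤ) - L)) = ∑ τ ∈ range (L + 1), h τ := by
  have h1 : ∑ q ∈ Ico (L - σ) (2 * L - σ + 1), h (σ + ((q : ℤ) - L)) =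
      ∑ q ∈ range (2 * L + 1), h (σ + ((q : ℤ) - L)) := by
    apply sum_subset
    · intro q hq
      rw [mem_Ico] at hq
      rw [mem_range]
      omega
    · intro q hq hq'
      rw [mem_Ico] at hq'
      rw [mem_range] at hq
      apply h0
      omega
  rw [← h1, sum_Ico_eq_sum_range, show 2 * L - σ + 1 - (L - σ) = L + 1 by omega]
  refine sum_congr rfl fun i _ => ?_
  congr 1
  push_cast [Nat.cast_sub hσ]
  ring

lemma sum_shift_low {W : Type*} [AddCommMonoid W] (h : ℤ → W) (h0 : ∀ z, ¬ (0 ≤ z ∧ z ≤ (L : ℤ)) → h z = 0)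
    {σ : ℕ} (hσ : σ ≤ L) :
    ∑ u ∈ range (L + 1), h (σ - (u : ℤ)) = ∑ τ ∈ range (σ + 1), h τ := by
  have h1 : ∑ u ∈ range (σ + 1), h (σ - (u : ℤ)) = ∑ u ∈ range (L + 1), h (σ - (u : ℤ)) := by
    apply sum_subset
    · intro q hq
      rw [mem_range] at hq ⊢
      omega
    · intro q hq hq'
      rw [mem_range] at hq hq'
      apply h0
      omega
  rw [← h1, ← sum_range_reflect]
  refine sum_congr rfl fun i hi => ?_
  rw [mem_range] at hi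
  congr 1
  omega

variable {V : Type*} [NormedAddCommGroup V] [InnerProductSpace ℝ V]

lemma DV_nat (L : ℕ) (F : Fin (2 ^ L) → V) {τ : ℕ} (hτ : τ ≤ L) (x : Fin (2 ^ L)) :
    DV L (τ : ℤ) F x = (dyF L).Df τ F x := by
  rw [DV, if_pos (by omega), Int.toNat_natCast]

lemma sum_DV_all (F : Fin (2 ^ L) → V) {σ : ℕ} (hσ : σ ≤ L) (x : Fin (2 ^ L)) :
    ∑ q ∈ range (2 * L + 1), DV L (σ + ((q : ℤ) - L)) F x = F x := by
  rw [sum_shift_all (fun z => DV L z F x) (fun z hz => by rw [DV, if_neg hz]) hσ,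
    sum_congr rfl fun τ hτ => DV_nat L F (by rw [mem_range] at hτ; omega) x, DF.sum_Df, E_top]

lemma sum_DV_low (F : Fin (2 ^ L) → V) {σ : ℕ} (hσ : σ ≤ L) (x : Fin (2 ^ L)) :
    ∑ u ∈ range (L + 1), DV L (σ - (u : ℤ)) F x = (dyF L).E σ F x := by
  rw [sum_shift_low (fun z => DV L z F x) (fun z hz => by rw [DV, if_neg hz]) hσ,
    sum_congr rfl fun τ hτ => DV_nat L F (by rw [mem_range] at hτ; omega) x, DF.sum_Df]

lemma ap_Tk_E (σ : ℕ) (f : Fin (2 ^ L) → ℝ) :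
    ap (Tk L w σ) ((dyF L).E σ f) = ap (Tk L w σ) f := by
  funext x
  refine (dyF L).sum_mul_E (fun y y' h => ?_) f
  have h' : (y : ℕ) / 2 ^ (L - σ) = (y' : ℕ) / 2 ^ (L - σ) := h
  simp only [Tk, h']

lemma ap_sum {X : Type} [Fintype X] {ι : Type*} (s : Finset ι) (K : X → X → ℝ) (f : ι → X → ℝ) (x : X) :
    ap K (fun y => ∑ i ∈ s, f i y) x = ∑ i ∈ s, ap K (f i) x := by
  simp only [ap, mul_sum]
  rw [sum_comm]

lemma ap_sum_left {X : Type} [Fintype X] {ι : Type*} (s : Finset ι) (K : ι → X → X → ℝ) (f : X → ℝ)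
    (x : X) : ap (fun x y => ∑ i ∈ s, K i x y) f x = ∑ i ∈ s, ap (K i) f x := by
  simp only [ap, sum_mul]
  rw [sum_comm]

lemma Tk_decomp2 {σ : ℕ} (hσ : σ ≤ L) (x y : Fin (2 ^ L)) :
    Tk L w σ x y = ∑ q ∈ range (2 * L + 1), ∑ z, DM L (σ + ((q : ℤ) - L)) x z *
      mm (DM L (σ + ((q : ℤ) - L))) (Tk L w σ) z y := by
  have key : Tk L w σ = fun x y => ∑ q ∈ range (2 * L + 1), mm (DM L (σ + ((q : ℤ) - L)))
      (mm (DM L (σ + ((q : ℤ) - L))) (Tk L w σ)) x y := by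
    apply ext_ap
    intro f
    funext x
    rw [ap_sum_left]
    simp only [← mm_assoc, mm_DM_DM]
    simp only [ap_mm, ap_DM]
    rw [sum_DV_all _ hσ]
  exact congrFun (congrFun key x) y

lemma Tk_decomp1 {σ : ℕ} (hσ : σ ≤ L) (x y : Fin (2 ^ L)) :
    Tk L w σ x y = ∑ u ∈ range (L + 1), ∑ q ∈ range (2 * L + 1),
      ∑ z, DM L (σ + ((q : ℤ) - L)) x z * Th3 L w u ((q : ℤ) - L) σ z y := by
  have key : Tk L w σ = fun x y => ∑ u ∈ range (L + 1), ∑ q ∈ range (2 * L + 1),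
      mm (DM L (σ + ((q : ℤ) - L))) (Th3 L w u ((q : ℤ) - L) σ) x y := by
    apply ext_ap
    intro f
    funext x
    rw [ap_sum_left (range (L + 1)) (fun u x y => ∑ q ∈ range (2 * L + 1),
      mm (DM L (σ + ((q : ℤ) - L))) (Th3 L w u ((q : ℤ) - L) σ) x y)]
    have h1 : ∀ u, ap (fun x y => ∑ q ∈ range (2 * L + 1),
        mm (DM L (σ + ((q : ℤ) - L))) (Th3 L w u ((q : ℤ) - L) σ) x y) f x =
        ap (Tk L w σ) (DV L (σ - (u : ℤ)) f) x := by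
      intro u
      rw [ap_sum_left]
      simp only [Th3, ← mm_assoc, mm_DM_DM]
      simp only [mm_assoc]
      simp only [ap_mm, ap_DM]
      rw [sum_DV_all _ hσ]
    rw [sum_congr rfl fun u _ => h1 u, ← ap_sum]
    have h2 : (fun y => ∑ u ∈ range (L + 1), DV L (σ - (u : ℤ)) f y) = (dyF L).E σ f := by
      funext y
      exact sum_DV_low f hσ y
    rw [h2, ap_Tk_E]
  exact congrFun (congrFun key x) y

end Pool.Agent.Lib.MP_1ce311_an
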