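import Pool.Agent.Lib.MP_1ce311_an.LPFin

open Finset

namespace Pool.Agent.Lib.MP_1ce311_an

/-- position of the level-`σ` block of `y` -/
def pos (L σ : ℕ) (y : Fin (2 ^ L)) : ℕ := (y : ℕ) / 2 ^ (L - σ) * 2 ^ (L - σ)

lemma pos_le (L σ : ℕ) (y : Fin (2 ^ L)) : pos L σ y ≤ y := Nat.div_mul_le_self _ _

/-- cyclic distance -/
def zed (L σ : ℕ) (x y : Fin (2 ^ L)) : ℕ :=
  if pos L σ y ≤ x then x - pos L σ y else x + 2 ^ L - pos L σ y

lemma zed_lt (L σ : ℕ) (x y : Fin (2 ^ L)) : zed L σ x y < 2 ^ L := by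
  have h1 := x.2
  have h2 := y.2
  have h3 := pos_le L σ y
  unfold zed
  split_ifs with h
  · omega
  · omega

lemma Tk_eq {L : ℕ} {C r : ℝ} {w : ℕ → ℤ → ℝ} (hw : Ker L C r w) (σ : ℕ) (x y : Fin (2 ^ L)) :
    Tk L w σ x y = 2 ^ σ / 2 ^ L * w σ (zed L σ x y) := by
  unfold Tk zed
  congr 1
  have h2 := y.2
  have h3 := pos_le L σ y
  have h4 : (((y : ℕ) / 2 ^ (L - σ) * 2 ^ (L - σ) : ℕ) : ℤ) = (pos L σ y : ℤ) := rfl
  rw [h4]
  split_ifs with h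
  · rw [Nat.cast_sub h]
  · rw [← hw.per σ, Nat.cast_sub (by omega)]
    congr 1
    push_cast
    ring

lemma block_mem {L σ μ : ℕ} (hσ : σ ≤ L) (hμ : μ ≤ σ) (x y : Fin (2 ^ L))
    (h : zed L σ x y < 2 ^ (L - σ) * 2 ^ μ) :
    (dyF L).b (σ - μ) y = (dyF L).b (σ - μ) x ∨
      (dyF L).b (σ - μ) y = (dyF L).b (σ - μ) (((dyF L).e (σ - μ)).symm x) := by
  have hH : 2 ^ (L - σ) * 2 ^ μ = 2 ^ (L - (σ - μ)) := by
    rw [← pow_add]; congr 1; omega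
  rw [hH] at h
  obtain ⟨q, hq0, hq⟩ := two_pow_split L (σ - μ)
  have hpy : pos L σ y / 2 ^ (L - (σ - μ)) = (y : ℕ) / 2 ^ (L - (σ - μ)) := by
    rw [← hH, pos, ← Nat.div_div_eq_div_mul, Nat.mul_div_cancel _ (by positivity),
      Nat.div_div_eq_div_mul]
  show (y : ℕ) / 2 ^ (L - (σ - μ)) = (x : ℕ) / 2 ^ (L - (σ - μ)) ∨
    (y : ℕ) / 2 ^ (L - (σ - μ)) = (((shiftE L (σ - μ)).symm x : Fin (2 ^ L)) : ℕ) / 2 ^ (L - (σ - μ))
  rw [shiftE_symm_val, ← hpy]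
  have hx := x.2
  have hy := y.2
  have hp := pos_le L σ y
  have hHL : 2 ^ (L - (σ - μ)) ≤ 2 ^ L := Nat.pow_le_pow_right (by norm_num) (Nat.sub_le _ _)
  have hH0 : 0 < 2 ^ (L - (σ - μ)) := by positivity
  unfold zed at h
  generalize pos L σ y = p at *
  generalize (x : ℕ) = X at *
  generalize (y : ℕ) = Y at *
  generalize 2 ^ (L - (σ - μ)) = H at *
  generalize 2 ^ L = T at *
  subst hq
  obtain ⟨q', rfl⟩ : ∃ q', q = q' + 1 := ⟨q - 1, by omega⟩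
  have e0 : H * (q' + 1) - H = H * q' := by rw [Nat.mul_succ]; omega
  rw [e0]
  have key : ∀ s c, s < H → (H * c + s) / H = c := by
    intro s c hs
    rw [Nat.mul_add_div hH0, Nat.div_eq_of_lt hs, add_zero]
  have hp1 := Nat.div_add_mod p H
  have hp2 := Nat.mod_lt p hH0
  have hX1 := Nat.div_add_mod X H
  have hX2 := Nat.mod_lt X hH0
  have hmul : H * (q' + 1) = H * q' + H := Nat.mul_succ _ _
  split_ifs at h with hpx
  · have h1 : p / H ≤ X / H := Nat.div_le_div_right hpx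
    have h2 : X / H ≤ (p + H) / H := Nat.div_le_div_right (by omega)
    rw [Nat.add_div_right _ hH0] at h2
    rcases Nat.lt_or_ge (p / H) (X / H) with h3 | h3
    · right
      have h4 : X / H = p / H + 1 := by omega
      rw [h4, Nat.mul_succ] at hX1
      generalize p / H = c at *
      generalize X % H = s at *
      have h5 : X + H * q' = (H * c + s) + H * (q' + 1) := by omega
      rw [h5, Nat.add_mod_right, Nat.mod_eq_of_lt (by omega), key s c hX2]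
    · left
      omega
  · right
    have h1 : X < H := by omega
    rw [Nat.mod_eq_of_lt (by omega), add_comm, key X q' h1]
    have h6 : H * q' ≤ p := by omega
    have h7 : p = H * q' + (p - H * q') := by omega
    rw [h7, key _ q' (by omega)]

lemma two_rpow_mul_pow (r : ℝ) (μ : ℕ) : ((2:ℝ) ^ μ) ^ (-(1 + r)) = (2 ^ μ)⁻¹ * ((2:ℝ) ^ (-r)) ^ μ := by
  have h2 : (0:ℝ) < 2 := by norm_num
  rw [neg_add, Real.rpow_add (by positivity), Real.rpow_neg (by positivity), Real.rpow_one]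
  congr 1
  rw [← Real.rpow_natCast, ← Real.rpow_natCast, ← Real.rpow_mul h2.le, ← Real.rpow_mul h2.le]
  congr 1
  ring

lemma decay_sum {r : ℝ} (hr : 0 < r) {σ L : ℕ} (hσ : σ ≤ L) {z : ℕ} (hz : z < 2 ^ L) :
    (1 + (z : ℝ) / 2 ^ (L - σ)) ^ (-(1 + r)) ≤
      2 ^ (1 + r) * ∑ μ ∈ range (σ + 1), ((2 ^ μ)⁻¹ * ((2:ℝ) ^ (-r)) ^ μ) *
        (if z < 2 ^ (L - σ) * 2 ^ μ then 1 else 0) := by
  have hex : ∃ μ, z < 2 ^ (L - σ) * 2 ^ μ := ⟨σ, by
    rw [← pow_add, show L - σ + σ = L by omega]; exact hz⟩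
  set m := Nat.find hex with hm
  have hm1 : z < 2 ^ (L - σ) * 2 ^ m := Nat.find_spec hex
  have hmσ : m ≤ σ := Nat.find_min' hex (by
    rw [← pow_add, show L - σ + σ = L by omega]; exact hz)
  have hsum : (2 ^ m : ℝ)⁻¹ * ((2:ℝ) ^ (-r)) ^ m ≤
      ∑ μ ∈ range (σ + 1), ((2 ^ μ)⁻¹ * ((2:ℝ) ^ (-r)) ^ μ) *
        (if z < 2 ^ (L - σ) * 2 ^ μ then 1 else 0) := by
    have h1 := single_le_sum (f := fun μ => ((2 ^ μ : ℝ)⁻¹ * ((2:ℝ) ^ (-r)) ^ μ) *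
        (if z < 2 ^ (L - σ) * 2 ^ μ then 1 else 0)) (s := range (σ + 1))
        (fun μ _ => by positivity) (mem_range.2 (Nat.lt_succ_of_le hmσ))
    rw [if_pos hm1, mul_one] at h1
    exact h1
  refine le_trans ?_ (mul_le_mul_of_nonneg_left hsum (by positivity))
  rw [← two_rpow_mul_pow]
  rcases Nat.eq_zero_or_pos m with h0 | h0
  · rw [h0, pow_zero, Real.one_rpow, mul_one]
    have h1 : (1 + (z : ℝ) / 2 ^ (L - σ)) ^ (-(1 + r)) ≤ 1 :=
      Real.rpow_le_one_of_one_le_of_nonpos (by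
        have : 0 ≤ (z : ℝ) / 2 ^ (L - σ) := by positivity
        linarith) (by linarith)
    have h2 : (1:ℝ) ≤ 2 ^ (1 + r) := Real.one_le_rpow (by norm_num) (by linarith)
    linarith
  · obtain ⟨m', hm'⟩ : ∃ m', m = m' + 1 := ⟨m - 1, by omega⟩
    have h1 : ¬ z < 2 ^ (L - σ) * 2 ^ m' := Nat.find_min hex (by omega)
    have h2 : (2:ℝ) ^ m' ≤ 1 + (z : ℝ) / 2 ^ (L - σ) := by
      have h3 : ((2 ^ (L - σ) * 2 ^ m' : ℕ) : ℝ) ≤ z := by exact_mod_cast not_lt.1 h1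
      push_cast at h3
      have h4 : (2:ℝ) ^ m' ≤ (z : ℝ) / 2 ^ (L - σ) := by
        rw [le_div_iff₀ (by positivity)]
        linarith
      linarith
    calc (1 + (z : ℝ) / 2 ^ (L - σ)) ^ (-(1 + r)) ≤ ((2:ℝ) ^ m') ^ (-(1 + r)) :=
          Real.rpow_le_rpow_of_nonpos (by positivity) h2 (by linarith)
      _ = 2 ^ (1 + r) * ((2:ℝ) ^ m) ^ (-(1 + r)) := by
          rw [hm', pow_succ, Real.mul_rpow (by positivity) (by norm_num), mul_left_comm,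
            ← Real.rpow_add (by norm_num), add_neg_cancel, Real.rpow_zero, mul_one]

/-- the pointwise majorant -/
lemma Tk_major {L : ℕ} {C r : ℝ} {w : ℕ → ℤ → ℝ} (hw : Ker L C r w) (hr : 0 < r) (hC : 0 ≤ C)
    {σ : ℕ} (hσ : σ ≤ L) (f : Fin (2 ^ L) → ℝ) (hf : ∀ y, 0 ≤ f y) (x : Fin (2 ^ L)) :
    ∑ y, |Tk L w σ x y| * f y ≤ C * 2 ^ (1 + r) * ∑ μ ∈ range (σ + 1), ((2:ℝ) ^ (-r)) ^ μ *
      ((dyF L).E (σ - μ) f x + (dyF L).Nb (σ - μ) f x) := by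
  set D := dyF L with hD
  have h1 : ∀ y, |Tk L w σ x y| * f y ≤ ∑ μ ∈ range (σ + 1), C * 2 ^ (1 + r) *
      ((2 ^ σ / 2 ^ L) * (((2 ^ μ)⁻¹ * ((2:ℝ) ^ (-r)) ^ μ) *
        ((if D.b (σ - μ) y = D.b (σ - μ) x then f y else 0) +
         (if D.b (σ - μ) y = D.b (σ - μ) ((D.e (σ - μ)).symm x) then f y else 0)))) := by
    intro y
    rw [Tk_eq hw, abs_mul, abs_of_nonneg (by positivity : (0:ℝ) ≤ 2 ^ σ / 2 ^ L)]
    have h2 := hw.decay σ hσ _ (zed_lt L σ x y)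
    have h3 := decay_sum hr hσ (zed_lt L σ x y)
    have h4 : |w σ (zed L σ x y)| ≤ C * (2 ^ (1 + r) *
        ∑ μ ∈ range (σ + 1), ((2 ^ μ)⁻¹ * ((2:ℝ) ^ (-r)) ^ μ) *
        (if zed L σ x y < 2 ^ (L - σ) * 2 ^ μ then 1 else 0)) :=
      h2.trans (mul_le_mul_of_nonneg_left h3 hC)
    calc 2 ^ σ / 2 ^ L * |w σ (zed L σ x y)| * f y
        ≤ 2 ^ σ / 2 ^ L * (C * (2 ^ (1 + r) *
        ∑ μ ∈ range (σ + 1), ((2 ^ μ)⁻¹ * ((2:ℝ) ^ (-r)) ^ μ) *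
        (if zed L σ x y < 2 ^ (L - σ) * 2 ^ μ then 1 else 0))) * f y := by
          have := hf y
          gcongr
      _ = ∑ μ ∈ range (σ + 1), C * 2 ^ (1 + r) * ((2 ^ σ / 2 ^ L) *
          (((2 ^ μ)⁻¹ * ((2:ℝ) ^ (-r)) ^ μ) *
            ((if zed L σ x y < 2 ^ (L - σ) * 2 ^ μ then 1 else 0) * f y))) := by
          rw [mul_sum, mul_sum, mul_sum, sum_mul]
          refine sum_congr rfl fun μ _ => ?_
          ring
      _ ≤ _ := by
          refine sum_le_sum fun μ hμ => ?_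
          have hμσ : μ ≤ σ := Nat.lt_succ_iff.1 (mem_range.1 hμ)
          have h5 : (if zed L σ x y < 2 ^ (L - σ) * 2 ^ μ then (1:ℝ) else 0) * f y ≤
              (if D.b (σ - μ) y = D.b (σ - μ) x then f y else 0) +
              (if D.b (σ - μ) y = D.b (σ - μ) ((D.e (σ - μ)).symm x) then f y else 0) := by
            have hfy := hf y
            have n1 : 0 ≤ (if D.b (σ - μ) y = D.b (σ - μ) x then f y else 0) := by
              split_ifs <;> simp [hfy]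
            have n2 : 0 ≤ (if D.b (σ - μ) y = D.b (σ - μ) ((D.e (σ - μ)).symm x) then f y else 0) := by
              split_ifs <;> simp [hfy]
            by_cases hz : zed L σ x y < 2 ^ (L - σ) * 2 ^ μ
            · rw [if_pos hz, one_mul]
              rcases block_mem hσ hμσ x y hz with h | h
              · rw [if_pos h]; linarith
              · rw [if_pos h]; linarith
            · rw [if_neg hz, zero_mul]
              linarith
          gcongr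
  refine (sum_le_sum fun y _ => h1 y).trans (le_of_eq ?_)
  rw [sum_comm, mul_sum]
  refine sum_congr rfl fun μ hμ => ?_
  have hμσ : μ ≤ σ := Nat.lt_succ_iff.1 (mem_range.1 hμ)
  rw [← mul_sum, ← mul_sum, ← mul_sum, sum_add_distrib, ← sum_filter, ← sum_filter]
  have hn : (D.n (σ - μ) : ℝ) = 2 ^ (L - σ) * 2 ^ μ := by
    show ((2 ^ (L - (σ - μ)) : ℕ) : ℝ) = _
    push_cast
    rw [← pow_add]
    congr 1
    omega
  have hn0 : (D.n (σ - μ) : ℝ) ≠ 0 := by rw [hn]; positivity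
  have hE : ∑ y with D.b (σ - μ) y = D.b (σ - μ) x, f y = 2 ^ (L - σ) * 2 ^ μ * D.E (σ - μ) f x := by
    rw [DF.E, smul_eq_mul, ← hn, mul_inv_cancel_left₀ hn0]
  have hN : ∑ y with D.b (σ - μ) y = D.b (σ - μ) ((D.e (σ - μ)).symm x), f y =
      2 ^ (L - σ) * 2 ^ μ * D.Nb (σ - μ) f x := by
    rw [DF.Nb, DF.E, smul_eq_mul, ← hn, mul_inv_cancel_left₀ hn0]
  rw [hE, hN]
  have hL : (2:ℝ) ^ L = 2 ^ σ * 2 ^ (L - σ) := by rw [← pow_add]; congr 1; omega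
  rw [hL]
  field_simp

/-- weighted Jensen -/
lemma wj {ι : Type*} (s : Finset ι) (p z : ι → ℝ) (hp : ∀ i ∈ s, 0 ≤ p i) (hz : ∀ i ∈ s, 0 ≤ z i)
    (j : ℕ) : (∑ i ∈ s, p i * z i) ^ (j + 1) ≤ (∑ i ∈ s, p i) ^ j * ∑ i ∈ s, p i * z i ^ (j + 1) := by
  set P := ∑ i ∈ s, p i with hP
  have hP0 : 0 ≤ P := sum_nonneg hp
  rcases hP0.eq_or_lt with h0 | h0
  · have h1 : ∀ i ∈ s, p i = 0 := (sum_eq_zero_iff_of_nonneg hp).1 h0.symm
    have h2 : ∑ i ∈ s, p i * z i = 0 := sum_eq_zero fun i hi => by rw [h1 i hi, zero_mul]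
    rw [h2, zero_pow (by omega)]
    exact mul_nonneg (pow_nonneg hP0 _) (sum_nonneg fun i hi =>
      mul_nonneg (hp i hi) (pow_nonneg (hz i hi) _))
  · have h1 := Real.pow_arith_mean_le_arith_mean_pow s (fun i => p i / P) z
      (fun i hi => div_nonneg (hp i hi) hP0) (by rw [← sum_div, ← hP, div_self h0.ne']) hz (j + 1)
    have e1 : ∑ i ∈ s, p i / P * z i = (∑ i ∈ s, p i * z i) / P := by
      rw [sum_div]; exact sum_congr rfl fun i _ => by ring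
    have e2 : ∑ i ∈ s, p i / P * z i ^ (j + 1) = (∑ i ∈ s, p i * z i ^ (j + 1)) / P := by
      rw [sum_div]; exact sum_congr rfl fun i _ => by ring
    rw [e1, e2, div_pow, div_le_div_iff₀ (by positivity) h0] at h1
    have h2 : (∑ i ∈ s, p i * z i) ^ (j + 1) * P ≤
        (P ^ j * ∑ i ∈ s, p i * z i ^ (j + 1)) * P := by
      calc _ ≤ _ := h1
        _ = _ := by rw [pow_succ]; ring
    exact le_of_mul_le_mul_right h2 h0

variable {V : Type*} [NormedAddCommGroup V] [InnerProductSpace ℝ V]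

/-- the operator `T_σ` on vector-valued functions -/
noncomputable def TV (L : ℕ) (w : ℕ → ℤ → ℝ) (σ : ℕ) (F : Fin (2 ^ L) → V) (x : Fin (2 ^ L)) : V :=
  ∑ y, Tk L w σ x y • F y

lemma geom_le {ρ : ℝ} (h0 : 0 ≤ ρ) (h1 : ρ < 1) (n : ℕ) : ∑ μ ∈ range n, ρ ^ μ ≤ (1 - ρ)⁻¹ := by
  rw [← tsum_geometric_of_lt_one h0 h1]
  exact (summable_geometric_of_lt_one h0 h1).sum_le_tsum _ (fun _ _ => by positivity)

lemma rho_lt {r : ℝ} (hr : 0 < r) : (2:ℝ) ^ (-r) < 1 :=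
  Real.rpow_lt_one_of_one_lt_of_neg (by norm_num) (by linarith)

/-- constant in the pointwise square bound -/
noncomputable def cP (C r : ℝ) : ℝ := 2 * (C * 2 ^ (1 + r)) ^ 2 * (1 - (2:ℝ) ^ (-r))⁻¹

lemma cP_nonneg {C r : ℝ} (hr : 0 < r) : 0 ≤ cP C r := by
  have := rho_lt hr
  unfold cP
  have : 0 < (1 - (2:ℝ) ^ (-r))⁻¹ := inv_pos.2 (by linarith)
  positivity

lemma TV_sq {L : ℕ} {C r : ℝ} {w : ℕ → ℤ → ℝ} (hw : Ker L C r w) (hr : 0 < r) (hC : 0 ≤ C)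
    {σ : ℕ} (hσ : σ ≤ L) (F : Fin (2 ^ L) → V) (x : Fin (2 ^ L)) :
    ‖TV L w σ F x‖ ^ 2 ≤ cP C r * ∑ μ ∈ range (L + 1), ((2:ℝ) ^ (-r)) ^ μ *
      ((dyF L).E (σ - μ) (fun y => ‖F y‖ ^ 2) x + (dyF L).Nb (σ - μ) (fun y => ‖F y‖ ^ 2) x) := by
  set D := dyF L with hD
  set ρ := (2:ℝ) ^ (-r) with hρ
  have hρ0 : 0 ≤ ρ := by positivity
  have hρ1 : ρ < 1 := rho_lt hr
  have h1 : ‖TV L w σ F x‖ ≤ C * 2 ^ (1 + r) * ∑ μ ∈ range (σ + 1), ρ ^ μ *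
      (D.E (σ - μ) (fun y => ‖F y‖) x + D.Nb (σ - μ) (fun y => ‖F y‖) x) := by
    refine (norm_sum_le _ _).trans ?_
    simp only [norm_smul, Real.norm_eq_abs]
    exact Tk_major hw hr hC hσ (fun y => ‖F y‖) (fun y => norm_nonneg _) x
  have h2 : (∑ μ ∈ range (σ + 1), ρ ^ μ *
      (D.E (σ - μ) (fun y => ‖F y‖) x + D.Nb (σ - μ) (fun y => ‖F y‖) x)) ^ 2 ≤
      (1 - ρ)⁻¹ * ∑ μ ∈ range (L + 1), ρ ^ μ * (2 *
      (D.E (σ - μ) (fun y => ‖F y‖ ^ 2) x + D.Nb (σ - μ) (fun y => ‖F y‖ ^ 2) x)) := by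
    have h3 := wj (range (σ + 1)) (fun μ => ρ ^ μ) (fun μ =>
      (D.E (σ - μ) (fun y => ‖F y‖) x + D.Nb (σ - μ) (fun y => ‖F y‖) x))
      (fun μ _ => by positivity) (fun μ _ => add_nonneg (D.E_nonneg (fun y => norm_nonneg _) x)
        (D.Nb_nonneg (fun y => norm_nonneg _) x)) 1
    refine h3.trans ?_
    rw [pow_one]
    have hsub : ∑ μ ∈ range (σ + 1), ρ ^ μ *
        (D.E (σ - μ) (fun y => ‖F y‖) x + D.Nb (σ - μ) (fun y => ‖F y‖) x) ^ (1 + 1) ≤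
        ∑ μ ∈ range (L + 1), ρ ^ μ * (2 *
        (D.E (σ - μ) (fun y => ‖F y‖ ^ 2) x + D.Nb (σ - μ) (fun y => ‖F y‖ ^ 2) x)) := by
      calc _ ≤ ∑ μ ∈ range (σ + 1), ρ ^ μ * (2 *
            (D.E (σ - μ) (fun y => ‖F y‖ ^ 2) x + D.Nb (σ - μ) (fun y => ‖F y‖ ^ 2) x)) := by
            refine sum_le_sum fun μ _ => ?_
            refine mul_le_mul_of_nonneg_left ?_ (by positivity)
            have e1 := D.E_pow_le (σ - μ) (f := fun y => ‖F y‖) (fun y => norm_nonneg _) 2 x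
            have e2 := D.E_pow_le (σ - μ) (f := fun y => ‖F y‖) (fun y => norm_nonneg _) 2
              ((D.e (σ - μ)).symm x)
            have e3 : ∀ a b : ℝ, (a + b) ^ (1 + 1) ≤ 2 * (a ^ 2 + b ^ 2) := by
              intro a b
              show (a + b) ^ 2 ≤ _
              nlinarith [sq_nonneg (a - b)]
            refine (e3 _ _).trans ?_
            have : D.Nb (σ - μ) (fun y => ‖F y‖) x ^ 2 ≤ D.Nb (σ - μ) (fun y => ‖F y‖ ^ 2) x := e2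
            linarith
        _ ≤ _ := by
            apply sum_le_sum_of_subset_of_nonneg
            · exact range_subset_range.2 (by omega)
            · intro μ _ _
              have e1 := D.E_nonneg (τ := σ - μ) (f := fun y => ‖F y‖ ^ 2) (fun y => by positivity) x
              have e2 := D.Nb_nonneg (τ := σ - μ) (f := fun y => ‖F y‖ ^ 2) (fun y => by positivity) x
              positivity
    have hg := geom_le hρ0 hρ1 (σ + 1)
    have hnn : 0 ≤ ∑ μ ∈ range (σ + 1), ρ ^ μ *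
        (D.E (σ - μ) (fun y => ‖F y‖) x + D.Nb (σ - μ) (fun y => ‖F y‖) x) ^ (1 + 1) :=
      sum_nonneg fun μ _ => mul_nonneg (by positivity) (sq_nonneg _)
    have hi : 0 ≤ (1 - ρ)⁻¹ := inv_nonneg.2 (by linarith)
    exact mul_le_mul hg hsub hnn hi
  calc ‖TV L w σ F x‖ ^ 2 ≤ (C * 2 ^ (1 + r) * ∑ μ ∈ range (σ + 1), ρ ^ μ *
      (D.E (σ - μ) (fun y => ‖F y‖) x + D.Nb (σ - μ) (fun y => ‖F y‖) x)) ^ 2 := by gcongr
    _ = (C * 2 ^ (1 + r)) ^ 2 * (∑ μ ∈ range (σ + 1), ρ ^ μ *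
      (D.E (σ - μ) (fun y => ‖F y‖) x + D.Nb (σ - μ) (fun y => ‖F y‖) x)) ^ 2 := by rw [mul_pow]
    _ ≤ (C * 2 ^ (1 + r)) ^ 2 * ((1 - ρ)⁻¹ * ∑ μ ∈ range (L + 1), ρ ^ μ * (2 *
      (D.E (σ - μ) (fun y => ‖F y‖ ^ 2) x + D.Nb (σ - μ) (fun y => ‖F y‖ ^ 2) x))) := by gcongr
    _ = _ := by
      have e : ∑ μ ∈ range (L + 1), ρ ^ μ * (2 *
          (D.E (σ - μ) (fun y => ‖F y‖ ^ 2) x + D.Nb (σ - μ) (fun y => ‖F y‖ ^ 2) x)) =
          2 * ∑ μ ∈ range (L + 1), ρ ^ μ *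
          (D.E (σ - μ) (fun y => ‖F y‖ ^ 2) x + D.Nb (σ - μ) (fun y => ‖F y‖ ^ 2) x) := by
        rw [mul_sum]
        exact sum_congr rfl fun μ _ => by ring
      rw [e, cP, ← hρ]
      ring

/-- constant in the square function bound for `T` -/
noncomputable def cQ (C r : ℝ) (j : ℕ) : ℝ :=
  (cP C r * (1 - (2:ℝ) ^ (-r))⁻¹) ^ (j + 1) * (2 ^ (j + 1) * (DF.cF1 j + DF.cF2 j))

/-- square function bound for the operators `T_σ` -/
theorem Q_T {L : ℕ} {C r : ℝ} {w : ℕ → ℤ → ℝ} (hw : Ker L C r w) (hr : 0 < r) (hC : 0 ≤ C)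
    (j : ℕ) (a : ℕ → Fin (2 ^ L) → V) :
    ∑ x, (∑ σ ∈ range (L + 1), ‖TV L w σ (a σ) x‖ ^ 2) ^ (j + 1) ≤
      cQ C r j * ∑ x, (∑ σ ∈ range (L + 1), ‖a σ x‖ ^ 2) ^ (j + 1) := by
  set D := dyF L with hD
  set ρ := (2:ℝ) ^ (-r) with hρ
  have hρ0 : 0 ≤ ρ := by positivity
  have hρ1 : ρ < 1 := rho_lt hr
  have hi : 0 < (1 - ρ)⁻¹ := inv_pos.2 (by linarith)
  have hcP := cP_nonneg (C := C) hr
  set u : ℕ → Fin (2 ^ L) → ℝ := fun σ y => ‖a σ y‖ ^ 2 with hu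
  have hu0 : ∀ σ y, 0 ≤ u σ y := fun σ y => by positivity
  set A : ℕ → Fin (2 ^ L) → ℝ := fun μ x => ∑ σ ∈ range (L + 1), D.E (σ - μ) (u σ) x with hA
  set B : ℕ → Fin (2 ^ L) → ℝ := fun μ x => ∑ σ ∈ range (L + 1), D.Nb (σ - μ) (u σ) x with hB
  have hA0 : ∀ μ x, 0 ≤ A μ x := fun μ x => sum_nonneg fun σ _ => D.E_nonneg (hu0 σ) x
  have hB0 : ∀ μ x, 0 ≤ B μ x := fun μ x => sum_nonneg fun σ _ => D.Nb_nonneg (hu0 σ) x
  have h1 : ∀ x, ∑ σ ∈ range (L + 1), ‖TV L w σ (a σ) x‖ ^ 2 ≤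
      cP C r * ∑ μ ∈ range (L + 1), ρ ^ μ * (A μ x + B μ x) := by
    intro x
    calc ∑ σ ∈ range (L + 1), ‖TV L w σ (a σ) x‖ ^ 2
        ≤ ∑ σ ∈ range (L + 1), cP C r * ∑ μ ∈ range (L + 1), ρ ^ μ *
          (D.E (σ - μ) (u σ) x + D.Nb (σ - μ) (u σ) x) :=
          sum_le_sum fun σ hσ => TV_sq hw hr hC (Nat.lt_succ_iff.1 (mem_range.1 hσ)) (a σ) x
      _ = _ := by
          rw [← mul_sum, sum_comm]
          congr 1
          refine sum_congr rfl fun μ _ => ?_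
          rw [← mul_sum, sum_add_distrib]
  have hmono : ∀ μ : ℕ, Monotone fun σ : ℕ => σ - μ := fun μ a b h => Nat.sub_le_sub_right h μ
  set Z := ∑ x, (∑ σ ∈ range (L + 1), u σ x) ^ (j + 1) with hZ
  have hZ0 : 0 ≤ Z := sum_nonneg fun x _ => pow_nonneg (sum_nonneg fun σ _ => hu0 σ x) _
  have hAs : ∀ μ, ∑ x, A μ x ^ (j + 1) ≤ DF.cF1 j * Z := fun μ => D.F1 j (L + 1) _ (hmono μ) u hu0
  have hBs : ∀ μ, ∑ x, B μ x ^ (j + 1) ≤ DF.cF2 j * Z := fun μ => D.F2 j (L + 1) _ (hmono μ) u hu0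
  have hgeo := geom_le hρ0 hρ1 (L + 1)
  have hgeo0 : 0 ≤ ∑ μ ∈ range (L + 1), ρ ^ μ := sum_nonneg fun _ _ => by positivity
  calc ∑ x, (∑ σ ∈ range (L + 1), ‖TV L w σ (a σ) x‖ ^ 2) ^ (j + 1)
      ≤ ∑ x, (cP C r * ∑ μ ∈ range (L + 1), ρ ^ μ * (A μ x + B μ x)) ^ (j + 1) := by
        gcongr with x _
        exact h1 x
    _ = cP C r ^ (j + 1) * ∑ x, (∑ μ ∈ range (L + 1), ρ ^ μ * (A μ x + B μ x)) ^ (j + 1) := by
        simp only [mul_pow]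
        rw [mul_sum]
    _ ≤ cP C r ^ (j + 1) * ∑ x, ((∑ μ ∈ range (L + 1), ρ ^ μ) ^ j *
          ∑ μ ∈ range (L + 1), ρ ^ μ * (A μ x + B μ x) ^ (j + 1)) := by
        refine mul_le_mul_of_nonneg_left (sum_le_sum fun x _ => ?_) (by positivity)
        exact wj _ _ _ (fun μ _ => by positivity) (fun μ _ => add_nonneg (hA0 μ x) (hB0 μ x)) j
    _ ≤ cP C r ^ (j + 1) * ∑ x, ((1 - ρ)⁻¹ ^ j *
          ∑ μ ∈ range (L + 1), ρ ^ μ * (2 ^ (j + 1) * (A μ x ^ (j + 1) + B μ x ^ (j + 1)))) := by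
        refine mul_le_mul_of_nonneg_left (sum_le_sum fun x _ => ?_) (by positivity)
        refine mul_le_mul (pow_le_pow_left₀ hgeo0 hgeo j) ?_ ?_ (by positivity)
        · refine sum_le_sum fun μ _ => mul_le_mul_of_nonneg_left ?_ (by positivity)
          exact DF.add_pow_le_two (hA0 μ x) (hB0 μ x) (j + 1)
        · refine sum_nonneg fun μ _ => ?_
          have := hA0 μ x; have := hB0 μ x
          positivity
    _ = cP C r ^ (j + 1) * ((1 - ρ)⁻¹ ^ j * ∑ μ ∈ range (L + 1), ρ ^ μ * (2 ^ (j + 1) *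
          (∑ x, A μ x ^ (j + 1) + ∑ x, B μ x ^ (j + 1)))) := by
        congr 1
        rw [← mul_sum, sum_comm]
        congr 1
        refine sum_congr rfl fun μ _ => ?_
        rw [← mul_sum, ← mul_sum, sum_add_distrib]
    _ ≤ cP C r ^ (j + 1) * ((1 - ρ)⁻¹ ^ j * ∑ μ ∈ range (L + 1), ρ ^ μ * (2 ^ (j + 1) *
          (DF.cF1 j * Z + DF.cF2 j * Z))) := by
        refine mul_le_mul_of_nonneg_left (mul_le_mul_of_nonneg_left
          (sum_le_sum fun μ _ => ?_) (by positivity)) (by positivity)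
        have e1 := hAs μ
        have e2 := hBs μ
        gcongr
    _ = cP C r ^ (j + 1) * ((1 - ρ)⁻¹ ^ j * ((∑ μ ∈ range (L + 1), ρ ^ μ) * (2 ^ (j + 1) *
          (DF.cF1 j * Z + DF.cF2 j * Z)))) := by rw [sum_mul]
    _ ≤ cP C r ^ (j + 1) * ((1 - ρ)⁻¹ ^ j * ((1 - ρ)⁻¹ * (2 ^ (j + 1) *
          (DF.cF1 j * Z + DF.cF2 j * Z)))) := by
        have hc1 : 0 ≤ DF.cF1 j := by unfold DF.cF1; positivity
        have hc2 : 0 ≤ DF.cF2 j := by unfold DF.cF2; positivity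
        gcongr
    _ = cQ C r j * Z := by
        rw [cQ, ← hρ, mul_pow, pow_succ (1 - ρ)⁻¹ j]
        ring

end Pool.Agent.Lib.MP_1ce311_an
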