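import Pool.Agent.Lib.MP_1ce311_an.LPDefs

/-!
Littlewood-Paley inequalities for dyadic martingales on a finite set (exponents `2(j+1)`).
-/

open Finset

namespace Pool.Agent.Lib.MP_1ce311_an

/-- uniform dyadic filtration on a finite set with neighbour maps -/
structure DF (X : Type) [Fintype X] where
  b : ℕ → X → ℕ
  n : ℕ → ℕ
  npos : ∀ τ, 0 < n τ
  card : ∀ τ x, (univ.filter fun y => b τ y = b τ x).card = n τ
  nest : ∀ τ σ x y, τ ≤ σ → b σ x = b σ y → b τ x = b τ y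
  bin : ∀ τ x y z, b τ y = b τ x → b (τ + 1) y ≠ b (τ + 1) x → b τ z = b τ x →
    b (τ + 1) z = b (τ + 1) x ∨ b (τ + 1) z = b (τ + 1) y
  half : ∀ τ x y, b τ y = b τ x → b (τ + 1) y ≠ b (τ + 1) x → n τ = 2 * n (τ + 1)
  e : ℕ → X ≃ X
  e1 : ∀ ν x y, b ν (e ν x) = b ν (e ν y) ↔ b ν x = b ν y
  e2 : ∀ ν μ x, μ ≤ ν → b μ (e ν x) = b μ x ∨ b μ (e ν x) = b μ (e μ x)
  e3 : ∀ τ x y, b τ y = b τ x → b (τ + 1) y ≠ b (τ + 1) x →
    b (τ + 1) y = b (τ + 1) (e (τ + 1) x) ∨ b (τ + 1) x = b (τ + 1) (e (τ + 1) y)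

namespace DF

variable {X : Type} [Fintype X] (D : DF X)
variable {V : Type*} [NormedAddCommGroup V] [InnerProductSpace ℝ V]

/-- conditional expectation -/
noncomputable def E (τ : ℕ) (F : X → V) (x : X) : V :=
  (D.n τ : ℝ)⁻¹ • ∑ y ∈ univ.filter (fun y => D.b τ y = D.b τ x), F y

/-- measurability w.r.t. level `τ` -/
def M (τ : ℕ) {W : Type*} (F : X → W) : Prop := ∀ x y, D.b τ x = D.b τ y → F x = F y

variable {D}

lemma M.mono {τ σ : ℕ} {W : Type*} {F : X → W} (h : D.M τ F) (hle : τ ≤ σ) : D.M σ F :=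
  fun x y hxy => h x y (D.nest τ σ x y hle hxy)

lemma M.comp {τ : ℕ} {W W' : Type*} {F : X → W} (h : D.M τ F) (g : W → W') :
    D.M τ (fun x => g (F x)) := fun x y hxy => congrArg g (h x y hxy)

variable (D)

lemma E_M (τ : ℕ) (F : X → V) : D.M τ (D.E τ F) := by
  intro x y hxy
  simp only [E, hxy]

lemma E_eq_of_M {τ : ℕ} {F : X → V} (h : D.M τ F) : D.E τ F = F := by
  funext x
  rw [E, Finset.sum_congr rfl (g := fun _ => F x)
    (fun y hy => h y x (by simpa using hy)), sum_const, D.card, ← Nat.cast_smul_eq_nsmul ℝ,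
    smul_smul, inv_mul_cancel₀, one_smul]
  exact_mod_cast (D.npos τ).ne'

lemma E_add (τ : ℕ) (F G : X → V) : D.E τ (fun x => F x + G x) = fun x => D.E τ F x + D.E τ G x := by
  funext x
  simp only [E, sum_add_distrib, smul_add]

lemma E_sub (τ : ℕ) (F G : X → V) : D.E τ (fun x => F x - G x) = fun x => D.E τ F x - D.E τ G x := by
  funext x
  simp only [E, sum_sub_distrib, smul_sub]

lemma E_sum {ι : Type*} (s : Finset ι) (τ : ℕ) (F : ι → X → V) :
    D.E τ (fun x => ∑ i ∈ s, F i x) = fun x => ∑ i ∈ s, D.E τ (F i) x := by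
  funext x
  simp only [E, ← smul_sum]
  rw [sum_comm]

/-- tower property -/
lemma E_E_of_le {τ σ : ℕ} (h : τ ≤ σ) (F : X → V) : D.E τ (D.E σ F) = D.E τ F := by
  funext x
  simp only [E]
  congr 1
  rw [← smul_sum]
  have h1 : ∑ y ∈ univ.filter (fun y => D.b τ y = D.b τ x),
      ∑ z ∈ univ.filter (fun z => D.b σ z = D.b σ y), F z =
      ∑ z ∈ univ.filter (fun z => D.b τ z = D.b τ x),
        ∑ y ∈ univ.filter (fun y => D.b σ y = D.b σ z), F z := by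
    apply sum_comm'
    intro y z
    simp only [mem_filter, mem_univ, true_and]
    constructor
    · rintro ⟨h1, h2⟩
      exact ⟨h2.symm, (D.nest τ σ z y h h2).trans h1⟩
    · rintro ⟨h1, h2⟩
      exact ⟨(D.nest τ σ y z h h1).trans h2, h1.symm⟩
  rw [h1]
  simp only [sum_const, D.card, ← Nat.cast_smul_eq_nsmul ℝ]
  rw [← smul_sum, smul_smul, inv_mul_cancel₀, one_smul]
  exact_mod_cast (D.npos σ).ne'

/-- the basic duality -/
lemma sum_E {τ : ℕ} (ℓ : X → V →ₗ[ℝ] ℝ) (hℓ : D.M τ ℓ) (F : X → V) :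
    ∑ x, ℓ x (D.E τ F x) = ∑ x, ℓ x (F x) := by
  simp only [E, map_smul, map_sum, smul_eq_mul]
  rw [← mul_sum]
  have h1 : ∑ x, ∑ y ∈ univ.filter (fun y => D.b τ y = D.b τ x), ℓ x (F y) =
      ∑ y, ∑ x ∈ univ.filter (fun x => D.b τ x = D.b τ y), ℓ y (F y) := by
    have h2 : ∑ x, ∑ y ∈ univ.filter (fun y => D.b τ y = D.b τ x), ℓ x (F y) =
      ∑ y, ∑ x ∈ univ.filter (fun x => D.b τ x = D.b τ y), ℓ x (F y) := by
      apply sum_comm'
      intro x y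
      simp only [mem_filter, mem_univ, true_and, and_true]
      exact eq_comm
    rw [h2]
    refine sum_congr rfl fun y _ => sum_congr rfl fun x hx => ?_
    rw [hℓ x y (by simpa using hx)]
  rw [h1]
  simp only [sum_const, D.card, nsmul_eq_mul]
  rw [← mul_sum, ← mul_assoc, inv_mul_cancel₀, one_mul]
  exact_mod_cast (D.npos τ).ne'

lemma sum_mul_E {τ : ℕ} {φ : X → ℝ} (hφ : D.M τ φ) (f : X → ℝ) :
    ∑ x, φ x * D.E τ f x = ∑ x, φ x * f x := by
  have := D.sum_E (V := ℝ) (τ := τ) (fun x => φ x • LinearMap.id) (fun x y h => by simp only [hφ x y h]) f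
  simpa using this

lemma sum_inner_E {τ : ℕ} {φ : X → ℝ} (hφ : D.M τ φ) {G : X → V} (hG : D.M τ G) (F : X → V) :
    ∑ x, φ x * inner ℝ (G x) (D.E τ F x) = ∑ x, φ x * inner ℝ (G x) (F x) := by
  have := D.sum_E (V := V) (τ := τ) (fun x => φ x • (innerₛₗ ℝ (G x)))
    (fun x y h => by simp only [hφ x y h, hG x y h]) F
  simpa using this

lemma sum_E_mul_comm (τ : ℕ) (f g : X → ℝ) : ∑ x, D.E τ f x * g x = ∑ x, f x * D.E τ g x := by
  have h1 := D.sum_mul_E (D.E_M τ f) g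
  have h2 := D.sum_mul_E (D.E_M τ g) f
  rw [← h1]
  have h3 : ∑ x, f x * D.E τ g x = ∑ x, D.E τ g x * f x := sum_congr rfl fun x _ => mul_comm _ _
  rw [h3, ← h2]
  exact sum_congr rfl fun x _ => mul_comm _ _

lemma E_nonneg {τ : ℕ} {f : X → ℝ} (hf : ∀ x, 0 ≤ f x) (x : X) : 0 ≤ D.E τ f x := by
  rw [E, smul_eq_mul]
  exact mul_nonneg (by positivity) (sum_nonneg fun y _ => hf y)

lemma E_mono {τ : ℕ} {f g : X → ℝ} (h : ∀ x, f x ≤ g x) (x : X) : D.E τ f x ≤ D.E τ g x := by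
  simp only [E, smul_eq_mul]
  exact mul_le_mul_of_nonneg_left (sum_le_sum fun y _ => h y) (by positivity)

lemma norm_E_le (τ : ℕ) (F : X → V) (x : X) : ‖D.E τ F x‖ ≤ D.E τ (fun y => ‖F y‖) x := by
  simp only [E, smul_eq_mul]
  rw [norm_smul, Real.norm_of_nonneg (by positivity)]
  exact mul_le_mul_of_nonneg_left (norm_sum_le _ _) (by positivity)

lemma E_pow_le (τ : ℕ) {f : X → ℝ} (hf : ∀ x, 0 ≤ f x) (k : ℕ) (x : X) :
    (D.E τ f x) ^ k ≤ D.E τ (fun y => f y ^ k) x := by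
  have hn : (0:ℝ) < D.n τ := by exact_mod_cast D.npos τ
  simp only [E, smul_eq_mul, mul_sum]
  refine Real.pow_arith_mean_le_arith_mean_pow _ _ _ (fun y _ => by positivity) ?_ (fun y _ => hf y) k
  rw [sum_const, D.card, nsmul_eq_mul, mul_inv_cancel₀ hn.ne']

/-! ### elementary inequalities -/

lemma young {a b ε : ℝ} (ha : 0 ≤ a) (hb : 0 ≤ b) (hε : 0 < ε) (j : ℕ) :
    a * b ^ j ≤ ε * b ^ (j + 1) + (ε⁻¹) ^ j * a ^ (j + 1) := by
  rcases le_total a (ε * b) with h | h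
  · have h1 : a * b ^ j ≤ ε * b ^ (j + 1) := by
      rw [pow_succ]
      calc a * b ^ j ≤ (ε * b) * b ^ j := by gcongr
        _ = ε * (b ^ j * b) := by ring
    have h2 : 0 ≤ (ε⁻¹) ^ j * a ^ (j + 1) := by positivity
    linarith
  · have h0 : b ≤ ε⁻¹ * a := by
      rw [inv_mul_eq_div, le_div_iff₀ hε]
      linarith
    have h1 : a * b ^ j ≤ (ε⁻¹) ^ j * a ^ (j + 1) := by
      calc a * b ^ j ≤ a * (ε⁻¹ * a) ^ j := by gcongr
        _ = (ε⁻¹) ^ j * a ^ (j + 1) := by rw [mul_pow]; ring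
    have h2 : 0 ≤ ε * b ^ (j + 1) := by positivity
    linarith

/-- `U^{j+1} ≤ (j+1) ∑ u_i U_i^j` for partial sums -/
lemma pow_sum_le (u : ℕ → ℝ) (hu : ∀ i, 0 ≤ u i) (j N : ℕ) :
    (∑ i ∈ range N, u i) ^ (j + 1) ≤
      (j + 1) * ∑ i ∈ range N, u i * (∑ l ∈ range (i + 1), u l) ^ j := by
  induction N with
  | zero => simp
  | succ N ih =>
    rw [sum_range_succ (fun i => u i * (∑ l ∈ range (i + 1), u l) ^ j)]
    set A := ∑ i ∈ range N, u i with hA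
    have hB : ∑ i ∈ range (N + 1), u i = A + u N := sum_range_succ _ _
    rw [hB]
    have hA0 : 0 ≤ A := sum_nonneg fun i _ => hu i
    have h1 : (A + u N) ^ (j + 1) ≤ A ^ (j + 1) + (j + 1) * (u N * (A + u N) ^ j) := by
      have h2 := hu N
      -- by the mean value inequality: (A+u)^(j+1) - A^(j+1) ≤ (j+1) u (A+u)^j
      have h3 : ∀ m : ℕ, (A + u N) ^ (m + 1) ≤ A ^ (m + 1) + (m + 1) * (u N * (A + u N) ^ m) := by
        intro m
        induction m with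
        | zero => simp
        | succ m ihm =>
          have h4 : 0 ≤ A ^ (m + 1) := by positivity
          have h5 : A ^ (m + 1) ≤ (A + u N) ^ (m + 1) := by gcongr; linarith
          calc (A + u N) ^ (m + 1 + 1) = (A + u N) * (A + u N) ^ (m + 1) := by ring
            _ ≤ (A + u N) * (A ^ (m + 1) + (m + 1) * (u N * (A + u N) ^ m)) := by gcongr
            _ = A ^ (m + 1 + 1) + u N * A ^ (m + 1) + (m + 1) * (u N * (A + u N) ^ (m + 1)) := by ring
            _ ≤ A ^ (m + 1 + 1) + u N * (A + u N) ^ (m + 1) + (m + 1) * (u N * (A + u N) ^ (m + 1)) := by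
              gcongr
            _ = A ^ (m + 1 + 1) + ((m + 1 : ℕ) + 1) * (u N * (A + u N) ^ (m + 1)) := by
              push_cast; ring
      exact h3 j
    calc (A + u N) ^ (j + 1) ≤ A ^ (j + 1) + (j + 1) * (u N * (A + u N) ^ j) := h1
      _ ≤ (j + 1) * ∑ i ∈ range N, u i * (∑ l ∈ range (i + 1), u l) ^ j +
          (j + 1) * (u N * (A + u N) ^ j) := by gcongr
      _ = _ := by ring

lemma sum_M {ι : Type*} (s : Finset ι) {W : Type*} [AddCommMonoid W] {τ : ℕ} {F : ι → X → W}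
    (h : ∀ i ∈ s, D.M τ (F i)) : D.M τ (fun x => ∑ i ∈ s, F i x) :=
  fun x y hxy => sum_congr rfl fun i hi => h i hi x y hxy

/-- constant in F1 -/
noncomputable def cF1 (j : ℕ) : ℝ := (2 * (j + 1)) ^ (j + 1)

/-- constant in F2 -/
noncomputable def cF2 (j : ℕ) : ℝ :=
  (2 * (j + 1)) ^ (j + 1) + 2 * (j + 1) * (2 * (j + 1) * 2 ^ (j + 1)) ^ j

/-- dual Doob inequality -/
theorem F1 (j N : ℕ) (t : ℕ → ℕ) (ht : Monotone t) (u : ℕ → X → ℝ) (hu : ∀ i x, 0 ≤ u i x) :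
    ∑ x, (∑ i ∈ range N, D.E (t i) (u i) x) ^ (j + 1) ≤
      cF1 j * ∑ x, (∑ i ∈ range N, u i x) ^ (j + 1) := by
  set v : ℕ → X → ℝ := fun i => D.E (t i) (u i) with hv
  have hv0 : ∀ i x, 0 ≤ v i x := fun i x => D.E_nonneg (hu i) x
  set U : X → ℝ := fun x => ∑ i ∈ range N, v i x with hU
  set S : X → ℝ := fun x => ∑ i ∈ range N, u i x with hS
  have hU0 : ∀ x, 0 ≤ U x := fun x => sum_nonneg fun i _ => hv0 i x
  have hS0 : ∀ x, 0 ≤ S x := fun x => sum_nonneg fun i _ => hu i x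
  have h1 : ∑ x, U x ^ (j + 1) ≤ (j + 1) * ∑ x, S x * U x ^ j := by
    calc ∑ x, U x ^ (j + 1)
        ≤ ∑ x, (j + 1) * ∑ i ∈ range N, v i x * (∑ l ∈ range (i + 1), v l x) ^ j :=
          sum_le_sum fun x _ => pow_sum_le _ (fun i => hv0 i x) j N
      _ = (j + 1) * ∑ i ∈ range N, ∑ x, v i x * (∑ l ∈ range (i + 1), v l x) ^ j := by
          rw [← mul_sum, sum_comm]
      _ = (j + 1) * ∑ i ∈ range N, ∑ x, u i x * (∑ l ∈ range (i + 1), v l x) ^ j := by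
          congr 1
          refine sum_congr rfl fun i _ => ?_
          have hM : D.M (t i) (fun x => (∑ l ∈ range (i + 1), v l x) ^ j) := by
            apply M.comp (g := fun a : ℝ => a ^ j)
            apply D.sum_M
            intro l hl
            exact (D.E_M (t l) (u l)).mono (ht (Nat.lt_succ_iff.1 (mem_range.1 hl)))
          have := D.sum_mul_E hM (u i)
          simp only [mul_comm (_ ^ j)] at this
          exact this
      _ ≤ (j + 1) * ∑ i ∈ range N, ∑ x, u i x * U x ^ j := by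
          gcongr with i hi x _
          · exact hu i x
          · exact sum_nonneg fun l _ => hv0 l x
          · apply sum_le_sum_of_subset_of_nonneg
            · exact range_subset_range.2 (mem_range.1 hi)
            · intro l _ _
              exact hv0 l x
      _ = (j + 1) * ∑ x, S x * U x ^ j := by
          rw [sum_comm]
          congr 1
          refine sum_congr rfl fun x _ => ?_
          rw [hS, sum_mul]
  have h2 : ∑ x, S x * U x ^ j ≤ (2 * (j + 1 : ℝ))⁻¹ * ∑ x, U x ^ (j + 1) +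
      (2 * (j + 1 : ℝ)) ^ j * ∑ x, S x ^ (j + 1) := by
    rw [mul_sum, mul_sum, ← sum_add_distrib]
    refine sum_le_sum fun x _ => ?_
    have := young (hS0 x) (hU0 x) (show 0 < (2 * (j + 1 : ℝ))⁻¹ by positivity) j
    rwa [inv_inv] at this
  have hj : (0:ℝ) < j + 1 := by positivity
  have h3 : ∑ x, U x ^ (j + 1) ≤ (1 / 2) * ∑ x, U x ^ (j + 1) +
      (j + 1) * (2 * (j + 1 : ℝ)) ^ j * ∑ x, S x ^ (j + 1) := by
    calc ∑ x, U x ^ (j + 1) ≤ (j + 1) * ∑ x, S x * U x ^ j := h1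
      _ ≤ (j + 1) * ((2 * (j + 1 : ℝ))⁻¹ * ∑ x, U x ^ (j + 1) +
          (2 * (j + 1 : ℝ)) ^ j * ∑ x, S x ^ (j + 1)) := by gcongr
      _ = _ := by field_simp
  have h4 : ∑ x, U x ^ (j + 1) ≤ 2 * ((j + 1) * (2 * (j + 1 : ℝ)) ^ j * ∑ x, S x ^ (j + 1)) := by
    linarith
  calc ∑ x, U x ^ (j + 1) ≤ 2 * ((j + 1) * (2 * (j + 1 : ℝ)) ^ j * ∑ x, S x ^ (j + 1)) := h4
    _ = _ := by rw [cF1, pow_succ]; ring

/-- neighbour average -/
noncomputable def Nb (τ : ℕ) (f : X → ℝ) (x : X) : ℝ := D.E τ f ((D.e τ).symm x)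

lemma e1_symm (ν : ℕ) (x y : X) :
    D.b ν ((D.e ν).symm x) = D.b ν ((D.e ν).symm y) ↔ D.b ν x = D.b ν y := by
  rw [← D.e1 ν ((D.e ν).symm x) ((D.e ν).symm y)]
  simp

lemma Nb_M (τ : ℕ) (f : X → ℝ) : D.M τ (D.Nb τ f) :=
  fun _ _ hxy => D.E_M τ f _ _ ((D.e1_symm τ _ _).2 hxy)

lemma Nb_nonneg {τ : ℕ} {f : X → ℝ} (hf : ∀ x, 0 ≤ f x) (x : X) : 0 ≤ D.Nb τ f x :=
  D.E_nonneg hf _

/-- neighbour inequality -/
theorem F2 (j N : ℕ) (t : ℕ → ℕ) (ht : Monotone t) (u : ℕ → X → ℝ) (hu : ∀ i x, 0 ≤ u i x) :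
    ∑ x, (∑ i ∈ range N, D.Nb (t i) (u i) x) ^ (j + 1) ≤
      cF2 j * ∑ x, (∑ i ∈ range N, u i x) ^ (j + 1) := by
  set v : ℕ → X → ℝ := fun i => D.E (t i) (u i) with hv
  set w : ℕ → X → ℝ := fun i => D.Nb (t i) (u i) with hw
  have hv0 : ∀ i x, 0 ≤ v i x := fun i x => D.E_nonneg (hu i) x
  have hw0 : ∀ i x, 0 ≤ w i x := fun i x => D.Nb_nonneg (hu i) x
  set U : X → ℝ := fun x => ∑ i ∈ range N, w i x with hU
  set V : X → ℝ := fun x => ∑ i ∈ range N, v i x with hV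
  set S : X → ℝ := fun x => ∑ i ∈ range N, u i x with hS
  have hU0 : ∀ x, 0 ≤ U x := fun x => sum_nonneg fun i _ => hw0 i x
  have hV0 : ∀ x, 0 ≤ V x := fun x => sum_nonneg fun i _ => hv0 i x
  have hS0 : ∀ x, 0 ≤ S x := fun x => sum_nonneg fun i _ => hu i x
  have key : ∀ i, i < N → ∀ x, ∑ l ∈ range (i + 1), w l (D.e (t i) x) ≤
      ∑ l ∈ range (i + 1), (v l x + w l x) := by
    intro i hi x
    refine sum_le_sum fun l hl => ?_
    have hli : t l ≤ t i := ht (Nat.lt_succ_iff.1 (mem_range.1 hl))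
    rcases D.e2 (t i) (t l) x hli with h | h
    · have : w l (D.e (t i) x) = w l x := D.Nb_M (t l) (u l) _ _ h
      rw [this]
      linarith [hv0 l x]
    · have h1 : w l (D.e (t i) x) = w l (D.e (t l) x) := D.Nb_M (t l) (u l) _ _ h
      have h2 : w l (D.e (t l) x) = v l x := by simp [hw, hv, Nb]
      rw [h1, h2]
      linarith [hw0 l x]
  have h1 : ∑ x, U x ^ (j + 1) ≤ (j + 1) * ∑ x, S x * (V x + U x) ^ j := by
    calc ∑ x, U x ^ (j + 1)
        ≤ ∑ x, (j + 1) * ∑ i ∈ range N, w i x * (∑ l ∈ range (i + 1), w l x) ^ j :=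
          sum_le_sum fun x _ => pow_sum_le _ (fun i => hw0 i x) j N
      _ = (j + 1) * ∑ i ∈ range N, ∑ x, w i x * (∑ l ∈ range (i + 1), w l x) ^ j := by
          rw [← mul_sum, sum_comm]
      _ = (j + 1) * ∑ i ∈ range N, ∑ x, v i x * (∑ l ∈ range (i + 1), w l (D.e (t i) x)) ^ j := by
          congr 1
          refine sum_congr rfl fun i _ => ?_
          rw [← (D.e (t i)).sum_comp]
          simp [hw, hv, Nb]
      _ ≤ (j + 1) * ∑ i ∈ range N, ∑ x, v i x * (∑ l ∈ range (i + 1), (v l x + w l x)) ^ j := by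
          refine mul_le_mul_of_nonneg_left ?_ (by positivity)
          refine sum_le_sum fun i hi => sum_le_sum fun x _ => ?_
          refine mul_le_mul_of_nonneg_left ?_ (hv0 i x)
          exact pow_le_pow_left₀ (sum_nonneg fun l _ => hw0 l _) (key i (mem_range.1 hi) x) j
      _ = (j + 1) * ∑ i ∈ range N, ∑ x, u i x * (∑ l ∈ range (i + 1), (v l x + w l x)) ^ j := by
          congr 1
          refine sum_congr rfl fun i _ => ?_
          have hM : D.M (t i) (fun x => (∑ l ∈ range (i + 1), (v l x + w l x)) ^ j) := by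
            apply M.comp (g := fun a : ℝ => a ^ j)
            apply D.sum_M
            intro l hl
            have hle := ht (Nat.lt_succ_iff.1 (mem_range.1 hl))
            intro x y hxy
            have e1 := (D.E_M (t l) (u l)).mono hle x y hxy
            have e2 := (D.Nb_M (t l) (u l)).mono hle x y hxy
            simp only [hv, hw]
            rw [e1, e2]
          have := D.sum_mul_E hM (u i)
          simp only [mul_comm (_ ^ j)] at this
          exact this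
      _ ≤ (j + 1) * ∑ i ∈ range N, ∑ x, u i x * (V x + U x) ^ j := by
          gcongr with i hi x _
          · exact hu i x
          · exact sum_nonneg fun l _ => add_nonneg (hv0 l x) (hw0 l x)
          · rw [hV, hU, ← sum_add_distrib]
            apply sum_le_sum_of_subset_of_nonneg
            · exact range_subset_range.2 (mem_range.1 hi)
            · intro l _ _
              exact add_nonneg (hv0 l x) (hw0 l x)
      _ = (j + 1) * ∑ x, S x * (V x + U x) ^ j := by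
          rw [sum_comm]
          congr 1
          refine sum_congr rfl fun x _ => ?_
          rw [hS, sum_mul]
  have hFV : ∑ x, V x ^ (j + 1) ≤ (2 * (j + 1)) ^ (j + 1) * ∑ x, S x ^ (j + 1) := D.F1 j N t ht u hu
  -- Young with ε = 1 / (2 (j+1) 2^(j+1))
  set K : ℝ := 2 * (j + 1) * 2 ^ (j + 1) with hK
  have hK0 : 0 < K := by positivity
  have h2 : ∑ x, S x * (V x + U x) ^ j ≤ K⁻¹ * (2 ^ (j + 1) * ∑ x, V x ^ (j + 1) +
      2 ^ (j + 1) * ∑ x, U x ^ (j + 1)) + K ^ j * ∑ x, S x ^ (j + 1) := by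
    rw [mul_sum, mul_sum, ← sum_add_distrib, mul_sum, mul_sum, ← sum_add_distrib]
    refine sum_le_sum fun x _ => ?_
    have := young (hS0 x) (add_nonneg (hV0 x) (hU0 x)) (show 0 < K⁻¹ by positivity) j
    rw [inv_inv] at this
    refine this.trans ?_
    have h3 : (V x + U x) ^ (j + 1) ≤ 2 ^ (j + 1) * V x ^ (j + 1) + 2 ^ (j + 1) * U x ^ (j + 1) := by
      rcases le_total (V x) (U x) with h | h
      · calc (V x + U x) ^ (j + 1) ≤ (2 * U x) ^ (j + 1) := by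
              have := hV0 x; have := hU0 x
              gcongr; linarith
          _ = 0 + 2 ^ (j + 1) * U x ^ (j + 1) := by rw [mul_pow]; ring
          _ ≤ _ := by have := hV0 x; gcongr; positivity
      · calc (V x + U x) ^ (j + 1) ≤ (2 * V x) ^ (j + 1) := by
              have := hV0 x; have := hU0 x
              gcongr; linarith
          _ = 2 ^ (j + 1) * V x ^ (j + 1) + 0 := by rw [mul_pow]; ring
          _ ≤ _ := by have := hU0 x; gcongr; positivity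
    gcongr
  have hj : (0:ℝ) < j + 1 := by positivity
  have hKi : (j + 1) * (K⁻¹ * 2 ^ (j + 1)) = 1 / 2 := by
    rw [hK]; field_simp
  have h3 : ∑ x, U x ^ (j + 1) ≤ (1 / 2) * ∑ x, V x ^ (j + 1) + (1 / 2) * ∑ x, U x ^ (j + 1) +
      (j + 1) * K ^ j * ∑ x, S x ^ (j + 1) := by
    calc ∑ x, U x ^ (j + 1) ≤ (j + 1) * ∑ x, S x * (V x + U x) ^ j := h1
      _ ≤ (j + 1) * (K⁻¹ * (2 ^ (j + 1) * ∑ x, V x ^ (j + 1) +
      2 ^ (j + 1) * ∑ x, U x ^ (j + 1)) + K ^ j * ∑ x, S x ^ (j + 1)) := by gcongr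
      _ = ((j + 1) * (K⁻¹ * 2 ^ (j + 1))) * ∑ x, V x ^ (j + 1) +
        ((j + 1) * (K⁻¹ * 2 ^ (j + 1))) * ∑ x, U x ^ (j + 1) +
        (j + 1) * K ^ j * ∑ x, S x ^ (j + 1) := by ring
      _ = _ := by rw [hKi]
  have hSS : 0 ≤ ∑ x, S x ^ (j + 1) := sum_nonneg fun x _ => pow_nonneg (hS0 x) _
  have h4 : ∑ x, U x ^ (j + 1) ≤ ((2 * (j + 1)) ^ (j + 1) + 2 * (j + 1) * K ^ j) *
      ∑ x, S x ^ (j + 1) := by
    linarith
  exact h4

/-! ### martingale differences -/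

/-- martingale differences (`Δ 0 = E 0`) -/
noncomputable def Df (τ : ℕ) (F : X → V) (x : X) : V :=
  match τ with
  | 0 => D.E 0 F x
  | τ + 1 => D.E (τ + 1) F x - D.E τ F x

lemma sum_Df (N : ℕ) (F : X → V) (x : X) : ∑ τ ∈ range (N + 1), D.Df τ F x = D.E N F x := by
  induction N with
  | zero => simp [Df]
  | succ N ih => rw [sum_range_succ, ih]; simp [Df]

/-- the norm of a martingale difference is predictable -/
lemma norm_Df_M (τ : ℕ) (F : X → V) : D.M τ (fun x => ‖D.Df (τ + 1) F x‖) := by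
  classical
  intro x y hxy
  by_cases h : D.b (τ + 1) y = D.b (τ + 1) x
  · have h1 : D.Df (τ + 1) F y = D.Df (τ + 1) F x := by
      simp only [Df]
      rw [D.E_M (τ + 1) F y x h, D.E_M τ F y x hxy.symm]
    simp only [h1]
  · -- opposite halves
    have hb := D.bin τ x y
    have hn := D.half τ x y hxy.symm h
    have hn1 : (0:ℝ) < D.n (τ + 1) := by exact_mod_cast D.npos (τ + 1)
    have hsplit : univ.filter (fun z => D.b τ z = D.b τ x) =
        univ.filter (fun z => D.b (τ + 1) z = D.b (τ + 1) x) ∪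
        univ.filter (fun z => D.b (τ + 1) z = D.b (τ + 1) y) := by
      ext z
      simp only [mem_filter, mem_univ, true_and, mem_union]
      constructor
      · intro hz
        exact hb z hxy.symm h hz
      · rintro (hz | hz)
        · exact D.nest τ (τ + 1) z x (by omega) hz
        · exact (D.nest τ (τ + 1) z y (by omega) hz).trans hxy.symm
    have hdisj : Disjoint (univ.filter (fun z => D.b (τ + 1) z = D.b (τ + 1) x))
        (univ.filter (fun z => D.b (τ + 1) z = D.b (τ + 1) y)) := by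
      rw [disjoint_left]
      intro z hz hz'
      simp only [mem_filter, mem_univ, true_and] at hz hz'
      exact h (hz'.symm.trans hz)
    have hE : D.E τ F x = (2:ℝ)⁻¹ • (D.E (τ + 1) F x + D.E (τ + 1) F y) := by
      simp only [E]
      rw [hsplit, sum_union hdisj, hn, ← smul_add, smul_smul]
      congr 1
      push_cast
      rw [mul_inv]
    have hE' : D.E τ F y = D.E τ F x := D.E_M τ F y x hxy.symm
    have h2 : D.Df (τ + 1) F y = - D.Df (τ + 1) F x := by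
      simp only [Df]
      rw [hE', hE]
      module
    simp only [h2, norm_neg]

lemma norm_Df_zero_M (F : X → V) : D.M 0 (fun x => ‖D.Df 0 F x‖) := by
  intro x y hxy
  simp only [Df]
  rw [D.E_M 0 F x y hxy]

/-- constant in the Taylor inequality -/
def cT : ℕ → ℝ
  | 0 => 1
  | j + 1 => 5 * (j + 1) + 1 + 2 * cT j

lemma cT_pos (j : ℕ) : 1 ≤ cT j := by
  induction j with
  | zero => simp [cT]
  | succ j ih =>
    rw [cT]
    have : (0:ℝ) ≤ j := by positivity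
    linarith

lemma taylor_aux {A B t : ℝ} (hA : 0 ≤ A) (hB : 0 ≤ B) (ht : t ^ 2 ≤ A * B) (j : ℕ) :
    (A + 2 * t + B) ^ (j + 1) ≤ A ^ (j + 1) + 2 * (j + 1) * A ^ j * t +
      cT j * (B * (A + B) ^ j) := by
  have hAB : 0 ≤ A + B := by positivity
  have h2t : |2 * t| ≤ A + B := abs_le_of_sq_le_sq (by nlinarith [sq_nonneg (A - B)]) hAB
  obtain ⟨ht1, ht2⟩ := abs_le.1 h2t
  have hX : 0 ≤ A + 2 * t + B := by linarith
  induction j with
  | zero => simp [cT]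
  | succ j ih =>
    have hc := cT_pos j
    have hAj : A ^ j ≤ (A + B) ^ j := by gcongr; linarith
    have hAj0 : 0 ≤ A ^ j := by positivity
    have e1 : A ^ j * t ^ 2 ≤ (B * (A + B) ^ (j + 1)) := by
      calc A ^ j * t ^ 2 ≤ A ^ j * (A * B) := by gcongr
        _ = B * (A ^ j * A) := by ring
        _ ≤ B * ((A + B) ^ j * (A + B)) := by gcongr; linarith
        _ = _ := by rw [pow_succ]
    have e2 : B * A ^ (j + 1) ≤ B * (A + B) ^ (j + 1) := by gcongr; linarith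
    have e3 : B * A ^ j * (2 * t) ≤ B * (A + B) ^ (j + 1) := by
      calc B * A ^ j * (2 * t) ≤ B * A ^ j * (A + B) := by gcongr
        _ ≤ B * (A + B) ^ j * (A + B) := by gcongr
        _ = _ := by rw [pow_succ]; ring
    have e4 : (A + 2 * t + B) * (B * (A + B) ^ j) ≤ 2 * (B * (A + B) ^ (j + 1)) := by
      calc (A + 2 * t + B) * (B * (A + B) ^ j) ≤ (2 * (A + B)) * (B * (A + B) ^ j) := by
            gcongr; linarith
        _ = _ := by rw [pow_succ]; ring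
    set Z := B * (A + B) ^ (j + 1) with hZ
    have hj : (0:ℝ) ≤ j := by positivity
    calc (A + 2 * t + B) ^ (j + 1 + 1) = (A + 2 * t + B) * (A + 2 * t + B) ^ (j + 1) := by ring
      _ ≤ (A + 2 * t + B) * (A ^ (j + 1) + 2 * (j + 1) * A ^ j * t + cT j * (B * (A + B) ^ j)) := by
          gcongr
      _ = A ^ (j + 1 + 1) + 2 * (j + 1 + 1) * A ^ (j + 1) * t + 4 * (j + 1) * (A ^ j * t ^ 2) +
          B * A ^ (j + 1) + (j + 1) * (B * A ^ j * (2 * t)) +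
          cT j * ((A + 2 * t + B) * (B * (A + B) ^ j)) := by ring
      _ ≤ A ^ (j + 1 + 1) + 2 * (j + 1 + 1) * A ^ (j + 1) * t + 4 * (j + 1) * Z +
          Z + (j + 1) * Z + cT j * (2 * Z) := by gcongr
      _ = A ^ (j + 1 + 1) + 2 * ((j + 1 : ℕ) + 1) * A ^ (j + 1) * t + cT (j + 1) * Z := by
          rw [cT]; push_cast; ring

lemma taylor (a b : V) (j : ℕ) :
    (‖a + b‖ ^ 2) ^ (j + 1) ≤ (‖a‖ ^ 2) ^ (j + 1) + 2 * (j + 1) * (‖a‖ ^ 2) ^ j * inner ℝ a b +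
      cT j * (‖b‖ ^ 2 * (‖a‖ ^ 2 + ‖b‖ ^ 2) ^ j) := by
  rw [norm_add_sq_real]
  apply taylor_aux (by positivity) (by positivity)
  have := abs_real_inner_le_norm a b
  rw [← sq_abs, ← mul_pow]
  gcongr

lemma add_pow_le_two {a b : ℝ} (ha : 0 ≤ a) (hb : 0 ≤ b) (j : ℕ) :
    (a + b) ^ j ≤ 2 ^ j * (a ^ j + b ^ j) := by
  rcases le_total a b with h | h
  · calc (a + b) ^ j ≤ (2 * b) ^ j := by gcongr; linarith
      _ = 2 ^ j * (0 + b ^ j) := by rw [mul_pow]; ring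
      _ ≤ _ := by gcongr; positivity
  · calc (a + b) ^ j ≤ (2 * a) ^ j := by gcongr; linarith
      _ = 2 ^ j * (a ^ j + 0) := by rw [mul_pow]; ring
      _ ≤ _ := by gcongr; positivity

/-- one step in the upper inequality -/
lemma step_up (j i : ℕ) (F : X → V) :
    ∑ x, (‖D.E (i + 1) F x‖ ^ 2) ^ (j + 1) ≤ ∑ x, (‖D.E i F x‖ ^ 2) ^ (j + 1) +
      cT j * 2 ^ j * (∑ x, ‖D.Df (i + 1) F x‖ ^ 2 * (‖F x‖ ^ 2) ^ j +
        ∑ x, (‖D.Df (i + 1) F x‖ ^ 2) ^ (j + 1)) := by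
  have hE : ∀ x, D.E (i + 1) F x = D.E i F x + D.Df (i + 1) F x := by
    intro x; simp [Df]
  have hlin : ∑ x, (‖D.E i F x‖ ^ 2) ^ j * inner ℝ (D.E i F x) (D.Df (i + 1) F x) = 0 := by
    have hM : D.M i (fun x => (‖D.E i F x‖ ^ 2) ^ j) := by
      intro x y hxy
      simp only [D.E_M i F x y hxy]
    simp only [Df, inner_sub_right, mul_sub, sum_sub_distrib]
    rw [D.sum_inner_E hM (D.E_M i F) F,
      D.sum_inner_E (τ := i + 1) (hM.mono (by omega)) ((D.E_M i F).mono (by omega)) F, sub_self]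
  have hprod : ∑ x, ‖D.Df (i + 1) F x‖ ^ 2 * (‖D.E i F x‖ ^ 2) ^ j ≤
      ∑ x, ‖D.Df (i + 1) F x‖ ^ 2 * (‖F x‖ ^ 2) ^ j := by
    have hM : D.M i (fun x => ‖D.Df (i + 1) F x‖ ^ 2) := by
      intro x y hxy
      have := D.norm_Df_M i F x y hxy
      simp only at this
      simp only [this]
    rw [← D.sum_mul_E hM (fun x => (‖F x‖ ^ 2) ^ j)]
    refine sum_le_sum fun x _ => ?_
    refine mul_le_mul_of_nonneg_left ?_ (by positivity)
    rw [← pow_mul]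
    calc ‖D.E i F x‖ ^ (2 * j) ≤ (D.E i (fun y => ‖F y‖) x) ^ (2 * j) := by
          gcongr
          exact D.norm_E_le i F x
      _ ≤ D.E i (fun y => ‖F y‖ ^ (2 * j)) x := D.E_pow_le i (fun _ => norm_nonneg _) _ x
      _ = _ := by simp only [pow_mul]
  have hc := cT_pos j
  calc ∑ x, (‖D.E (i + 1) F x‖ ^ 2) ^ (j + 1)
      ≤ ∑ x, ((‖D.E i F x‖ ^ 2) ^ (j + 1) +
        2 * (j + 1) * ((‖D.E i F x‖ ^ 2) ^ j * inner ℝ (D.E i F x) (D.Df (i + 1) F x)) +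
        cT j * 2 ^ j * (‖D.Df (i + 1) F x‖ ^ 2 * (‖D.E i F x‖ ^ 2) ^ j +
          (‖D.Df (i + 1) F x‖ ^ 2) ^ (j + 1))) := by
        refine sum_le_sum fun x _ => ?_
        rw [hE x]
        refine (taylor (D.E i F x) (D.Df (i + 1) F x) j).trans ?_
        have h1 := add_pow_le_two (a := ‖D.E i F x‖ ^ 2) (b := ‖D.Df (i + 1) F x‖ ^ 2)
          (by positivity) (by positivity) j
        have h2 : cT j * (‖D.Df (i + 1) F x‖ ^ 2 * (‖D.E i F x‖ ^ 2 + ‖D.Df (i + 1) F x‖ ^ 2) ^ j) ≤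
          cT j * 2 ^ j * (‖D.Df (i + 1) F x‖ ^ 2 * (‖D.E i F x‖ ^ 2) ^ j +
          (‖D.Df (i + 1) F x‖ ^ 2) ^ (j + 1)) := by
          calc cT j * (‖D.Df (i + 1) F x‖ ^ 2 * (‖D.E i F x‖ ^ 2 + ‖D.Df (i + 1) F x‖ ^ 2) ^ j)
              ≤ cT j * (‖D.Df (i + 1) F x‖ ^ 2 *
                (2 ^ j * ((‖D.E i F x‖ ^ 2) ^ j + (‖D.Df (i + 1) F x‖ ^ 2) ^ j))) := by gcongr
            _ = _ := by ring
        linarith
    _ = ∑ x, (‖D.E i F x‖ ^ 2) ^ (j + 1) +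
        2 * (j + 1) * ∑ x, (‖D.E i F x‖ ^ 2) ^ j * inner ℝ (D.E i F x) (D.Df (i + 1) F x) +
        cT j * 2 ^ j * (∑ x, ‖D.Df (i + 1) F x‖ ^ 2 * (‖D.E i F x‖ ^ 2) ^ j +
          ∑ x, (‖D.Df (i + 1) F x‖ ^ 2) ^ (j + 1)) := by
        rw [sum_add_distrib, sum_add_distrib, ← mul_sum, ← mul_sum, sum_add_distrib]
    _ ≤ _ := by
        rw [hlin, mul_zero, add_zero]
        gcongr

/-- constant in F3 -/
noncomputable def cF3 (j : ℕ) : ℝ :=
  2 * (1 + 2 * (cT j * 2 ^ j) + (cT j * 2 ^ j) * (2 * (cT j * 2 ^ j)) ^ j)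

lemma sum_pow_le_pow_sum {ι : Type*} (s : Finset ι) (f : ι → ℝ) (hf : ∀ i ∈ s, 0 ≤ f i) (j : ℕ) :
    ∑ i ∈ s, f i ^ (j + 1) ≤ (∑ i ∈ s, f i) ^ (j + 1) := by
  calc ∑ i ∈ s, f i ^ (j + 1) = ∑ i ∈ s, f i * f i ^ j := by simp only [pow_succ, mul_comm]
    _ ≤ ∑ i ∈ s, f i * (∑ i ∈ s, f i) ^ j := by
        refine sum_le_sum fun i hi => mul_le_mul_of_nonneg_left ?_ (hf i hi)
        exact pow_le_pow_left₀ (hf i hi) (single_le_sum hf hi) j
    _ = _ := by rw [← sum_mul, pow_succ, mul_comm]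

/-- upper Littlewood-Paley inequality -/
theorem F3 (j N : ℕ) (F : X → V) (hF : D.E N F = F) :
    ∑ x, (‖F x‖ ^ 2) ^ (j + 1) ≤
      cF3 j * ∑ x, (∑ i ∈ range (N + 1), ‖D.Df i F x‖ ^ 2) ^ (j + 1) := by
  set S : X → ℝ := fun x => ∑ i ∈ range (N + 1), ‖D.Df i F x‖ ^ 2 with hS
  have hS0 : ∀ x, 0 ≤ S x := fun x => sum_nonneg fun i _ => by positivity
  set c := cT j * 2 ^ j with hc
  have hc1 : 1 ≤ c := by
    have h1 := cT_pos j
    have h2 : (1:ℝ) ≤ 2 ^ j := one_le_pow₀ (by norm_num)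
    rw [hc]
    nlinarith
  have h1 : ∀ m, ∑ x, (‖D.E m F x‖ ^ 2) ^ (j + 1) ≤ ∑ x, (‖D.Df 0 F x‖ ^ 2) ^ (j + 1) +
      c * (∑ i ∈ range m, (∑ x, ‖D.Df (i + 1) F x‖ ^ 2 * (‖F x‖ ^ 2) ^ j +
        ∑ x, (‖D.Df (i + 1) F x‖ ^ 2) ^ (j + 1))) := by
    intro m
    induction m with
    | zero => simp [Df]
    | succ m ih =>
      rw [sum_range_succ, mul_add, ← add_assoc]
      refine (D.step_up j m F).trans ?_
      gcongr
  have h2 := h1 N
  rw [hF] at h2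
  have h3 : ∑ i ∈ range N, ∑ x, ‖D.Df (i + 1) F x‖ ^ 2 * (‖F x‖ ^ 2) ^ j ≤
      ∑ x, S x * (‖F x‖ ^ 2) ^ j := by
    rw [sum_comm]
    refine sum_le_sum fun x _ => ?_
    rw [← sum_mul]
    refine mul_le_mul_of_nonneg_right ?_ (by positivity)
    rw [hS]
    simp only
    rw [sum_range_succ']
    linarith [sq_nonneg ‖D.Df 0 F x‖]
  have h4 : ∑ i ∈ range N, ∑ x, (‖D.Df (i + 1) F x‖ ^ 2) ^ (j + 1) ≤ ∑ x, S x ^ (j + 1) := by
    rw [sum_comm]
    refine sum_le_sum fun x _ => ?_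
    refine le_trans ?_ (sum_pow_le_pow_sum (range (N + 1)) (fun i => ‖D.Df i F x‖ ^ 2)
      (fun i _ => by positivity) j)
    rw [sum_range_succ']
    have : 0 ≤ (‖D.Df 0 F x‖ ^ 2) ^ (j + 1) := by positivity
    linarith
  have h5 : ∑ x, (‖D.Df 0 F x‖ ^ 2) ^ (j + 1) ≤ ∑ x, S x ^ (j + 1) := by
    refine sum_le_sum fun x _ => ?_
    gcongr
    exact single_le_sum (f := fun i => ‖D.Df i F x‖ ^ 2) (fun i _ => by positivity)
      (mem_range.2 (Nat.succ_pos N))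
  have h6 : ∑ x, S x * (‖F x‖ ^ 2) ^ j ≤ (2 * c)⁻¹ * ∑ x, (‖F x‖ ^ 2) ^ (j + 1) +
      (2 * c) ^ j * ∑ x, S x ^ (j + 1) := by
    rw [mul_sum, mul_sum, ← sum_add_distrib]
    refine sum_le_sum fun x _ => ?_
    have := young (hS0 x) (show 0 ≤ ‖F x‖ ^ 2 by positivity) (show 0 < (2 * c)⁻¹ by positivity) j
    rwa [inv_inv] at this
  rw [sum_add_distrib] at h2
  have hc0 : 0 < c := by linarith
  have h7 : ∑ x, (‖F x‖ ^ 2) ^ (j + 1) ≤ ∑ x, S x ^ (j + 1) +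
      c * (((2 * c)⁻¹ * ∑ x, (‖F x‖ ^ 2) ^ (j + 1) + (2 * c) ^ j * ∑ x, S x ^ (j + 1)) +
        ∑ x, S x ^ (j + 1)) := by
    refine h2.trans ?_
    gcongr
    exact h3.trans h6
  have h8 : c * ((2 * c)⁻¹ * ∑ x, (‖F x‖ ^ 2) ^ (j + 1)) = 1 / 2 * ∑ x, (‖F x‖ ^ 2) ^ (j + 1) := by
    field_simp
  have hSS : 0 ≤ ∑ x, S x ^ (j + 1) := sum_nonneg fun x _ => pow_nonneg (hS0 x) _
  have h9 : ∑ x, (‖F x‖ ^ 2) ^ (j + 1) ≤ 2 * (1 + c + c * (2 * c) ^ j) * ∑ x, S x ^ (j + 1) := by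
    nlinarith
  refine h9.trans ?_
  rw [cF3, ← hc]
  gcongr
  linarith

lemma abel_aux (a q : ℕ → ℝ) (ha : ∀ i, 0 ≤ a i) (hq : ∀ i, q i ≤ q (i + 1)) (m : ℕ) :
    ∑ i ∈ range m, (a (i + 1) - a i) * q (i + 1) ≤ a m * q m - a 0 * q 0 := by
  induction m with
  | zero => simp
  | succ m ih =>
    rw [sum_range_succ]
    nlinarith [mul_nonneg (ha m) (sub_nonneg.2 (hq m))]

/-- lower Littlewood-Paley inequality -/
theorem F4 (j N : ℕ) (F : X → V) (hF : D.E N F = F) :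
    ∑ x, (∑ i ∈ range (N + 1), ‖D.Df i F x‖ ^ 2) ^ (j + 1) ≤
      cF1 j * ∑ x, (‖F x‖ ^ 2) ^ (j + 1) := by
  set Q : ℕ → X → ℝ := fun m x => ∑ i ∈ range (m + 1), ‖D.Df i F x‖ ^ 2 with hQ
  have hQ0 : ∀ m x, 0 ≤ Q m x := fun m x => sum_nonneg fun i _ => by positivity
  have hQm : ∀ m x, Q m x ≤ Q (m + 1) x := by
    intro m x
    simp only [hQ]
    rw [sum_range_succ _ (m + 1)]
    linarith [sq_nonneg ‖D.Df (m + 1) F x‖]
  have hQM : ∀ m, D.M m (Q (m + 1)) := by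
    intro m x y hxy
    simp only [hQ]
    refine sum_congr rfl fun i hi => ?_
    have hi' := mem_range.1 hi
    rcases i with _ | i
    · have := (D.norm_Df_zero_M F).mono (Nat.zero_le m) x y hxy
      simp only at this
      rw [this]
    · have := (D.norm_Df_M i F).mono (show i ≤ m by omega) x y hxy
      simp only at this
      rw [this]
  have h1 : ∑ x, Q N x ^ (j + 1) ≤ (j + 1) * ∑ x, ∑ i ∈ range (N + 1), ‖D.Df i F x‖ ^ 2 * Q i x ^ j := by
    rw [mul_sum]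
    exact sum_le_sum fun x _ => pow_sum_le _ (fun i => by positivity) j (N + 1)
  have h2 : ∀ i, ∑ x, ‖D.Df (i + 1) F x‖ ^ 2 * Q (i + 1) x ^ j =
      ∑ x, (‖D.E (i + 1) F x‖ ^ 2 - ‖D.E i F x‖ ^ 2) * Q (i + 1) x ^ j := by
    intro i
    have hM : D.M i (fun x => Q (i + 1) x ^ j) := (hQM i).comp (fun a : ℝ => a ^ j)
    have hlin : ∑ x, Q (i + 1) x ^ j * inner ℝ (D.E i F x) (D.Df (i + 1) F x) = 0 := by
      simp only [Df, inner_sub_right, mul_sub, sum_sub_distrib]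
      rw [D.sum_inner_E hM (D.E_M i F) F,
        D.sum_inner_E (τ := i + 1) (hM.mono (by omega)) ((D.E_M i F).mono (by omega)) F, sub_self]
    have hpt : ∀ x, (‖D.E (i + 1) F x‖ ^ 2 - ‖D.E i F x‖ ^ 2) * Q (i + 1) x ^ j =
        ‖D.Df (i + 1) F x‖ ^ 2 * Q (i + 1) x ^ j +
        2 * (Q (i + 1) x ^ j * inner ℝ (D.E i F x) (D.Df (i + 1) F x)) := by
      intro x
      have hE : D.E (i + 1) F x = D.E i F x + D.Df (i + 1) F x := by simp [Df]
      rw [hE, norm_add_sq_real]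
      ring
    simp only [hpt]
    rw [sum_add_distrib, ← mul_sum, hlin]
    ring
  have h3 : ∑ x, ∑ i ∈ range (N + 1), ‖D.Df i F x‖ ^ 2 * Q i x ^ j ≤
      ∑ x, ‖F x‖ ^ 2 * Q N x ^ j := by
    calc ∑ x, ∑ i ∈ range (N + 1), ‖D.Df i F x‖ ^ 2 * Q i x ^ j
        = ∑ i ∈ range (N + 1), ∑ x, ‖D.Df i F x‖ ^ 2 * Q i x ^ j := sum_comm
      _ = ∑ i ∈ range N, ∑ x, ‖D.Df (i + 1) F x‖ ^ 2 * Q (i + 1) x ^ j +
          ∑ x, ‖D.Df 0 F x‖ ^ 2 * Q 0 x ^ j := sum_range_succ' _ _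
      _ = ∑ i ∈ range N, ∑ x, (‖D.E (i + 1) F x‖ ^ 2 - ‖D.E i F x‖ ^ 2) * Q (i + 1) x ^ j +
          ∑ x, ‖D.E 0 F x‖ ^ 2 * Q 0 x ^ j := by
          congr 1
          exact sum_congr rfl fun i _ => h2 i
      _ = ∑ x, (∑ i ∈ range N, (‖D.E (i + 1) F x‖ ^ 2 - ‖D.E i F x‖ ^ 2) * Q (i + 1) x ^ j +
          ‖D.E 0 F x‖ ^ 2 * Q 0 x ^ j) := by
          rw [sum_comm, ← sum_add_distrib]
      _ ≤ ∑ x, ‖F x‖ ^ 2 * Q N x ^ j := by
          refine sum_le_sum fun x _ => ?_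
          have := abel_aux (fun i => ‖D.E i F x‖ ^ 2) (fun i => Q i x ^ j)
            (fun i => by positivity) (fun i => pow_le_pow_left₀ (hQ0 i x) (hQm i x) j) N
          simp only [hF] at this
          linarith
  have h6 : ∑ x, ‖F x‖ ^ 2 * Q N x ^ j ≤ (2 * (j + 1 : ℝ))⁻¹ * ∑ x, Q N x ^ (j + 1) +
      (2 * (j + 1 : ℝ)) ^ j * ∑ x, (‖F x‖ ^ 2) ^ (j + 1) := by
    rw [mul_sum, mul_sum, ← sum_add_distrib]
    refine sum_le_sum fun x _ => ?_
    have := young (show 0 ≤ ‖F x‖ ^ 2 by positivity) (hQ0 N x)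
      (show 0 < (2 * (j + 1 : ℝ))⁻¹ by positivity) j
    rwa [inv_inv] at this
  have hj : (0:ℝ) < j + 1 := by positivity
  have h7 : ∑ x, Q N x ^ (j + 1) ≤ (1 / 2) * ∑ x, Q N x ^ (j + 1) +
      (j + 1) * (2 * (j + 1 : ℝ)) ^ j * ∑ x, (‖F x‖ ^ 2) ^ (j + 1) := by
    calc ∑ x, Q N x ^ (j + 1) ≤ (j + 1) * ∑ x, ‖F x‖ ^ 2 * Q N x ^ j :=
          h1.trans (mul_le_mul_of_nonneg_left h3 (by positivity))
      _ ≤ (j + 1) * ((2 * (j + 1 : ℝ))⁻¹ * ∑ x, Q N x ^ (j + 1) +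
          (2 * (j + 1 : ℝ)) ^ j * ∑ x, (‖F x‖ ^ 2) ^ (j + 1)) := by gcongr
      _ = _ := by field_simp
  have h8 : ∑ x, Q N x ^ (j + 1) ≤
      2 * ((j + 1) * (2 * (j + 1 : ℝ)) ^ j * ∑ x, (‖F x‖ ^ 2) ^ (j + 1)) := by
    linarith
  calc ∑ x, Q N x ^ (j + 1)
      ≤ 2 * ((j + 1) * (2 * (j + 1 : ℝ)) ^ j * ∑ x, (‖F x‖ ^ 2) ^ (j + 1)) := h8
    _ = _ := by rw [cF1, pow_succ]; ring

end DF

end Pool.Agent.Lib.MP_1ce311_an
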