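import Pool.Agent.Lib.MP_1ce311_an.LPKer

open Finset

namespace Pool.Agent.Lib.MP_1ce311_an

/-! ### martingale differences indexed by integers -/

variable {V : Type*} [NormedAddCommGroup V] [InnerProductSpace ℝ V]

/-- martingale difference operator with integer index -/
noncomputable def DV (L : ℕ) (v : ℤ) (F : Fin (2 ^ L) → V) (x : Fin (2 ^ L)) : V :=
  if 0 ≤ v ∧ v ≤ L then (dyF L).Df v.toNat F x else 0

lemma E_top (L : ℕ) (F : Fin (2 ^ L) → V) : (dyF L).E L F = F := by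
  apply (dyF L).E_eq_of_M
  intro x y h
  have h1 : (x : ℕ) / 2 ^ (L - L) = (y : ℕ) / 2 ^ (L - L) := h
  rw [Nat.sub_self, pow_zero, Nat.div_one, Nat.div_one] at h1
  rw [Fin.ext h1]

lemma Df_add {X : Type} [Fintype X] (D : DF X) (τ : ℕ) (F G : X → V) (x : X) :
    D.Df τ (fun y => F y + G y) x = D.Df τ F x + D.Df τ G x := by
  cases τ with
  | zero => simp only [DF.Df, D.E_add]
  | succ τ => simp only [DF.Df, D.E_add]; abel

lemma E_zero_fun {X : Type} [Fintype X] (D : DF X) (τ : ℕ) (x : X) :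
    D.E τ (fun _ => (0 : V)) x = 0 := by
  simp [DF.E]

lemma Df_zero_fun {X : Type} [Fintype X] (D : DF X) (τ : ℕ) (x : X) :
    D.Df τ (fun _ => (0 : V)) x = 0 := by
  cases τ with
  | zero => simp only [DF.Df, E_zero_fun]
  | succ τ => simp only [DF.Df, E_zero_fun, sub_zero]

lemma Df_sum {X : Type} [Fintype X] (D : DF X) {ι : Type*} (s : Finset ι) (τ : ℕ) (F : ι → X → V)
    (x : X) : D.Df τ (fun y => ∑ i ∈ s, F i y) x = ∑ i ∈ s, D.Df τ (F i) x := by
  cases τ with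
  | zero => simp only [DF.Df, D.E_sum]
  | succ τ => simp only [DF.Df, D.E_sum, sum_sub_distrib]

lemma E_E {X : Type} [Fintype X] (D : DF X) (τ σ : ℕ) (F : X → V) :
    D.E τ (D.E σ F) = D.E (min τ σ) F := by
  rcases le_total τ σ with h | h
  · rw [min_eq_left h, D.E_E_of_le h]
  · rw [min_eq_right h]
    exact D.E_eq_of_M ((D.E_M σ F).mono h)

lemma Df_Df {X : Type} [Fintype X] (D : DF X) (τ σ : ℕ) (F : X → V) (x : X) :
    D.Df τ (D.Df σ F) x = if τ = σ then D.Df τ F x else 0 := by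
  have hE : ∀ τ, D.E τ (D.Df σ F) x = if σ ≤ τ then D.Df σ F x else 0 := by
    intro τ
    cases σ with
    | zero =>
      show D.E τ (D.E 0 F) x = _
      rw [E_E, if_pos (Nat.zero_le _), min_eq_right (Nat.zero_le _)]
      rfl
    | succ σ =>
      have h1 : D.Df (σ + 1) F = fun x => D.E (σ + 1) F x - D.E σ F x := rfl
      rw [h1, D.E_sub, E_E, E_E]
      split_ifs with h
      · rw [min_eq_right h, min_eq_right (by omega)]
      · rw [min_eq_left (by omega), min_eq_left (by omega)]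
        exact sub_self _
  cases τ with
  | zero =>
    show D.E 0 (D.Df σ F) x = _
    rw [hE 0]
    by_cases h : 0 = σ
    · subst h; simp
    · rw [if_neg (by omega), if_neg h]
  | succ τ =>
    show D.E (τ + 1) (D.Df σ F) x - D.E τ (D.Df σ F) x = _
    rw [hE, hE]
    by_cases h : τ + 1 = σ
    · subst h
      rw [if_pos le_rfl, if_neg (by omega), if_pos rfl, sub_zero]
    · rw [if_neg h]
      by_cases h2 : σ ≤ τ
      · rw [if_pos h2, if_pos (by omega), sub_self]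
      · rw [if_neg h2, if_neg (by omega), sub_self]

lemma norm_Df_sq {X : Type} [Fintype X] (D : DF X) (τ : ℕ) (F : X → V) (x : X) :
    ‖D.Df τ F x‖ ^ 2 ≤ 2 * (D.E τ (fun y => ‖F y‖ ^ 2) x + D.E (τ - 1) (fun y => ‖F y‖ ^ 2) x) := by
  have key : ∀ τ, ‖D.E τ F x‖ ^ 2 ≤ D.E τ (fun y => ‖F y‖ ^ 2) x := by
    intro τ
    calc ‖D.E τ F x‖ ^ 2 ≤ (D.E τ (fun y => ‖F y‖) x) ^ 2 := by
          gcongr; exact D.norm_E_le τ F x
      _ ≤ _ := D.E_pow_le τ (fun _ => norm_nonneg _) 2 x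
  have h0 : ∀ τ, 0 ≤ D.E τ (fun y => ‖F y‖ ^ 2) x := fun τ => D.E_nonneg (fun y => by positivity) x
  cases τ with
  | zero =>
    have h1 := key 0
    have h2 := h0 0
    simp only [DF.Df]
    linarith [h0 (0 - 1)]
  | succ τ =>
    simp only [DF.Df, Nat.add_sub_cancel]
    have h1 := key (τ + 1)
    have h2 := key τ
    have h3 := norm_sub_le (D.E (τ + 1) F x) (D.E τ F x)
    have h4 := norm_nonneg (D.E (τ + 1) F x - D.E τ F x)
    nlinarith [sq_nonneg (‖D.E (τ + 1) F x‖ - ‖D.E τ F x‖)]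

/-- constant for the diagonal bound -/
noncomputable def cD (j : ℕ) : ℝ := 4 ^ (j + 1) * (2 * DF.cF1 j)

lemma cF1_pos (j : ℕ) : 0 < DF.cF1 j := by unfold DF.cF1; positivity

/-- diagonal square function bound for martingale differences -/
theorem Q_D (L j : ℕ) (v : ℤ) (a : ℕ → Fin (2 ^ L) → V) :
    ∑ x, (∑ σ ∈ range (L + 1), ‖DV L (σ + v) (a σ) x‖ ^ 2) ^ (j + 1) ≤
      cD j * ∑ x, (∑ σ ∈ range (L + 1), ‖a σ x‖ ^ 2) ^ (j + 1) := by
  set D := dyF L with hD
  set u : ℕ → Fin (2 ^ L) → ℝ := fun σ y => ‖a σ y‖ ^ 2 with hu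
  have hu0 : ∀ σ y, 0 ≤ u σ y := fun σ y => by positivity
  set t1 : ℕ → ℕ := fun σ => ((σ : ℤ) + v).toNat with ht1
  set t2 : ℕ → ℕ := fun σ => ((σ : ℤ) + v).toNat - 1 with ht2
  have hm1 : Monotone t1 := fun a b h => Int.toNat_le_toNat (by simpa using h)
  have hm2 : Monotone t2 := fun a b h => Nat.sub_le_sub_right (hm1 h) 1
  set A : Fin (2 ^ L) → ℝ := fun x => ∑ σ ∈ range (L + 1), D.E (t1 σ) (u σ) x with hA
  set B : Fin (2 ^ L) → ℝ := fun x => ∑ σ ∈ range (L + 1), D.E (t2 σ) (u σ) x with hB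
  have hA0 : ∀ x, 0 ≤ A x := fun x => sum_nonneg fun σ _ => D.E_nonneg (hu0 σ) x
  have hB0 : ∀ x, 0 ≤ B x := fun x => sum_nonneg fun σ _ => D.E_nonneg (hu0 σ) x
  have h1 : ∀ x, ∑ σ ∈ range (L + 1), ‖DV L (σ + v) (a σ) x‖ ^ 2 ≤ 2 * (A x + B x) := by
    intro x
    rw [hA, hB]
    simp only
    rw [← sum_add_distrib, mul_sum]
    refine sum_le_sum fun σ _ => ?_
    unfold DV
    split_ifs with h
    · exact norm_Df_sq D (t1 σ) (a σ) x
    · have e1 := D.E_nonneg (τ := t1 σ) (hu0 σ) x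
      have e2 := D.E_nonneg (τ := t2 σ) (hu0 σ) x
      rw [norm_zero]
      have : 0 ≤ 2 * (D.E (t1 σ) (u σ) x + D.E (t2 σ) (u σ) x) := by linarith
      simpa using this
  set Z := ∑ x, (∑ σ ∈ range (L + 1), u σ x) ^ (j + 1) with hZ
  have hAs : ∑ x, A x ^ (j + 1) ≤ DF.cF1 j * Z := D.F1 j (L + 1) _ hm1 u hu0
  have hBs : ∑ x, B x ^ (j + 1) ≤ DF.cF1 j * Z := D.F1 j (L + 1) _ hm2 u hu0
  calc ∑ x, (∑ σ ∈ range (L + 1), ‖DV L (σ + v) (a σ) x‖ ^ 2) ^ (j + 1)
      ≤ ∑ x, (2 * (A x + B x)) ^ (j + 1) := by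
        gcongr with x _
        exact h1 x
    _ ≤ ∑ x, 2 ^ (j + 1) * (2 ^ (j + 1) * (A x ^ (j + 1) + B x ^ (j + 1))) := by
        refine sum_le_sum fun x _ => ?_
        rw [mul_pow]
        exact mul_le_mul_of_nonneg_left (DF.add_pow_le_two (hA0 x) (hB0 x) (j + 1)) (by positivity)
    _ = 4 ^ (j + 1) * (∑ x, A x ^ (j + 1) + ∑ x, B x ^ (j + 1)) := by
        rw [← mul_sum, ← mul_sum, sum_add_distrib, ← mul_assoc, ← mul_pow]
        norm_num
    _ ≤ 4 ^ (j + 1) * (DF.cF1 j * Z + DF.cF1 j * Z) := by gcongr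
    _ = cD j * Z := by rw [cD]; ring

/-- `Df i` of a shifted family -/
lemma Df_synth (L : ℕ) (v : ℤ) (a : ℕ → Fin (2 ^ L) → V) (i : ℕ) (x : Fin (2 ^ L)) :
    (dyF L).Df i (fun y => ∑ σ ∈ range (L + 1), DV L (σ + v) (a σ) y) x =
      ∑ σ ∈ range (L + 1), if (σ : ℤ) + v = i then DV L (σ + v) (a σ) x else 0 := by
  rw [Df_sum]
  refine sum_congr rfl fun σ _ => ?_
  by_cases h : 0 ≤ (σ : ℤ) + v ∧ (σ : ℤ) + v ≤ L
  · have e1 : DV L (σ + v) (a σ) = (dyF L).Df ((σ : ℤ) + v).toNat (a σ) := by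
      funext y; rw [DV, if_pos h]
    rw [e1, Df_Df]
    by_cases h2 : (σ : ℤ) + v = i
    · rw [if_pos h2, if_pos (by omega)]
      have : i = ((σ : ℤ) + v).toNat := by omega
      rw [this]
    · rw [if_neg h2, if_neg (by omega)]
  · have e1 : DV L (σ + v) (a σ) = fun _ => 0 := by
      funext y; rw [DV, if_neg h]
    rw [e1, Df_zero_fun]
    simp

/-- synthesis bound -/
theorem Syn_bd (L j : ℕ) (v : ℤ) (a : ℕ → Fin (2 ^ L) → V) :
    ∑ x, (‖∑ σ ∈ range (L + 1), DV L (σ + v) (a σ) x‖ ^ 2) ^ (j + 1) ≤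
      DF.cF3 j * ∑ x, (∑ σ ∈ range (L + 1), ‖DV L (σ + v) (a σ) x‖ ^ 2) ^ (j + 1) := by
  have h := (dyF L).F3 j L (fun x => ∑ σ ∈ range (L + 1), DV L (σ + v) (a σ) x) (E_top L _)
  refine h.trans ?_
  have hc : 0 ≤ DF.cF3 j := by
    have := DF.cT_pos j
    unfold DF.cF3
    positivity
  refine mul_le_mul_of_nonneg_left (sum_le_sum fun x _ => ?_) hc
  refine pow_le_pow_left₀ (sum_nonneg fun i _ => by positivity) ?_ _
  simp only [Df_synth]
  calc ∑ i ∈ range (L + 1), ‖∑ σ ∈ range (L + 1), if (σ : ℤ) + v = i then DV L (σ + v) (a σ) x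
          else 0‖ ^ 2
      ≤ ∑ i ∈ range (L + 1), ∑ σ ∈ range (L + 1), if (σ : ℤ) + v = i then
          ‖DV L (σ + v) (a σ) x‖ ^ 2 else 0 := by
        refine sum_le_sum fun i _ => ?_
        by_cases hex : ∃ σ ∈ range (L + 1), (σ : ℤ) + v = i
        · obtain ⟨σ, hσ, h1⟩ := hex
          rw [sum_eq_single_of_mem σ hσ (fun b _ hb => if_neg (by omega)),
            sum_eq_single_of_mem σ hσ (fun b _ hb => if_neg (by omega)), if_pos h1, if_pos h1]
        · push Not at hex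
          rw [sum_eq_zero (fun σ hσ => if_neg (hex σ hσ)), sum_eq_zero (fun σ hσ => if_neg (hex σ hσ))]
          simp
    _ = ∑ σ ∈ range (L + 1), ∑ i ∈ range (L + 1), if (σ : ℤ) + v = i then
          ‖DV L (σ + v) (a σ) x‖ ^ 2 else 0 := sum_comm
    _ ≤ ∑ σ ∈ range (L + 1), ‖DV L (σ + v) (a σ) x‖ ^ 2 := by
        refine sum_le_sum fun σ _ => ?_
        by_cases hex : ∃ i ∈ range (L + 1), (σ : ℤ) + v = i
        · obtain ⟨i, hi, h1⟩ := hex
          rw [sum_eq_single_of_mem i hi (fun b _ hb => if_neg (by omega)), if_pos h1]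
        · push Not at hex
          rw [sum_eq_zero (fun i hi => if_neg (hex i hi))]
          positivity

/-- analysis bound -/
theorem Ana_bd (L j : ℕ) (v : ℤ) (F : Fin (2 ^ L) → V) :
    ∑ x, (∑ σ ∈ range (L + 1), ‖DV L (σ + v) F x‖ ^ 2) ^ (j + 1) ≤
      DF.cF1 j * ∑ x, (‖F x‖ ^ 2) ^ (j + 1) := by
  have h := (dyF L).F4 j L F (E_top L _)
  refine le_trans ?_ h
  refine sum_le_sum fun x _ => ?_
  refine pow_le_pow_left₀ (sum_nonneg fun i _ => by positivity) ?_ _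
  calc ∑ σ ∈ range (L + 1), ‖DV L (σ + v) F x‖ ^ 2
      ≤ ∑ σ ∈ range (L + 1), ∑ i ∈ range (L + 1), if (σ : ℤ) + v = i then
          ‖(dyF L).Df i F x‖ ^ 2 else 0 := by
        refine sum_le_sum fun σ _ => ?_
        unfold DV
        split_ifs with h1
        · refine le_trans (le_of_eq ?_) (single_le_sum (f := fun i : ℕ => if (σ : ℤ) + v = i then
            ‖(dyF L).Df i F x‖ ^ 2 else 0) (fun i _ => by positivity)
            (mem_range.2 (show ((σ : ℤ) + v).toNat < L + 1 by omega)))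
          rw [if_pos (by omega)]
        · rw [norm_zero]
          simp only [ne_eq, OfNat.ofNat_ne_zero, not_false_eq_true, zero_pow]
          exact sum_nonneg fun i _ => by positivity
    _ = ∑ i ∈ range (L + 1), ∑ σ ∈ range (L + 1), if (σ : ℤ) + v = i then
          ‖(dyF L).Df i F x‖ ^ 2 else 0 := sum_comm
    _ ≤ ∑ i ∈ range (L + 1), ‖(dyF L).Df i F x‖ ^ 2 := by
        refine sum_le_sum fun i _ => ?_
        by_cases hex : ∃ σ ∈ range (L + 1), (σ : ℤ) + v = i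
        · obtain ⟨σ, hσ, h1⟩ := hex
          rw [sum_eq_single_of_mem σ hσ (fun b _ hb => if_neg (by omega)), if_pos h1]
        · push Not at hex
          rw [sum_eq_zero (fun σ hσ => if_neg (hex σ hσ))]
          positivity

/-! ### matrices and `ℓ²` bounds -/

section matrices

variable {X : Type} [Fintype X]

/-- composition of matrices -/
def mm (K K' : X → X → ℝ) (x y : X) : ℝ := ∑ z, K x z * K' z y

/-- application of a matrix -/
def ap (K : X → X → ℝ) (f : X → ℝ) (x : X) : ℝ := ∑ y, K x y * f y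

lemma ap_mm (K K' : X → X → ℝ) (f : X → ℝ) : ap (mm K K') f = ap K (ap K' f) := by
  funext x
  simp only [ap, mm, sum_mul, mul_sum]
  rw [sum_comm]
  exact sum_congr rfl fun z _ => sum_congr rfl fun y _ => by ring

lemma mm_assoc (K K' K'' : X → X → ℝ) : mm (mm K K') K'' = mm K (mm K' K'') := by
  funext x y
  simp only [mm, sum_mul, mul_sum]
  rw [sum_comm]
  exact sum_congr rfl fun z _ => sum_congr rfl fun y _ => by ring

/-- `ℓ²` operator bound -/
def L2B (K : X → X → ℝ) (B : ℝ) : Prop := ∀ f : X → ℝ, ∑ x, (ap K f x) ^ 2 ≤ B * ∑ x, (f x) ^ 2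

lemma L2B.mm {K K' : X → X → ℝ} {B B' : ℝ} (hB : 0 ≤ B) (h : L2B K B) (h' : L2B K' B') :
    L2B (mm K K') (B * B') := by
  intro f
  rw [ap_mm]
  refine (h _).trans ?_
  rw [mul_assoc]
  exact mul_le_mul_of_nonneg_left (h' f) hB

lemma L2B.mono {K : X → X → ℝ} {B B' : ℝ} (h : L2B K B) (hle : B ≤ B') : L2B K B' :=
  fun f => (h f).trans (mul_le_mul_of_nonneg_right hle (sum_nonneg fun x _ => by positivity))

lemma L2B.sub {K K' : X → X → ℝ} {B B' : ℝ} (h : L2B K B) (h' : L2B K' B') :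
    L2B (fun x y => K x y - K' x y) (2 * (B + B')) := by
  intro f
  have e : ∀ x, ap (fun x y => K x y - K' x y) f x = ap K f x - ap K' f x := by
    intro x; simp only [ap, sub_mul, sum_sub_distrib]
  calc ∑ x, (ap (fun x y => K x y - K' x y) f x) ^ 2
      ≤ ∑ x, (2 * ((ap K f x) ^ 2 + (ap K' f x) ^ 2)) := by
        refine sum_le_sum fun x _ => ?_
        rw [e]
        nlinarith [sq_nonneg (ap K f x + ap K' f x)]
    _ = 2 * (∑ x, (ap K f x) ^ 2 + ∑ x, (ap K' f x) ^ 2) := by rw [← mul_sum, sum_add_distrib]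
    _ ≤ 2 * (B * ∑ x, (f x) ^ 2 + B' * ∑ x, (f x) ^ 2) := by
        have := h f; have := h' f
        linarith
    _ = _ := by ring

/-- Schur test -/
lemma schur {K : X → X → ℝ} {R C : ℝ} (hR : 0 ≤ R) (hrow : ∀ x, ∑ y, |K x y| ≤ R)
    (hcol : ∀ y, ∑ x, |K x y| ≤ C) : L2B K (R * C) := by
  intro f
  have h1 : ∀ x, (ap K f x) ^ 2 ≤ R * ∑ y, |K x y| * (f y) ^ 2 := by
    intro x
    have h2 : |ap K f x| ≤ ∑ y, |K x y| * |f y| := by
      refine (abs_sum_le_sum_abs _ _).trans (le_of_eq ?_)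
      simp only [abs_mul]
    have h3 : (∑ y, |K x y| * |f y|) ^ 2 ≤ (∑ y, |K x y|) * ∑ y, |K x y| * (f y) ^ 2 := by
      have := wj univ (fun y => |K x y|) (fun y => |f y|) (fun y _ => abs_nonneg _)
        (fun y _ => abs_nonneg _) 1
      simpa using this
    calc (ap K f x) ^ 2 = |ap K f x| ^ 2 := (sq_abs _).symm
      _ ≤ (∑ y, |K x y| * |f y|) ^ 2 := by gcongr
      _ ≤ _ := h3
      _ ≤ _ := mul_le_mul_of_nonneg_right (hrow x) (sum_nonneg fun y _ => by positivity)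
  calc ∑ x, (ap K f x) ^ 2 ≤ ∑ x, R * ∑ y, |K x y| * (f y) ^ 2 := sum_le_sum fun x _ => h1 x
    _ = R * ∑ y, (∑ x, |K x y|) * (f y) ^ 2 := by
        rw [← mul_sum, sum_comm]
        simp only [sum_mul]
    _ ≤ R * ∑ y, C * (f y) ^ 2 := by
        refine mul_le_mul_of_nonneg_left (sum_le_sum fun y _ => ?_) hR
        exact mul_le_mul_of_nonneg_right (hcol y) (by positivity)
    _ = R * C * ∑ x, (f x) ^ 2 := by rw [← mul_sum]; ring

end matrices

/-- matrix of `E τ` -/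
noncomputable def EM (L τ : ℕ) (x y : Fin (2 ^ L)) : ℝ :=
  if (dyF L).b τ y = (dyF L).b τ x then ((dyF L).n τ : ℝ)⁻¹ else 0

lemma sum_EM_smul (L τ : ℕ) (F : Fin (2 ^ L) → V) (x : Fin (2 ^ L)) :
    ∑ y, EM L τ x y • F y = (dyF L).E τ F x := by
  simp only [EM, DF.E, ite_smul, zero_smul]
  rw [← sum_filter, smul_sum]

lemma ap_EM (L τ : ℕ) (f : Fin (2 ^ L) → ℝ) : ap (EM L τ) f = (dyF L).E τ f := by
  funext x
  exact sum_EM_smul L τ f x

lemma EM_symm (L τ : ℕ) (x y : Fin (2 ^ L)) : EM L τ x y = EM L τ y x := by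
  simp only [EM, eq_comm]

/-- matrix of the martingale difference with integer index -/
noncomputable def DM (L : ℕ) (v : ℤ) (x y : Fin (2 ^ L)) : ℝ :=
  if 0 ≤ v ∧ v ≤ L then
    (if v = 0 then EM L 0 x y else EM L v.toNat x y - EM L (v.toNat - 1) x y) else 0

lemma sum_DM_smul (L : ℕ) (v : ℤ) (F : Fin (2 ^ L) → V) (x : Fin (2 ^ L)) :
    ∑ y, DM L v x y • F y = DV L v F x := by
  unfold DM DV
  split_ifs with h1 h2
  · subst h2
    simp only [Int.toNat_zero, DF.Df]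
    exact sum_EM_smul L 0 F x
  · obtain ⟨m, hm⟩ : ∃ m, v.toNat = m + 1 := ⟨v.toNat - 1, by omega⟩
    rw [hm]
    simp only [Nat.add_sub_cancel, sub_smul, sum_sub_distrib, DF.Df]
    rw [sum_EM_smul, sum_EM_smul]
  · simp

lemma ap_DM (L : ℕ) (v : ℤ) (f : Fin (2 ^ L) → ℝ) : ap (DM L v) f = DV L v f := by
  funext x
  exact sum_DM_smul L v f x

lemma DV_DV (L : ℕ) (v : ℤ) (F : Fin (2 ^ L) → V) : DV L v (DV L v F) = DV L v F := by
  funext x
  unfold DV
  split_ifs with h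
  · have : (fun x => if 0 ≤ v ∧ v ≤ L then (dyF L).Df v.toNat F x else 0) =
      (dyF L).Df v.toNat F := by funext y; rw [if_pos h]
    simp only [if_pos h] at this ⊢
    rw [show (fun x => (dyF L).Df v.toNat F x) = (dyF L).Df v.toNat F from rfl, Df_Df, if_pos rfl]
  · rfl

lemma ext_ap {X : Type} [Fintype X] {K K' : X → X → ℝ} (h : ∀ f, ap K f = ap K' f) : K = K' := by
  classical
  funext x y
  have := congrFun (h (Pi.single y 1)) x
  simpa [ap, Pi.single_apply] using this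

lemma mm_DM_DM (L : ℕ) (v : ℤ) : mm (DM L v) (DM L v) = DM L v := by
  apply ext_ap
  intro f
  rw [ap_mm, ap_DM, ap_DM, DV_DV]

lemma L2B_EM (L τ : ℕ) : L2B (EM L τ) 1 := by
  have hE : ∀ x, ∑ y, |EM L τ x y| ≤ 1 := by
    intro x
    have h1 : ∀ y, |EM L τ x y| = EM L τ x y * 1 := by
      intro y
      rw [mul_one, abs_of_nonneg]
      unfold EM
      split_ifs <;> positivity
    simp only [h1]
    have := congrFun (ap_EM L τ (fun _ => 1)) x
    rw [ap] at this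
    rw [this, (dyF L).E_eq_of_M (fun _ _ _ => rfl)]
  have h := schur (K := EM L τ) zero_le_one hE (fun y => by
    simp only [EM_symm L τ _ y]
    exact hE y)
  rwa [one_mul] at h

lemma L2B_DM (L : ℕ) (v : ℤ) : L2B (DM L v) 4 := by
  by_cases h : 0 ≤ v ∧ v ≤ L
  · by_cases h0 : v = 0
    · have : DM L v = EM L 0 := by
        funext x y; simp [DM, h0]
      rw [this]
      exact (L2B_EM L 0).mono (by norm_num)
    · have : DM L v = fun x y => EM L v.toNat x y - EM L (v.toNat - 1) x y := by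
        funext x y; simp [DM, h0, h]
      rw [this]
      exact ((L2B_EM L _).sub (L2B_EM L _)).mono (by norm_num)
  · intro f
    have : DM L v = fun _ _ => 0 := by
      funext x y; simp only [DM, if_neg h]
    rw [this]
    simp only [ap, zero_mul, sum_const_zero, ne_eq, OfNat.ofNat_ne_zero, not_false_eq_true, zero_pow]
    positivity

end Pool.Agent.Lib.MP_1ce311_an
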