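import Pool.Agent.Lib.MP_1ce311_an.LPId

open Finset

namespace Pool.Agent.Lib.MP_1ce311_an

/-- one-dimensional package for the first engine -/
def Pack1 : Prop := ∀ (k : ℕ), 1 ≤ k → ∀ (C r : ℝ), 0 < r → ∃ c : ℝ, 0 ≤ c ∧ ∀ L : ℕ,
  ∃ ε : Fin (L + 1) × Fin (2 * L + 1) → ℝ, (∀ p, 0 ≤ ε p) ∧
    (∑ p, (ε p) ^ (1 / (4 * k) : ℝ) ≤ c) ∧
  ∃ S : Fin (L + 1) × Fin (2 * L + 1) → Fin (L + 1) → Fin (2 ^ L) → Fin (2 ^ L) → ℝ,
    (∀ p, VBdd k c (fun (_ : Unit) (x : Fin (2 ^ L)) (s : Fin (L + 1)) (y : Fin (2 ^ L)) =>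
      S p s x y)) ∧
  ∀ w, Ker L C r w → ∃ A : Fin (L + 1) × Fin (2 * L + 1) → Fin (L + 1) → Fin (2 ^ L) → Unit →
      Fin (2 ^ L) → ℝ,
    (∀ p, VBdd (2 * k - 1) c (A p)) ∧ (∀ p, VBdd 1 (c * ε p) (A p)) ∧
    ∀ (s : Fin (L + 1)) x i y, Tk L w s x y = ∑ p, ∑ z, S p s x z * A p s z i y

/-- one-dimensional package for the second engine -/
def Pack2 : Prop := ∀ (k : ℕ), 1 ≤ k → ∀ (C r : ℝ), 0 < r → ∃ c : ℝ, 0 ≤ c ∧ ∀ L : ℕ,
  ∃ ε : Fin (2 * L + 1) → ℝ, (∀ p, 0 ≤ ε p) ∧ (∑ p, (ε p) ^ (1 / (4 * k) : ℝ) ≤ c) ∧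
  ∃ S : Fin (2 * L + 1) → Fin (L + 1) → Fin (2 ^ L) → Fin (2 ^ L) → ℝ,
    (∀ p, VBdd k c (fun (_ : Unit) (x : Fin (2 ^ L)) (s : Fin (L + 1)) (y : Fin (2 ^ L)) =>
      S p s x y)) ∧
  ∀ w, Ker L C r w → ∃ A : Fin (2 * L + 1) → Fin (L + 1) → Fin (2 ^ L) → Fin (L + 1) →
      Fin (2 ^ L) → ℝ,
    (∀ p, VBdd (2 * k - 1) c (A p)) ∧ (∀ p, VBdd 1 (c * ε p) (A p)) ∧
    ∀ (s : Fin (L + 1)) x (i : Fin (L + 1)) y,
      (if i = s then Tk L w s x y else 0) = ∑ p, ∑ z, S p s x z * A p s z i y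

lemma Ker.C_nonneg {L : ℕ} {C r : ℝ} {w : ℕ → ℤ → ℝ} (hw : Ker L C r w) : 0 ≤ C := by
  have h := hw.decay 0 (Nat.zero_le _) 0 (by positivity)
  simp only [Nat.cast_zero, zero_div, add_zero, Real.one_rpow, mul_one] at h
  exact (abs_nonneg _).trans h

lemma sum_two_sided {t : ℝ} (h0 : 0 ≤ t) (h1 : t < 1) (L : ℕ) :
    ∑ q ∈ range (2 * L + 1), t ^ ((q : ℤ) - L).natAbs ≤ 2 * (1 - t)⁻¹ := by
  have e : 2 * L + 1 = L + (L + 1) := by ring
  rw [e, sum_range_add]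
  have a1 : ∑ q ∈ range L, t ^ ((q : ℤ) - L).natAbs ≤ (1 - t)⁻¹ := by
    rw [← sum_range_reflect]
    calc ∑ j ∈ range L, t ^ (((L - 1 - j : ℕ) : ℤ) - L).natAbs ≤ ∑ j ∈ range L, t ^ j := by
          refine sum_le_sum fun j hj => ?_
          rw [mem_range] at hj
          exact pow_le_pow_of_le_one h0 h1.le (by omega)
      _ ≤ _ := geom_le h0 h1 L
  have a2 : ∑ x ∈ range (L + 1), t ^ (((L + x : ℕ) : ℤ) - L).natAbs ≤ (1 - t)⁻¹ := by
    calc ∑ x ∈ range (L + 1), t ^ (((L + x : ℕ) : ℤ) - L).natAbs = ∑ x ∈ range (L + 1), t ^ x := by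
          refine sum_congr rfl fun x _ => ?_
          congr 1
          omega
      _ ≤ _ := geom_le h0 h1 _
  linarith

lemma rpow_aux {s : ℝ} (hs : 0 ≤ s) (n : ℕ) (a : ℝ) : (s ^ n) ^ a = (s ^ a) ^ n := by
  rw [← Real.rpow_natCast, ← Real.rpow_natCast, ← Real.rpow_mul hs, ← Real.rpow_mul hs, mul_comm]

theorem pack1 : Pack1 := by
  intro k hk C r hr
  obtain ⟨j, rfl⟩ : ∃ j, k = j + 1 := ⟨k - 1, by omega⟩
  set s := Real.sqrt (lam r) with hs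
  have hs0 : 0 < s := Real.sqrt_pos.2 (lam_pos r)
  have hs1 : s < 1 := by
    rw [hs, Real.sqrt_lt' one_pos, one_pow]
    exact lam_lt hr
  set t := s ^ (1 / (4 * ((j + 1 : ℕ) : ℝ))) with ht
  have ht0 : 0 ≤ t := by positivity
  have ht1 : t < 1 := Real.rpow_lt_one hs0.le hs1 (by positivity)
  have hti : 0 < (1 - t)⁻¹ := inv_pos.2 (by linarith)
  have hC : 0 ≤ |C| := abs_nonneg C
  have hF3 := cF3_nonneg j
  have hD1 := cD_nonneg j
  have hD2 := cD_nonneg (2 * j)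
  have hQ2 := cQ_nonneg (C := |C|) hr (2 * j)
  have hF1 := (cF1_pos (2 * j)).le
  have hF10 := (cF1_pos 0).le
  have hB := cB_nonneg (C := |C|) hr hC
  set c1 := DF.cF3 j * cD j with hc1
  set c2 := cD (2 * j) * (cQ |C| r (2 * j) * DF.cF1 (2 * j)) with hc2
  set c3 := 4 * cB |C| r * DF.cF1 0 with hc3
  set c4 := (1 - t)⁻¹ * (2 * (1 - t)⁻¹) with hc4
  have h1 : 0 ≤ c1 := by positivity
  have h2 : 0 ≤ c2 := by positivity
  have h3 : 0 ≤ c3 := by positivity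
  have h4 : 0 ≤ c4 := by positivity
  refine ⟨c1 + c2 + c3 + c4, by positivity, fun L => ?_⟩
  refine ⟨fun p => s ^ ((p.1 : ℕ) + (((p.2 : ℕ) : ℤ) - L).natAbs), fun p => by positivity, ?_, ?_⟩
  · refine le_trans ?_ (show c4 ≤ c1 + c2 + c3 + c4 by linarith)
    rw [Fintype.sum_prod_type]
    have e : ∀ (u : Fin (L + 1)) (q : Fin (2 * L + 1)),
        (s ^ ((u : ℕ) + (((q : ℕ) : ℤ) - L).natAbs)) ^ (1 / (4 * ((j + 1 : ℕ) : ℝ))) =
        t ^ (u : ℕ) * t ^ (((q : ℕ) : ℤ) - L).natAbs := by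
      intro u q
      rw [rpow_aux hs0.le, ← ht, pow_add]
    simp only [e]
    rw [← sum_mul_sum]
    refine mul_le_mul ?_ ?_ (sum_nonneg fun q _ => by positivity) hti.le
    · rw [← sum_range (fun u => t ^ u)]
      exact geom_le ht0 ht1 _
    · rw [← sum_range (fun q => t ^ ((q : ℤ) - L).natAbs)]
      exact sum_two_sided ht0 ht1 L
  · refine ⟨fun p s' x z => DM L ((s' : ℕ) + (((p.2 : ℕ) : ℤ) - L)) x z, fun p => ?_, fun w hw => ?_⟩
    · exact (VBdd_S L j _).mono (by linarith)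
    · have hC0 := hw.C_nonneg
      have hCe : |C| = C := abs_of_nonneg hC0
      refine ⟨fun p s' x _ y => Th3 L w p.1 (((p.2 : ℕ) : ℤ) - L) (s' : ℕ) x y, fun p => ?_,
        fun p => ?_, ?_⟩
      · have := VBdd_A hw hr hC0 (2 * j) (p.1 : ℕ) (((p.2 : ℕ) : ℤ) - L)
        rw [show 2 * (j + 1) - 1 = 2 * j + 1 by omega]
        refine this.mono ?_
        rw [← hCe, ← hc2]
        linarith
      · have := VBdd_A1 hw hr hC0 (p.1 : ℕ) (((p.2 : ℕ) : ℤ) - L)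
        refine this.mono ?_
        have hp : 0 ≤ s ^ ((p.1 : ℕ) + (((p.2 : ℕ) : ℤ) - L).natAbs) := by positivity
        calc 4 * cB C r * s ^ ((p.1 : ℕ) + (((p.2 : ℕ) : ℤ) - L).natAbs) * DF.cF1 0
            = c3 * s ^ ((p.1 : ℕ) + (((p.2 : ℕ) : ℤ) - L).natAbs) := by rw [hc3, hCe]; ring
          _ ≤ _ := mul_le_mul_of_nonneg_right (by linarith) hp
      · intro s' x i y
        rw [Tk_decomp1 (Nat.lt_succ_iff.1 s'.2) x y, Fintype.sum_prod_type, sum_range]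
        refine sum_congr rfl fun u _ => ?_
        rw [sum_range]

theorem pack2 : Pack2 := by
  intro k hk C r hr
  obtain ⟨j, rfl⟩ : ∃ j, k = j + 1 := ⟨k - 1, by omega⟩
  set s := lam r with hs
  have hs0 : 0 < s := lam_pos r
  have hs1 : s < 1 := lam_lt hr
  set t := s ^ (1 / (4 * ((j + 1 : ℕ) : ℝ))) with ht
  have ht0 : 0 ≤ t := by positivity
  have ht1 : t < 1 := Real.rpow_lt_one hs0.le hs1 (by positivity)
  have hti : 0 < (1 - t)⁻¹ := inv_pos.2 (by linarith)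
  have hC : 0 ≤ |C| := abs_nonneg C
  have hF3 := cF3_nonneg j
  have hD1 := cD_nonneg j
  have hD2 := cD_nonneg (2 * j)
  have hQ2 := cQ_nonneg (C := |C|) hr (2 * j)
  have hB := cB_nonneg (C := |C|) hr hC
  set c1 := DF.cF3 j * cD j with hc1
  set c2 := cD (2 * j) * cQ |C| r (2 * j) with hc2
  set c3 := cB |C| r with hc3
  set c4 := 2 * (1 - t)⁻¹ with hc4
  have h1 : 0 ≤ c1 := by positivity
  have h2 : 0 ≤ c2 := by positivity
  have h3 : 0 ≤ c3 := hB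
  have h4 : 0 ≤ c4 := by positivity
  refine ⟨c1 + c2 + c3 + c4, by positivity, fun L => ?_⟩
  refine ⟨fun p => s ^ (((p : ℕ) : ℤ) - L).natAbs, fun p => by positivity, ?_, ?_⟩
  · refine le_trans ?_ (show c4 ≤ c1 + c2 + c3 + c4 by linarith)
    have e : ∀ (q : Fin (2 * L + 1)),
        (s ^ (((q : ℕ) : ℤ) - L).natAbs) ^ (1 / (4 * ((j + 1 : ℕ) : ℝ))) =
        t ^ (((q : ℕ) : ℤ) - L).natAbs := by
      intro q
      rw [rpow_aux hs0.le, ← ht]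
    simp only [e]
    rw [← sum_range (fun q => t ^ ((q : ℤ) - L).natAbs)]
    exact sum_two_sided ht0 ht1 L
  · refine ⟨fun p s' x z => DM L ((s' : ℕ) + (((p : ℕ) : ℤ) - L)) x z, fun p => ?_, fun w hw => ?_⟩
    · exact (VBdd_S L j _).mono (by linarith)
    · have hC0 := hw.C_nonneg
      have hCe : |C| = C := abs_of_nonneg hC0
      refine ⟨fun p s' x i y => if i = s' then mm (DM L ((s' : ℕ) + (((p : ℕ) : ℤ) - L)))
        (Tk L w s') x y else 0, fun p => ?_, fun p => ?_, ?_⟩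
      · have := VBdd_B hw hr hC0 (2 * j) (((p : ℕ) : ℤ) - L)
        rw [show 2 * (j + 1) - 1 = 2 * j + 1 by omega]
        refine this.mono ?_
        rw [← hCe, ← hc2]
        linarith
      · have := VBdd_B1 hw hr hC0 (((p : ℕ) : ℤ) - L)
        refine this.mono ?_
        have hp : 0 ≤ s ^ (((p : ℕ) : ℤ) - L).natAbs := by positivity
        calc cB C r * s ^ (((p : ℕ) : ℤ) - L).natAbs
            = c3 * s ^ (((p : ℕ) : ℤ) - L).natAbs := by rw [hc3, hCe]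
          _ ≤ _ := mul_le_mul_of_nonneg_right (by linarith) hp
      · intro s' x i y
        by_cases hi : i = s'
        · subst hi
          simp only [if_true]
          rw [Tk_decomp2 (Nat.lt_succ_iff.1 i.2) x y, sum_range]
        · simp [hi]

end Pool.Agent.Lib.MP_1ce311_an
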