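import Pool.Agent.Lib.MP_1ce311_an.Defs

namespace Pool.Agent.Lib.MP_1ce311_an

open scoped BigOperators ENNReal
open MeasureTheory Filter Topology

noncomputable section

theorem om_tail_step (β : ℝ) (h0 : 0 ≤ β) (h1 : β < 1) (j : ℕ) (hj : 1 ≤ j) :
    (j : ℝ) ^ (β - 2) ≤ 2 / (1 - β) * ((j : ℝ) ^ (β - 1) - ((j + 1 : ℕ) : ℝ) ^ (β - 1)) := by
  have hj' : (1 : ℝ) ≤ j := by exact_mod_cast hj
  have hj0 : (0 : ℝ) < j := by linarith
  have hs : (-1 : ℝ) ≤ -(1 / ((j : ℝ) + 1)) := by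
    have : 1 / ((j : ℝ) + 1) ≤ 1 := by
      rw [div_le_one (by linarith)]
      linarith
    linarith
  have h2 := rpow_one_add_le_one_add_mul_self hs (p := 1 - β) (by linarith) (by linarith)
  have h3 : (1 : ℝ) + -(1 / ((j : ℝ) + 1)) = j / (j + 1) := by
    field_simp
    ring
  rw [h3, Real.div_rpow hj0.le (by linarith)] at h2
  have h4 : ((j : ℝ) + 1) ^ (β - 1) = (j : ℝ) ^ (β - 1) * ((j : ℝ) ^ (1 - β) / ((j : ℝ) + 1) ^ (1 - β)) := by
    rw [show β - 1 = -(1 - β) by ring, Real.rpow_neg hj0.le, Real.rpow_neg (by linarith)]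
    have : (j : ℝ) ^ (1 - β) ≠ 0 := (Real.rpow_pos_of_pos hj0 _).ne'
    field_simp
  have h5 : (0 : ℝ) < (j : ℝ) ^ (β - 1) := Real.rpow_pos_of_pos hj0 _
  have h6 : (j : ℝ) ^ (β - 2) = (j : ℝ) ^ (β - 1) / j := by
    rw [show β - 2 = (β - 1) - 1 by ring, Real.rpow_sub_one hj0.ne']
  push_cast
  rw [h4, h6]
  have h7 : (j : ℝ) ^ (β - 1) * ((j : ℝ) ^ (1 - β) / ((j : ℝ) + 1) ^ (1 - β)) ≤
      (j : ℝ) ^ (β - 1) * (1 + (1 - β) * -(1 / ((j : ℝ) + 1))) :=
    mul_le_mul_of_nonneg_left h2 h5.le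
  have h8 : (1 - β) * ((j : ℝ) ^ (β - 1) / (2 * j)) ≤
      (j : ℝ) ^ (β - 1) * ((1 - β) * (1 / ((j : ℝ) + 1))) := by
    have : 1 / (2 * (j : ℝ)) ≤ 1 / ((j : ℝ) + 1) :=
      one_div_le_one_div_of_le (by linarith) (by linarith)
    calc (1 - β) * ((j : ℝ) ^ (β - 1) / (2 * j)) = ((1 - β) * (j : ℝ) ^ (β - 1)) * (1 / (2 * j)) := by
          ring
      _ ≤ ((1 - β) * (j : ℝ) ^ (β - 1)) * (1 / ((j : ℝ) + 1)) :=
          mul_le_mul_of_nonneg_left this (mul_nonneg (by linarith) h5.le)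
      _ = _ := by ring
  rw [div_mul_eq_mul_div, le_div_iff₀ (by linarith)]
  have h9 : (j : ℝ) ^ (β - 1) / j * (1 - β) = 2 * ((1 - β) * ((j : ℝ) ^ (β - 1) / (2 * j))) := by
    field_simp
  rw [h9]
  nlinarith

theorem om_tail_sum (β : ℝ) (h0 : 0 ≤ β) (h1 : β < 1) (M : ℕ) (hM : 1 ≤ M) (n : ℕ) :
    ∑ i ∈ Finset.range n, ((M + i : ℕ) : ℝ) ^ (β - 2) ≤
      2 / (1 - β) * ((M : ℝ) ^ (β - 1) - ((M + n : ℕ) : ℝ) ^ (β - 1)) := by
  induction n with
  | zero => simp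
  | succ n ih =>
    rw [Finset.sum_range_succ]
    have := om_tail_step β h0 h1 (M + n) (by omega)
    calc _ ≤ _ := add_le_add ih this
      _ = _ := by
        rw [show M + (n + 1) = M + n + 1 by ring]
        ring

theorem om_tail_sum' (β : ℝ) (h0 : 0 ≤ β) (h1 : β < 1) (M : ℕ) (hM : 1 ≤ M) (n : ℕ) :
    ∑ i ∈ Finset.range n, ((M + i : ℕ) : ℝ) ^ (β - 2) ≤ 2 / (1 - β) * (M : ℝ) ^ (β - 1) := by
  refine (om_tail_sum β h0 h1 M hM n).trans ?_
  have : (0 : ℝ) ≤ ((M + n : ℕ) : ℝ) ^ (β - 1) := by positivity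
  have h2 : 0 ≤ 2 / (1 - β) := div_nonneg (by norm_num) (by linarith)
  nlinarith

theorem om_tail_summable (β : ℝ) (h0 : 0 ≤ β) (h1 : β < 1) (M : ℕ) (hM : 1 ≤ M) :
    Summable (fun i : ℕ => ((M + i : ℕ) : ℝ) ^ (β - 2)) :=
  summable_of_sum_range_le (fun _ => by positivity) (om_tail_sum' β h0 h1 M hM)

theorem om_tail_tsum (β : ℝ) (h0 : 0 ≤ β) (h1 : β < 1) (M : ℕ) (hM : 1 ≤ M) :
    ∑' i : ℕ, ((M + i : ℕ) : ℝ) ^ (β - 2) ≤ 2 / (1 - β) * (M : ℝ) ^ (β - 1) :=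
  Real.tsum_le_of_sum_range_le (fun _ => by positivity) (om_tail_sum' β h0 h1 M hM)

theorem om_sinc2_nonneg (k m : ℕ) : 0 ≤ sinc2 k m := sq_nonneg _

theorem om_sinc2_le_one (k m : ℕ) : sinc2 k m ≤ 1 := by
  unfold sinc2
  rw [sq_le_one_iff_abs_le_one, abs_div]
  apply div_le_one_of_le₀ _ (abs_nonneg _)
  exact Real.abs_sin_le_abs

theorem om_sinc2_le (k m : ℕ) (hm : 1 ≤ m) : sinc2 k m ≤ (2 ^ k) ^ 2 / (m : ℝ) ^ 2 := by
  have hm' : (1 : ℝ) ≤ m := by exact_mod_cast hm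
  have h2 : (0 : ℝ) < 2 ^ k := by positivity
  have hpi := Real.pi_gt_three
  unfold sinc2
  rw [div_pow, div_le_div_iff₀ (by positivity) (by positivity)]
  have h3 : Real.sin (Real.pi * m / 2 ^ k) ^ 2 ≤ 1 := Real.sin_sq_le_one _
  calc Real.sin (Real.pi * m / 2 ^ k) ^ 2 * (m : ℝ) ^ 2 ≤ 1 * (m : ℝ) ^ 2 := by gcongr
    _ ≤ Real.pi ^ 2 * m ^ 2 := by
        gcongr
        nlinarith
    _ = (2 ^ k) ^ 2 * (Real.pi * m / 2 ^ k) ^ 2 := by
        field_simp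


theorem om_term_le (β : ℝ) (k m : ℕ) (hm : 1 ≤ m) :
    (m : ℝ) ^ β * sinc2 k m ≤ (2 ^ k) ^ 2 * (m : ℝ) ^ (β - 2) := by
  have hm' : (0 : ℝ) < m := by exact_mod_cast hm
  have h := om_sinc2_le k m hm
  have h2 : (m : ℝ) ^ (β - 2) = (m : ℝ) ^ β / (m : ℝ) ^ 2 := by
    rw [Real.rpow_sub hm']
    norm_num
  rw [h2]
  calc (m : ℝ) ^ β * sinc2 k m ≤ (m : ℝ) ^ β * ((2 ^ k) ^ 2 / (m : ℝ) ^ 2) :=
        mul_le_mul_of_nonneg_left h (by positivity)
    _ = _ := by ring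

theorem om_sum_summable (β : ℝ) (h0 : 0 ≤ β) (h1 : β < 1) (k : ℕ) :
    Summable (fun m : ℕ => ((m + 1 : ℕ) : ℝ) ^ β * sinc2 k (m + 1)) := by
  refine Summable.of_nonneg_of_le (fun m => mul_nonneg (by positivity) (om_sinc2_nonneg _ _))
    (fun m => om_term_le β k (m + 1) (by omega)) ?_
  refine Summable.mul_left _ ?_
  refine (om_tail_summable β h0 h1 1 le_rfl).congr fun i => ?_
  rw [add_comm 1 i]

theorem om_sum_le (β : ℝ) (h0 : 0 ≤ β) (h1 : β < 1) (k : ℕ) :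
    ∑' m : ℕ, ((m + 1 : ℕ) : ℝ) ^ β * sinc2 k (m + 1) ≤
      (1 + 2 / (1 - β)) * ((2 : ℝ) ^ k) ^ (1 + β) := by
  have hN : (0 : ℝ) < (2 : ℝ) ^ k := by positivity
  rw [← (om_sum_summable β h0 h1 k).sum_add_tsum_nat_add (2 ^ k), add_mul, one_mul]
  refine add_le_add ?_ ?_
  · calc ∑ m ∈ Finset.range (2 ^ k), ((m + 1 : ℕ) : ℝ) ^ β * sinc2 k (m + 1)
        ≤ ∑ m ∈ Finset.range (2 ^ k), ((2 : ℝ) ^ k) ^ β := by
          refine Finset.sum_le_sum fun m hm => ?_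
          rw [Finset.mem_range] at hm
          have h3 : ((m + 1 : ℕ) : ℝ) ≤ (2 : ℝ) ^ k := by exact_mod_cast hm
          calc ((m + 1 : ℕ) : ℝ) ^ β * sinc2 k (m + 1) ≤ ((m + 1 : ℕ) : ℝ) ^ β * 1 :=
                mul_le_mul_of_nonneg_left (om_sinc2_le_one _ _) (by positivity)
            _ ≤ _ := by
                rw [mul_one]
                exact Real.rpow_le_rpow (by positivity) h3 h0
      _ = ((2 : ℝ) ^ k) ^ (1 + β) := by
          rw [Finset.sum_const, Finset.card_range, Real.rpow_add hN, Real.rpow_one, nsmul_eq_mul]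
          push_cast
          ring
  · have hs : Summable (fun i : ℕ => (2 ^ k : ℝ) ^ 2 * ((2 ^ k + 1 + i : ℕ) : ℝ) ^ (β - 2)) :=
      (om_tail_summable β h0 h1 (2 ^ k + 1) (Nat.le_add_left 1 _)).mul_left _
    calc ∑' i : ℕ, ((i + 2 ^ k + 1 : ℕ) : ℝ) ^ β * sinc2 k (i + 2 ^ k + 1)
        ≤ ∑' i : ℕ, (2 ^ k : ℝ) ^ 2 * ((2 ^ k + 1 + i : ℕ) : ℝ) ^ (β - 2) := by
          refine Summable.tsum_le_tsum (fun i => ?_) ?_ hs
          · rw [show 2 ^ k + 1 + i = i + 2 ^ k + 1 by ring]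
            exact om_term_le β k _ (Nat.le_add_left 1 _)
          · exact (summable_nat_add_iff (f := fun m : ℕ => ((m + 1 : ℕ) : ℝ) ^ β * sinc2 k (m + 1))
              (2 ^ k)).mpr (om_sum_summable β h0 h1 k)
      _ = (2 ^ k : ℝ) ^ 2 * ∑' i : ℕ, ((2 ^ k + 1 + i : ℕ) : ℝ) ^ (β - 2) := tsum_mul_left
      _ ≤ (2 ^ k : ℝ) ^ 2 * (2 / (1 - β) * ((2 ^ k + 1 : ℕ) : ℝ) ^ (β - 1)) :=
          mul_le_mul_of_nonneg_left (om_tail_tsum β h0 h1 _ (Nat.le_add_left 1 _)) (by positivity)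
      _ ≤ (2 ^ k : ℝ) ^ 2 * (2 / (1 - β) * (2 ^ k : ℝ) ^ (β - 1)) := by
          have h2 : 0 ≤ 2 / (1 - β) := div_nonneg (by norm_num) (by linarith)
          refine mul_le_mul_of_nonneg_left (mul_le_mul_of_nonneg_left ?_ h2) (by positivity)
          refine Real.rpow_le_rpow_of_nonpos hN ?_ (by linarith)
          push_cast
          linarith
      _ = _ := by
          rw [show (1 : ℝ) + β = 2 + (β - 1) by ring, Real.rpow_add hN]
          norm_num
          ring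

theorem om_summable (r : ℝ) (hr : 0 < r) (hr1 : r < 1) (k : ℕ) :
    Summable (fun m : ℕ => ((m + 1 : ℕ) : ℝ) ^ r * sinc2 k (m + 1)) :=
  om_sum_summable r hr.le hr1 k

theorem om_term_nonneg (r : ℝ) (k m : ℕ) : 0 ≤ ((m + 1 : ℕ) : ℝ) ^ r * sinc2 k (m + 1) :=
  mul_nonneg (by positivity) (om_sinc2_nonneg _ _)

theorem om_norm_term_le (r : ℝ) (k m : ℕ) (y : ℝ) :
    ‖((m + 1 : ℕ) : ℝ) ^ r * sinc2 k (m + 1) * Real.cos ((m + 1 : ℕ) * y + r * Real.pi / 2)‖ ≤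
      ((m + 1 : ℕ) : ℝ) ^ r * sinc2 k (m + 1) := by
  rw [norm_mul, Real.norm_of_nonneg (om_term_nonneg r k m)]
  exact mul_le_of_le_one_right (om_term_nonneg r k m) (Real.abs_cos_le_one _)

theorem om_summable_cos (r : ℝ) (hr : 0 < r) (hr1 : r < 1) (k : ℕ) (y : ℝ) :
    Summable (fun m : ℕ => ((m + 1 : ℕ) : ℝ) ^ r * sinc2 k (m + 1) *
      Real.cos ((m + 1 : ℕ) * y + r * Real.pi / 2)) :=
  Summable.of_norm_bounded (om_summable r hr hr1 k) fun m => om_norm_term_le r k m y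

theorem om_continuous (r : ℝ) (hr : 0 < r) (hr1 : r < 1) (k : ℕ) : Continuous (om r k) := by
  unfold om
  refine continuous_const.add (continuous_const.mul ?_)
  refine continuous_tsum (fun m => by fun_prop) (om_summable r hr hr1 k)
    fun m y => om_norm_term_le r k m y

theorem om_periodic (r : ℝ) (k : ℕ) : Function.Periodic (om r k) (2 * Real.pi) := by
  intro y
  unfold om
  congr 2
  refine tsum_congr fun m => ?_
  congr 1
  rw [show ((m + 1 : ℕ) : ℝ) * (y + 2 * Real.pi) + r * Real.pi / 2 =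
    ((m + 1 : ℕ) : ℝ) * y + r * Real.pi / 2 + ((m + 1 : ℕ) : ℝ) * (2 * Real.pi) by ring]
  exact Real.cos_add_nat_mul_two_pi _ _

theorem om_abs_sub_le (u v : ℝ) : |Real.cos u - Real.cos v| ≤ 2 * |u - v| ^ (1 / 4 : ℝ) := by
  rcases le_total |u - v| 1 with h | h
  · have h1 : |Real.cos u - Real.cos v| ≤ |u - v| := by
      rw [Real.cos_sub_cos]
      rw [abs_mul, abs_mul]
      have a1 : |Real.sin ((u + v) / 2)| ≤ 1 := Real.abs_sin_le_one _
      have a2 : |Real.sin ((u - v) / 2)| ≤ |(u - v) / 2| := Real.abs_sin_le_abs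
      rw [abs_div] at a2
      norm_num at a2 ⊢
      have a3 : 0 ≤ |Real.sin ((u - v) / 2)| := abs_nonneg _
      nlinarith [abs_nonneg (Real.sin ((u + v) / 2))]
    have h2 : |u - v| ≤ |u - v| ^ (1 / 4 : ℝ) := by
      rcases (abs_nonneg (u - v)).eq_or_lt with h0 | h0
      · rw [← h0]
        exact Real.rpow_nonneg le_rfl _
      · calc |u - v| = |u - v| ^ (1 : ℝ) := (Real.rpow_one _).symm
          _ ≤ _ := Real.rpow_le_rpow_of_exponent_ge h0 h (by norm_num)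
    have h3 : 0 ≤ |u - v| ^ (1 / 4 : ℝ) := Real.rpow_nonneg (abs_nonneg _) _
    linarith
  · have h1 : |Real.cos u - Real.cos v| ≤ 2 := by
      have := Real.abs_cos_le_one u
      have := Real.abs_cos_le_one v
      calc _ ≤ |Real.cos u| + |Real.cos v| := abs_sub _ _
        _ ≤ 2 := by linarith
    have h2 : 1 ≤ |u - v| ^ (1 / 4 : ℝ) := Real.one_le_rpow h (by norm_num)
    linarith

theorem om_holder (r : ℝ) (hr : 0 < r) (hr1 : r ≤ 1 / 2) : ∃ C : ℝ, 0 ≤ C ∧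
    ∀ (k : ℕ) (x y : ℝ), |om r k x - om r k y| ≤
      C * 2 ^ ((1 + r) * k) * (2 ^ k * |x - y|) ^ (1 / 4 : ℝ) := by
  have hb : 0 ≤ r + 1 / 4 := by linarith
  have hb1 : r + 1 / 4 < 1 := by linarith
  have hK : 0 ≤ 1 + 2 / (1 - (r + 1 / 4)) := by
    have : 0 ≤ 2 / (1 - (r + 1 / 4)) := div_nonneg (by norm_num) (by linarith)
    linarith
  refine ⟨4 * (1 + 2 / (1 - (r + 1 / 4))), by linarith, fun k x y => ?_⟩
  have hN : (0 : ℝ) < (2 : ℝ) ^ k := by positivity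
  have hD : 0 ≤ |x - y| ^ (1 / 4 : ℝ) := Real.rpow_nonneg (abs_nonneg _) _
  have e1 : om r k x - om r k y = 2 * ∑' m : ℕ, (((m + 1 : ℕ) : ℝ) ^ r * sinc2 k (m + 1) *
      (Real.cos ((m + 1 : ℕ) * x + r * Real.pi / 2) -
        Real.cos ((m + 1 : ℕ) * y + r * Real.pi / 2))) := by
    have : ∀ m : ℕ, (((m + 1 : ℕ) : ℝ) ^ r * sinc2 k (m + 1) *
      (Real.cos ((m + 1 : ℕ) * x + r * Real.pi / 2) -
        Real.cos ((m + 1 : ℕ) * y + r * Real.pi / 2))) =
        ((m + 1 : ℕ) : ℝ) ^ r * sinc2 k (m + 1) * Real.cos ((m + 1 : ℕ) * x + r * Real.pi / 2) -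
        ((m + 1 : ℕ) : ℝ) ^ r * sinc2 k (m + 1) * Real.cos ((m + 1 : ℕ) * y + r * Real.pi / 2) :=
      fun m => mul_sub _ _ _
    rw [tsum_congr this, (om_summable_cos r hr (by linarith) k x).tsum_sub
      (om_summable_cos r hr (by linarith) k y)]
    unfold om
    ring
  have hterm : ∀ m : ℕ, ‖((m + 1 : ℕ) : ℝ) ^ r * sinc2 k (m + 1) *
      (Real.cos ((m + 1 : ℕ) * x + r * Real.pi / 2) -
        Real.cos ((m + 1 : ℕ) * y + r * Real.pi / 2))‖ ≤
      2 * |x - y| ^ (1 / 4 : ℝ) * (((m + 1 : ℕ) : ℝ) ^ (r + 1 / 4) * sinc2 k (m + 1)) := by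
    intro m
    rw [norm_mul, Real.norm_of_nonneg (om_term_nonneg r k m), Real.norm_eq_abs]
    have hm : (0 : ℝ) < ((m + 1 : ℕ) : ℝ) := by positivity
    calc _ ≤ ((m + 1 : ℕ) : ℝ) ^ r * sinc2 k (m + 1) *
          (2 * |(((m + 1 : ℕ) : ℝ) * x + r * Real.pi / 2) -
            (((m + 1 : ℕ) : ℝ) * y + r * Real.pi / 2)| ^ (1 / 4 : ℝ)) :=
          mul_le_mul_of_nonneg_left (om_abs_sub_le _ _) (om_term_nonneg r k m)
      _ = _ := by
          rw [show (((m + 1 : ℕ) : ℝ) * x + r * Real.pi / 2) -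
            (((m + 1 : ℕ) : ℝ) * y + r * Real.pi / 2) = ((m + 1 : ℕ) : ℝ) * (x - y) by ring,
            abs_mul, abs_of_pos hm, Real.mul_rpow hm.le (abs_nonneg _), Real.rpow_add hm]
          ring
  have hsum := om_sum_summable (r + 1 / 4) hb hb1 k
  have h2 : |∑' m : ℕ, (((m + 1 : ℕ) : ℝ) ^ r * sinc2 k (m + 1) *
      (Real.cos ((m + 1 : ℕ) * x + r * Real.pi / 2) -
        Real.cos ((m + 1 : ℕ) * y + r * Real.pi / 2)))| ≤
      2 * |x - y| ^ (1 / 4 : ℝ) * ((1 + 2 / (1 - (r + 1 / 4))) * ((2 : ℝ) ^ k) ^ (1 + (r + 1 / 4))) := by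
    rw [← Real.norm_eq_abs]
    refine (tsum_of_norm_bounded (hsum.mul_left _).hasSum hterm).trans ?_
    rw [tsum_mul_left]
    exact mul_le_mul_of_nonneg_left (om_sum_le (r + 1 / 4) hb hb1 k) (by positivity)
  rw [e1, abs_mul, abs_of_pos (by norm_num : (0 : ℝ) < 2)]
  have e2 : (2 : ℝ) ^ ((1 + r) * (k : ℝ)) = ((2 : ℝ) ^ k) ^ (1 + r) := by
    rw [mul_comm, Real.rpow_mul (by norm_num), Real.rpow_natCast]
  rw [e2, Real.mul_rpow hN.le (abs_nonneg _)]
  calc 2 * _ ≤ 2 * (2 * |x - y| ^ (1 / 4 : ℝ) *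
      ((1 + 2 / (1 - (r + 1 / 4))) * ((2 : ℝ) ^ k) ^ (1 + (r + 1 / 4)))) := by linarith
    _ = _ := by
      rw [show 1 + (r + 1 / 4) = (1 + r) + 1 / 4 by ring, Real.rpow_add hN]
      ring

/-- the coefficient function as a function of a real variable -/
def omF (r p x : ℝ) : ℝ := x ^ (r - 2) * Real.sin (p * x) ^ 2 / p ^ 2

/-- its derivative -/
def omF' (r p x : ℝ) : ℝ :=
  ((r - 2) * x ^ (r - 2 - 1) * Real.sin (p * x) ^ 2 +
    x ^ (r - 2) * (2 * Real.sin (p * x) * (Real.cos (p * x) * p))) / p ^ 2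

/-- its second derivative -/
def omF'' (r p x : ℝ) : ℝ :=
  ((r - 2) * ((r - 2 - 1) * x ^ (r - 2 - 1 - 1)) * Real.sin (p * x) ^ 2 +
    2 * ((r - 2) * x ^ (r - 2 - 1) * (2 * Real.sin (p * x) * (Real.cos (p * x) * p))) +
    x ^ (r - 2) * (2 * (p ^ 2 * (Real.cos (p * x) ^ 2 - Real.sin (p * x) ^ 2)))) / p ^ 2

theorem omF_hasDerivAt (r p x : ℝ) (hx : 0 < x) : HasDerivAt (omF r p) (omF' r p x) x := by
  have h1 : HasDerivAt (fun x : ℝ => x ^ (r - 2)) ((r - 2) * x ^ (r - 2 - 1)) x :=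
    Real.hasDerivAt_rpow_const (Or.inl hx.ne')
  have h2 : HasDerivAt (fun x : ℝ => p * x) p x := by
    simpa using (hasDerivAt_id x).const_mul p
  have h3 : HasDerivAt (fun x : ℝ => Real.sin (p * x)) (Real.cos (p * x) * p) x := h2.sin
  have h4 : HasDerivAt (fun x : ℝ => Real.sin (p * x) ^ 2)
      (2 * Real.sin (p * x) * (Real.cos (p * x) * p)) x := by
    refine HasDerivAt.congr_deriv (h3.pow 2) ?_
    norm_num
  have h5 := (h1.mul h4).div_const (p ^ 2)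
  exact h5

theorem omF'_hasDerivAt (r p x : ℝ) (hx : 0 < x) : HasDerivAt (omF' r p) (omF'' r p x) x := by
  have h1 : HasDerivAt (fun x : ℝ => x ^ (r - 2)) ((r - 2) * x ^ (r - 2 - 1)) x :=
    Real.hasDerivAt_rpow_const (Or.inl hx.ne')
  have h1' : HasDerivAt (fun x : ℝ => x ^ (r - 2 - 1)) ((r - 2 - 1) * x ^ (r - 2 - 1 - 1)) x :=
    Real.hasDerivAt_rpow_const (Or.inl hx.ne')
  have h2 : HasDerivAt (fun x : ℝ => p * x) p x := by
    simpa using (hasDerivAt_id x).const_mul p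
  have h3 : HasDerivAt (fun x : ℝ => Real.sin (p * x)) (Real.cos (p * x) * p) x := h2.sin
  have h3' : HasDerivAt (fun x : ℝ => Real.cos (p * x)) (-Real.sin (p * x) * p) x := h2.cos
  have h4 : HasDerivAt (fun x : ℝ => Real.sin (p * x) ^ 2)
      (2 * Real.sin (p * x) * (Real.cos (p * x) * p)) x := by
    refine HasDerivAt.congr_deriv (h3.pow 2) ?_
    norm_num
  have h6 := (((h1'.const_mul (r - 2)).mul h4).add
    (h1.mul ((h3.const_mul 2).mul (h3'.mul_const p)))).div_const (p ^ 2)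
  refine h6.congr_deriv ?_
  unfold omF''
  rw [Pi.mul_apply]
  ring

theorem omF'_abs_le (r p x : ℝ) (hr : 0 < r) (hr1 : r < 1) (hp : 0 < p) (hx : 0 < x) :
    |omF' r p x| ≤ 4 * x ^ (r - 1) := by
  have hs : |Real.sin (p * x)| ≤ p * x := by
    have := Real.abs_sin_le_abs (x := p * x)
    rwa [abs_of_pos (mul_pos hp hx)] at this
  have hc : |Real.cos (p * x)| ≤ 1 := Real.abs_cos_le_one _
  have e1 : x ^ (r - 2) = x ^ (r - 1) / x := by
    rw [show r - 2 = r - 1 - 1 by ring, Real.rpow_sub_one hx.ne']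
  have e2 : x ^ (r - 2 - 1) = x ^ (r - 1) / x ^ 2 := by
    rw [Real.rpow_sub_one hx.ne', e1]
    field_simp
  have hX : 0 < x ^ (r - 1) := Real.rpow_pos_of_pos hx _
  unfold omF'
  rw [abs_div, abs_of_pos (by positivity : 0 < p ^ 2), div_le_iff₀ (by positivity)]
  refine (abs_add_le _ _).trans ?_
  have b1 : |(r - 2) * x ^ (r - 2 - 1) * Real.sin (p * x) ^ 2| ≤ 2 * x ^ (r - 1) * p ^ 2 := by
    rw [abs_mul, abs_mul, abs_pow, e2, abs_of_pos (by positivity : 0 < x ^ (r - 1) / x ^ 2)]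
    have : |r - 2| ≤ 2 := by rw [abs_le]; constructor <;> linarith
    calc |r - 2| * (x ^ (r - 1) / x ^ 2) * |Real.sin (p * x)| ^ 2 ≤
        2 * (x ^ (r - 1) / x ^ 2) * (p * x) ^ 2 := by gcongr
      _ = _ := by field_simp
  have b2 : |x ^ (r - 2) * (2 * Real.sin (p * x) * (Real.cos (p * x) * p))| ≤
      2 * x ^ (r - 1) * p ^ 2 := by
    rw [abs_mul, abs_mul, abs_mul, abs_mul, e1, abs_of_pos (by positivity : 0 < x ^ (r - 1) / x),
      abs_of_pos hp, abs_of_pos (by norm_num : (0 : ℝ) < 2)]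
    calc x ^ (r - 1) / x * (2 * |Real.sin (p * x)| * (|Real.cos (p * x)| * p)) ≤
        x ^ (r - 1) / x * (2 * (p * x) * (1 * p)) := by gcongr
      _ = _ := by field_simp
  linarith

theorem omF''_abs_le (r p x : ℝ) (hr : 0 < r) (hr1 : r < 1) (hp : 0 < p) (hx : 0 < x) :
    |omF'' r p x| ≤ 16 * x ^ (r - 2) := by
  have hs : |Real.sin (p * x)| ≤ p * x := by
    have := Real.abs_sin_le_abs (x := p * x)
    rwa [abs_of_pos (mul_pos hp hx)] at this
  have hc : |Real.cos (p * x)| ≤ 1 := Real.abs_cos_le_one _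
  have e2 : x ^ (r - 2 - 1) = x ^ (r - 2) / x := by
    rw [Real.rpow_sub_one hx.ne']
  have e3 : x ^ (r - 2 - 1 - 1) = x ^ (r - 2) / x ^ 2 := by
    rw [Real.rpow_sub_one hx.ne', e2]
    field_simp
  have hX : 0 < x ^ (r - 2) := Real.rpow_pos_of_pos hx _
  unfold omF''
  rw [abs_div, abs_of_pos (by positivity : 0 < p ^ 2), div_le_iff₀ (by positivity)]
  have b1 : |(r - 2) * ((r - 2 - 1) * x ^ (r - 2 - 1 - 1)) * Real.sin (p * x) ^ 2| ≤
      6 * x ^ (r - 2) * p ^ 2 := by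
    rw [abs_mul, abs_mul, abs_mul, abs_pow, e3,
      abs_of_pos (by positivity : 0 < x ^ (r - 2) / x ^ 2)]
    have h1 : |r - 2| ≤ 2 := by rw [abs_le]; constructor <;> linarith
    have h2 : |r - 2 - 1| ≤ 3 := by rw [abs_le]; constructor <;> linarith
    calc |r - 2| * (|r - 2 - 1| * (x ^ (r - 2) / x ^ 2)) * |Real.sin (p * x)| ^ 2 ≤
        2 * (3 * (x ^ (r - 2) / x ^ 2)) * (p * x) ^ 2 := by gcongr
      _ = _ := by field_simp; ring
  have b2 : |2 * ((r - 2) * x ^ (r - 2 - 1) * (2 * Real.sin (p * x) * (Real.cos (p * x) * p)))| ≤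
      8 * x ^ (r - 2) * p ^ 2 := by
    rw [abs_mul, abs_mul, abs_mul, abs_mul, abs_mul, abs_mul, e2,
      abs_of_pos (by positivity : 0 < x ^ (r - 2) / x),
      abs_of_pos hp, abs_of_pos (by norm_num : (0 : ℝ) < 2)]
    have h1 : |r - 2| ≤ 2 := by rw [abs_le]; constructor <;> linarith
    calc 2 * (|r - 2| * (x ^ (r - 2) / x) * (2 * |Real.sin (p * x)| * (|Real.cos (p * x)| * p))) ≤
        2 * (2 * (x ^ (r - 2) / x) * (2 * (p * x) * (1 * p))) := by gcongr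
      _ = _ := by field_simp; ring
  have b3 : |x ^ (r - 2) * (2 * (p ^ 2 * (Real.cos (p * x) ^ 2 - Real.sin (p * x) ^ 2)))| ≤
      2 * x ^ (r - 2) * p ^ 2 := by
    rw [abs_mul, abs_mul, abs_mul, abs_of_pos hX, abs_of_pos (by positivity : 0 < p ^ 2),
      abs_of_pos (by norm_num : (0 : ℝ) < 2)]
    have h1 : |Real.cos (p * x) ^ 2 - Real.sin (p * x) ^ 2| ≤ 1 := by
      rw [← Real.cos_two_mul']
      exact Real.abs_cos_le_one _
    calc x ^ (r - 2) * (2 * (p ^ 2 * |Real.cos (p * x) ^ 2 - Real.sin (p * x) ^ 2|)) ≤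
        x ^ (r - 2) * (2 * (p ^ 2 * 1)) := by gcongr
      _ = _ := by ring
  refine (abs_add_three _ _ _).trans ?_
  linarith

theorem omF_sub_le (r p x y : ℝ) (hr : 0 < r) (hr1 : r < 1) (hp : 0 < p) (hx : 0 < x)
    (hxy : x ≤ y) : |omF r p y - omF r p x| ≤ 4 * x ^ (r - 1) * (y - x) := by
  have h := Convex.norm_image_sub_le_of_norm_hasDerivWithin_le (f := omF r p) (f' := omF' r p)
    (s := Set.Icc x y) (C := 4 * x ^ (r - 1))
    (fun z hz => (omF_hasDerivAt r p z (hx.trans_le hz.1)).hasDerivWithinAt)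
    (fun z hz => by
      rw [Real.norm_eq_abs]
      refine (omF'_abs_le r p z hr hr1 hp (hx.trans_le hz.1)).trans ?_
      have : z ^ (r - 1) ≤ x ^ (r - 1) := Real.rpow_le_rpow_of_nonpos hx hz.1 (by linarith)
      linarith) (convex_Icc x y) (Set.left_mem_Icc.mpr hxy) (Set.right_mem_Icc.mpr hxy)
  rwa [Real.norm_eq_abs, Real.norm_eq_abs, abs_of_nonneg (sub_nonneg.mpr hxy)] at h

theorem omF'_sub_le (r p x y : ℝ) (hr : 0 < r) (hr1 : r < 1) (hp : 0 < p) (hx : 0 < x)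
    (hxy : x ≤ y) : |omF' r p y - omF' r p x| ≤ 16 * x ^ (r - 2) * (y - x) := by
  have h := Convex.norm_image_sub_le_of_norm_hasDerivWithin_le (f := omF' r p) (f' := omF'' r p)
    (s := Set.Icc x y) (C := 16 * x ^ (r - 2))
    (fun z hz => (omF'_hasDerivAt r p z (hx.trans_le hz.1)).hasDerivWithinAt)
    (fun z hz => by
      rw [Real.norm_eq_abs]
      refine (omF''_abs_le r p z hr hr1 hp (hx.trans_le hz.1)).trans ?_
      have : z ^ (r - 2) ≤ x ^ (r - 2) := Real.rpow_le_rpow_of_nonpos hx hz.1 (by linarith)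
      linarith) (convex_Icc x y) (Set.left_mem_Icc.mpr hxy) (Set.right_mem_Icc.mpr hxy)
  rwa [Real.norm_eq_abs, Real.norm_eq_abs, abs_of_nonneg (sub_nonneg.mpr hxy)] at h

theorem omF_second_le (r p x : ℝ) (hr : 0 < r) (hr1 : r < 1) (hp : 0 < p) (hx : 0 < x) :
    |2 * omF r p (x + 1) - omF r p x - omF r p (x + 1 + 1)| ≤ 16 * x ^ (r - 2) := by
  have h := Convex.norm_image_sub_le_of_norm_hasDerivWithin_le
    (f := fun z => omF r p (z + 1) - omF r p z) (f' := fun z => omF' r p (z + 1) - omF' r p z)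
    (s := Set.Icc x (x + 1)) (C := 16 * x ^ (r - 2))
    (fun z hz => by
      have hz0 : 0 < z := hx.trans_le hz.1
      have h1 : HasDerivAt (fun z => omF r p (z + 1)) (omF' r p (z + 1)) z :=
        HasDerivAt.comp_add_const z 1 (omF_hasDerivAt r p (z + 1) (by linarith))
      exact (h1.sub (omF_hasDerivAt r p z hz0)).hasDerivWithinAt)
    (fun z hz => by
      have hz0 : 0 < z := hx.trans_le hz.1
      rw [Real.norm_eq_abs]
      refine (omF'_sub_le r p z (z + 1) hr hr1 hp hz0 (by linarith)).trans ?_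
      have : z ^ (r - 2) ≤ x ^ (r - 2) := Real.rpow_le_rpow_of_nonpos hx hz.1 (by linarith)
      linarith) (convex_Icc x (x + 1)) (Set.left_mem_Icc.mpr (by linarith))
        (Set.right_mem_Icc.mpr (by linarith))
  rw [Real.norm_eq_abs, Real.norm_eq_abs] at h
  have e : |x + 1 - x| = 1 := by norm_num
  rw [e, mul_one, abs_sub_comm] at h
  refine le_trans (le_of_eq ?_) h
  congr 1
  ring

theorem om_sbp (A : ℕ → ℝ) (hA : Summable fun i => |A i|) (y φ : ℝ) :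
    (2 - 2 * Real.cos y) * ∑' i : ℕ, A i * Real.cos (i * y + φ) =
      A 0 * (Real.cos φ - Real.cos (φ - y)) + (A 0 - A 1) * Real.cos φ +
        ∑' i : ℕ, (2 * A (i + 1) - A i - A (i + 1 + 1)) * Real.cos ((i + 1 : ℕ) * y + φ) := by
  have hb : ∀ (u : ℕ → ℝ) (v : ℕ → ℝ), (Summable fun i => |u i|) → (∀ i, |v i| ≤ 1) →
      Summable fun i => u i * v i := by
    intro u v hu hv
    refine Summable.of_norm_bounded hu fun i => ?_
    rw [norm_mul, Real.norm_eq_abs, Real.norm_eq_abs]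
    exact mul_le_of_le_one_right (abs_nonneg _) (hv i)
  have hc : ∀ t : ℝ, |Real.cos t| ≤ 1 := fun t => Real.abs_cos_le_one t
  have hA1 : Summable fun i => |A (i + 1)| := (summable_nat_add_iff (f := fun i => |A i|) 1).mpr hA
  have hA2 : Summable fun i => |A (i + 1 + 1)| :=
    (summable_nat_add_iff (f := fun i => |A (i + 1)|) 1).mpr hA1
  have s0 := hb A (fun i => Real.cos ((i : ℕ) * y + φ)) hA fun i => hc _
  have s0' := hb (fun i => A (i + 1)) (fun i => Real.cos ((i + 1 : ℕ) * y + φ)) hA1 fun i => hc _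
  have s1 := hb A (fun i => Real.cos ((i + 1 : ℕ) * y + φ)) hA fun i => hc _
  have s2 := hb A (fun i => Real.cos ((i : ℕ) * y + φ - y)) hA fun i => hc _
  have s3 := hb (fun i => A (i + 1)) (fun i => Real.cos ((i : ℕ) * y + φ)) hA1 fun i => hc _
  have s4 := hb (fun i => A (i + 1 + 1)) (fun i => Real.cos ((i + 1 : ℕ) * y + φ)) hA2
    fun i => hc _
  have e0 : (2 - 2 * Real.cos y) * ∑' i : ℕ, A i * Real.cos (i * y + φ) =
      2 * (∑' i : ℕ, A i * Real.cos (i * y + φ)) -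
        (∑' i : ℕ, A i * Real.cos ((i + 1 : ℕ) * y + φ)) -
        ∑' i : ℕ, A i * Real.cos ((i : ℕ) * y + φ - y) := by
    rw [← tsum_mul_left, ← tsum_mul_left, ← (s0.mul_left 2).tsum_sub s1,
      ← ((s0.mul_left 2).sub s1).tsum_sub s2]
    refine tsum_congr fun i => ?_
    have h1 : Real.cos ((i + 1 : ℕ) * y + φ) = Real.cos ((i * y + φ) + y) := by
      congr 1
      push_cast
      ring
    rw [h1, Real.cos_add (i * y + φ) y, Real.cos_sub (i * y + φ) y]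
    ring
  have e1 : ∑' i : ℕ, A i * Real.cos (i * y + φ) =
      A 0 * Real.cos φ + ∑' i : ℕ, A (i + 1) * Real.cos ((i + 1 : ℕ) * y + φ) := by
    rw [s0.tsum_eq_zero_add]
    simp
  have e2 : ∑' i : ℕ, A i * Real.cos ((i : ℕ) * y + φ - y) = A 0 * Real.cos (φ - y) +
      ∑' i : ℕ, A (i + 1) * Real.cos ((i : ℕ) * y + φ) := by
    rw [s2.tsum_eq_zero_add]
    congr 1
    · simp
    · refine tsum_congr fun i => ?_
      congr 2
      push_cast
      ring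
  have e3 : ∑' i : ℕ, A (i + 1) * Real.cos ((i : ℕ) * y + φ) = A 1 * Real.cos φ +
      ∑' i : ℕ, A (i + 1 + 1) * Real.cos ((i + 1 : ℕ) * y + φ) := by
    rw [s3.tsum_eq_zero_add]
    simp
  have e4 : ∑' i : ℕ, (2 * A (i + 1) - A i - A (i + 1 + 1)) * Real.cos ((i + 1 : ℕ) * y + φ) =
      2 * (∑' i : ℕ, A (i + 1) * Real.cos ((i + 1 : ℕ) * y + φ)) -
        (∑' i : ℕ, A i * Real.cos ((i + 1 : ℕ) * y + φ)) -
        ∑' i : ℕ, A (i + 1 + 1) * Real.cos ((i + 1 : ℕ) * y + φ) := by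
    rw [← tsum_mul_left, ← (s0'.mul_left 2).tsum_sub s1, ← ((s0'.mul_left 2).sub s1).tsum_sub s4]
    refine tsum_congr fun i => ?_
    ring
  rw [e0, e1, e2, e3, e4]
  ring

theorem om_coef (r : ℝ) (k m : ℕ) (hm : 1 ≤ m) :
    (m : ℝ) ^ r * sinc2 k m = omF r (Real.pi / 2 ^ k) m := by
  have hm' : (0 : ℝ) < m := by exact_mod_cast hm
  unfold sinc2 omF
  rw [Real.rpow_sub hm', show Real.pi / 2 ^ k * (m : ℝ) = Real.pi * m / 2 ^ k by ring]
  have hpi := Real.pi_pos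
  norm_num
  field_simp

/-- tail estimate -/
theorem om_tail (r : ℝ) (hr : 0 < r) (hr1 : r < 1) (k M : ℕ) (hM : 1 ≤ M) (y φ : ℝ) :
    4 * Real.sin (y / 2) ^ 2 * |∑' i : ℕ, ((M + i : ℕ) : ℝ) ^ r * sinc2 k (M + i) *
      Real.cos (i * y + φ)| ≤
      2 * |Real.sin (y / 2)| * (M : ℝ) ^ r + (4 + 32 / (1 - r)) * (M : ℝ) ^ (r - 1) := by
  have hp : 0 < Real.pi / 2 ^ k := by positivity
  have hM' : (1 : ℝ) ≤ M := by exact_mod_cast hM
  set A : ℕ → ℝ := fun i => ((M + i : ℕ) : ℝ) ^ r * sinc2 k (M + i) with hAdef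
  have hA0 : ∀ i, 0 ≤ A i := fun i => mul_nonneg (by positivity) (om_sinc2_nonneg _ _)
  have hAs : Summable fun i => |A i| := by
    have h1 := (summable_nat_add_iff (f := fun m : ℕ => ((m + 1 : ℕ) : ℝ) ^ r * sinc2 k (m + 1))
      (M - 1)).mpr (om_summable r hr hr1 k)
    refine h1.congr fun i => ?_
    rw [abs_of_nonneg (hA0 i), hAdef]
    simp only
    rw [show i + (M - 1) + 1 = M + i by omega]
  have hAF : ∀ i, A i = omF r (Real.pi / 2 ^ k) (M + i) := by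
    intro i
    rw [hAdef]
    simp only
    rw [om_coef r k (M + i) (by omega)]
    push_cast
    rfl
  have hid := om_sbp A hAs y φ
  have e1 : 2 - 2 * Real.cos y = 4 * Real.sin (y / 2) ^ 2 := by
    have := Real.cos_sq' (y / 2)
    have h2 := Real.cos_two_mul (y / 2)
    rw [show 2 * (y / 2) = y by ring] at h2
    rw [h2, this]
    ring
  rw [e1] at hid
  have h4 : 4 * Real.sin (y / 2) ^ 2 * |∑' i : ℕ, A i * Real.cos (i * y + φ)| =
      |4 * Real.sin (y / 2) ^ 2 * ∑' i : ℕ, A i * Real.cos (i * y + φ)| := by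
    rw [abs_mul, abs_of_nonneg (by positivity : 0 ≤ 4 * Real.sin (y / 2) ^ 2)]
  rw [h4, hid]
  have b1 : |A 0 * (Real.cos φ - Real.cos (φ - y))| ≤ 2 * |Real.sin (y / 2)| * (M : ℝ) ^ r := by
    rw [abs_mul, abs_of_nonneg (hA0 0), Real.cos_sub_cos, abs_mul, abs_mul,
      show (φ - (φ - y)) / 2 = y / 2 by ring]
    have h5 : A 0 ≤ (M : ℝ) ^ r := by
      rw [hAdef]
      simp only [add_zero]
      exact mul_le_of_le_one_right (by positivity) (om_sinc2_le_one _ _)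
    have h6 : |Real.sin ((φ + (φ - y)) / 2)| ≤ 1 := Real.abs_sin_le_one _
    rw [show |(-2 : ℝ)| = 2 by norm_num]
    calc A 0 * (2 * |Real.sin ((φ + (φ - y)) / 2)| * |Real.sin (y / 2)|) ≤
        (M : ℝ) ^ r * (2 * 1 * |Real.sin (y / 2)|) := by gcongr
      _ = _ := by ring
  have b2 : |(A 0 - A 1) * Real.cos φ| ≤ 4 * (M : ℝ) ^ (r - 1) := by
    rw [abs_mul]
    have h7 := omF_sub_le r (Real.pi / 2 ^ k) M (M + 1) hr hr1 hp (by linarith) (by linarith)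
    have h8 : |A 0 - A 1| ≤ 4 * (M : ℝ) ^ (r - 1) := by
      rw [abs_sub_comm, hAF, hAF]
      simpa using h7
    calc |A 0 - A 1| * |Real.cos φ| ≤ |A 0 - A 1| * 1 :=
          mul_le_mul_of_nonneg_left (Real.abs_cos_le_one _) (abs_nonneg _)
      _ ≤ _ := by rw [mul_one]; exact h8
  have b3 : |∑' i : ℕ, (2 * A (i + 1) - A i - A (i + 1 + 1)) *
      Real.cos ((i + 1 : ℕ) * y + φ)| ≤ 32 / (1 - r) * (M : ℝ) ^ (r - 1) := by
    rw [← Real.norm_eq_abs]
    refine (tsum_of_norm_bounded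
      (((om_tail_summable r hr.le hr1 M hM).mul_left 16).hasSum) fun i => ?_).trans ?_
    · rw [norm_mul, Real.norm_eq_abs, Real.norm_eq_abs]
      have h9 : |2 * A (i + 1) - A i - A (i + 1 + 1)| ≤ 16 * ((M + i : ℕ) : ℝ) ^ (r - 2) := by
        have := omF_second_le r (Real.pi / 2 ^ k) ((M + i : ℕ) : ℝ) hr hr1 hp (by
          push_cast
          have : (0 : ℝ) ≤ i := by positivity
          linarith)
        rw [hAF, hAF, hAF]
        push_cast at this ⊢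
        simpa [add_assoc] using this
      calc _ ≤ |2 * A (i + 1) - A i - A (i + 1 + 1)| * 1 :=
            mul_le_mul_of_nonneg_left (Real.abs_cos_le_one _) (abs_nonneg _)
        _ ≤ _ := by rw [mul_one]; exact h9
    · rw [tsum_mul_left]
      calc 16 * ∑' i : ℕ, ((M + i : ℕ) : ℝ) ^ (r - 2) ≤ 16 * (2 / (1 - r) * (M : ℝ) ^ (r - 1)) :=
            mul_le_mul_of_nonneg_left (om_tail_tsum r hr.le hr1 M hM) (by norm_num)
        _ = _ := by ring
  refine (abs_add_three _ _ _).trans ?_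
  linarith

theorem om_far (r : ℝ) (hr : 0 < r) (hr1 : r < 1) (k : ℕ) (y : ℝ)
    (hs : 0 < |Real.sin (y / 2)|) :
    |om r k y| ≤ (7 + 16 / (1 - r)) * |Real.sin (y / 2)| ^ (-(1 + r)) := by
  set s : ℝ := |Real.sin (y / 2)| with hsdef
  have hs1 : s ≤ 1 := Real.abs_sin_le_one _
  have hK : 0 < 1 - r := by linarith
  obtain ⟨n, hn, hn'⟩ : ∃ n : ℕ, (n : ℝ) ≤ 1 / s ∧ 1 / s < n + 1 :=
    ⟨⌊1 / s⌋₊, Nat.floor_le (by positivity), Nat.lt_floor_add_one _⟩
  have h1s : 1 ≤ 1 / s := by rw [le_div_iff₀ hs]; linarith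
  have hsr : 0 < s ^ (-(1 + r)) := Real.rpow_pos_of_pos hs _
  have hone : 1 ≤ s ^ (-(1 + r)) := Real.one_le_rpow_of_pos_of_le_one_of_nonpos hs hs1 (by linarith)
  have hinv : (1 / s) ^ (1 + r) = s ^ (-(1 + r)) := by
    rw [one_div, Real.inv_rpow hs.le, Real.rpow_neg hs.le]
  -- splitting
  have hsplit := (om_summable_cos r hr hr1 k y).sum_add_tsum_nat_add n
  have hhead : |∑ i ∈ Finset.range n, ((i + 1 : ℕ) : ℝ) ^ r * sinc2 k (i + 1) *
      Real.cos ((i + 1 : ℕ) * y + r * Real.pi / 2)| ≤ s ^ (-(1 + r)) := by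
    calc _ ≤ ∑ i ∈ Finset.range n, |((i + 1 : ℕ) : ℝ) ^ r * sinc2 k (i + 1) *
          Real.cos ((i + 1 : ℕ) * y + r * Real.pi / 2)| := Finset.abs_sum_le_sum_abs _ _
      _ ≤ ∑ i ∈ Finset.range n, (1 / s) ^ r := by
          refine Finset.sum_le_sum fun i hi => ?_
          rw [Finset.mem_range] at hi
          have h1 : ((i + 1 : ℕ) : ℝ) ≤ 1 / s := by
            have : ((i + 1 : ℕ) : ℝ) ≤ n := by exact_mod_cast hi
            linarith
          rw [← Real.norm_eq_abs]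
          refine (om_norm_term_le r k i y).trans ?_
          calc ((i + 1 : ℕ) : ℝ) ^ r * sinc2 k (i + 1) ≤ ((i + 1 : ℕ) : ℝ) ^ r * 1 :=
                mul_le_mul_of_nonneg_left (om_sinc2_le_one _ _) (by positivity)
            _ ≤ _ := by
                rw [mul_one]
                exact Real.rpow_le_rpow (by positivity) h1 hr.le
      _ = n * (1 / s) ^ r := by rw [Finset.sum_const, Finset.card_range, nsmul_eq_mul]
      _ ≤ (1 / s) * (1 / s) ^ r := mul_le_mul_of_nonneg_right hn (by positivity)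
      _ = s ^ (-(1 + r)) := by
          rw [← hinv, Real.rpow_add (by positivity), Real.rpow_one]
  have htail := om_tail r hr hr1 k (n + 1) (by omega) y (((n + 1 : ℕ) : ℝ) * y + r * Real.pi / 2)
  have htailEq : ∑' i : ℕ, ((n + 1 + i : ℕ) : ℝ) ^ r * sinc2 k (n + 1 + i) *
      Real.cos (i * y + (((n + 1 : ℕ) : ℝ) * y + r * Real.pi / 2)) =
      ∑' i : ℕ, ((i + n + 1 : ℕ) : ℝ) ^ r * sinc2 k (i + n + 1) *
        Real.cos ((i + n + 1 : ℕ) * y + r * Real.pi / 2) := by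
    refine tsum_congr fun i => ?_
    rw [show n + 1 + i = i + n + 1 by ring]
    congr 2
    push_cast
    ring
  rw [htailEq] at htail
  set T : ℝ := ∑' i : ℕ, ((i + n + 1 : ℕ) : ℝ) ^ r * sinc2 k (i + n + 1) *
        Real.cos ((i + n + 1 : ℕ) * y + r * Real.pi / 2) with hT
  have hM1 : 1 / s ≤ ((n + 1 : ℕ) : ℝ) := by push_cast; linarith
  have hM2 : ((n + 1 : ℕ) : ℝ) ≤ 2 * (1 / s) := by push_cast; linarith
  have c1 : ((n + 1 : ℕ) : ℝ) ^ r ≤ 2 * (1 / s) ^ r := by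
    calc ((n + 1 : ℕ) : ℝ) ^ r ≤ (2 * (1 / s)) ^ r :=
          Real.rpow_le_rpow (by positivity) hM2 hr.le
      _ = 2 ^ r * (1 / s) ^ r := Real.mul_rpow (by norm_num) (by positivity)
      _ ≤ 2 ^ (1 : ℝ) * (1 / s) ^ r := by
          refine mul_le_mul_of_nonneg_right ?_ (by positivity)
          exact Real.rpow_le_rpow_of_exponent_le (by norm_num) hr1.le
      _ = _ := by rw [Real.rpow_one]
  have c2 : ((n + 1 : ℕ) : ℝ) ^ (r - 1) ≤ (1 / s) ^ (r - 1) :=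
    Real.rpow_le_rpow_of_nonpos (by positivity) hM1 (by linarith)
  have d1 : (1 / s) ^ r = s ^ (-(1 + r)) * s := by
    rw [← hinv, Real.rpow_add (by positivity), Real.rpow_one]
    field_simp
  have d2 : (1 / s) ^ (r - 1) = s ^ (-(1 + r)) * s ^ 2 := by
    rw [Real.rpow_sub (by positivity), d1, Real.rpow_one]
    field_simp
  have hsq : Real.sin (y / 2) ^ 2 = s ^ 2 := (sq_abs _).symm
  rw [hsq] at htail
  have hT2 : |T| ≤ (2 + 8 / (1 - r)) * s ^ (-(1 + r)) := by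
    have h32 : 0 ≤ 4 + 32 / (1 - r) := by positivity
    have : 4 * s ^ 2 * |T| ≤ 4 * s ^ 2 * ((2 + 8 / (1 - r)) * s ^ (-(1 + r))) := by
      calc 4 * s ^ 2 * |T| ≤ _ := htail
        _ ≤ 2 * s * (2 * (1 / s) ^ r) + (4 + 32 / (1 - r)) * (1 / s) ^ (r - 1) := by gcongr
        _ = 4 * s ^ 2 * ((2 + 8 / (1 - r)) * s ^ (-(1 + r))) := by
            rw [d1, d2]
            ring
    exact le_of_mul_le_mul_left this (by positivity)
  have hom : om r k y = 1 + 2 * (∑ i ∈ Finset.range n, ((i + 1 : ℕ) : ℝ) ^ r * sinc2 k (i + 1) *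
      Real.cos ((i + 1 : ℕ) * y + r * Real.pi / 2) + T) := by
    unfold om
    rw [← hsplit]
  rw [hom]
  refine (abs_add_le _ _).trans ?_
  rw [abs_mul, abs_one, abs_of_pos (by norm_num : (0 : ℝ) < 2)]
  have h10 := abs_add_le (∑ i ∈ Finset.range n, ((i + 1 : ℕ) : ℝ) ^ r * sinc2 k (i + 1) *
      Real.cos ((i + 1 : ℕ) * y + r * Real.pi / 2)) T
  have h11 : (7 + 16 / (1 - r)) * s ^ (-(1 + r)) = s ^ (-(1 + r)) + 2 * (s ^ (-(1 + r)) +
      (2 + 8 / (1 - r)) * s ^ (-(1 + r))) := by ring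
  rw [h11]
  linarith

theorem om_near (r : ℝ) (hr : 0 < r) (hr1 : r < 1) (k : ℕ) (y : ℝ) :
    |om r k y| ≤ (3 + 4 / (1 - r)) * ((2 : ℝ) ^ k) ^ (1 + r) := by
  have hN1 : (1 : ℝ) ≤ (2 : ℝ) ^ k := one_le_pow₀ (by norm_num)
  have h1 : (1 : ℝ) ≤ ((2 : ℝ) ^ k) ^ (1 + r) := Real.one_le_rpow hN1 (by linarith)
  have h2 := om_sum_le r hr.le hr1 k
  have h3 : |∑' m : ℕ, ((m + 1 : ℕ) : ℝ) ^ r * sinc2 k (m + 1) *
      Real.cos ((m + 1 : ℕ) * y + r * Real.pi / 2)| ≤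
      ∑' m : ℕ, ((m + 1 : ℕ) : ℝ) ^ r * sinc2 k (m + 1) := by
    rw [← Real.norm_eq_abs]
    exact tsum_of_norm_bounded (om_summable r hr hr1 k).hasSum fun m => om_norm_term_le r k m y
  unfold om
  refine (abs_add_le _ _).trans ?_
  rw [abs_mul, abs_one, abs_of_pos (by norm_num : (0 : ℝ) < 2)]
  have h4 : (3 + 4 / (1 - r)) * ((2 : ℝ) ^ k) ^ (1 + r) = ((2 : ℝ) ^ k) ^ (1 + r) +
      2 * ((1 + 2 / (1 - r)) * ((2 : ℝ) ^ k) ^ (1 + r)) := by ring
  rw [h4]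
  linarith

theorem om_decay (r : ℝ) (hr : 0 < r) (hr1 : r < 1) : ∃ C : ℝ, 0 ≤ C ∧ ∀ (k : ℕ) (y : ℝ),
    |om r k y| ≤ C * 2 ^ ((1 + r) * k) * (1 + 2 ^ k * |Real.sin (y / 2)|) ^ (-(1 + r)) := by
  have hK : 0 < 1 - r := by linarith
  refine ⟨4 * (7 + 16 / (1 - r)), by positivity, fun k y => ?_⟩
  have hN : (0 : ℝ) < (2 : ℝ) ^ k := by positivity
  have e2 : (2 : ℝ) ^ ((1 + r) * (k : ℝ)) = ((2 : ℝ) ^ k) ^ (1 + r) := by
    rw [mul_comm, Real.rpow_mul (by norm_num), Real.rpow_natCast]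
  rw [e2]
  have hC : 0 < 7 + 16 / (1 - r) := by positivity
  have h2r : (2 : ℝ) ^ (-(1 + r)) ≥ 1 / 4 := by
    calc (2 : ℝ) ^ (-(1 + r)) ≥ (2 : ℝ) ^ (-(2 : ℝ)) :=
          Real.rpow_le_rpow_of_exponent_le (by norm_num) (by linarith)
      _ = 1 / 4 := by
          rw [Real.rpow_neg (by norm_num)]
          norm_num
  rcases le_total (2 ^ k * |Real.sin (y / 2)|) 1 with h | h
  · have h1 : (2 : ℝ) ^ (-(1 + r)) ≤ (1 + 2 ^ k * |Real.sin (y / 2)|) ^ (-(1 + r)) :=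
      Real.rpow_le_rpow_of_nonpos (by positivity) (by linarith) (by linarith)
    have h3 := om_near r hr hr1 k y
    have h4 : 0 < ((2 : ℝ) ^ k) ^ (1 + r) := by positivity
    calc |om r k y| ≤ (3 + 4 / (1 - r)) * ((2 : ℝ) ^ k) ^ (1 + r) := h3
      _ ≤ (7 + 16 / (1 - r)) * ((2 : ℝ) ^ k) ^ (1 + r) := by
          refine mul_le_mul_of_nonneg_right ?_ h4.le
          have : 4 / (1 - r) ≤ 16 / (1 - r) := by gcongr; norm_num
          linarith
      _ = 4 * (7 + 16 / (1 - r)) * ((2 : ℝ) ^ k) ^ (1 + r) * (1 / 4) := by ring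
      _ ≤ 4 * (7 + 16 / (1 - r)) * ((2 : ℝ) ^ k) ^ (1 + r) *
          (1 + 2 ^ k * |Real.sin (y / 2)|) ^ (-(1 + r)) := by
          refine mul_le_mul_of_nonneg_left ?_ (by positivity)
          linarith
  · have hs : 0 < |Real.sin (y / 2)| := by
      rcases (abs_nonneg (Real.sin (y / 2))).eq_or_lt with h0 | h0
      · rw [← h0, mul_zero] at h
        linarith
      · exact h0
    have h1 : (2 * (2 ^ k * |Real.sin (y / 2)|)) ^ (-(1 + r)) ≤
        (1 + 2 ^ k * |Real.sin (y / 2)|) ^ (-(1 + r)) :=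
      Real.rpow_le_rpow_of_nonpos (by positivity) (by linarith) (by linarith)
    have h3 := om_far r hr hr1 k y hs
    have h5 : ((2 : ℝ) ^ k) ^ (1 + r) * (2 * (2 ^ k * |Real.sin (y / 2)|)) ^ (-(1 + r)) =
        2 ^ (-(1 + r)) * |Real.sin (y / 2)| ^ (-(1 + r)) := by
      rw [Real.mul_rpow (by norm_num) (by positivity), Real.mul_rpow (by positivity) (by positivity),
        Real.rpow_neg (x := (2 : ℝ) ^ k) (by positivity)]
      have : ((2 : ℝ) ^ k) ^ (1 + r) ≠ 0 := by positivity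
      field_simp
    have h6 : 0 < |Real.sin (y / 2)| ^ (-(1 + r)) := by positivity
    calc |om r k y| ≤ (7 + 16 / (1 - r)) * |Real.sin (y / 2)| ^ (-(1 + r)) := h3
      _ = 4 * (7 + 16 / (1 - r)) * (1 / 4 * |Real.sin (y / 2)| ^ (-(1 + r))) := by ring
      _ ≤ 4 * (7 + 16 / (1 - r)) * (2 ^ (-(1 + r)) * |Real.sin (y / 2)| ^ (-(1 + r))) := by
          refine mul_le_mul_of_nonneg_left ?_ (by positivity)
          exact mul_le_mul_of_nonneg_right h2r h6.le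
      _ = 4 * (7 + 16 / (1 - r)) * ((2 : ℝ) ^ k) ^ (1 + r) *
          (2 * (2 ^ k * |Real.sin (y / 2)|)) ^ (-(1 + r)) := by
          rw [← h5]
          ring
      _ ≤ _ := by
          refine mul_le_mul_of_nonneg_left h1 (by positivity)

theorem om_nu_finite : IsFiniteMeasure nu := by
  refine ⟨?_⟩
  unfold nu
  rw [Measure.smul_apply, smul_eq_mul]
  refine ENNReal.mul_lt_top ENNReal.ofReal_lt_top ?_
  rw [Measure.restrict_apply MeasurableSet.univ, Set.univ_inter]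
  exact measure_Ico_lt_top

theorem om_integral_nu (f : ℝ → ℝ) : ∫ y, f y ∂nu = 1 / (2 * Real.pi) * ∫ y in 0..2 * Real.pi, f y := by
  unfold nu
  rw [integral_smul_measure, ENNReal.toReal_ofReal (by positivity), smul_eq_mul,
    intervalIntegral.integral_of_le Real.two_pi_pos.le, integral_Ico_eq_integral_Ioc]

theorem om_integral_cos (m : ℕ) (b : ℝ) :
    ∫ y, Real.cos (((m + 1 : ℕ) : ℝ) * y + b) ∂nu = 0 := by
  have hm : ((m + 1 : ℕ) : ℝ) ≠ 0 := by positivity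
  rw [om_integral_nu, intervalIntegral.integral_comp_mul_add (fun x => Real.cos x) hm,
    integral_cos, mul_zero, zero_add]
  have : Real.sin (((m + 1 : ℕ) : ℝ) * (2 * Real.pi) + b) = Real.sin b := by
    rw [add_comm]
    exact Real.sin_add_nat_mul_two_pi _ _
  rw [this]
  simp

theorem om_mean (r : ℝ) (hr : 0 < r) (hr1 : r < 1) (k : ℕ) (c : ℝ) :
    ∫ y, om r k (y - c) ∂nu = 1 := by
  have := om_nu_finite
  have hint : ∀ m : ℕ, Integrable (fun y => ((m + 1 : ℕ) : ℝ) ^ r * sinc2 k (m + 1) *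
      Real.cos ((m + 1 : ℕ) * (y - c) + r * Real.pi / 2)) nu := by
    intro m
    refine Integrable.mono' (integrable_const (((m + 1 : ℕ) : ℝ) ^ r * sinc2 k (m + 1)))
      (by fun_prop) (Filter.Eventually.of_forall fun y => om_norm_term_le r k m (y - c))
  have hint2 : Summable fun m : ℕ => ∫ y, ‖((m + 1 : ℕ) : ℝ) ^ r * sinc2 k (m + 1) *
      Real.cos ((m + 1 : ℕ) * (y - c) + r * Real.pi / 2)‖ ∂nu := by
    refine Summable.of_nonneg_of_le (fun m => integral_nonneg fun y => norm_nonneg _)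
      (fun m => ?_) ((om_summable r hr hr1 k).mul_right (nu.real Set.univ))
    calc _ ≤ ∫ _y, ((m + 1 : ℕ) : ℝ) ^ r * sinc2 k (m + 1) ∂nu :=
          integral_mono (hint m).norm (integrable_const _) fun y => om_norm_term_le r k m (y - c)
      _ = _ := by
          rw [integral_const, smul_eq_mul, mul_comm]
  have hsum := integral_tsum_of_summable_integral_norm hint hint2
  have hz : ∀ m : ℕ, ∫ y, ((m + 1 : ℕ) : ℝ) ^ r * sinc2 k (m + 1) *
      Real.cos ((m + 1 : ℕ) * (y - c) + r * Real.pi / 2) ∂nu = 0 := by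
    intro m
    rw [integral_const_mul]
    have : ∀ y : ℝ, Real.cos ((m + 1 : ℕ) * (y - c) + r * Real.pi / 2) =
        Real.cos (((m + 1 : ℕ) : ℝ) * y + (r * Real.pi / 2 - ((m + 1 : ℕ) : ℝ) * c)) := by
      intro y
      congr 1
      ring
    simp_rw [this]
    rw [om_integral_cos, mul_zero]
  rw [tsum_congr hz, tsum_zero] at hsum
  have hone : ∫ _y : ℝ, (1 : ℝ) ∂nu = 1 := by
    rw [om_integral_nu, intervalIntegral.integral_const, smul_eq_mul]
    have := Real.pi_pos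
    field_simp
    simp
  have hi1 : Integrable (fun y => ∑' m : ℕ, ((m + 1 : ℕ) : ℝ) ^ r * sinc2 k (m + 1) *
      Real.cos ((m + 1 : ℕ) * (y - c) + r * Real.pi / 2)) nu := by
    refine Integrable.mono' (integrable_const (∑' m : ℕ, ((m + 1 : ℕ) : ℝ) ^ r * sinc2 k (m + 1)))
      ?_ (Filter.Eventually.of_forall fun y =>
        tsum_of_norm_bounded (om_summable r hr hr1 k).hasSum fun m => om_norm_term_le r k m (y - c))
    refine Continuous.aestronglyMeasurable ?_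
    exact continuous_tsum (fun m => by fun_prop) (om_summable r hr hr1 k)
      fun m y => om_norm_term_le r k m (y - c)
  unfold om
  rw [integral_add (integrable_const _) (hi1.const_mul 2), integral_const_mul, ← hsum, hone]
  ring

end

end Pool.Agent.Lib.MP_1ce311_an
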